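import Pool.Agent.T6.H28.FinE

/-! # Colliding roots -/

set_option autoImplicit false
set_option linter.all false

open Polynomial FF

namespace Pool.Agent.T6.H28.Fin

open Pool.Agent.Y157.PS Pool.Agent.Y157.GT Pool.Agent.T6.H28.PE Pool.Agent.T6.H28.Geo

/-- the roots `a` and `a'` of `D` collide at a `p`-adic place -/
def Coll {k : Type} [Field k] (ℓ : ℕ) (f D : k[X]) (a a' : AlgebraicClosure k) : Prop :=
  ∃ (p : ℕ) (_ : Fact p.Prime), ℓ ≠ p ∧ ∃ j : AlgebraicClosure k →+* PadicAlgCl p, GoodRed f j ∧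
    ‖j (algebraMap k (AlgebraicClosure k) D.leadingCoeff)‖ = 1 ∧
    (∀ b, aeval b D = 0 → ‖j b‖ ≤ 1) ∧
    (∀ b, aeval b D = 0 → b ≠ a → b ≠ a' → ‖j a - j b‖ = 1) ∧ ‖j a - j a'‖ < 1 ∧
    ∃ E : IntermediateField ℚ_[p] (PadicAlgCl p), FiniteDimensional ℚ_[p] E ∧
      (∀ c : k, j (algebraMap k (AlgebraicClosure k) c) ∈ E) ∧
      (∀ b, aeval b D = 0 → j b ∈ E) ∧ ¬ ∃ e ∈ E, ‖j a - j a'‖ = ‖e‖ ^ ℓ

theorem exists_cong {ℓ : ℕ} [Fact ℓ.Prime] (m c B : ℕ) (hm : ¬ ℓ ∣ m) :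
    ∃ i : ℕ, B < i ∧ ℓ ∣ m * i + c := by
  haveI : NeZero ℓ := ⟨(Fact.out : ℓ.Prime).ne_zero⟩
  have hm0 : (m : ZMod ℓ) ≠ 0 := fun h => hm ((ZMod.natCast_eq_zero_iff m ℓ).1 h)
  refine ⟨(-(c : ZMod ℓ) / m).val + ℓ * (B + 1), ?_, ?_⟩
  · have h1 : 1 ≤ ℓ := (Fact.out : ℓ.Prime).one_le
    nlinarith
  · rw [← ZMod.natCast_eq_zero_iff]
    push_cast
    rw [ZMod.natCast_zmod_val, ZMod.natCast_self, zero_mul, add_zero, mul_div_cancel₀ _ hm0,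
      neg_add_cancel]

theorem prod_two {p : ℕ} [Fact p.Prime] {κ₀ : Type} [DecidableEq κ₀] (A₀ : Finset κ₀)
    (f : κ₀ → PadicAlgCl p) (m : κ₀ → ℕ)
    (a a' : κ₀) (ha : a ∈ A₀) (ha' : a' ∈ A₀) (haa : a ≠ a') (r r' : ℝ) (h1 : ‖f a‖ = r)
    (h1' : ‖f a'‖ = r') (h2 : ∀ b ∈ A₀, b ≠ a → b ≠ a' → ‖f b‖ = 1) :
    ‖∏ b ∈ A₀, f b ^ m b‖ = r ^ m a * r' ^ m a' := by
  rw [_root_.norm_prod, ← Finset.mul_prod_erase A₀ _ ha,
    ← Finset.mul_prod_erase (A₀.erase a) _ (Finset.mem_erase.2 ⟨haa.symm, ha'⟩),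
    Finset.prod_eq_one, mul_one, norm_pow, norm_pow, h1, h1']
  intro b hb
  rw [Finset.mem_erase, Finset.mem_erase] at hb
  rw [norm_pow, h2 b hb.2.2 hb.2.1 hb.1, one_pow]

/-- colliding roots give a test -/
theorem coll_tst {ℓ : ℕ} [Fact ℓ.Prime] {k : Type} [Field k] [CharZero k] (f D : k[X])
    (hD0 : D ≠ 0) (a a' : AlgebraicClosure k) (haa : a ≠ a') (haD : aeval a D = 0)
    (haD' : aeval a' D = 0)
    (hma : ¬ ℓ ∣ (D.map (algebraMap k (AlgebraicClosure k))).rootMultiplicity a)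
    (hc : Coll ℓ f D a a') (G : (AlgebraicClosure k)[X]) (hG : G.Monic)
    (hroot : ∀ b, G.IsRoot b → aeval b D = 0)
    (hn : ¬ (ℓ : ℤ) ∣ ((D.map (algebraMap k (AlgebraicClosure k))).rootMultiplicity a : ℤ) *
      G.rootMultiplicity a' - G.rootMultiplicity a *
        (D.map (algebraMap k (AlgebraicClosure k))).rootMultiplicity a') :
    Tst ℓ f D G := by
  classical
  have hℓ0 : 0 < ℓ := (Fact.out : ℓ.Prime).pos
  obtain ⟨p, hp, hℓp, j, hj, hlc, hint, hother, hcl, E, hE, hkE, hDE, hE'⟩ := hc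
  haveI := hp
  haveI := hE
  obtain ⟨D', hD'⟩ : ∃ D' : (AlgebraicClosure k)[X],
      D' = D.map (algebraMap k (AlgebraicClosure k)) := ⟨_, rfl⟩
  rw [← hD'] at hma hn
  have hD'0 : D' ≠ 0 := by
    rw [hD']
    exact (Polynomial.map_ne_zero_iff (algebraMap k (AlgebraicClosure k)).injective).2 hD0
  have hD'r : ∀ b, D'.IsRoot b ↔ aeval b D = 0 := by
    intro b
    rw [hD', IsRoot.def, eval_map_algebraMap]
  obtain ⟨A₀, hA₀⟩ : ∃ A₀ : Finset (AlgebraicClosure k), A₀ = D'.roots.toFinset := ⟨_, rfl⟩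
  have hA : ∀ b, b ∈ A₀ ↔ aeval b D = 0 := by
    intro b
    rw [hA₀, Multiset.mem_toFinset, mem_roots hD'0, hD'r]
  have hAD : ∀ b, D'.IsRoot b → b ∈ A₀ := fun b hb => (hA b).2 ((hD'r b).1 hb)
  have hAG : ∀ b, G.IsRoot b → b ∈ A₀ := fun b hb => (hA b).2 (hroot b hb)
  have hG0 := hG.ne_zero
  have hGe : ∀ b, G.eval₂ j b = ∏ a ∈ A₀, (b - j a) ^ G.rootMultiplicity a := by
    intro b
    rw [fac_eval G hG0 A₀ hAG, hG.leadingCoeff, map_one, one_mul]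
  have hlc' : ‖j D'.leadingCoeff‖ = 1 := by
    rw [hD', leadingCoeff_map]
    exact hlc
  have hDe : ∀ b, ‖D.eval₂ (j.comp (algebraMap k (AlgebraicClosure k))) b‖ =
      ‖∏ a ∈ A₀, (b - j a) ^ D'.rootMultiplicity a‖ := by
    intro b
    rw [← eval₂_map, ← hD', fac_eval D' hD'0 A₀ hAD j b, norm_mul, hlc', one_mul]
  have hsD := sum_mult D' hD'0 A₀ hAD
  have hsG := sum_mult G hG0 A₀ hAG
  -- the uniformiser
  obtain ⟨ϖ', hϖ'0, hϖ'1, hall'⟩ := exists_unif (algebraMap E (PadicAlgCl p)) E (fun z => z.2)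
  obtain ⟨ϖ, hϖ⟩ : ∃ ϖ : PadicAlgCl p, ϖ = algebraMap E (PadicAlgCl p) ϖ' := ⟨_, rfl⟩
  rw [← hϖ] at hϖ'1
  have hϖE : ϖ ∈ E := by rw [hϖ]; exact ϖ'.2
  have hϖ0 : ϖ ≠ 0 := by rw [hϖ]; exact (_root_.map_ne_zero _).2 hϖ'0
  have hϖn : 0 < ‖ϖ‖ := norm_pos_iff.2 hϖ0
  have hall : ∀ z ∈ E, z ≠ 0 → ∃ m : ℤ, ‖z‖ = ‖ϖ‖ ^ m := by
    intro z hz hz0
    obtain ⟨m, hm⟩ := hall' ⟨z, hz⟩ (fun h => hz0 (congrArg Subtype.val h))
    rw [← hϖ] at hm
    exact ⟨m, hm⟩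
  have hjaa : j a - j a' ≠ 0 := by
    rw [← map_sub]
    exact (_root_.map_ne_zero j).2 (sub_ne_zero.2 haa)
  obtain ⟨d', hd'⟩ := hall (j a - j a') (sub_mem (hDE a haD) (hDE a' haD')) hjaa
  have hd'0 : 0 < d' := by
    by_contra hcon
    push Not at hcon
    rw [hd'] at hcl
    have h1 : 1 ≤ ‖ϖ‖ ^ d' := one_le_zpow_of_nonpos₀ hϖn hϖ'1.le hcon
    linarith
  obtain ⟨d, rfl⟩ := Int.eq_ofNat_of_zero_le hd'0.le
  have hdℓ : ¬ ℓ ∣ d := by
    rintro ⟨q, rfl⟩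
    apply hE'
    refine ⟨ϖ ^ q, pow_mem hϖE q, ?_⟩
    rw [hd', norm_pow, ← pow_mul]
    have h1 : ‖ϖ‖ ^ ((ℓ * q : ℕ) : ℤ) = ‖ϖ‖ ^ (ℓ * q) := zpow_natCast _ _
    have h2 : (Int.ofNat (ℓ * q)) = ((ℓ * q : ℕ) : ℤ) := rfl
    rw [mul_comm q ℓ]
    exact h1
  have hdn : ‖j a - j a'‖ = ‖ϖ‖ ^ d := by
    rw [hd']
    exact zpow_natCast _ _
  obtain ⟨i, hi, hℓi⟩ := exists_cong (ℓ := ℓ) (D'.rootMultiplicity a)
    (D'.rootMultiplicity a' * d) d hma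
  obtain ⟨b, hb⟩ : ∃ b : PadicAlgCl p, b = j a + ϖ ^ i := ⟨_, rfl⟩
  have hbE : b ∈ E := by rw [hb]; exact add_mem (hDE a haD) (pow_mem hϖE i)
  have hbi : ‖ϖ ^ i‖ = ‖ϖ‖ ^ i := norm_pow _ _
  have hilt : ‖ϖ‖ ^ i < ‖ϖ‖ ^ d := pow_lt_pow_right_of_lt_one₀ hϖn hϖ'1 hi
  have hd1 : ‖ϖ‖ ^ d ≤ 1 := pow_le_one₀ hϖn.le hϖ'1.le
  have hba : ‖b - j a‖ = ‖ϖ‖ ^ i := by rw [hb, add_sub_cancel_left, hbi]
  have hba' : ‖b - j a'‖ = ‖ϖ‖ ^ d := by
    have h1 : b - j a' = ϖ ^ i + (j a - j a') := by rw [hb]; ring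
    rw [h1, IsUltrametricDist.norm_add_eq_max_of_norm_ne_norm (by rw [hbi, hdn]; exact hilt.ne),
      hbi, hdn]
    exact max_eq_right hilt.le
  have hbb : ∀ c ∈ A₀, c ≠ a → c ≠ a' → ‖b - j c‖ = 1 := by
    intro c hc h1 h2
    have h3 := hother c ((hA c).1 hc) h1 h2
    have h4 : b - j c = ϖ ^ i + (j a - j c) := by rw [hb]; ring
    have h5 : ‖ϖ‖ ^ i < 1 := lt_of_lt_of_le hilt hd1
    rw [h4, IsUltrametricDist.norm_add_eq_max_of_norm_ne_norm (by rw [hbi, h3]; exact h5.ne),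
      hbi, h3]
    exact max_eq_right h5.le
  have haA := (hA a).2 haD
  have haA' := (hA a').2 haD'
  have hDb : ‖D.eval₂ (j.comp (algebraMap k (AlgebraicClosure k))) b‖ =
      ‖ϖ‖ ^ (D'.rootMultiplicity a * i + D'.rootMultiplicity a' * d) := by
    rw [hDe, prod_two A₀ (fun c => b - j c) (fun c => D'.rootMultiplicity c) a a' haA haA' haa _ _
      hba hba' hbb, pow_add, ← pow_mul, ← pow_mul, mul_comm i, mul_comm d]
  have hGb : ‖G.eval₂ j b‖ = ‖ϖ‖ ^ (G.rootMultiplicity a * i + G.rootMultiplicity a' * d) := by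
    rw [hGe, prod_two A₀ (fun c => b - j c) (fun c => G.rootMultiplicity c) a a' haA haA' haa _ _
      hba hba' hbb, pow_add, ← pow_mul, ← pow_mul, mul_comm i, mul_comm d]
  obtain ⟨b', hb'⟩ : ∃ b' : PadicAlgCl p, b' = (ϖ ^ ℓ)⁻¹ := ⟨_, rfl⟩
  have hb'E : b' ∈ E := by rw [hb']; exact inv_mem (pow_mem hϖE ℓ)
  have hb'n : ‖b'‖ = (‖ϖ‖ ^ ℓ)⁻¹ := by rw [hb', norm_inv, norm_pow]
  have hb'1 : 1 < ‖b'‖ := by
    rw [hb'n]
    exact (one_lt_inv₀ (pow_pos hϖn ℓ)).2 (pow_lt_one₀ hϖn.le hϖ'1 hℓ0.ne')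
  have hfar : ∀ c ∈ A₀, ‖b' - j c‖ = ‖b'‖ := by
    intro c hc
    have h1 : ‖-j c‖ < ‖b'‖ := by
      rw [norm_neg]
      exact lt_of_le_of_lt (hint c ((hA c).1 hc)) hb'1
    rw [sub_eq_add_neg, IsUltrametricDist.norm_add_eq_max_of_norm_ne_norm h1.ne']
    exact max_eq_left h1.le
  have hDb' : ‖D.eval₂ (j.comp (algebraMap k (AlgebraicClosure k))) b'‖ =
      ((‖ϖ‖ ^ ℓ)⁻¹) ^ D'.natDegree := by
    rw [hDe, prod_const A₀ _ _ _ hfar, hsD, hb'n]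
  have hGb' : ‖G.eval₂ j b'‖ = ((‖ϖ‖ ^ ℓ)⁻¹) ^ G.natDegree := by
    rw [hGe, prod_const A₀ _ _ _ hfar, hsG, hb'n]
  refine ⟨p, hp, hℓp, j, hj, E, hE, hkE, hDE, b, hbE, b', hb'E, ?_, ?_, ?_, ?_, ?_⟩
  · rw [← norm_ne_zero_iff, hDb]
    exact (pow_pos hϖn _).ne'
  · rw [← norm_ne_zero_iff, hDb']
    exact (pow_pos (inv_pos.2 (pow_pos hϖn _)) _).ne'
  · obtain ⟨q, hq⟩ := hℓi
    refine ⟨ϖ ^ q, pow_mem hϖE q, ?_⟩
    rw [hDb, hq, norm_pow, ← pow_mul, mul_comm]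
  · refine ⟨(ϖ ^ D'.natDegree)⁻¹, inv_mem (pow_mem hϖE _), ?_⟩
    rw [hDb', norm_inv, norm_pow, inv_pow, inv_pow, ← pow_mul, ← pow_mul, mul_comm]
  · rintro ⟨e, he, h1⟩
    have he0 : e ≠ 0 := by
      rintro rfl
      rw [norm_zero, zero_pow hℓ0.ne', norm_div, hGb, hGb'] at h1
      exact (div_pos (pow_pos hϖn _) (pow_pos (inv_pos.2 (pow_pos hϖn _)) _)).ne' h1
    obtain ⟨v, hv⟩ := hall e he he0
    rw [norm_div, hGb, hGb', hv, inv_pow, div_inv_eq_mul, ← pow_mul, ← pow_add, ← zpow_natCast,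
      ← zpow_natCast, ← zpow_mul] at h1
    have h2 := zpow_right_injective₀ hϖn hϖ'1.ne h1
    have h3 : ((G.rootMultiplicity a * i + G.rootMultiplicity a' * d + ℓ * G.natDegree : ℕ) : ℤ) =
        v * (ℓ : ℤ) := h2
    push_cast at h3
    obtain ⟨q, hq⟩ := hℓi
    have hq' : ((D'.rootMultiplicity a : ℤ) * i + D'.rootMultiplicity a' * d) = ℓ * q := by
      exact_mod_cast hq
    have h4 : (ℓ : ℤ) ∣ (d : ℤ) * ((D'.rootMultiplicity a : ℤ) * G.rootMultiplicity a' -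
        G.rootMultiplicity a * D'.rootMultiplicity a') := by
      refine ⟨(D'.rootMultiplicity a : ℤ) * (v - G.natDegree) - G.rootMultiplicity a * q, ?_⟩
      linear_combination (D'.rootMultiplicity a : ℤ) * h3 - (G.rootMultiplicity a : ℤ) * hq'
    have hprime : Prime (ℓ : ℤ) := Nat.prime_iff_prime_int.1 (Fact.out : ℓ.Prime)
    rcases hprime.dvd_or_dvd h4 with h5 | h5
    · exact hdℓ (by exact_mod_cast h5)
    · exact hn h5

/-- the roots of `D` of multiplicity prime to `ℓ` are connected by collisions -/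
def Conn {k : Type} [Field k] (ℓ : ℕ) (f D : k[X]) : Prop :=
  ∀ a a' : AlgebraicClosure k,
    ¬ ℓ ∣ (D.map (algebraMap k (AlgebraicClosure k))).rootMultiplicity a →
    ¬ ℓ ∣ (D.map (algebraMap k (AlgebraicClosure k))).rootMultiplicity a' →
    Relation.EqvGen (fun b b' =>
      ¬ ℓ ∣ (D.map (algebraMap k (AlgebraicClosure k))).rootMultiplicity b ∧
      ¬ ℓ ∣ (D.map (algebraMap k (AlgebraicClosure k))).rootMultiplicity b' ∧
      b ≠ b' ∧ Coll ℓ f D b b') a a'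

theorem conn_sep {ℓ : ℕ} [Fact ℓ.Prime] {k : Type} [Field k] [CharZero k] (f D : k[X])
    (hD0 : D ≠ 0) (h : Conn ℓ f D) : SepA ℓ f D := by
  classical
  intro G hG hroot hdeg
  by_cases hT : Tst ℓ f D G
  · exact Or.inr hT
  left
  have hℓ0 : 0 < ℓ := (Fact.out : ℓ.Prime).pos
  haveI : NeZero ℓ := ⟨hℓ0.ne'⟩
  obtain ⟨D', hD'⟩ : ∃ D' : (AlgebraicClosure k)[X],
      D' = D.map (algebraMap k (AlgebraicClosure k)) := ⟨_, rfl⟩
  have hD'0 : D' ≠ 0 := by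
    rw [hD']
    exact (Polynomial.map_ne_zero_iff (algebraMap k (AlgebraicClosure k)).injective).2 hD0
  have hD'r : ∀ b, D'.IsRoot b ↔ aeval b D = 0 := by
    intro b
    rw [hD', IsRoot.def, eval_map_algebraMap]
  have hmr : ∀ b, ¬ ℓ ∣ D'.rootMultiplicity b → aeval b D = 0 := by
    intro b hb
    by_contra hna
    apply hb
    rw [rootMultiplicity_eq_zero (fun h => hna ((hD'r b).1 h))]
    exact dvd_zero _
  unfold Conn at h
  rw [← hD'] at h hroot ⊢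
  -- the ratio
  let ρ : AlgebraicClosure k → ZMod ℓ := fun a => G.rootMultiplicity a / D'.rootMultiplicity a
  have hρ : ∀ a a', ¬ ℓ ∣ D'.rootMultiplicity a → ¬ ℓ ∣ D'.rootMultiplicity a' → ρ a = ρ a' := by
    intro a a' ha ha'
    have h1 := h a a' ha ha'
    clear ha ha'
    induction h1 with
    | rel b b' hbb =>
      obtain ⟨hb, hb', hne, hc⟩ := hbb
      by_contra hcon
      apply hT
      have hm0 : (D'.rootMultiplicity b : ZMod ℓ) ≠ 0 :=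
        fun h => hb ((ZMod.natCast_eq_zero_iff _ ℓ).1 h)
      have hm0' : (D'.rootMultiplicity b' : ZMod ℓ) ≠ 0 :=
        fun h => hb' ((ZMod.natCast_eq_zero_iff _ ℓ).1 h)
      refine coll_tst f D hD0 b b' hne (hmr b hb) (hmr b' hb') (by rw [← hD']; exact hb) hc G hG
        (fun c hc => hmr c (hroot c hc)) ?_
      rw [← hD']
      intro h2
      apply hcon
      have h3 := (ZMod.intCast_zmod_eq_zero_iff_dvd _ ℓ).2 h2
      push_cast at h3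
      show (G.rootMultiplicity b / D'.rootMultiplicity b : ZMod ℓ) =
        G.rootMultiplicity b' / D'.rootMultiplicity b'
      rw [div_eq_div_iff hm0 hm0']
      linear_combination -h3
    | refl b => rfl
    | symm b b' _ ih => exact ih.symm
    | trans b b' b'' _ _ ih1 ih2 => exact ih1.trans ih2
  -- the exponent
  obtain ⟨r, hr⟩ : ∃ r : ℕ, ∀ a, ℓ ∣ G.rootMultiplicity a + r * D'.rootMultiplicity a := by
    by_cases hS : ∃ a₀, ¬ ℓ ∣ D'.rootMultiplicity a₀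
    · obtain ⟨a₀, ha₀⟩ := hS
      refine ⟨(-ρ a₀).val, fun a => ?_⟩
      by_cases ha : ℓ ∣ D'.rootMultiplicity a
      · have h1 : G.rootMultiplicity a = 0 := by
          apply rootMultiplicity_eq_zero
          intro h2
          exact hroot a h2 ha
        rw [h1, zero_add]
        exact dvd_mul_of_dvd_right ha _
      · rw [← ZMod.natCast_eq_zero_iff]
        push_cast
        rw [ZMod.natCast_zmod_val, hρ a₀ a ha₀ ha]
        have hm0 : (D'.rootMultiplicity a : ZMod ℓ) ≠ 0 :=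
          fun h => ha ((ZMod.natCast_eq_zero_iff _ ℓ).1 h)
        show (G.rootMultiplicity a : ZMod ℓ) +
          -(G.rootMultiplicity a / D'.rootMultiplicity a) * D'.rootMultiplicity a = 0
        rw [neg_mul, div_mul_cancel₀ _ hm0, add_neg_cancel]
    · push Not at hS
      refine ⟨0, fun a => ?_⟩
      have h1 : G.rootMultiplicity a = 0 := by
        apply rootMultiplicity_eq_zero
        intro h2
        exact hroot a h2 (hS a)
      rw [h1, zero_mul, add_zero]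
      exact dvd_zero _
  obtain ⟨A₀, hA₀⟩ : ∃ A₀ : Finset (AlgebraicClosure k), A₀ = (G * D' ^ r).roots.toFinset :=
    ⟨_, rfl⟩
  have hGD0 : G * D' ^ r ≠ 0 := mul_ne_zero hG.ne_zero (pow_ne_zero _ hD'0)
  have hA : ∀ a, (G * D' ^ r).IsRoot a → a ∈ A₀ := by
    intro a ha
    rw [hA₀, Multiset.mem_toFinset, mem_roots hGD0]
    exact ha
  obtain ⟨c, hc⟩ := IsAlgClosed.exists_pow_nat_eq (G * D' ^ r).leadingCoeff hℓ0
  refine ⟨r, C c * ∏ a ∈ A₀, (X - C a) ^ ((G * D' ^ r).rootMultiplicity a / ℓ), ?_⟩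
  conv_lhs => rw [fac (G * D' ^ r) hGD0 A₀ hA]
  rw [mul_pow, ← C_pow, hc, ← Finset.prod_pow]
  congr 1
  refine Finset.prod_congr rfl fun a _ => ?_
  rw [← pow_mul]
  congr 1
  symm
  apply Nat.div_mul_cancel
  rw [rootMultiplicity_mul hGD0, rm_pow]
  exact hr a

end Pool.Agent.T6.H28.Fin
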