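import Pool.Agent.Y157.GT.GeoA
import Pool.Agent.Y157.GT.GeoB

/-! # From an abstract theorem about sections to sections of fundamental groups -/

set_option autoImplicit false
set_option linter.all false

open Polynomial FF

namespace Pool.Agent.T6.H28.Geo

open Pool.Agent.Y157.PS Pool.Agent.Y157.GT

/-- the abstract theorem for the field `K` with algebraic closure `κ`, the branch points `B` and the
twist `δ`: every section fixes exactly one place above a branch point -/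
def AT (ℓ : ℕ) (K κ : Type) [Field K] [Field κ] [Algebra K κ] (B : Finset κ) (δ : κ) : Prop :=
  ∀ (R M : Type) [Field R] [Field M] [Algebra κ R] [Algebra R M]
    [Algebra κ M] [IsScalarTower κ R M] (x : R) (Y : M), Cov ℓ κ R M x B Y →
    ∀ s : (κ ≃ₐ[K] κ) →* RingAut M, Sec K κ R M x Y δ s →
    ∃ W : Place κ M, (∃ e ∈ B, 0 < W.ord (algebraMap R M x - algebraMap κ M e) ∧
        ∀ σ : κ ≃ₐ[K] κ, σ e = e) ∧
      (∀ σ : κ ≃ₐ[K] κ, Fixes W (s σ)) ∧
      ∀ W' : Place κ M, (∃ e ∈ B, 0 < W'.ord (algebraMap R M x - algebraMap κ M e)) →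
        (∀ σ : κ ≃ₐ[K] κ, Fixes W' (s σ)) → W' = W

section absM

variable {K κ R F M N : Type} [Field K] [CharZero K]
    [Field κ] [Algebra K κ] [IsAlgClosure K κ]
    [Field R] [Field F] [Field M] [Field N] [Algebra κ R] [Algebra R M] [Algebra κ M]
    [IsScalarTower κ R M] [Algebra F N]

/-- the abstract form: `M` is the covering field and `N` is isomorphic to `M` -/
theorem geoM {ℓ : ℕ} [Fact ℓ.Prime] (B : Finset κ) (δ : κ) (hAT : AT ℓ K κ B δ) (hδ0 : δ ≠ 0)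
    (x' : R) (Y' : M)
    (hCov : Cov ℓ κ R M x' B Y')
    (eqv : M ≃+* N) (x y : F)
    (hx : eqv (algebraMap R M x') = algebraMap F N x)
    (hy : eqv Y' = eqv (algebraMap κ M δ) * algebraMap F N y)
    (S : (κ ≃ₐ[K] κ) →* (N ≃ₐ[F] N))
    (hcont : ∀ z : N, ∃ E : IntermediateField K κ, FiniteDimensional K E ∧
      ∀ σ ∈ E.fixingSubgroup, S σ z = z)
    (hcompat : ∀ σ c, S σ (eqv (algebraMap κ M c)) = eqv (algebraMap κ M (σ c))) :
    ∃ W : ValuationSubring N,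
      ((∀ c : κ, eqv (algebraMap κ M c) ∈ W) ∧
       (∀ z ∈ W, ∃ c : κ, z - eqv (algebraMap κ M c) ∈ W.nonunits) ∧
       (∃ e ∈ B, (∀ σ : κ ≃ₐ[K] κ, σ e = e) ∧
          algebraMap F N x - eqv (algebraMap κ M e) ∈ W.nonunits) ∧
       ∀ (σ : κ ≃ₐ[K] κ) z, S σ z ∈ W ↔ z ∈ W) ∧
      ∀ W' : ValuationSubring N, (∀ c : κ, eqv (algebraMap κ M c) ∈ W') →
        (∃ e ∈ B, algebraMap F N x - eqv (algebraMap κ M e) ∈ W'.nonunits) →
        (∀ (σ : κ ≃ₐ[K] κ) z, S σ z ∈ W' ↔ z ∈ W') → W' = W := by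
  classical
  have hkb : IsAlgClosed κ := IsAlgClosure.isAlgClosed K
  have hch : CharZero κ := charZero_of_injective_algebraMap (algebraMap K κ).injective
  let s' : (κ ≃ₐ[K] κ) →* RingAut M := conjSec eqv S
  have hs' : ∀ σ z, eqv (s' σ z) = S σ (eqv z) := fun σ z => conjSec_apply eqv S σ z
  have hconst : ∀ σ c, s' σ (algebraMap κ M c) = algebraMap κ M (σ c) := by
    intro σ c
    apply eqv.injective
    rw [hs', hcompat]
  have hbase : ∀ σ (z : F) (w : M), eqv w = algebraMap F N z → s' σ w = w := by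
    intro σ z w hw
    apply eqv.injective
    rw [hs', hw]
    exact (S σ).commutes z
  have hyY : Y' = algebraMap κ M δ * eqv.symm (algebraMap F N y) := by
    apply eqv.injective
    rw [hy, map_mul, eqv.apply_symm_apply]
  have hSec : Sec K κ R M x' Y' δ s' := by
    refine ⟨hconst, fun σ => hbase σ x _ hx, fun σ => ?_, fun z => ?_⟩
    · have h2 : algebraMap κ M (σ δ / δ) * Y' =
          algebraMap κ M (σ δ) * eqv.symm (algebraMap F N y) := by
        rw [hyY, ← mul_assoc, ← map_mul, div_mul_cancel₀ _ hδ0]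
      rw [h2]
      conv_lhs => rw [hyY]
      rw [map_mul, hconst, hbase σ y _ (eqv.apply_symm_apply _)]
    · obtain ⟨E, hE, hE'⟩ := hcont (eqv z)
      refine ⟨E, hE, fun σ hσ => eqv.injective ?_⟩
      rw [hs', hE' σ hσ]
  obtain ⟨Q, ⟨e, heB, hQe, hfix⟩, hQfix, hQun⟩ := hAT R M x' Y' hCov s' hSec
  have hmem : ∀ z : N, z ∈ Q.O.comap (eqv.symm : N →+* M) ↔ eqv.symm z ∈ Q.O := fun z => Iff.rfl
  refine ⟨Q.O.comap (eqv.symm : N →+* M), ⟨?_, ?_, ?_, ?_⟩, ?_⟩
  · intro c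
    rw [hmem, eqv.symm_apply_apply, Place.mem_O]
    exact Q.reg_const c
  · intro z hz
    rw [hmem] at hz
    by_cases hz0 : z = 0
    · refine ⟨0, ?_⟩
      rw [comap_non, hz0, map_zero, map_zero, sub_zero, map_zero]
      exact nonunits_iff.2 ⟨zero_mem _, Or.inl rfl⟩
    have hz0' : eqv.symm z ≠ 0 := (map_ne_zero_iff _ eqv.symm.injective).2 hz0
    rw [O_iff Q hz0'] at hz
    obtain ⟨c, hc⟩ := Pool.Agent.Y536.PS.res_const κ M (algebraMap R M x') hCov.alg Q _ hz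
    refine ⟨c, ?_⟩
    rw [comap_non, map_sub, eqv.symm_apply_apply]
    rcases hc with hc | hc
    · rw [hc, sub_self]
      exact nonunits_iff.2 ⟨zero_mem _, Or.inl rfl⟩
    · have h0 : eqv.symm z - algebraMap κ M c ≠ 0 := by
        intro h0
        rw [h0, Q.ord_zero] at hc
        exact lt_irrefl _ hc
      exact (O_non_iff Q h0).2 hc
  · refine ⟨e, heB, hfix, ?_⟩
    rw [comap_non, map_sub, eqv.symm_apply_apply, ← hx, eqv.symm_apply_apply]
    have h0 : algebraMap R M x' - algebraMap κ M e ≠ 0 := by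
      intro h0
      rw [h0, Q.ord_zero] at hQe
      exact lt_irrefl _ hQe
    exact (O_non_iff Q h0).2 hQe
  · intro σ z
    rw [hmem, hmem]
    have h1 : eqv.symm (S σ z) = s' σ (eqv.symm z) := by
      apply eqv.injective
      rw [hs', eqv.apply_symm_apply, eqv.apply_symm_apply]
    rw [h1]
    exact O_of_fixes Q (s' σ) (hQfix σ) _
  · rintro W' hW'1 ⟨e', he'B, he'⟩ hW'3
    have hmem' : ∀ z : M, z ∈ W'.comap (eqv : M →+* N) ↔ eqv z ∈ W' := fun z => Iff.rfl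
    have hnon' : ∀ z : M, z ∈ (W'.comap (eqv : M →+* N)).nonunits ↔ eqv z ∈ W'.nonunits :=
      fun z => comap_non eqv W' z
    have h1 : algebraMap R M x' - algebraMap κ M e' ∈ (W'.comap (eqv : M →+* N)).nonunits := by
      rw [hnon', map_sub, hx]
      exact he'
    have hne : algebraMap R M x' - algebraMap κ M e' ≠ 0 := by
      intro h0
      have h2 : Transcendental κ (algebraMap R M x') :=
        (transcendental_algebraMap_iff (algebraMap R M).injective).2 hCov.rat.trans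
      apply h2
      rw [sub_eq_zero.1 h0]
      exact isAlgebraic_algebraMap _
    have htop : W'.comap (eqv : M →+* N) ≠ ⊤ := by
      intro h0
      rw [h0, nonunits_iff] at h1
      rcases h1.2 with h2 | h2
      · exact hne h2
      · exact h2 trivial
    obtain ⟨Q', hQ', -⟩ := hCov.loc _ (fun c => (hmem' _).2 (hW'1 c)) htop
    have h2 : Q' = Q := by
      refine hQun Q' ⟨e', he'B, ?_⟩ fun σ => ?_
      · rw [← O_non_iff Q' hne, hQ']
        exact h1
      · refine fixes_of_O Q' (s' σ) (σ : κ ≃+* κ) (fun c => hconst σ c) fun z => ?_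
        rw [hQ', hmem', hmem', hs']
        exact hW'3 σ _
    ext z
    rw [hmem, ← h2, hQ', hmem', eqv.apply_symm_apply]

end absM

section absI

variable {K κ R F Ω : Type} [Field K] [CharZero K]
    [Field κ] [Algebra K κ] [IsAlgClosure K κ]
    [Field R] [Field F] [Field Ω] [Algebra κ R] [Algebra R Ω] [Algebra κ Ω]
    [IsScalarTower κ R Ω] [IsAlgClosure R Ω] [Algebra F Ω] [Algebra.IsAlgebraic F Ω]

theorem geoI (hCOV : S_COV) {ℓ : ℕ} [Fact ℓ.Prime] (B : Finset κ) (δ : κ)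
    (hAT : AT ℓ K κ B δ) (hδ0 : δ ≠ 0)
    (x' : R) (hrat : RatF κ x') (hdvd : ℓ ∣ B.card) (h3 : 3 ≤ B.card)
    (Y0 : Ω)
    (hY : Y0 ^ ℓ = ∏ e ∈ B, (algebraMap R Ω x' - algebraMap κ Ω e))
    (x y : F) (hx : algebraMap R Ω x' = algebraMap F Ω x)
    (hy : Y0 = algebraMap κ Ω δ * algebraMap F Ω y)
    (N : IntermediateField F Ω)
    (hN : ∀ z, z ∈ maxPro ℓ κ (IntermediateField.adjoin R {Y0}) Ω ↔ z ∈ N)
    (S : (κ ≃ₐ[K] κ) →* (N ≃ₐ[F] N)) (hcont : Continuous S)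
    (hcompat : ∀ σ c (z : N), (z : Ω) = algebraMap κ Ω c → (S σ z : Ω) = algebraMap κ Ω (σ c)) :
    ∃ W : ValuationSubring N,
      ((∀ (c : κ) (z : N), (z : Ω) = algebraMap κ Ω c → z ∈ W) ∧
       (∀ z ∈ W, ∃ c : κ, ∃ z' ∈ W.nonunits, (z' : Ω) = (z : Ω) - algebraMap κ Ω c) ∧
       (∃ e ∈ B, (∀ σ : κ ≃ₐ[K] κ, σ e = e) ∧
          ∃ z' ∈ W.nonunits, (z' : Ω) = algebraMap F Ω x - algebraMap κ Ω e) ∧
       ∀ (σ : κ ≃ₐ[K] κ) z, S σ z ∈ W ↔ z ∈ W) ∧
      ∀ W' : ValuationSubring N, (∀ (c : κ) (z : N), (z : Ω) = algebraMap κ Ω c → z ∈ W') →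
        (∃ e ∈ B, ∃ z' ∈ W'.nonunits, (z' : Ω) = algebraMap F Ω x - algebraMap κ Ω e) →
        (∀ (σ : κ ≃ₐ[K] κ) z, S σ z ∈ W' ↔ z ∈ W') → W' = W := by
  classical
  have hkb : IsAlgClosed κ := IsAlgClosure.isAlgClosed K
  have hch : CharZero κ := charZero_of_injective_algebraMap (algebraMap K κ).injective
  obtain ⟨M, hM⟩ : ∃ M : IntermediateField R Ω,
      ∀ z, z ∈ M ↔ z ∈ maxPro ℓ κ (IntermediateField.adjoin R {Y0}) Ω :=
    ⟨(maxPro ℓ κ (IntermediateField.adjoin R {Y0}) Ω).restrictScalars R, fun z => Iff.rfl⟩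
  have hYM : Y0 ∈ M := by
    rw [hM]
    exact (maxPro ℓ κ (IntermediateField.adjoin R {Y0}) Ω).algebraMap_mem
      ⟨Y0, IntermediateField.mem_adjoin_simple_self _ _⟩
  have hCov : Cov ℓ κ R M x' B ⟨Y0, hYM⟩ :=
    hCOV ℓ κ R Ω x' hrat B hdvd h3 Y0 hY M hM ⟨Y0, hYM⟩ rfl
  have hMN : ∀ z, z ∈ M ↔ z ∈ N := fun z => (hM z).trans (hN z)
  let eqv : M ≃+* N :=
    { toFun := fun w => ⟨w.1, (hMN _).1 w.2⟩
      invFun := fun w => ⟨w.1, (hMN _).2 w.2⟩
      left_inv := fun w => rfl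
      right_inv := fun w => rfl
      map_mul' := fun w w' => rfl
      map_add' := fun w w' => rfl }
  have heqv : ∀ w : M, ((eqv w : N) : Ω) = (w : Ω) := fun w => rfl
  have hc : ∀ c : κ, ((eqv (algebraMap κ M c) : N) : Ω) = algebraMap κ Ω c := fun c => rfl
  obtain ⟨W, ⟨h1, h2, ⟨e, heB, hfix, he⟩, h4⟩, hun⟩ := geoM B δ hAT hδ0
    x' ⟨Y0, hYM⟩ hCov eqv x y (Subtype.ext hx) (Subtype.ext hy) S
    (fun z => cont_fix S hcont z) (fun σ c => Subtype.ext (hcompat σ c _ rfl))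
  refine ⟨W, ⟨?_, ?_, ⟨e, heB, hfix, _, he, rfl⟩, h4⟩, ?_⟩
  · intro c z hz
    have h5 : z = eqv (algebraMap κ M c) := Subtype.ext hz
    rw [h5]
    exact h1 c
  · intro z hz
    obtain ⟨c, hc'⟩ := h2 z hz
    exact ⟨c, _, hc', rfl⟩
  · rintro W' hW'1 ⟨e', he', z', hz', hz''⟩ hW'3
    refine hun W' (fun c => hW'1 c _ rfl) ⟨e', he', ?_⟩ hW'3
    have h5 : algebraMap F N x - eqv (algebraMap κ M e') = z' := Subtype.ext hz''.symm
    rw [h5]
    exact hz'

end absI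

section main

variable {K F Ω : Type} [Field K] [CharZero K]
    [Field F] [Field Ω] [Algebra K F] [Algebra F Ω] [Algebra K Ω] [IsScalarTower K F Ω]
    [IsAlgClosed Ω] [Algebra.IsAlgebraic F Ω]

theorem geo (hCOV : S_COV) {ℓ : ℕ} [Fact ℓ.Prime]
    (f : K[X]) (hf : f.Separable) (hdvd : ℓ ∣ f.natDegree)
    (h3 : 3 ≤ f.natDegree) (d : K) (hd0 : d ≠ 0)
    (hAT : ∀ (δ : algebraicClosure K Ω) (B : Finset (algebraicClosure K Ω)),
      δ ^ ℓ = algebraMap K (algebraicClosure K Ω) (d / f.leadingCoeff) →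
      (∀ e, e ∈ B ↔ aeval e f = 0) → AT ℓ K (algebraicClosure K Ω) B δ)
    (x y : F) (hx : Transcendental K x)
    (hxy : algebraMap K F d * y ^ ℓ = aeval x f)
    (hF : IntermediateField.adjoin K {x, y} = (⊤ : IntermediateField K F))
    (S : (algebraicClosure K Ω ≃ₐ[K] algebraicClosure K Ω) →*
      (geomPro ℓ K F Ω ≃ₐ[F] geomPro ℓ K F Ω)) (hcont : Continuous S)
    (hcompat : ∀ σ (c : algebraicClosure K Ω) (z : geomPro ℓ K F Ω), (z : Ω) = (c : Ω) →
      (S σ z : Ω) = (σ c : Ω)) :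
    ∃ W : ValuationSubring (geomPro ℓ K F Ω),
      ((∀ c : K, algebraMap F (geomPro ℓ K F Ω) (algebraMap K F c) ∈ W) ∧
       (∀ z ∈ W, ∃ c : algebraicClosure K Ω, ∃ z' ∈ W.nonunits, (z' : Ω) = (z : Ω) - c) ∧
       (∃ e : algebraicClosure K Ω, aeval e f = 0 ∧
          (∀ σ : algebraicClosure K Ω ≃ₐ[K] algebraicClosure K Ω, σ e = e) ∧
            ∃ z' ∈ W.nonunits, (z' : Ω) = algebraMap F Ω x - e) ∧
       ∀ σ z, S σ z ∈ W ↔ z ∈ W) ∧
      ∀ W' : ValuationSubring (geomPro ℓ K F Ω),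
        (∀ c : K, algebraMap F (geomPro ℓ K F Ω) (algebraMap K F c) ∈ W') →
        algebraMap F (geomPro ℓ K F Ω) (aeval x f) ∈ W'.nonunits →
        (∀ σ z, S σ z ∈ W' ↔ z ∈ W') → W' = W := by
  classical
  have hℓp : ℓ.Prime := Fact.out
  have hac : IsAlgClosure K (algebraicClosure K Ω) := inferInstance
  have hkb : IsAlgClosed (algebraicClosure K Ω) := hac.1
  have hch : CharZero (algebraicClosure K Ω) :=
    charZero_of_injective_algebraMap (algebraMap K (algebraicClosure K Ω)).injective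
  have hf0 : f ≠ 0 := hf.ne_zero
  have hlc0 : f.leadingCoeff ≠ 0 := leadingCoeff_ne_zero.2 hf0
  -- the element `δ`
  obtain ⟨δ, hδ⟩ : ∃ δ : algebraicClosure K Ω, δ ^ ℓ =
      algebraMap K (algebraicClosure K Ω) (d / f.leadingCoeff) :=
    IsAlgClosed.exists_pow_nat_eq _ hℓp.pos
  have hδ0 : δ ≠ 0 := by
    rintro rfl
    rw [zero_pow hℓp.ne_zero] at hδ
    exact (_root_.map_ne_zero _).2 (div_ne_zero hd0 hlc0) hδ.symm
  -- the roots
  let φ : K →+* (algebraicClosure K Ω) := algebraMap K (algebraicClosure K Ω)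
  obtain ⟨P, hP⟩ : ∃ P : (algebraicClosure K Ω)[X], P = f.map φ := ⟨_, rfl⟩
  have hPsep : P.Separable := by rw [hP]; exact hf.map
  have hnd : P.roots.Nodup := nodup_roots hPsep
  have hP0 : P ≠ 0 := hPsep.ne_zero
  have hPdeg : P.natDegree = f.natDegree := by rw [hP, natDegree_map]
  have hPlc : P.leadingCoeff = φ f.leadingCoeff := by rw [hP, leadingCoeff_map]
  have hφlc0 : φ f.leadingCoeff ≠ 0 := (_root_.map_ne_zero φ).2 hlc0
  obtain ⟨B, hBdef⟩ : ∃ B : Finset (algebraicClosure K Ω), B = P.roots.toFinset := ⟨_, rfl⟩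
  have hmemB : ∀ θ, θ ∈ B ↔ f.eval₂ φ θ = 0 := by
    intro θ
    rw [hBdef, Multiset.mem_toFinset, mem_roots hP0, IsRoot.def, hP, eval_map]
  have hcard : B.card = f.natDegree := by
    rw [hBdef, Multiset.toFinset_card_of_nodup hnd, ← hPdeg]
    exact (IsAlgClosed.splits P).natDegree_eq_card_roots.symm
  -- the product formula
  have hPx : ∀ z : Ω, P.eval₂ (algebraMap (algebraicClosure K Ω) Ω) z =
      algebraMap (algebraicClosure K Ω) Ω (φ f.leadingCoeff) * ∏ e ∈ B, (z - algebraMap (algebraicClosure K Ω) Ω e) := by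
    intro z
    have h1 := (IsAlgClosed.splits P).eq_prod_roots
    rw [hPlc] at h1
    have h6 : ∏ e ∈ B, (z - algebraMap (algebraicClosure K Ω) Ω e) =
        (P.roots.map fun e => z - algebraMap (algebraicClosure K Ω) Ω e).prod := by
      rw [hBdef, Finset.prod, Multiset.toFinset_val, Multiset.dedup_eq_self.2 hnd]
    rw [h6]
    conv_lhs => rw [h1]
    rw [eval₂_mul, eval₂_C, ← coe_eval₂RingHom, map_multiset_prod, Multiset.map_map]
    congr 2
    refine Multiset.map_congr rfl fun a _ => ?_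
    simp
  have hfx : algebraMap F Ω (aeval x f) =
      P.eval₂ (algebraMap (algebraicClosure K Ω) Ω) (algebraMap F Ω x) := by
    rw [aeval_def, hom_eval₂, hP, eval₂_map, ← IsScalarTower.algebraMap_eq K F Ω,
      ← IsScalarTower.algebraMap_eq K (algebraicClosure K Ω) Ω]
  obtain ⟨Y0, hY0⟩ : ∃ Y0 : Ω, Y0 = (δ : Ω) * algebraMap F Ω y := ⟨_, rfl⟩
  have hY : Y0 ^ ℓ = ∏ e ∈ B, (algebraMap F Ω x - algebraMap (algebraicClosure K Ω) Ω e) := by
    have h1 := congrArg (algebraMap F Ω) hxy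
    rw [map_mul, map_pow, ← IsScalarTower.algebraMap_apply, hfx, hPx] at h1
    have h5 : algebraMap (algebraicClosure K Ω) Ω (φ f.leadingCoeff) ≠ 0 := (_root_.map_ne_zero _).2 hφlc0
    have h6 : (δ : Ω) ^ ℓ = algebraMap K Ω d / algebraMap (algebraicClosure K Ω) Ω (φ f.leadingCoeff) := by
      have h7 := congrArg (algebraMap (algebraicClosure K Ω) Ω) hδ
      rw [map_pow, map_div₀, map_div₀, ← IsScalarTower.algebraMap_apply] at h7
      exact h7
    rw [hY0, mul_pow, h6, div_mul_eq_mul_div, h1, mul_div_cancel_left₀ _ h5]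
  -- the covering field
  have hX0 : Transcendental K (algebraMap F Ω x) :=
    (transcendental_algebraMap_iff (R := K) (algebraMap F Ω).injective (a := x)).2 hx
  have hrat := ratF_adj (trans_up hX0)
  have hYR : Y0 ^ ℓ ∈ IntermediateField.adjoin (algebraicClosure K Ω) {algebraMap F Ω x} := by
    rw [hY]
    exact prod_mem fun e _ => sub_mem (IntermediateField.mem_adjoin_simple_self _ _)
      (IntermediateField.algebraMap_mem _ e)
  have hclR := closure_R hF δ hδ0 hℓp.pos (hY0 ▸ hYR)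
  obtain ⟨W, ⟨h1, h2, ⟨e, heB, hfix, he⟩, h4⟩, hun⟩ :=
    geoI (R := IntermediateField.adjoin (algebraicClosure K Ω) {algebraMap F Ω x}) hCOV
      B δ (hAT δ B hδ (fun e => hmemB e)) hδ0
      ⟨algebraMap F Ω x, IntermediateField.mem_adjoin_simple_self _ _⟩
      hrat (by rw [hcard]; exact hdvd) (by rw [hcard]; exact h3) Y0 hY x y rfl hY0
      (geomPro ℓ K F Ω) (fun z => by rw [hY0]; exact maxPro_geom ℓ K hF δ hδ0 z) S hcont
      (fun σ c z hz => hcompat σ c z hz)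
  refine ⟨W, ⟨?_, h2, ⟨e, ?_, hfix, he⟩, h4⟩, ?_⟩
  · intro c
    exact h1 (algebraMap K (algebraicClosure K Ω) c) _ (IsScalarTower.algebraMap_apply K F Ω c).symm
  · exact (hmemB e).1 heB
  · intro W' hW'1 hW'2 hW'3
    have hconst : ∀ (c : (algebraicClosure K Ω)) (z : geomPro ℓ K F Ω), (z : Ω) = (c : Ω) →
        z ∈ W' := by
      intro c z hz
      have h5 : IsIntegral K (c : Ω) := c.2
      obtain ⟨p, hp, hpc⟩ := h5
      refine alg_mem ((algebraMap F (geomPro ℓ K F Ω)).comp (algebraMap K F)) W' hW'1 z p hp ?_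
      apply (algebraMap (geomPro ℓ K F Ω) Ω).injective
      rw [hom_eval₂, map_zero]
      have h6 : (algebraMap (geomPro ℓ K F Ω) Ω).comp
          ((algebraMap F (geomPro ℓ K F Ω)).comp (algebraMap K F)) = algebraMap K Ω := by
        ext a
        exact (IsScalarTower.algebraMap_apply K F Ω a).symm
      have h7 : algebraMap (geomPro ℓ K F Ω) Ω z = (c : Ω) := hz
      rw [h6, h7]
      exact hpc
    refine hun W' hconst ?_ hW'3
    by_contra hno
    push Not at hno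
    let ι : (algebraicClosure K Ω) → geomPro ℓ K F Ω := fun c => ⟨(c : Ω), const_geomPro ℓ K c⟩
    have hno' : ∀ e ∈ B, (algebraMap F (geomPro ℓ K F Ω) x - ι e)⁻¹ ∈ W' := by
      intro e he
      apply inv_mem_of_not_nonunit
      intro hn
      exact hno e he _ hn rfl
    have hlcι : (ι (φ f.leadingCoeff))⁻¹ ∈ W' := by
      have h5 : (ι (φ f.leadingCoeff))⁻¹ = ι (φ f.leadingCoeff)⁻¹ := Subtype.ext rfl
      rw [h5]
      exact hconst (φ f.leadingCoeff)⁻¹ _ rfl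
    have hfN : algebraMap F (geomPro ℓ K F Ω) (aeval x f) =
        ι (φ f.leadingCoeff) * ∏ e ∈ B, (algebraMap F (geomPro ℓ K F Ω) x - ι e) := by
      apply (algebraMap (geomPro ℓ K F Ω) Ω).injective
      rw [map_mul, map_prod]
      have h5 : algebraMap (geomPro ℓ K F Ω) Ω
          (algebraMap F (geomPro ℓ K F Ω) (aeval x f)) =
          algebraMap F Ω (aeval x f) := rfl
      rw [h5, hfx, hPx]
      rfl
    have h8 : (algebraMap F (geomPro ℓ K F Ω) (aeval x f))⁻¹ ∈ W' := by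
      rw [hfN, mul_inv, ← Finset.prod_inv_distrib]
      exact mul_mem hlcι (prod_mem hno')
    rcases (nonunits_iff.1 hW'2).2 with h9 | h9
    · rw [map_eq_zero] at h9
      exact hf0 ((transcendental_iff.1 hx) _ h9)
    · exact h9 h8

end main

section main

variable {K F Ω : Type} [Field K] [CharZero K]
    [Field F] [Field Ω] [Algebra K F] [Algebra F Ω] [Algebra K Ω] [IsScalarTower K F Ω]
    [IsAlgClosed Ω] [Algebra.IsAlgebraic F Ω]

theorem gen {ℓ : ℕ} [Fact ℓ.Prime]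
    (f : K[X]) (hf : f.Separable) (hdvd : ℓ ∣ f.natDegree)
    (h3 : 3 ≤ f.natDegree) (d : K) (hd0 : d ≠ 0)
    (hAT : ∀ (δ : algebraicClosure K Ω) (B : Finset (algebraicClosure K Ω)),
      δ ^ ℓ = algebraMap K (algebraicClosure K Ω) (d / f.leadingCoeff) →
      (∀ e, e ∈ B ↔ aeval e f = 0) → AT ℓ K (algebraicClosure K Ω) B δ)
    (x y : F) (hx : Transcendental K x)
    (hxy : algebraMap K F d * y ^ ℓ = aeval x f)
    (hF : IntermediateField.adjoin K {x, y} = (⊤ : IntermediateField K F))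
    (S : (algebraicClosure K Ω ≃ₐ[K] algebraicClosure K Ω) →*
      (geomPro ℓ K F Ω ≃ₐ[F] geomPro ℓ K F Ω)) (hcont : Continuous S)
    (hcompat : ∀ σ (c : algebraicClosure K Ω) (z : geomPro ℓ K F Ω), (z : Ω) = (c : Ω) →
      (S σ z : Ω) = (σ c : Ω)) :
    ∃ W : ValuationSubring (geomPro ℓ K F Ω),
      ((∀ c : K, algebraMap F (geomPro ℓ K F Ω) (algebraMap K F c) ∈ W) ∧
       (∃ e : K, aeval e f = 0 ∧
          algebraMap F (geomPro ℓ K F Ω) (x - algebraMap K F e) ∈ W.nonunits) ∧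
       (∀ z : F, algebraMap F (geomPro ℓ K F Ω) z ∈ W →
          ∃ c : K, algebraMap F (geomPro ℓ K F Ω) (z - algebraMap K F c) ∈ W.nonunits) ∧
       ∀ σ z, S σ z ∈ W ↔ z ∈ W) ∧
      ∀ W' : ValuationSubring (geomPro ℓ K F Ω),
        (∀ c : K, algebraMap F (geomPro ℓ K F Ω) (algebraMap K F c) ∈ W') →
        algebraMap F (geomPro ℓ K F Ω) (aeval x f) ∈ W'.nonunits →
        (∀ σ z, S σ z ∈ W' ↔ z ∈ W') → W' = W := by
  have hac : IsAlgClosure K (algebraicClosure K Ω) := inferInstance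
  have : Normal K (algebraicClosure K Ω) := IsAlgClosure.normal K _
  have hGal : IsGalois K (algebraicClosure K Ω) := ⟨⟩
  obtain ⟨W, ⟨h1, h2, ⟨e, he0, hfix, z', hz', hz'e⟩, h4⟩, hun⟩ :=
    geo a_cov f hf hdvd h3 d hd0 hAT x y hx hxy hF S hcont hcompat
  have hrat : ∀ c : algebraicClosure K Ω, (∀ σ : algebraicClosure K Ω ≃ₐ[K]
      algebraicClosure K Ω, σ c = c) → ∃ c' : K, algebraMap K (algebraicClosure K Ω) c' = c := by
    intro c hc
    have h5 := (InfiniteGalois.mem_bot_iff_fixed c).2 hc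
    exact IntermediateField.mem_bot.1 h5
  refine ⟨W, ⟨h1, ?_, ?_, h4⟩, hun⟩
  · obtain ⟨e', rfl⟩ := hrat e fun σ => hfix σ
    refine ⟨e', ?_, ?_⟩
    · rw [aeval_algebraMap_apply] at he0
      exact (_root_.map_eq_zero _).1 he0
    · have h5 : algebraMap F (geomPro ℓ K F Ω) (x - algebraMap K F e') = z' := by
        apply Subtype.ext
        rw [hz'e]
        change algebraMap F Ω (x - algebraMap K F e') = _
        rw [map_sub, ← IsScalarTower.algebraMap_apply]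
        rfl
      rw [h5]
      exact hz'
  · intro z hz
    obtain ⟨c, w, hw, hwc⟩ := h2 _ hz
    obtain ⟨c', rfl⟩ := hrat c fun σ => res_fixed _ W h1 σ (S σ) (h4 σ)
      (fun c z hz => hcompat σ c z hz) z c w hw hwc
    refine ⟨c', ?_⟩
    have h5 : algebraMap F (geomPro ℓ K F Ω) (z - algebraMap K F c') = w := by
      apply Subtype.ext
      rw [hwc]
      change algebraMap F Ω (z - algebraMap K F c') = _
      rw [map_sub, ← IsScalarTower.algebraMap_apply]
      rfl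
    rw [h5]
    exact hw

theorem genM {ℓ : ℕ} [Fact ℓ.Prime]
    (f : K[X]) (hf : f.Separable) (hdvd : ℓ ∣ f.natDegree)
    (h3 : 3 ≤ f.natDegree) (d : K) (hd0 : d ≠ 0)
    (hAT : ∀ (δ : algebraicClosure K Ω) (B : Finset (algebraicClosure K Ω)),
      δ ^ ℓ = algebraMap K (algebraicClosure K Ω) (d / f.leadingCoeff) →
      (∀ e, e ∈ B ↔ aeval e f = 0) → AT ℓ K (algebraicClosure K Ω) B δ)
    (x y : F) (hx : Transcendental K x)
    (hxy : algebraMap K F d * y ^ ℓ = aeval x f)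
    (hF : IntermediateField.adjoin K {x, y} = (⊤ : IntermediateField K F))
    (M : IntermediateField F Ω) (hM : geomPro ℓ K F Ω ≤ M)
    (S : (algebraicClosure K Ω ≃ₐ[K] algebraicClosure K Ω) →* (M ≃ₐ[F] M)) (hcont : Continuous S)
    (hcompat : ∀ σ (c : algebraicClosure K Ω) (z : M), (z : Ω) = (c : Ω) →
      (S σ z : Ω) = (σ c : Ω)) :
    ∃ W : ValuationSubring M,
      (((∀ c : K, algebraMap F M (algebraMap K F c) ∈ W) ∧
       (∃ e : K, aeval e f = 0 ∧
          algebraMap F M (x - algebraMap K F e) ∈ W.nonunits) ∧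
       (∀ z : F, algebraMap F M z ∈ W →
          ∃ c : K, algebraMap F M (z - algebraMap K F c) ∈ W.nonunits)) ∧
       ∀ σ, ∀ z : M, (z : Ω) ∈ geomPro ℓ K F Ω → (S σ z ∈ W ↔ z ∈ W)) ∧
      ∀ W' : ValuationSubring M,
        (∀ c : K, algebraMap F M (algebraMap K F c) ∈ W') →
        algebraMap F M (aeval x f) ∈ W'.nonunits →
        (∀ σ, ∀ z : M, (z : Ω) ∈ geomPro ℓ K F Ω → (S σ z ∈ W' ↔ z ∈ W')) →
        ∀ z : M, (z : Ω) ∈ geomPro ℓ K F Ω → (z ∈ W' ↔ z ∈ W) := by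
  have halg := alg_of_eqn (Fact.out : ℓ.Prime).pos f d hd0 x y hxy hF
  obtain ⟨T, hTc, hT⟩ := a_ind2 ℓ K F Ω x hx halg M hM _ S hcont
  have hTcompat : ∀ σ (c : algebraicClosure K Ω) (z : geomPro ℓ K F Ω), (z : Ω) = (c : Ω) →
      (T σ z : Ω) = (σ c : Ω) := by
    intro σ c z hz
    have h1 : (z : Ω) ∈ M := hM z.2
    rw [hT σ ⟨(z : Ω), h1⟩ z rfl]
    exact hcompat σ c _ hz
  obtain ⟨W₀, ⟨h1, h2, h3', h4⟩, hun⟩ := gen f hf hdvd h3 d hd0 hAT x y hx
    hxy hF T hTc hTcompat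
  obtain ⟨W, ⟨⟨hW1, hW2, hW3⟩, hW4⟩, hWun⟩ := lift_thm (geomPro ℓ K F Ω) M hM S T (fun _ => True) hT
    (fun L W => (∀ c : K, algebraMap F L (algebraMap K F c) ∈ W) ∧
       (∃ e : K, aeval e f = 0 ∧
          algebraMap F L (x - algebraMap K F e) ∈ W.nonunits) ∧
       (∀ z : F, algebraMap F L z ∈ W →
          ∃ c : K, algebraMap F L (z - algebraMap K F c) ∈ W.nonunits))
    (fun L W => (∀ c : K, algebraMap F L (algebraMap K F c) ∈ W) ∧
      algebraMap F L (aeval x f) ∈ W.nonunits)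
    (by
      rintro W ⟨a1, ⟨e, he, a2⟩, a3⟩
      refine ⟨a1, ⟨e, he, (non_incl ((IntermediateField.inclusion hM :
        geomPro ℓ K F Ω →ₐ[F] M) : geomPro ℓ K F Ω →+* M) W _).1 a2⟩, fun z hz => ?_⟩
      obtain ⟨c, hc⟩ := a3 z hz
      exact ⟨c, (non_incl ((IntermediateField.inclusion hM :
        geomPro ℓ K F Ω →ₐ[F] M) : geomPro ℓ K F Ω →+* M) W _).1 hc⟩)
    (by
      rintro W ⟨a1, a2⟩
      exact ⟨a1, (non_incl _ _ _).2 a2⟩)
    ⟨W₀, ⟨⟨h1, h2, h3'⟩, fun σ _ z => h4 σ z⟩, fun W' hW' hst =>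
      hun W' hW'.1 hW'.2 fun σ z => hst σ trivial z⟩
  exact ⟨W, ⟨⟨hW1, hW2, hW3⟩, fun σ z hz => hW4 σ trivial z hz⟩, fun W' b1 b2 b3 z hz =>
    hWun W' ⟨b1, b2⟩ (fun σ _ z hz => b3 σ z hz) z hz⟩

end main

end Pool.Agent.T6.H28.Geo
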