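import Pool.Agent.T6.H28.GtE
import Pool.Agent.T6.H28.GeoE

/-! # Twists over `k(t)`: assembly -/

set_option autoImplicit false
set_option linter.all false

open Polynomial FF

namespace Pool.Agent.T6.H28.Fin

open Pool.Agent.Y157.PS Pool.Agent.Y157.GT Pool.Agent.T6.H28.PE Pool.Agent.T6.H28.Geo

/-- the polynomial `f` has good reduction at the `p`-adic place `j` -/
def GoodRed {k : Type} [Field k] {p : ℕ} [Fact p.Prime] (f : k[X])
    (j : AlgebraicClosure k →+* PadicAlgCl p) : Prop :=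
  ‖j (algebraMap k (AlgebraicClosure k) f.leadingCoeff)‖ = 1 ∧
    (∀ e, aeval e f = 0 → ‖j e‖ ≤ 1) ∧
    ∀ e e', aeval e f = 0 → aeval e' f = 0 → e ≠ e' → ‖j e - j e'‖ = 1

/-- there is a test for `G` -/
def Tst {k : Type} [Field k] (ℓ : ℕ) (f D : k[X]) (G : (AlgebraicClosure k)[X]) : Prop :=
  ∃ (p : ℕ) (_ : Fact p.Prime), ℓ ≠ p ∧ ∃ j : AlgebraicClosure k →+* PadicAlgCl p, GoodRed f j ∧
    ∃ E : IntermediateField ℚ_[p] (PadicAlgCl p), FiniteDimensional ℚ_[p] E ∧
      (∀ c : k, j (algebraMap k (AlgebraicClosure k) c) ∈ E) ∧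
      (∀ a, aeval a D = 0 → j a ∈ E) ∧
      ∃ b ∈ E, ∃ b' ∈ E, D.eval₂ (j.comp (algebraMap k (AlgebraicClosure k))) b ≠ 0 ∧
        D.eval₂ (j.comp (algebraMap k (AlgebraicClosure k))) b' ≠ 0 ∧
        (∃ e ∈ E, ‖D.eval₂ (j.comp (algebraMap k (AlgebraicClosure k))) b‖ = ‖e‖ ^ ℓ) ∧
        (∃ e ∈ E, ‖D.eval₂ (j.comp (algebraMap k (AlgebraicClosure k))) b'‖ = ‖e‖ ^ ℓ) ∧
        ¬ ∃ e ∈ E, ‖G.eval₂ j b / G.eval₂ j b'‖ = ‖e‖ ^ ℓ

/-- the separation condition over the algebraic closure of `k` -/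
def SepA {k : Type} [Field k] (ℓ : ℕ) (f D : k[X]) : Prop :=
  ∀ G : (AlgebraicClosure k)[X], G.Monic →
    (∀ a, G.IsRoot a →
      ¬ ℓ ∣ (D.map (algebraMap k (AlgebraicClosure k))).rootMultiplicity a) →
    (ℓ ∣ D.natDegree → ℓ ∣ G.natDegree) →
    (∃ (r : ℕ) (H : (AlgebraicClosure k)[X]),
      G * (D.map (algebraMap k (AlgebraicClosure k))) ^ r = H ^ ℓ) ∨ Tst ℓ f D G

theorem transport {ℓ : ℕ} (hℓ : 0 < ℓ) {k κ₀ : Type} [Field k] [Field κ₀] [Algebra k κ₀]
    [IsAlgClosure k κ₀] (f D : k[X]) (hf : f ≠ 0) (B₀ : Finset κ₀)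
    (hB : ∀ e, e ∈ B₀ ↔ aeval e f = 0) (h : SepA ℓ f D) :
    Sep k ℓ B₀ (C f.leadingCoeff⁻¹ * D) := by
  haveI : IsAlgClosed κ₀ := IsAlgClosure.isAlgClosed k
  have hlc : f.leadingCoeff ≠ 0 := leadingCoeff_ne_zero.2 hf
  let φ : AlgebraicClosure k ≃ₐ[k] κ₀ := IsAlgClosure.equiv k _ _
  let φ' : AlgebraicClosure k →+* κ₀ := (φ : AlgebraicClosure k →+* κ₀)
  let ψ : κ₀ →+* AlgebraicClosure k := (φ.symm : κ₀ →+* AlgebraicClosure k)
  have hφψ : ∀ z, φ' (ψ z) = z := fun z => φ.apply_symm_apply z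
  have hψφ : ∀ z, ψ (φ' z) = z := fun z => φ.symm_apply_apply z
  have hφk : ∀ c : k, φ' (algebraMap k _ c) = algebraMap k κ₀ c := fun c => φ.commutes c
  have hψk : ∀ c : k, ψ (algebraMap k _ c) = algebraMap k _ c := fun c => φ.symm.commutes c
  have hφk' : φ'.comp (algebraMap k _) = algebraMap k κ₀ := RingHom.ext hφk
  have hψk' : ψ.comp (algebraMap k _) = algebraMap k _ := RingHom.ext hψk
  have hφψ' : φ'.comp ψ = RingHom.id κ₀ := RingHom.ext hφψ
  have hDmap : (C f.leadingCoeff⁻¹ * D).map (algebraMap k κ₀) =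
      C (algebraMap k κ₀ f.leadingCoeff⁻¹) * (D.map (algebraMap k _)).map φ' := by
    rw [Polynomial.map_mul, map_C, Polynomial.map_map, hφk']
  have hc0 : algebraMap k κ₀ f.leadingCoeff⁻¹ ≠ 0 := (_root_.map_ne_zero _).2 (inv_ne_zero hlc)
  have hcunit : IsUnit (C (algebraMap k κ₀ f.leadingCoeff⁻¹)) := isUnit_C.2 hc0.isUnit
  have hmult : ∀ a : AlgebraicClosure k,
      ((C f.leadingCoeff⁻¹ * D).map (algebraMap k κ₀)).rootMultiplicity (φ' a) =
        (D.map (algebraMap k _)).rootMultiplicity a := by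
    intro a
    rw [hDmap, Polynomial.eq_rootMultiplicity_map (p := D.map (algebraMap k _)) φ'.injective a]
    rcases eq_or_ne (D.map (algebraMap k (AlgebraicClosure k))) 0 with h0 | h0
    · rw [h0]; simp
    · rw [rootMultiplicity_mul, rootMultiplicity_C, zero_add]
      exact mul_ne_zero (C_ne_zero.2 hc0) ((Polynomial.map_ne_zero_iff φ'.injective).2 h0)
  have hdeg : (C f.leadingCoeff⁻¹ * D).natDegree = D.natDegree :=
    natDegree_C_mul (inv_ne_zero hlc)
  intro G hG hroot hd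
  have hG' : (G.map ψ).Monic := hG.map ψ
  have hGG : (G.map ψ).map φ' = G := by rw [Polynomial.map_map, hφψ', Polynomial.map_id]
  rcases h (G.map ψ) hG' (fun a ha => by
    have h1 : G.IsRoot (φ' a) := by
      have h2 := ha.map (f := φ')
      rwa [hGG] at h2
    rw [← hmult a]
    exact hroot _ h1) (fun h1 => by
      rw [natDegree_map]
      exact hd (by rwa [hdeg])) with ⟨r, H, hH⟩ | ⟨p, hp, hℓp, j, hj, E, hE, hkE, hDE, b, hb, b',
        hb', hDb, hDb', h1, h1', h2⟩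
  · left
    obtain ⟨c, hc⟩ := IsAlgClosed.exists_pow_nat_eq ((algebraMap k κ₀ f.leadingCoeff⁻¹) ^ r) hℓ
    refine ⟨r, C c * H.map φ', ?_⟩
    have h3 := congrArg (Polynomial.map φ') hH
    rw [Polynomial.map_mul, Polynomial.map_pow, Polynomial.map_pow, hGG] at h3
    rw [hDmap, mul_pow, mul_pow, ← h3, ← C_pow, ← C_pow, hc]
    ring
  · right
    haveI := hp
    haveI := hE
    have hjc : ∀ c : k, (j.comp ψ) (algebraMap k κ₀ c) = j (algebraMap k _ c) := by
      intro c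
      show j (ψ (algebraMap k κ₀ c)) = _
      rw [hψk]
    have hae : ∀ (P : k[X]) (e : κ₀), aeval (ψ e) P = 0 ↔ aeval e P = 0 := by
      intro P e
      have h3 : aeval (ψ e) P = ψ (aeval e P) := by
        exact aeval_algHom_apply φ.symm.toAlgHom e P
      rw [h3, map_eq_zero]
    have hev : ∀ b : PadicAlgCl p,
        ((C f.leadingCoeff⁻¹ * D).map (algebraMap k κ₀)).eval₂ (j.comp ψ) b =
          (j (algebraMap k _ f.leadingCoeff))⁻¹ *
            D.eval₂ (j.comp (algebraMap k (AlgebraicClosure k))) b := by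
      intro b
      rw [eval₂_map, eval₂_mul, eval₂_C]
      have h3 : ((j.comp ψ).comp (algebraMap k κ₀)) = j.comp (algebraMap k _) := RingHom.ext hjc
      rw [h3]
      congr 1
      rw [RingHom.comp_apply, map_inv₀, map_inv₀]
    have hevn : ∀ b : PadicAlgCl p,
        ‖((C f.leadingCoeff⁻¹ * D).map (algebraMap k κ₀)).eval₂ (j.comp ψ) b‖ =
          ‖D.eval₂ (j.comp (algebraMap k (AlgebraicClosure k))) b‖ := by
      intro b
      rw [hev, norm_mul, norm_inv, hj.1, inv_one, one_mul]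
    have hev0 : ∀ b : PadicAlgCl p, D.eval₂ (j.comp (algebraMap k (AlgebraicClosure k))) b ≠ 0 →
        ((C f.leadingCoeff⁻¹ * D).map (algebraMap k κ₀)).eval₂ (j.comp ψ) b ≠ 0 := by
      intro b hb
      rw [← norm_ne_zero_iff, hevn]
      exact norm_ne_zero_iff.2 hb
    have hGev : ∀ b : PadicAlgCl p, (G.map ψ).eval₂ j b = G.eval₂ (j.comp ψ) b := by
      intro b
      rw [eval₂_map]
    refine ⟨p, hp, hℓp, j.comp ψ, ⟨fun e he => ?_, fun e he e' he' hee => ?_⟩, E, hE,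
      fun c => ?_, fun a ha => ?_, b, hb, b', hb', hev0 b hDb, hev0 b' hDb', ?_, ?_, ?_⟩
    · rw [mem_Aq]
      exact hj.2.1 (ψ e) ((hae f e).2 ((hB e).1 he))
    · rw [isU_Aq, map_sub]
      exact hj.2.2 (ψ e) (ψ e') ((hae f e).2 ((hB e).1 he)) ((hae f e').2 ((hB e').1 he'))
        (fun h3 => hee (by rw [← hφψ e, h3, hφψ]))
    · rw [hjc]
      exact hkE c
    · apply hDE
      rw [hae]
      rw [hDmap, root_mul, Polynomial.map_map, hφk'] at ha
      rcases ha with h3 | h3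
      · exact absurd h3 (not_isRoot_C _ _ hc0)
      · rwa [IsRoot.def, eval_map_algebraMap] at h3
    · rw [hevn]; exact h1
    · rw [hevn]; exact h1'
    · rw [← hGev, ← hGev]; exact h2

section main

variable {k K : Type} [Field k] [CharZero k] [Field K] [Algebra k K]

/-- the abstract theorem for `K = k(t)` -/
theorem atE {ℓ : ℕ} [Fact ℓ.Prime] (hk : (⊤ : IntermediateField ℚ k).FG)
    (t : K) (ht : Transcendental k t) (htop : IntermediateField.adjoin k {t} = ⊤)
    (f : k[X]) (hf : f.Separable) (D : k[X]) (hD0 : D ≠ 0)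
    (hDℓ : ∃ a : AlgebraicClosure k,
      ¬ ℓ ∣ (D.map (algebraMap k (AlgebraicClosure k))).rootMultiplicity a)
    (hsep : SepA ℓ f D)
    (κ : Type) [Field κ] [Algebra K κ] [IsAlgClosure K κ] (δ : κ) (B : Finset κ)
    (hδ : δ ^ ℓ = algebraMap K κ (aeval t D / (f.map (algebraMap k K)).leadingCoeff))
    (hB : ∀ e, e ∈ B ↔ aeval e (f.map (algebraMap k K)) = 0) : AT ℓ K κ B δ := by
  classical
  intro R M _ _ _ _ _ _ x Y hC s hs
  haveI : IsAlgClosed κ := IsAlgClosure.isAlgClosed K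
  letI : Algebra k κ := ((algebraMap K κ).comp (algebraMap k K)).toAlgebra
  haveI : IsScalarTower k K κ := IsScalarTower.of_algebraMap_eq fun _ => rfl
  have hlc : f.leadingCoeff ≠ 0 := leadingCoeff_ne_zero.2 hf.ne_zero
  obtain ⟨B₀, hB₀⟩ : ∃ B₀ : Finset (algebraicClosure k κ),
      B₀ = (f.map (algebraMap k (algebraicClosure k κ))).roots.toFinset := ⟨_, rfl⟩
  have hf0 : f.map (algebraMap k (algebraicClosure k κ)) ≠ 0 :=
    (Polynomial.map_ne_zero_iff (algebraMap k (algebraicClosure k κ)).injective).2 hf.ne_zero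
  have hmem : ∀ e, e ∈ B₀ ↔ aeval e f = 0 := by
    intro e
    rw [hB₀, Multiset.mem_toFinset, mem_roots hf0, IsRoot.def, eval_map_algebraMap]
  have hBB : ∀ e, e ∈ B ↔ ∃ e₀ ∈ B₀, algebraMap (algebraicClosure k κ) κ e₀ = e := by
    intro e
    rw [hB, aeval_map_algebraMap]
    constructor
    · intro h
      have h1 : IsAlgebraic k e := ⟨f, hf.ne_zero, h⟩
      refine ⟨⟨e, mem_algebraicClosure_iff.2 h1⟩, ?_, rfl⟩
      rw [hmem]
      apply (algebraMap (algebraicClosure k κ) κ).injective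
      rw [map_zero, ← aeval_algebraMap_apply]
      exact h
    · rintro ⟨e₀, he₀, rfl⟩
      rw [hmem] at he₀
      rw [aeval_algebraMap_apply, he₀, map_zero]
  have hDt : (C f.leadingCoeff⁻¹ * D) ≠ 0 := mul_ne_zero (C_ne_zero.2 (inv_ne_zero hlc)) hD0
  refine gtE ℓ k K κ R M hk t ht htop (C f.leadingCoeff⁻¹ * D) hDt ?_ δ ?_ x B Y hC B₀ hBB
    (transport (Fact.out : ℓ.Prime).pos f D hf.ne_zero B₀ hmem hsep) s hs
  · obtain ⟨a, ha⟩ := hDℓ
    let φ : AlgebraicClosure k ≃ₐ[k] algebraicClosure k κ := IsAlgClosure.equiv k _ _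
    let φ' : AlgebraicClosure k →+* algebraicClosure k κ := φ.toAlgHom.toRingHom
    have hφk' : φ'.comp (algebraMap k _) = algebraMap k (algebraicClosure k κ) :=
      RingHom.ext fun c => φ.commutes c
    refine ⟨φ' a, ?_⟩
    have h0 : D.map (algebraMap k (AlgebraicClosure k)) ≠ 0 :=
      (Polynomial.map_ne_zero_iff (algebraMap k (AlgebraicClosure k)).injective).2 hD0
    have h1 : (C f.leadingCoeff⁻¹ * D).map (algebraMap k (algebraicClosure k κ)) =
        C (algebraMap k (algebraicClosure k κ) f.leadingCoeff⁻¹) *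
          (D.map (algebraMap k _)).map φ' := by
      rw [Polynomial.map_mul, map_C, Polynomial.map_map, hφk']
    have hc0 : algebraMap k (algebraicClosure k κ) f.leadingCoeff⁻¹ ≠ 0 :=
      (_root_.map_ne_zero _).2 (inv_ne_zero hlc)
    rw [h1, rootMultiplicity_mul (mul_ne_zero (C_ne_zero.2 hc0)
      ((Polynomial.map_ne_zero_iff φ'.injective).2 h0)), rootMultiplicity_C, zero_add,
      ← Polynomial.eq_rootMultiplicity_map φ'.injective a]
    exact ha
  · rw [hδ, leadingCoeff_map, map_mul, aeval_C, map_inv₀, div_eq_mul_inv, mul_comm]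

end main

end Pool.Agent.T6.H28.Fin
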