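import Pool.Agent.T6.H28.PtE

/-! # The abstract theorem -/

set_option autoImplicit false
set_option linter.all false

open Polynomial FF

namespace Pool.Agent.T6.H28.PE

open Pool.Agent.Y157.PS Pool.Agent.Y157.GT Pool.Agent.Y474.GT

theorem rm_pow {κ₀ : Type} [Field κ₀] (P : κ₀[X]) (n : ℕ) (a : κ₀) :
    (P ^ n).rootMultiplicity a = n * P.rootMultiplicity a := by
  classical
  rw [← count_roots, roots_pow, Multiset.count_nsmul, count_roots]

/-- an element with `δ ^ ℓ = D(t)` is not in `κ₀(t)` -/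
theorem exists_move {ℓ : ℕ} (hℓ : 0 < ℓ) {κ₀ κ : Type} [Field κ₀] [IsAlgClosed κ₀] [CharZero κ₀]
    [Field κ] [IsAlgClosed κ] [Algebra κ₀ κ] (t : κ) (ht : Transcendental κ₀ t)
    (hal : Algebra.IsAlgebraic (IntermediateField.adjoin κ₀ {t}) κ) (D : κ₀[X]) (hD : D ≠ 0)
    (a : κ₀) (ha : ¬ ℓ ∣ D.rootMultiplicity a) (δ : κ) (hδ : δ ^ ℓ = aeval t D) :
    ∃ g : κ ≃ₐ[IntermediateField.adjoin κ₀ {t}] κ, g δ ≠ δ := by
  by_contra hcon
  push Not at hcon
  have hcz : CharZero κ := charZero_of_injective_algebraMap (algebraMap κ₀ κ).injective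
  have hcl : IsAlgClosure (IntermediateField.adjoin κ₀ {t}) κ := ⟨inferInstance, hal⟩
  have hGal : IsGalois (IntermediateField.adjoin κ₀ {t}) κ := IsAlgClosure.isGalois _ _
  have h1 : δ ∈ Set.range (algebraMap (IntermediateField.adjoin κ₀ {t}) κ) := by
    rw [InfiniteGalois.mem_range_algebraMap_iff_fixed]
    exact hcon
  obtain ⟨⟨u, hu⟩, rfl⟩ := h1
  rw [IntermediateField.mem_adjoin_simple_iff] at hu
  obtain ⟨P, Q, hPQ⟩ := hu
  have h2 : (u : κ) ^ ℓ = aeval t D := hδ
  have hDt : aeval t D ≠ 0 := fun h0 => ht ⟨D, hD, h0⟩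
  have hQt : aeval t Q ≠ 0 := by
    intro h0
    rw [hPQ, h0, div_zero, zero_pow hℓ.ne'] at h2
    exact hDt h2.symm
  have hQ0 : Q ≠ 0 := by rintro rfl; simp at hQt
  have h3 : aeval t (P ^ ℓ) = aeval t (D * Q ^ ℓ) := by
    rw [map_pow, map_mul, map_pow, ← h2, hPQ, div_pow, div_mul_cancel₀]
    exact pow_ne_zero _ hQt
  have h4 : P ^ ℓ = D * Q ^ ℓ := transcendental_iff_injective.1 ht h3
  have h5 : D * Q ^ ℓ ≠ 0 := mul_ne_zero hD (pow_ne_zero _ hQ0)
  have h6 := congrArg (rootMultiplicity a) h4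
  rw [rootMultiplicity_mul h5, rm_pow, rm_pow] at h6
  apply ha
  have h7 : ℓ ∣ rootMultiplicity a D + ℓ * rootMultiplicity a Q := by
    rw [← h6]
    exact dvd_mul_right _ _
  exact (Nat.dvd_add_left (dvd_mul_right _ _)).1 h7

theorem gtE (ℓ : ℕ) [Fact ℓ.Prime] (k K κ R M : Type) [Field k] [CharZero k] [Field K]
    [Algebra k K] [Field κ] [Algebra K κ] [IsAlgClosure K κ] [Field R] [Field M] [Algebra κ R]
    [Algebra R M] [Algebra κ M] [IsScalarTower κ R M] [Algebra k κ] [IsScalarTower k K κ]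
    (hfg : (⊤ : IntermediateField ℚ k).FG)
    (t : K) (ht : Transcendental k t) (htop : IntermediateField.adjoin k {t} = ⊤)
    (D : k[X]) (hD0 : D ≠ 0)
    (hDℓ : ∃ a : algebraicClosure k κ,
      ¬ ℓ ∣ (D.map (algebraMap k (algebraicClosure k κ))).rootMultiplicity a)
    (δ : κ) (hδ : δ ^ ℓ = algebraMap K κ (aeval t D))
    (x : R) (B : Finset κ) (Y : M) (hC : Cov ℓ κ R M x B Y)
    (B₀ : Finset (algebraicClosure k κ))
    (hB : ∀ e, e ∈ B ↔ ∃ e₀ ∈ B₀, algebraMap (algebraicClosure k κ) κ e₀ = e)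
    (hsep : Sep k ℓ B₀ D)
    (s : (κ ≃ₐ[K] κ) →* RingAut M) (hs : Sec K κ R M x Y δ s) :
    ∃ W : Place κ M, (∃ e ∈ B, 0 < W.ord (algebraMap R M x - algebraMap κ M e) ∧
        ∀ σ : κ ≃ₐ[K] κ, σ e = e) ∧
      (∀ σ : κ ≃ₐ[K] κ, Fixes W (s σ)) ∧
      ∀ W' : Place κ M, (∃ e ∈ B, 0 < W'.ord (algebraMap R M x - algebraMap κ M e)) →
        (∀ σ : κ ≃ₐ[K] κ, Fixes W' (s σ)) → W' = W := by
  have hp := (Fact.out : ℓ.Prime).pos
  haveI hac : IsAlgClosed κ := IsAlgClosure.isAlgClosed K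
  haveI : CharZero K := charZero_of_injective_algebraMap (algebraMap k K).injective
  haveI : CharZero κ := charZero_of_injective_algebraMap (algebraMap K κ).injective
  have halgK : Algebra.IsAlgebraic K κ := IsAlgClosure.isAlgebraic
  haveI : IsAlgClosed (algebraicClosure k κ) := IsAlgClosure.isAlgClosed k
  haveI : CharZero (algebraicClosure k κ) :=
    charZero_of_injective_algebraMap (algebraMap k (algebraicClosure k κ)).injective
  set t' : κ := algebraMap K κ t with ht'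
  have hD'0 : D.map (algebraMap k (algebraicClosure k κ)) ≠ 0 :=
    (Polynomial.map_ne_zero_iff (algebraMap k (algebraicClosure k κ)).injective).2 hD0
  have ht'k : Transcendental k t' := by
    intro h
    exact ht ((isAlgebraic_algebraMap_iff (algebraMap K κ).injective).1 h)
  have ht'0 : Transcendental (algebraicClosure k κ) t' := ht'k.algebraicClosure
  have hδ' : δ ^ ℓ = aeval t' (D.map (algebraMap k (algebraicClosure k κ))) := by
    rw [aeval_map_algebraMap, hδ, ht', aeval_algebraMap_apply]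
  have hδ0 : δ ≠ 0 := by
    rintro rfl
    rw [zero_pow hp.ne'] at hδ'
    exact ht'0 ⟨_, hD'0, hδ'.symm⟩
  -- generation
  have hgen : ∀ S : Subfield κ, (∀ c : k, algebraMap k κ c ∈ S) → t' ∈ S →
      ∀ c : K, algebraMap K κ c ∈ S := by
    intro S h1 h2 c
    have hz : c ∈ IntermediateField.adjoin k {t} := by rw [htop]; trivial
    have h4 : (IntermediateField.adjoin k {t}).map (IsScalarTower.toAlgHom k K κ) =
        IntermediateField.adjoin k {t'} := by
      rw [IntermediateField.adjoin_map, Set.image_singleton]; rfl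
    have h5 : IntermediateField.adjoin k {t'} ≤ S.toIntermediateField h1 := by
      rw [IntermediateField.adjoin_simple_le_iff]
      exact h2
    apply h5
    rw [← h4]
    exact ⟨c, hz, rfl⟩
  have hkK : ∀ c : k, ∃ b : K, algebraMap K κ b = algebraMap k κ c := fun c =>
    ⟨algebraMap k K c, (IsScalarTower.algebraMap_apply k K κ c).symm⟩
  have hKL : ∀ a : K, algebraMap K κ a ∈ IntermediateField.adjoin (algebraicClosure k κ) {t'} := by
    intro a
    exact hgen (IntermediateField.adjoin (algebraicClosure k κ) {t'}).toSubfield (fun c => by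
      rw [IsScalarTower.algebraMap_apply k (algebraicClosure k κ) κ]
      exact (IntermediateField.adjoin (algebraicClosure k κ) {t'}).algebraMap_mem _)
      (IntermediateField.mem_adjoin_simple_self _ t') a
  have halg : Algebra.IsAlgebraic (IntermediateField.adjoin (algebraicClosure k κ) {t'}) κ := by
    let i₀ : K →+* IntermediateField.adjoin (algebraicClosure k κ) {t'} :=
      (algebraMap K κ).codRestrict
        (IntermediateField.adjoin (algebraicClosure k κ) {t'}).toSubfield.toSubring hKL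
    letI : Algebra K (IntermediateField.adjoin (algebraicClosure k κ) {t'}) := i₀.toAlgebra
    haveI : IsScalarTower K (IntermediateField.adjoin (algebraicClosure k κ) {t'}) κ :=
      IsScalarTower.of_algebraMap_eq fun z => rfl
    exact Algebra.IsAlgebraic.tower_top (K := K) _
  -- the pair
  have hBκ : ∀ e ∈ B, ∃ e₀ : algebraicClosure k κ, algebraMap (algebraicClosure k κ) κ e₀ = e := by
    intro e he
    obtain ⟨e₀, -, h⟩ := (hB e).1 he
    exact ⟨e₀, h⟩
  obtain ⟨R₀, M₀, _, _, _, _, _, _, x₀, B₁, Y₀, ι, hPr⟩ :=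
    b_pair ℓ (algebraicClosure k κ) κ R M x B Y hC hBκ
  have hB₁ : B₁ = B₀ := by
    ext e
    have h1 : e ∈ B₁ ↔ algebraMap (algebraicClosure k κ) κ e ∈ B := by
      rw [hPr.branch]
      constructor
      · intro h; exact ⟨e, h, rfl⟩
      · rintro ⟨e', he', h⟩
        rw [← (algebraMap (algebraicClosure k κ) κ).injective h]
        exact he'
    have h2 : e ∈ B₀ ↔ algebraMap (algebraicClosure k κ) κ e ∈ B := by
      rw [hB]
      constructor
      · intro h; exact ⟨e, h, rfl⟩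
      · rintro ⟨e', he', h⟩
        rw [← (algebraMap (algebraicClosure k κ) κ).injective h]
        exact he'
    rw [h1, h2]
  subst hB₁
  obtain ⟨F, _, V, r, hcoef, ⟨Dd⟩⟩ := b_tpl ℓ (algebraicClosure k κ) κ t' ht'0 halg
  obtain ⟨h31, h32, h33⟩ := b_gen3 ℓ (algebraicClosure k κ) κ R₀ R M₀ M x₀ x B₁ B Y₀ Y ι hPr F V r
    hcoef Dd
  have hGood : Good V B := by
    refine ⟨fun e he => ?_, fun e he e' he' hne => ?_⟩
    · obtain ⟨e₀, h⟩ := hBκ e he
      rw [← h]
      exact hcoef.mem e₀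
    · obtain ⟨e₀, h⟩ := hBκ e he
      obtain ⟨e₀', h'⟩ := hBκ e' he'
      refine ⟨sub_ne_zero.2 hne, ?_, ?_⟩
      · rw [← h, ← h', ← map_sub]
        exact hcoef.mem _
      · rw [← h, ← h', ← map_sub, ← map_inv₀]
        exact hcoef.mem _
  have hRot := a_gex ℓ κ R M x B Y hC F V r hcoef.res hGood Dd
  have hκ : ∀ (σ : κ ≃ₐ[K] κ) (c : algebraicClosure k κ), ∃ c' : algebraicClosure k κ,
      σ (algebraMap (algebraicClosure k κ) κ c) = algebraMap (algebraicClosure k κ) κ c' := by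
    intro σ c
    refine ⟨⟨σ (algebraMap (algebraicClosure k κ) κ c), ?_⟩, rfl⟩
    rw [mem_algebraicClosure_iff]
    have h1 : IsAlgebraic k (algebraMap (algebraicClosure k κ) κ c) :=
      mem_algebraicClosure_iff.1 c.2
    exact h1.algHom (σ.restrictScalars k : κ ≃ₐ[k] κ).toAlgHom
  have hgal₀ : Algebra.IsAlgebraic R₀ M₀ := by
    have := hPr.cov₀.gal
    infer_instance
  have hst := stable_range hPr.cov₀.rat hPr.const hPr.var hgal₀ h33 s hs hκ
  have hPT' : ∀ g : κ ≃ₐ[K] κ, (∀ c : algebraicClosure k κ,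
      g (algebraMap (algebraicClosure k κ) κ c) = algebraMap (algebraicClosure k κ) κ c) →
      g δ = δ → ∀ z₀, s g (ι z₀) = ι z₀ := by
    intro g hg hgδ z₀
    exact ptE hfg t' ht'0 halg hgen hkK ⟨t, rfl⟩ hPr hδ0 hs hst D hD0 hδ' hsep g hg hgδ z₀
  -- the element `τ`
  obtain ⟨a, ha⟩ := hDℓ
  obtain ⟨g, hgδ⟩ := exists_move hp t' ht'0 halg _ hD'0 a ha δ hδ'
  have hgc : ∀ c : algebraicClosure k κ, g (algebraMap (algebraicClosure k κ) κ c) =
      algebraMap (algebraicClosure k κ) κ c := fun c =>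
    g.commutes ⟨_, (IntermediateField.adjoin (algebraicClosure k κ) {t'}).algebraMap_mem c⟩
  let τ : κ ≃ₐ[K] κ := AlgEquiv.ofRingEquiv (f := (g : κ ≃+* κ))
    (fun z => g.commutes ⟨_, hKL z⟩)
  exact core a_exf a_unq a_stab a_conj ℓ (algebraicClosure k κ) κ R₀ R M₀ M x₀ x B₁ B Y₀ Y ι hPr
    h31 h32 h33 V hRot K δ hδ0 ⟨_, hδ⟩ s hs hκ hst hPT' τ hgc hgδ

end Pool.Agent.T6.H28.PE
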