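import Pool.Agent.Y157.GT.All

/-! # Descent of covering fields to algebraically closed subfields of finite transcendence degree -/

set_option autoImplicit false
set_option linter.all false

open Polynomial FF

namespace Pool.Agent.T6.H28.Tow

open Pool.Agent.Y157.PS Pool.Agent.Y157.GT Pool.Agent.Y474.GT

/-- every covering field over `κ` with branch points in `κ₀` comes from a covering field over `κ₀`,
which is algebraically closed in it and has the same Galois group -/
def Desc (ℓ : ℕ) (κ₀ κ : Type) [Field κ₀] [Field κ] [Algebra κ₀ κ] : Prop :=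
  ∀ (R M : Type) [Field R] [Field M] [Algebra κ R] [Algebra R M]
    [Algebra κ M] [IsScalarTower κ R M] (x : R) (B : Finset κ) (Y : M), Cov ℓ κ R M x B Y →
    (∀ e ∈ B, ∃ e₀ : κ₀, algebraMap κ₀ κ e₀ = e) →
    ∃ (R₀ M₀ : Type) (_ : Field R₀) (_ : Field M₀) (_ : Algebra κ₀ R₀) (_ : Algebra R₀ M₀)
      (_ : Algebra κ₀ M₀) (_ : IsScalarTower κ₀ R₀ M₀) (x₀ : R₀) (B₀ : Finset κ₀) (Y₀ : M₀)
      (ι : M₀ →+* M), Pair ℓ κ₀ κ R₀ R M₀ M x₀ x B₀ B Y₀ Y ι ∧
      (∀ γ : M ≃ₐ[R] M, (∀ z₀, γ (ι z₀) = ι z₀) → γ = 1) ∧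
      (∀ γ₀ : M₀ ≃ₐ[R₀] M₀, ∃ γ : M ≃ₐ[R] M, ∀ z₀, γ (ι z₀) = ι (γ₀ z₀)) ∧
      (∀ z : M, (∃ p : R₀[X], p ≠ 0 ∧ p.eval₂ (ι.comp (algebraMap R₀ M₀)) z = 0) →
        ∃ z₀, ι z₀ = z) ∧ ∃ V : ValuationSubring κ, HasRot κ R M x B Y V

/-- one transcendental element -/
theorem desc_one (ℓ : ℕ) [Fact ℓ.Prime] (κ₀ κ : Type) [Field κ₀] [IsAlgClosed κ₀] [CharZero κ₀]
    [Field κ] [IsAlgClosed κ] [Algebra κ₀ κ] (t : κ) (ht : Transcendental κ₀ t)
    (hal : Algebra.IsAlgebraic (IntermediateField.adjoin κ₀ {t}) κ) : Desc ℓ κ₀ κ := by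
  intro R M _ _ _ _ _ _ x B Y hC hB
  haveI : CharZero κ := charZero_of_injective_algebraMap (algebraMap κ₀ κ).injective
  obtain ⟨R₀, M₀, _, _, _, _, _, _, x₀, B₀, Y₀, ι, hPr⟩ := b_pair ℓ κ₀ κ R M x B Y hC hB
  obtain ⟨F, _, V, r, hcoef, ⟨Dd⟩⟩ := b_tpl ℓ κ₀ κ t ht hal
  obtain ⟨h31, h32, h33⟩ := b_gen3 ℓ κ₀ κ R₀ R M₀ M x₀ x B₀ B Y₀ Y ι hPr F V r hcoef Dd
  have hGood : Good V B := by
    refine ⟨fun e he => ?_, fun e he e' he' hne => ?_⟩
    · obtain ⟨e₀, h⟩ := hB e he
      rw [← h]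
      exact hcoef.mem e₀
    · obtain ⟨e₀, h⟩ := hB e he
      obtain ⟨e₀', h'⟩ := hB e' he'
      refine ⟨sub_ne_zero.2 hne, ?_, ?_⟩
      · rw [← h, ← h', ← map_sub]
        exact hcoef.mem _
      · rw [← h, ← h', ← map_sub, ← map_inv₀]
        exact hcoef.mem _
  exact ⟨R₀, M₀, _, _, _, _, _, _, x₀, B₀, Y₀, ι, hPr, h31, h32, h33, V,
    a_gex ℓ κ R M x B Y hC F V r hcoef.res hGood Dd⟩

section pair

variable {ℓ : ℕ} {κ₀ κ R₀ R M₀ M : Type} [Field κ₀] [Field κ] [Field R₀] [Field R]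
    [Field M₀] [Field M] [Algebra κ₀ κ] [Algebra κ₀ R₀] [Algebra R₀ M₀] [Algebra κ₀ M₀]
    [IsScalarTower κ₀ R₀ M₀] [Algebra κ R] [Algebra R M] [Algebra κ M] [IsScalarTower κ R M]
    {x₀ : R₀} {x : R} {B₀ : Finset κ₀} {B : Finset κ} {Y₀ : M₀} {Y : M} {ι : M₀ →+* M}

/-- the rational function fields -/
theorem pair_R (h : Pair ℓ κ₀ κ R₀ R M₀ M x₀ x B₀ B Y₀ Y ι) :
    ∃ φ : R₀ →+* R, ∀ r, ι (algebraMap R₀ M₀ r) = algebraMap R M (φ r) := by
  have h1 : ∀ r : R₀, ∃ r' : R, ι (algebraMap R₀ M₀ r) = algebraMap R M r' := by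
    let S : IntermediateField κ₀ R₀ := ((algebraMap R M).fieldRange.comap
      (ι.comp (algebraMap R₀ M₀))).toIntermediateField (fun c => by
        rw [Subfield.mem_comap]
        refine ⟨algebraMap κ R (algebraMap κ₀ κ c), ?_⟩
        rw [← IsScalarTower.algebraMap_apply κ R M, ← h.const]
        show _ = ι (algebraMap R₀ M₀ (algebraMap κ₀ R₀ c))
        rw [← IsScalarTower.algebraMap_apply κ₀ R₀ M₀])
    have h3 : IntermediateField.adjoin κ₀ {x₀} ≤ S := by
      rw [IntermediateField.adjoin_simple_le_iff]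
      exact ⟨x, h.var.symm⟩
    intro r
    have h4 : r ∈ S := by
      apply h3
      rw [h.cov₀.rat.gen]
      trivial
    obtain ⟨r', hr'⟩ := h4
    exact ⟨r', hr'.symm⟩
  choose f hf using h1
  have hi := (algebraMap R M).injective
  exact ⟨{ toFun := f
           map_one' := hi (by rw [← hf]; simp)
           map_mul' := fun a b => hi (by rw [← hf, map_mul, map_mul, map_mul, hf, hf])
           map_zero' := hi (by rw [← hf]; simp)
           map_add' := fun a b => hi (by rw [← hf, map_add, map_add, map_add, hf, hf]) },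
    fun r => hf r⟩

/-- an automorphism of `M` over `R` induces an automorphism of `M₀` -/
theorem restr (h : Pair ℓ κ₀ κ R₀ R M₀ M x₀ x B₀ B Y₀ Y ι)
    (h33 : ∀ z : M, (∃ p : R₀[X], p ≠ 0 ∧ p.eval₂ (ι.comp (algebraMap R₀ M₀)) z = 0) →
        ∃ z₀, ι z₀ = z) (γ : M ≃ₐ[R] M) :
    ∃ γ₀ : M₀ ≃ₐ[R₀] M₀, ∀ z, γ (ι z) = ι (γ₀ z) := by
  obtain ⟨φ, hφ⟩ := pair_R h
  haveI := h.cov₀.gal
  have key : ∀ (γ : M ≃ₐ[R] M) (z : M₀), ∃ z₁, γ (ι z) = ι z₁ := by
    intro γ z
    obtain ⟨q, hq0, hqz⟩ := Algebra.IsAlgebraic.isAlgebraic (R := R₀) z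
    obtain ⟨z₁, hz₁⟩ := h33 (γ (ι z)) ⟨q, hq0, by
      have h3 : (γ : M →+* M) (q.eval₂ (ι.comp (algebraMap R₀ M₀)) (ι z)) =
          q.eval₂ ((γ : M →+* M).comp (ι.comp (algebraMap R₀ M₀))) ((γ : M →+* M) (ι z)) :=
        hom_eval₂ _ _ _ _
      have h4 : q.eval₂ (ι.comp (algebraMap R₀ M₀)) (ι z) = ι (aeval z q) := by
        rw [aeval_def]
        exact (hom_eval₂ q (algebraMap R₀ M₀) ι z).symm
      rw [h4, hqz, map_zero, map_zero] at h3
      rw [h3]
      change _ = q.eval₂ _ (γ (ι z))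
      congr 1
      ext r
      show ι (algebraMap R₀ M₀ r) = γ (ι (algebraMap R₀ M₀ r))
      rw [hφ, γ.commutes]⟩
    exact ⟨z₁, hz₁.symm⟩
  refine induced h (γ : M ≃+* M) (fun c => ?_) ?_ (key γ) (key γ⁻¹)
  · show γ (algebraMap κ M _) = _
    rw [IsScalarTower.algebraMap_apply κ R M, γ.commutes]
  · exact γ.commutes x

end pair

/-- two steps -/
theorem desc_trans (ℓ : ℕ) (κ₀ κ₁ κ : Type) [Field κ₀] [Field κ₁] [Field κ] [Algebra κ₀ κ₁]
    [Algebra κ₁ κ] [Algebra κ₀ κ] [IsScalarTower κ₀ κ₁ κ] (h01 : Desc ℓ κ₀ κ₁)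
    (h1 : Desc ℓ κ₁ κ) : Desc ℓ κ₀ κ := by
  intro R M _ _ _ _ _ _ x B Y hC hB
  obtain ⟨R₁, M₁, _, _, _, _, _, _, x₁, B₁, Y₁, ι₁, hP1, a1, a2, a3, a4⟩ := h1 R M x B Y hC
    (fun e he => by
      obtain ⟨e₀, h⟩ := hB e he
      exact ⟨algebraMap κ₀ κ₁ e₀, by rw [← IsScalarTower.algebraMap_apply κ₀ κ₁ κ, h]⟩)
  obtain ⟨R₀, M₀, _, _, _, _, _, _, x₀, B₀, Y₀, ι₀, hP0, b1, b2, b3, -⟩ := h01 R₁ M₁ x₁ B₁ Y₁ hP1.cov₀
    (fun e he => by
      obtain ⟨e₀, h⟩ := hB (algebraMap κ₁ κ e) ((hP1.branch _).2 ⟨e, he, rfl⟩)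
      refine ⟨e₀, (algebraMap κ₁ κ).injective ?_⟩
      rw [← IsScalarTower.algebraMap_apply κ₀ κ₁ κ, h])
  obtain ⟨φ, hφ⟩ := pair_R hP0
  refine ⟨R₀, M₀, _, _, _, _, _, _, x₀, B₀, Y₀, ι₁.comp ι₀, ⟨hP0.cov₀, hC, fun e => ?_, fun c => ?_,
    ?_, ?_⟩, ?_, ?_, ?_, a4⟩
  · rw [hP1.branch]
    constructor
    · rintro ⟨e₁, he₁, rfl⟩
      obtain ⟨e₀, he₀, rfl⟩ := (hP0.branch _).1 he₁
      exact ⟨e₀, he₀, IsScalarTower.algebraMap_apply κ₀ κ₁ κ _⟩
    · rintro ⟨e₀, he₀, rfl⟩
      exact ⟨algebraMap κ₀ κ₁ e₀, (hP0.branch _).2 ⟨e₀, he₀, rfl⟩,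
        (IsScalarTower.algebraMap_apply κ₀ κ₁ κ _).symm⟩
  · show ι₁ (ι₀ _) = _
    rw [hP0.const, hP1.const, ← IsScalarTower.algebraMap_apply κ₀ κ₁ κ]
  · show ι₁ (ι₀ _) = _
    rw [hP0.var, hP1.var]
  · show ι₁ (ι₀ _) = _
    rw [hP0.root, hP1.root]
  · intro γ hγ
    obtain ⟨γ₁, hγ₁⟩ := restr hP1 a3 γ
    have h2 : γ₁ = 1 := by
      apply b1
      intro z₀
      apply ι₁.injective
      rw [← hγ₁]
      exact hγ z₀
    apply a1
    intro z₀
    rw [hγ₁, h2]
    rfl
  · intro γ₀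
    obtain ⟨γ₁, hγ₁⟩ := b2 γ₀
    obtain ⟨γ, hγ⟩ := a2 γ₁
    refine ⟨γ, fun z₀ => ?_⟩
    show γ (ι₁ (ι₀ z₀)) = ι₁ (ι₀ (γ₀ z₀))
    rw [hγ, hγ₁]
  · rintro z ⟨p, hp0, hpz⟩
    have he : (ι₁.comp ι₀).comp (algebraMap R₀ M₀) = (ι₁.comp (algebraMap R₁ M₁)).comp φ := by
      ext r
      show ι₁ (ι₀ (algebraMap R₀ M₀ r)) = ι₁ (algebraMap R₁ M₁ (φ r))
      rw [hφ]
    obtain ⟨z₁, rfl⟩ := a3 z ⟨p.map φ, (Polynomial.map_ne_zero_iff φ.injective).2 hp0, by
      rw [eval₂_map, ← he]
      exact hpz⟩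
    obtain ⟨z₀, hz₀⟩ := b3 z₁ ⟨p, hp0, by
      apply ι₁.injective
      rw [map_zero, ← hpz]
      exact hom_eval₂ _ _ _ _⟩
    exact ⟨z₀, by rw [← hz₀]; rfl⟩

/-- algebraic extensions of larger subfields -/
theorem alg_le {F F' κ : Type} [Field F] [Field F'] [Field κ] [Algebra F κ] [Algebra F' κ]
    (L : IntermediateField F κ) (L' : IntermediateField F' κ) (h : ∀ z ∈ L, z ∈ L')
    (hL : Algebra.IsAlgebraic L κ) : Algebra.IsAlgebraic L' κ := by
  let φ : L →+* L' := (algebraMap L κ).codRestrict L'.toSubfield.toSubring (fun z => h _ z.2)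
  letI : Algebra L L' := φ.toAlgebra
  haveI : IsScalarTower L L' κ := IsScalarTower.of_algebraMap_eq fun z => rfl
  exact Algebra.IsAlgebraic.tower_top (K := L) L'

/-- finitely many generators -/
theorem desc_fin (ℓ : ℕ) [Fact ℓ.Prime] (κ : Type) [Field κ] [IsAlgClosed κ] :
    ∀ (s : Finset κ) (κ₀ : Type) [Field κ₀] [IsAlgClosed κ₀] [CharZero κ₀] [Algebra κ₀ κ] (a : κ),
      Transcendental κ₀ a →
      Algebra.IsAlgebraic (IntermediateField.adjoin κ₀ (insert a (s : Set κ))) κ →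
      Desc ℓ κ₀ κ := by
  classical
  intro s
  induction s using Finset.induction_on with
  | empty =>
    intro κ₀ _ _ _ _ a ha hal
    refine desc_one ℓ κ₀ κ a ha (alg_le _ _ (fun z hz => ?_) hal)
    rwa [Finset.coe_empty, insert_empty_eq] at hz
  | insert b s hb ih =>
    intro κ₀ _ _ _ _ a ha hal
    haveI : CharZero κ := charZero_of_injective_algebraMap (algebraMap κ₀ κ).injective
    obtain ⟨L, hL⟩ : ∃ L : IntermediateField κ₀ κ, L = IntermediateField.adjoin κ₀ {a} := ⟨_, rfl⟩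
    by_cases hbL : IsAlgebraic L b
    · -- `b` is superfluous
      apply ih κ₀ a ha
      set L' := IntermediateField.adjoin κ₀ (insert a ((insert b s : Finset κ) : Set κ)) with hL'
      set L'' := IntermediateField.adjoin κ₀ (insert a (s : Set κ)) with hL''
      have hLL : ∀ z ∈ L, z ∈ L'' := by
        intro z hz
        rw [hL] at hz
        exact IntermediateField.adjoin.mono κ₀ _ _ (by
          intro y hy
          rw [Set.mem_singleton_iff] at hy
          rw [hy]
          exact Set.mem_insert _ _) hz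
      have hle : L' ≤ (algebraicClosure L'' κ).restrictScalars κ₀ := by
        rw [hL', IntermediateField.adjoin_le_iff]
        intro y hy
        rw [Finset.coe_insert] at hy
        show y ∈ algebraicClosure L'' κ
        rcases Set.mem_insert_iff.1 hy with h1 | h1
        · have : y ∈ L'' := IntermediateField.subset_adjoin _ _ (by rw [h1]; exact Set.mem_insert _ _)
          exact (algebraicClosure L'' κ).algebraMap_mem ⟨y, this⟩
        · rcases Set.mem_insert_iff.1 h1 with h2 | h2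
          · rw [mem_algebraicClosure_iff, h2]
            obtain ⟨q, hq0, hq⟩ := hbL
            let φ : L →+* L'' := (algebraMap L κ).codRestrict L''.toSubfield.toSubring
              (fun z => hLL _ z.2)
            refine ⟨q.map φ, (Polynomial.map_ne_zero_iff φ.injective).2 hq0, ?_⟩
            rw [aeval_def, eval₂_map]
            exact hq
          · have : y ∈ L'' := IntermediateField.subset_adjoin _ _ (Set.mem_insert_of_mem _ h2)
            exact (algebraicClosure L'' κ).algebraMap_mem ⟨y, this⟩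
      haveI : Algebra.IsAlgebraic (algebraicClosure L'' κ) κ := alg_le L' (algebraicClosure L'' κ)
        (fun z hz => hle hz) hal
      exact Algebra.IsAlgebraic.trans L'' (algebraicClosure L'' κ) κ
    · -- `b` is transcendental over the algebraic closure
      haveI : IsAlgClosed (algebraicClosure L κ) := IsAlgClosure.isAlgClosed L
      haveI : IsScalarTower κ₀ (algebraicClosure L κ) κ :=
        IsScalarTower.of_algebraMap_eq fun c => rfl
      haveI : CharZero (algebraicClosure L κ) :=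
        charZero_of_injective_algebraMap (algebraMap κ₀ (algebraicClosure L κ)).injective
      have haL : a ∈ L := by rw [hL]; exact IntermediateField.mem_adjoin_simple_self κ₀ a
      obtain ⟨a₁, ha₁⟩ : ∃ a₁ : algebraicClosure L κ, algebraMap (algebraicClosure L κ) κ a₁ = a :=
        ⟨algebraMap L (algebraicClosure L κ) ⟨a, haL⟩, rfl⟩
      have h01 : Desc ℓ κ₀ (algebraicClosure L κ) := by
        refine desc_one ℓ κ₀ (algebraicClosure L κ) a₁ (fun h => ha ?_) ?_
        · rw [← ha₁]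
          exact h.algebraMap
        · have h1 : ∀ z ∈ L, ∃ z₁ ∈ IntermediateField.adjoin κ₀ {a₁},
              algebraMap (algebraicClosure L κ) κ z₁ = z := by
            intro z hz
            have h4 : (IntermediateField.adjoin κ₀ {a₁}).map
                (IsScalarTower.toAlgHom κ₀ (algebraicClosure L κ) κ) = L := by
              rw [IntermediateField.adjoin_map, Set.image_singleton]
              show IntermediateField.adjoin κ₀ {algebraMap (algebraicClosure L κ) κ a₁} = L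
              rw [ha₁, ← hL]
            rw [← h4] at hz
            obtain ⟨z₁, h5, h6⟩ := hz
            exact ⟨z₁, h5, h6⟩
          let φ : L →+* IntermediateField.adjoin κ₀ {a₁} :=
            (algebraMap L (algebraicClosure L κ)).codRestrict
              (IntermediateField.adjoin κ₀ {a₁}).toSubfield.toSubring (fun z => by
                obtain ⟨z₁, h5, h6⟩ := h1 _ z.2
                have h7 : z₁ = algebraMap L (algebraicClosure L κ) z := by
                  apply (algebraMap (algebraicClosure L κ) κ).injective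
                  rw [h6]
                  rfl
                rw [← h7]
                exact h5)
          letI : Algebra L (IntermediateField.adjoin κ₀ {a₁}) := φ.toAlgebra
          haveI : IsScalarTower L (IntermediateField.adjoin κ₀ {a₁}) (algebraicClosure L κ) :=
            IsScalarTower.of_algebraMap_eq fun z => rfl
          exact Algebra.IsAlgebraic.tower_top (K := L) _
      have h1 : Desc ℓ (algebraicClosure L κ) κ := by
        apply ih (algebraicClosure L κ) b
        · intro h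
          apply hbL
          have : Algebra.IsAlgebraic L (algebraicClosure L κ) := inferInstance
          exact IsAlgebraic.restrictScalars L h
        · refine alg_le (IntermediateField.adjoin κ₀ (insert a ((insert b s : Finset κ) : Set κ))) _
            (fun z hz => ?_) hal
          have hle : IntermediateField.adjoin κ₀ (insert a ((insert b s : Finset κ) : Set κ)) ≤
              (IntermediateField.adjoin (algebraicClosure L κ)
                (insert b (s : Set κ))).restrictScalars κ₀ := by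
            rw [IntermediateField.adjoin_le_iff]
            intro y hy
            rw [Finset.coe_insert] at hy
            show y ∈ IntermediateField.adjoin (algebraicClosure L κ) (insert b (s : Set κ))
            rcases Set.mem_insert_iff.1 hy with h1 | h1
            · rw [h1, ← ha₁]
              exact IntermediateField.algebraMap_mem _ a₁
            · exact IntermediateField.subset_adjoin _ _ h1
          exact hle hz
      exact desc_trans ℓ κ₀ (algebraicClosure L κ) κ h01 h1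

end Pool.Agent.T6.H28.Tow
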