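import Pool.Agent.T6.H28.PtJ
import Pool.Agent.T6.H28.Tower

/-! # The abstract theorem: general form -/

set_option autoImplicit false
set_option linter.all false

open Polynomial FF

namespace Pool.Agent.T6.H28.PE

open Pool.Agent.Y157.PS Pool.Agent.Y157.GT Pool.Agent.Y474.GT

theorem gtJ (ℓ : ℕ) [Fact ℓ.Prime] (k K κ₀ κ R M : Type) [Field k] [CharZero k] [Field K]
    [CharZero K] [Field κ₀] [Algebra k κ₀] [IsAlgClosure k κ₀]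
    [Field κ] [Algebra κ₀ κ] [Algebra k κ] [IsScalarTower k κ₀ κ] [Algebra K κ] [IsAlgClosure K κ]
    [Field R] [Field M] [Algebra κ R]
    [Algebra R M] [Algebra κ M] [IsScalarTower κ R M]
    (hkK : ∀ c : k, ∃ b : K, algebraMap K κ b = algebraMap k κ c)
    (hdesc : Tow.Desc ℓ κ₀ κ)
    (δ : κ) (hδ0 : δ ≠ 0) (hδK : ∃ d : K, δ ^ ℓ = algebraMap K κ d)
    (x : R) (B : Finset κ) (Y : M) (hC : Cov ℓ κ R M x B Y)
    (B₀ : Finset κ₀) (hB : ∀ e, e ∈ B ↔ ∃ e₀ ∈ B₀, algebraMap κ₀ κ e₀ = e)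
    (s : (κ ≃ₐ[K] κ) →* RingAut M) (hs : Sec K κ R M x Y δ s)
    (hsep : ∀ (R₀ M₀ : Type) [Field R₀] [Field M₀] [Algebra κ₀ R₀] [Algebra R₀ M₀] [Algebra κ₀ M₀]
      [IsScalarTower κ₀ R₀ M₀] (x₀ : R₀) (Y₀ : M₀) (ι : M₀ →+* M),
      Pair ℓ κ₀ κ R₀ R M₀ M x₀ x B₀ B Y₀ Y ι → (∀ σ z₀, ∃ z₁, s σ (ι z₀) = ι z₁) →
      ∀ w : κ, w ≠ 0 →
      w ^ (ℓ ^ 2) ∈ IntermediateField.adjoin κ₀ (Set.range (algebraMap K κ)) →
      (∀ g : κ ≃ₐ[K] κ, (∀ c, g (algebraMap κ₀ κ c) = algebraMap κ₀ κ c) →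
        (∀ z₀, s g (ι z₀) = ι z₀) → g w = w) →
      ∃ r : ℕ, w * δ ^ r ∈ IntermediateField.adjoin κ₀ (Set.range (algebraMap K κ)))
    (hτ : ∃ g : κ ≃ₐ[K] κ, (∀ c, g (algebraMap κ₀ κ c) = algebraMap κ₀ κ c) ∧ g δ ≠ δ) :
    ∃ W : Place κ M, (∃ e ∈ B, 0 < W.ord (algebraMap R M x - algebraMap κ M e) ∧
        ∀ σ : κ ≃ₐ[K] κ, σ e = e) ∧
      (∀ σ : κ ≃ₐ[K] κ, Fixes W (s σ)) ∧
      ∀ W' : Place κ M, (∃ e ∈ B, 0 < W'.ord (algebraMap R M x - algebraMap κ M e)) →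
        (∀ σ : κ ≃ₐ[K] κ, Fixes W' (s σ)) → W' = W := by
  haveI hac : IsAlgClosed κ := IsAlgClosure.isAlgClosed K
  haveI : IsAlgClosed κ₀ := IsAlgClosure.isAlgClosed k
  haveI : CharZero κ₀ := charZero_of_injective_algebraMap (algebraMap k κ₀).injective
  haveI : CharZero κ := charZero_of_injective_algebraMap (algebraMap K κ).injective
  haveI : Algebra.IsAlgebraic k κ₀ := (inferInstance : IsAlgClosure k κ₀).isAlgebraic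
  have hBκ : ∀ e ∈ B, ∃ e₀ : κ₀, algebraMap κ₀ κ e₀ = e := by
    intro e he
    obtain ⟨e₀, -, h⟩ := (hB e).1 he
    exact ⟨e₀, h⟩
  obtain ⟨R₀, M₀, _, _, _, _, _, _, x₀, B₁, Y₀, ι, hPr, h31, h32, h33, V, hRot⟩ :=
    hdesc R M x B Y hC hBκ
  have hB₁ : B₁ = B₀ := by
    ext e
    have h1 : e ∈ B₁ ↔ algebraMap κ₀ κ e ∈ B := by
      rw [hPr.branch]
      constructor
      · intro h; exact ⟨e, h, rfl⟩
      · rintro ⟨e', he', h⟩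
        rw [← (algebraMap κ₀ κ).injective h]
        exact he'
    have h2 : e ∈ B₀ ↔ algebraMap κ₀ κ e ∈ B := by
      rw [hB]
      constructor
      · intro h; exact ⟨e, h, rfl⟩
      · rintro ⟨e', he', h⟩
        rw [← (algebraMap κ₀ κ).injective h]
        exact he'
    rw [h1, h2]
  subst hB₁
  have hκ : ∀ (σ : κ ≃ₐ[K] κ) (c : κ₀), ∃ c' : κ₀,
      σ (algebraMap κ₀ κ c) = algebraMap κ₀ κ c' := fun σ c =>
    map_bot (k₁ := k) (κ₀ := κ₀) (σ : κ ≃+* κ) (fun a => by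
      obtain ⟨b, hb⟩ := hkK a
      show σ (algebraMap k κ a) = algebraMap k κ a
      rw [← hb, AlgEquiv.commutes]) c
  have hgal₀ : Algebra.IsAlgebraic R₀ M₀ := by
    have := hPr.cov₀.gal
    infer_instance
  have hst := stable_range hPr.cov₀.rat hPr.const hPr.var hgal₀ h33 s hs hκ
  have hPT' : ∀ g : κ ≃ₐ[K] κ, (∀ c : κ₀, g (algebraMap κ₀ κ c) = algebraMap κ₀ κ c) →
      g δ = δ → ∀ z₀, s g (ι z₀) = ι z₀ := by
    intro g hg hgδ z₀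
    exact ptJ _ rfl hPr hδ0 hδK hs hst (hsep R₀ M₀ x₀ Y₀ ι hPr hst) g hg hgδ z₀
  obtain ⟨τ, hτc, hτδ⟩ := hτ
  exact core a_exf a_unq a_stab a_conj ℓ κ₀ κ R₀ R M₀ M x₀ x B₁ B Y₀ Y ι hPr
    h31 h32 h33 V hRot K δ hδ0 hδK s hs hκ hst hPT' τ hτc hτδ

end Pool.Agent.T6.H28.PE
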