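import Pool.Agent.T6.H28.Test2

/-! # The test, for two arbitrary `p`-adic embeddings -/

set_option autoImplicit false
set_option linter.all false

open Polynomial FF

namespace Pool.Agent.T6.H28.PE

open Pool.Agent.Y157.PS Pool.Agent.Y157.GT Pool.Agent.Y474.GT

variable {p : ℕ} [hp : Fact p.Prime]

theorem testJ {ℓ : ℕ} [Fact ℓ.Prime] (hne : ℓ ≠ p)
    {k K κ₀ κ R₀ R M₀ M : Type} [Field k] [CharZero k] [Field K] [CharZero K] [Field κ₀]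
    [Algebra k κ₀] [IsAlgClosure k κ₀] [Field κ] [Algebra κ₀ κ] [Algebra k κ]
    [IsScalarTower k κ₀ κ] [Algebra K κ] [IsAlgClosure K κ]
    [Field R₀] [Field R] [Field M₀] [Field M] [Algebra κ₀ R₀]
    [Algebra R₀ M₀] [Algebra κ₀ M₀] [IsScalarTower κ₀ R₀ M₀] [Algebra κ R] [Algebra R M]
    [Algebra κ M] [IsScalarTower κ R M]
    (hkK : ∀ c : k, ∃ b : K, algebraMap K κ b = algebraMap k κ c)
    {x₀ : R₀} {x : R} {B₀ : Finset κ₀} {B : Finset κ} {Y₀ : M₀} {Y : M} {ι : M₀ →+* M}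
    (h : Pair ℓ κ₀ κ R₀ R M₀ M x₀ x B₀ B Y₀ Y ι) {δ : κ} (hδ0 : δ ≠ 0)
    (hδK : ∃ d : K, δ ^ ℓ = algebraMap K κ d)
    {s : (κ ≃ₐ[K] κ) →* RingAut M} (hs : Sec K κ R M x Y δ s)
    (hst : ∀ σ z₀, ∃ z₁, s σ (ι z₀) = ι z₁)
    {N : ℕ} (hN : 0 < N) (w : κ) (hw0 : w ≠ 0)
    (j : κ₀ →+* PadicAlgCl p) (hgood : Good (Aq j) B₀)
    (E : IntermediateField ℚ_[p] (PadicAlgCl p)) [FiniteDimensional ℚ_[p] E]
    (hkE : ∀ c : k, j (algebraMap k κ₀ c) ∈ E)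
    (J₀ J₁ : κ →+* PadicAlgCl p)
    (hJ₀ : ∀ c, J₀ (algebraMap κ₀ κ c) = j c) (hJ₁ : ∀ c, J₁ (algebraMap κ₀ κ c) = j c)
    (hK₀ : ∀ c : K, J₀ (algebraMap K κ c) ∈ E) (hK₁ : ∀ c : K, J₁ (algebraMap K κ c) ∈ E)
    (h1 : ∃ e ∈ E, ‖J₀ δ‖ = ‖e‖) (h1' : ∃ e ∈ E, ‖J₁ δ‖ = ‖e‖)
    (hw₀ : (J₀ w) ^ N ∈ E) (hw₁ : (J₁ w) ^ N ∈ E)
    (h2 : ¬ ∃ e ∈ E, ‖J₀ w / J₁ w‖ = ‖e‖) :
    ∃ g : κ ≃ₐ[K] κ, (∀ c, g (algebraMap κ₀ κ c) = algebraMap κ₀ κ c) ∧ g w ≠ w ∧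
      ∀ z₀, s g (ι z₀) = ι z₀ := by
  classical
  haveI : Algebra.IsAlgebraic k κ₀ := (inferInstance : IsAlgClosure k κ₀).isAlgebraic
  haveI : IsAlgClosed κ₀ := IsAlgClosure.isAlgClosed k
  haveI : IsAlgClosed κ := IsAlgClosure.isAlgClosed K
  haveI : Algebra.IsAlgebraic K κ := (inferInstance : IsAlgClosure K κ).isAlgebraic
  obtain ⟨d, hd⟩ := hδK
  have hℓ0 : ℓ ≠ 0 := (Fact.out : ℓ.Prime).ne_zero
  have hd0 : d ≠ 0 := by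
    rintro rfl
    rw [map_zero] at hd
    exact pow_ne_zero _ hδ0 hd
  have hJw : ∀ J : κ →+* PadicAlgCl p, J w ≠ 0 := fun J => (_root_.map_ne_zero J).2 hw0
  -- the element of the inertia group
  have hz : (J₀ w / J₁ w) ^ N = (J₀ w) ^ N / (J₁ w) ^ N := div_pow _ _ _
  have h2' : ¬ ∃ e ∈ E, ‖(J₀ w) ^ N / (J₁ w) ^ N‖ = ‖e‖ ^ N := by
    rintro ⟨e, he, h3⟩
    apply h2
    refine ⟨e, he, ?_⟩
    rw [← div_pow, norm_pow] at h3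
    exact (pow_left_inj₀ (norm_nonneg _) (norm_nonneg _) hN.ne').1 h3
  obtain ⟨τ, hτ, hτz⟩ := move E hN (div_mem hw₀ hw₁)
    (div_ne_zero (pow_ne_zero _ (hJw J₀)) (pow_ne_zero _ (hJw J₁))) hz h2'
  have hfixδ : ∀ J : κ →+* PadicAlgCl p, (∀ c : K, J (algebraMap K κ c) ∈ E) →
      (∃ e ∈ E, ‖J δ‖ = ‖e‖) → τ (J δ) = J δ := by
    rintro J hJ ⟨e, he, hne'⟩
    refine fixE (ℓ := ℓ) E hne (d := J (algebraMap K κ d)) (e := e) ?_ (hJ d) ?_ he ?_ τ hτ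
    · rw [← map_pow, hd]
    · exact (_root_.map_ne_zero J).2 ((_root_.map_ne_zero _).2 hd0)
    · rw [← hd, map_pow, norm_pow, hne']
  have hτδ₀ : τ (J₀ δ) = J₀ δ := hfixδ J₀ hK₀ h1
  have hτδ₁ : τ (J₁ δ) = J₁ δ := hfixδ J₁ hK₁ h1'
  -- the field generated by `δ`
  set K₁ : IntermediateField K κ := IntermediateField.adjoin K {δ} with hK₁'
  have hgen₁ : ∀ S : Subfield κ, (∀ c : K, algebraMap K κ c ∈ S) → δ ∈ S →
      ∀ c : K₁, algebraMap K₁ κ c ∈ S := by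
    intro S hS1 hS3 c
    have h3 : K₁ ≤ S.toIntermediateField hS1 := by
      rw [hK₁', IntermediateField.adjoin_simple_le_iff]
      exact hS3
    exact h3 c.2
  set E₁ : IntermediateField ℚ_[p] (PadicAlgCl p) :=
    E ⊔ IntermediateField.adjoin ℚ_[p] {J₀ δ, J₁ δ} with hE₁
  haveI : FiniteDimensional ℚ_[p] (IntermediateField.adjoin ℚ_[p] {J₀ δ, J₁ δ}) :=
    IntermediateField.finiteDimensional_adjoin fun z _ =>
      (Algebra.IsAlgebraic.isAlgebraic z).isIntegral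
  haveI : FiniteDimensional ℚ_[p] E₁ := IntermediateField.finiteDimensional_sup _ _
  have hEE : ∀ z ∈ E, z ∈ E₁ := fun z hz => (le_sup_left : E ≤ E₁) hz
  have hJK : ∀ (J : κ →+* PadicAlgCl p), (∀ c : K, J (algebraMap K κ c) ∈ E) → J δ ∈ E₁ →
      ∀ c : K₁, J (algebraMap K₁ κ c) ∈ E₁ := by
    intro J hJ hJδ c
    exact hgen₁ (E₁.toSubfield.comap J) (fun c => hEE _ (hJ c)) hJδ c
  have hτK : ∀ (J : κ →+* PadicAlgCl p), (∀ c : K, J (algebraMap K κ c) ∈ E) → τ (J δ) = J δ →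
      ∀ c : K₁, τ (J (algebraMap K₁ κ c)) = J (algebraMap K₁ κ c) := by
    intro J hJ hJδ c
    exact hgen₁ ((((τ : PadicAlgCl p ≃+* PadicAlgCl p) : PadicAlgCl p →+* PadicAlgCl p).comp
      J).eqLocusField J) (fun c => τ.commutes ⟨_, hJ c⟩) hJδ c
  have hδ₀E : J₀ δ ∈ E₁ := (le_sup_right : _ ≤ E₁) (IntermediateField.subset_adjoin _ _ (by simp))
  have hδ₁E : J₁ δ ∈ E₁ := (le_sup_right : _ ≤ E₁) (IntermediateField.subset_adjoin _ _ (by simp))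
  haveI : Algebra.IsAlgebraic K₁ κ := Algebra.IsAlgebraic.tower_top (K := K) K₁
  haveI : IsAlgClosure K₁ κ := ⟨inferInstance, inferInstance⟩
  haveI : CharZero K₁ := charZero_of_injective_algebraMap (algebraMap K K₁).injective
  have hsL := sec_delta hδ0 hs K₁ (IntermediateField.mem_adjoin_simple_self K δ)
  obtain ⟨σ₀, σ₁, g0, g1, g2, g3⟩ := coreE hne (k := k) (K₁ := K₁) h (fun c => by
      obtain ⟨b, hb⟩ := hkK c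
      exact ⟨algebraMap K K₁ b, hb⟩) hsL (fun σ z₀ => hst _ z₀) j J₀ J₁ hJ₀ hJ₁ E₁
    (fun c => hEE _ (hkE c)) (hJK J₀ hK₀ hδ₀E) (hJK J₁ hK₁ hδ₁E) hgood
    E τ hτ (hτK J₀ hK₀ hτδ₀) (hτK J₁ hK₁ hτδ₁)
  refine ⟨resG (kk K₁) (σ₀ * σ₁), fun c => g2 c, ?_, g3⟩
  -- the action on `w`
  have hττ : ∀ z, τ (τ⁻¹ z) = z := fun z => by
    show (τ * τ⁻¹) z = z
    rw [mul_inv_cancel]; rfl
  have hinvE : ∀ z ∈ E, τ⁻¹ z = z := fun z hz => (τ⁻¹).commutes ⟨z, hz⟩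
  have hξ : (σ₁ w / w) ^ N = 1 := by
    apply J₁.injective
    rw [map_pow, map_div₀, g1, map_one, div_pow, ← map_pow, hinvE _ hw₁,
      div_self (pow_ne_zero _ (hJw J₁))]
  obtain ⟨ξ, hξ'⟩ := Pool.Agent.Y430.GT.mem_const (κ₀ := κ₀) hN hξ
  have hσ₁w : σ₁ w = algebraMap κ₀ κ ξ * w := by rw [hξ', div_mul_cancel₀ _ hw0]
  have hjξ : j ξ = τ⁻¹ (J₁ w) / J₁ w := by
    rw [← hJ₁, hξ', map_div₀, g1]
  show σ₀ (σ₁ w) ≠ w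
  intro hcon
  apply hτz
  have h5 : J₀ w = τ (j ξ) * τ (J₀ w) := by
    conv_lhs => rw [← hcon]
    rw [hσ₁w, g0, map_mul, map_mul, hJ₀]
  rw [hjξ, map_div₀, hττ] at h5
  have h6 : τ (J₁ w) ≠ 0 := (_root_.map_ne_zero τ).2 (hJw J₁)
  rw [map_div₀, div_eq_div_iff h6 (hJw J₁)]
  rw [div_mul_eq_mul_div, eq_div_iff h6] at h5
  rw [mul_comm (τ (J₀ w)), ← h5]

end Pool.Agent.T6.H28.PE
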