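import Pool.Agent.Y430.GT.Kup

/-! # A character which is not trivial on a subgroup with cyclic quotient, and its Kummer radical -/

set_option autoImplicit false
set_option linter.all false

open Polynomial

open scoped commutatorElement

namespace Pool.Agent.T6.H28.Kum

section group

/-- normal maximal subgroups contain the commutator subgroup -/
theorem comm_le_coatom {Q : Type} [Group Q] (M : Subgroup Q) [M.Normal] (hM : IsCoatom M) :
    commutator Q ≤ M := by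
  rw [commutator_def, Subgroup.commutator_le]
  intro g₁ _ g₂ _
  rw [← QuotientGroup.eq_one_iff]
  have h1 : (QuotientGroup.mk' M) ⁅g₁, g₂⁆ = ⁅(QuotientGroup.mk' M) g₁, (QuotientGroup.mk' M) g₂⁆ :=
    map_commutatorElement _ _ _
  show (QuotientGroup.mk' M) ⁅g₁, g₂⁆ = 1
  rw [h1, commutatorElement_eq_one_iff_commute]
  by_cases hg : g₁ ∈ M
  · have h2 : (QuotientGroup.mk' M) g₁ = 1 := (QuotientGroup.eq_one_iff g₁).2 hg
    rw [h2]
    exact Commute.one_left _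
  · have h3 : M ⊔ Subgroup.zpowers g₁ = ⊤ := by
      apply hM.2
      refine lt_of_le_of_ne le_sup_left fun h => hg ?_
      rw [h]
      exact (le_sup_right : Subgroup.zpowers g₁ ≤ _) (Subgroup.mem_zpowers g₁)
    have h4 : g₂ ∈ M ⊔ Subgroup.zpowers g₁ := by rw [h3]; trivial
    obtain ⟨m, hm, z, hz, hmz⟩ := Subgroup.mem_sup_of_normal_left.1 h4
    obtain ⟨i, rfl⟩ := Subgroup.mem_zpowers_iff.1 hz
    have h5 : (QuotientGroup.mk' M) m = 1 := (QuotientGroup.eq_one_iff m).2 hm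
    rw [← hmz, map_mul, h5, one_mul, map_zpow]
    exact (Commute.refl _).zpow_right i

/-- in a finite `ℓ`-group a nontrivial subgroup `L` with `G = ⟨q⟩ L` is not contained in the
commutator subgroup -/
theorem not_le_comm {Q : Type} [Group Q] [Finite Q] {ℓ : ℕ} [Fact ℓ.Prime] (hQ : IsPGroup ℓ Q)
    (L : Subgroup Q) (q : Q) (hq : Subgroup.zpowers q ⊔ L = ⊤) (hL : L ≤ commutator Q) :
    L = ⊥ := by
  haveI : Group.IsNilpotent Q := hQ.isNilpotent
  have hnc : NormalizerCondition Q := Group.normalizerCondition_of_isNilpotent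
  have hfr : commutator Q ≤ frattini Q := by
    rw [frattini, Order.radical]
    refine le_iInf₂ fun M hM => ?_
    haveI := Subgroup.NormalizerCondition.normal_of_coatom M hnc hM
    exact comm_le_coatom M hM
  have h1 : Subgroup.zpowers q ⊔ frattini Q = ⊤ := by
    rw [eq_top_iff, ← hq]
    exact sup_le_sup_left (hL.trans hfr) _
  have h2 : Subgroup.zpowers q = ⊤ := frattini_nongenerating h1
  have hcom : commutator Q = ⊥ := by
    rw [commutator_def, eq_bot_iff, Subgroup.commutator_le]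
    intro g₁ _ g₂ _
    have h3 : g₁ ∈ Subgroup.zpowers q := by rw [h2]; trivial
    have h4 : g₂ ∈ Subgroup.zpowers q := by rw [h2]; trivial
    obtain ⟨i, rfl⟩ := Subgroup.mem_zpowers_iff.1 h3
    obtain ⟨j, rfl⟩ := Subgroup.mem_zpowers_iff.1 h4
    rw [Subgroup.mem_bot, commutatorElement_eq_one_iff_commute]
    exact ((Commute.refl q).zpow_left i).zpow_right j
  rw [eq_bot_iff, ← hcom]
  exact hL

/-- a character which is nontrivial on `H` -/
theorem exists_char2 (ℓ : ℕ) [Fact ℓ.Prime] (κ₀ : Type) [Field κ₀] [IsAlgClosed κ₀] [CharZero κ₀]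
    {G P : Type} [Group G] [Group P] [Finite P] (hP : IsPGroup ℓ P) (θ : G →* P)
    (H : Subgroup G) (g₁ : G) (hg₁ : ∀ g : G, ∃ i : ℤ, g₁ ^ i * g ∈ H) (hpow : ∀ g : G, g ^ ℓ ∈ H)
    (hθ : ∃ h ∈ H, θ h ≠ 1) :
    ∃ χ : G →* κ₀ˣ, (∀ g, θ g = 1 → χ g = 1) ∧ (∀ g, χ g ^ (ℓ ^ 2) = 1) ∧ ∃ h ∈ H, χ h ≠ 1 := by
  classical
  have hQ : IsPGroup ℓ θ.range := hP.to_subgroup _
  set L : Subgroup θ.range := H.map θ.rangeRestrict with hLdef
  have hL0 : L ≠ ⊥ := by
    obtain ⟨h, hh, hne⟩ := hθ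
    intro hbot
    apply hne
    have h1 : θ.rangeRestrict h ∈ L := ⟨h, hh, rfl⟩
    rw [hbot, Subgroup.mem_bot] at h1
    exact congrArg Subtype.val h1
  have hsup : Subgroup.zpowers (θ.rangeRestrict g₁) ⊔ L = ⊤ := by
    rw [eq_top_iff]
    rintro ⟨_, g, rfl⟩ -
    obtain ⟨i, hi⟩ := hg₁ g
    have h1 : (⟨θ g, g, rfl⟩ : θ.range) =
        (θ.rangeRestrict g₁) ^ (-i) * θ.rangeRestrict (g₁ ^ i * g) := by
      rw [map_mul, map_zpow, ← mul_assoc, ← zpow_add, neg_add_cancel, zpow_zero, one_mul]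
      rfl
    rw [h1]
    exact mul_mem ((le_sup_left : Subgroup.zpowers (θ.rangeRestrict g₁) ≤ _)
      (Subgroup.zpow_mem_zpowers _ _)) ((le_sup_right : L ≤ _) ⟨_, hi, rfl⟩)
  have hnle : ¬ L ≤ commutator θ.range := fun h => hL0 (not_le_comm hQ L _ hsup h)
  obtain ⟨q, hqL, hq⟩ := Set.not_subset.1 hnle
  obtain ⟨h0, hh0, rfl⟩ := hqL
  have hq1 : Abelianization.of (θ.rangeRestrict h0) ≠ 1 := by
    intro h
    apply hq
    exact (QuotientGroup.eq_one_iff (θ.rangeRestrict h0)).1 h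
  have hexp : Monoid.exponent (Abelianization θ.range) ≠ 0 := Monoid.exponent_ne_zero_of_finite
  have : NeZero ((Monoid.exponent (Abelianization θ.range) : ℕ) : κ₀) :=
    ⟨by exact_mod_cast hexp⟩
  obtain ⟨φ, hφ⟩ := CommGroup.exists_apply_ne_one_of_hasEnoughRootsOfUnity
    (Abelianization θ.range) κ₀ hq1
  set χ₁ : G →* κ₀ˣ := φ.comp (Abelianization.of.comp θ.rangeRestrict) with hχ₁
  have h1 : ∀ g, θ g = 1 → χ₁ g = 1 := by
    intro g hg
    have : θ.rangeRestrict g = 1 := Subtype.ext hg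
    simp [hχ₁, this]
  have h2 : χ₁ h0 ≠ 1 := hφ
  obtain ⟨n, hn⟩ := IsPGroup.iff_card.1 hQ
  have h3 : ∃ n, ∀ h ∈ H, χ₁ h ^ (ℓ ^ n) = 1 := by
    refine ⟨n, fun g _ => ?_⟩
    have : θ.rangeRestrict g ^ (ℓ ^ n) = 1 := by rw [← hn]; exact pow_card_eq_one'
    rw [hχ₁, MonoidHom.comp_apply, MonoidHom.comp_apply, ← map_pow, ← map_pow, this, map_one,
      map_one]
  obtain ⟨e, he⟩ : ∃ e, e = Nat.find h3 := ⟨_, rfl⟩
  have hes : ∀ g ∈ H, χ₁ g ^ (ℓ ^ e) = 1 := by rw [he]; exact Nat.find_spec h3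
  have he0 : e ≠ 0 := by
    intro h0'
    have := hes h0 hh0
    rw [h0', pow_zero, pow_one] at this
    exact h2 this
  obtain ⟨e', rfl⟩ := Nat.exists_eq_succ_of_ne_zero he0
  have hmin : ¬ ∀ h ∈ H, χ₁ h ^ (ℓ ^ e') = 1 :=
    Nat.find_min h3 (by rw [← he]; exact Nat.lt_succ_self _)
  push Not at hmin
  obtain ⟨g2, hg2H, hg2⟩ := hmin
  refine ⟨χ₁ ^ (ℓ ^ e'), fun g hg => ?_, fun g => ?_, g2, hg2H, ?_⟩
  · rw [MonoidHom.pow_apply, h1 g hg, one_pow]
  · rw [MonoidHom.pow_apply, ← pow_mul, ← pow_add]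
    have h4 := hes _ (hpow g)
    rw [map_pow, ← pow_mul] at h4
    have h5 : ℓ * ℓ ^ e'.succ = ℓ ^ (e' + 2) := by
      rw [Nat.succ_eq_add_one]
      ring
    rw [h5] at h4
    exact h4
  · rw [MonoidHom.pow_apply]; exact hg2

end group

section kummer

/-- the Kummer radical of a character -/
theorem kummer (N : ℕ) (hN : 0 < N) (κ₀ κ : Type) [Field κ₀] [IsAlgClosed κ₀] [CharZero κ₀]
    [Field κ] [IsAlgClosed κ] [Algebra κ₀ κ] (ρ : κ) (hρ : Transcendental κ₀ ρ)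
    (halg : Algebra.IsAlgebraic (IntermediateField.adjoin κ₀ {ρ}) κ)
    (χ : (κ ≃ₐ[IntermediateField.adjoin κ₀ {ρ}] κ) →* κ₀ˣ) (hχ : ∀ g, χ g ^ N = 1)
    (hE : ∃ E : IntermediateField (IntermediateField.adjoin κ₀ {ρ}) κ,
        FiniteDimensional (IntermediateField.adjoin κ₀ {ρ}) E ∧
        ∀ g ∈ E.fixingSubgroup, χ g = 1) :
    ∃ (w : κ) (G : κ₀[X]), G.Monic ∧ w ^ N = aeval ρ G ∧
      ∀ g : κ ≃ₐ[IntermediateField.adjoin κ₀ {ρ}] κ, g w = algebraMap κ₀ κ (χ g : κ₀) * w := by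
  obtain ⟨E, hEf, hE1⟩ := hE
  have hcz : CharZero κ := charZero_of_injective_algebraMap (algebraMap κ₀ κ).injective
  have hcl : IsAlgClosure (IntermediateField.adjoin κ₀ {ρ}) κ := ⟨inferInstance, halg⟩
  have hGal : IsGalois (IntermediateField.adjoin κ₀ {ρ}) κ := IsAlgClosure.isGalois _ _
  -- the constants are fixed
  have hfixc : ∀ (g : κ ≃ₐ[IntermediateField.adjoin κ₀ {ρ}] κ) (c : κ₀),
      g (algebraMap κ₀ κ c) = algebraMap κ₀ κ c := by
    intro g c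
    rw [IsScalarTower.algebraMap_apply κ₀ (IntermediateField.adjoin κ₀ {ρ}) κ]
    exact g.commutes _
  have hfixp : ∀ (g : κ ≃ₐ[IntermediateField.adjoin κ₀ {ρ}] κ) (r : κ₀[X]),
      g (aeval ρ r) = aeval ρ r := by
    intro g r
    have h1 : aeval ρ r ∈ IntermediateField.adjoin κ₀ {ρ} := by
      rw [IntermediateField.mem_adjoin_simple_iff]
      exact ⟨r, 1, by simp⟩
    exact g.commutes ⟨aeval ρ r, h1⟩
  -- the resolvent
  obtain ⟨w0, hw0, hw1⟩ := Pool.Agent.Y655.PS.resolvent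
    (⊤ : Subgroup (κ ≃ₐ[IntermediateField.adjoin κ₀ {ρ}] κ))
    (fun g => algebraMap κ₀ κ (χ g : κ₀))
    (fun g _ => by
      rw [Ne, map_eq_zero_iff _ (algebraMap κ₀ κ).injective]
      exact (χ g).ne_zero)
    (fun g _ g' _ => by rw [map_mul, Units.val_mul, map_mul])
    (fun g _ g' _ => hfixc g _) E
    (fun g hg _ => by rw [hE1 g hg]; simp)
  have hw1' : ∀ g, g w0 = algebraMap κ₀ κ (χ g : κ₀) * w0 := fun g => hw1 g (Subgroup.mem_top g)
  -- its power is in the base field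
  have hu : w0 ^ N ∈ Set.range (algebraMap (IntermediateField.adjoin κ₀ {ρ}) κ) := by
    rw [InfiniteGalois.mem_range_algebraMap_iff_fixed]
    intro g
    rw [map_pow, hw1', mul_pow, ← map_pow, ← Units.val_pow_eq_pow_val, hχ, Units.val_one, map_one,
      one_mul]
  obtain ⟨⟨u, hu1⟩, hu2⟩ := hu
  rw [IntermediateField.mem_adjoin_simple_iff] at hu1
  obtain ⟨r, s, hrs⟩ := hu1
  have hu3 : w0 ^ N = aeval ρ r / aeval ρ s := by rw [← hrs, ← hu2]; rfl
  have hs0 : aeval ρ s ≠ 0 := by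
    intro h
    rw [h, div_zero] at hu3
    exact pow_ne_zero _ hw0 hu3
  have hr0 : aeval ρ r ≠ 0 := by
    intro h
    rw [h, zero_div] at hu3
    exact pow_ne_zero _ hw0 hu3
  have hsne : s ≠ 0 := by rintro rfl; simp at hs0
  have hrne : r ≠ 0 := by rintro rfl; simp at hr0
  obtain ⟨P, hP⟩ : ∃ P, P = r * s ^ (N - 1) := ⟨_, rfl⟩
  have hP0 : P ≠ 0 := by rw [hP]; exact mul_ne_zero hrne (pow_ne_zero _ hsne)
  have hlc0 : P.leadingCoeff ≠ 0 := leadingCoeff_ne_zero.2 hP0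
  obtain ⟨c, hc⟩ := IsAlgClosed.exists_pow_nat_eq P.leadingCoeff hN
  have hc0 : c ≠ 0 := by
    rintro rfl
    rw [zero_pow hN.ne'] at hc
    exact hlc0 hc.symm
  have hc0' : algebraMap κ₀ κ c ≠ 0 := (_root_.map_ne_zero _).2 hc0
  have hPρ : w0 ^ N * (aeval ρ s) ^ N = aeval ρ P := by
    rw [hu3, hP, map_mul, map_pow]
    have hpow : (aeval ρ s) ^ N = aeval ρ s * (aeval ρ s) ^ (N - 1) := by
      rw [← pow_succ']; congr 1; omega
    rw [hpow]
    field_simp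
  have hmon : (C P.leadingCoeff⁻¹ * P).Monic := by
    rw [Polynomial.Monic, leadingCoeff_mul, leadingCoeff_C, inv_mul_cancel₀ hlc0]
  refine ⟨w0 * aeval ρ s / algebraMap κ₀ κ c, C P.leadingCoeff⁻¹ * P, hmon, ?_, ?_⟩
  · rw [div_pow, mul_pow, hPρ, ← map_pow, hc, map_mul, aeval_C, map_inv₀]
    rw [div_eq_mul_inv, mul_comm]
  · intro g
    rw [map_div₀, map_mul, hfixp, hw1', hfixc]
    ring

end kummer

end Pool.Agent.T6.H28.Kum
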