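import Pool.Agent.T6.H28.MvSep
import Pool.Agent.T6.H28.GtJ
import Pool.Agent.T6.H28.GeoE

/-! # The abstract theorem for polynomials in several variables with linked components -/

set_option autoImplicit false
set_option linter.all false

open FF

namespace Pool.Agent.T6.H28.Mv

open MvPolynomial Pool.Agent.Y157.PS Pool.Agent.Y157.GT Pool.Agent.Y474.GT Pool.Agent.T6.H28.PE

/-- `P` is an irreducible factor of `D` whose multiplicity is not divisible by `ℓ` -/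
def Comp {κ₀ : Type} [Field κ₀] {n : ℕ} (ℓ : ℕ) (D P : MvPolynomial (Fin n) κ₀) : Prop :=
  Irreducible P ∧ ∃ m, ¬ ℓ ∣ m ∧ Ex P D m

/-- `P` and `P'` cross at some point -/
def Cross {κ₀ : Type} [Field κ₀] {n : ℕ} (ℓ : ℕ) (D P P' : MvPolynomial (Fin n) κ₀) : Prop :=
  ∃ z : Fin n → κ₀, eval z P = 0 ∧ eval z P' = 0 ∧
    (∃ i i', eval z (pderiv i P) * eval z (pderiv i' P') ≠
      eval z (pderiv i' P) * eval z (pderiv i P')) ∧
    ∀ Q, Comp ℓ D Q → eval z Q = 0 → Associated Q P ∨ Associated Q P'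

/-- the components of `D` are linked -/
def Linked {κ₀ : Type} [Field κ₀] {n : ℕ} (ℓ : ℕ) (D : MvPolynomial (Fin n) κ₀) : Prop :=
  (∃ P, Comp ℓ D P) ∧ ∀ P P', Comp ℓ D P → Comp ℓ D P' →
    Relation.EqvGen (fun Q Q' => Comp ℓ D Q ∧ Comp ℓ D Q' ∧
      (Associated Q Q' ∨ Cross ℓ D Q Q')) P P'

theorem comp_ne_zero {κ₀ : Type} [Field κ₀] {n : ℕ} {ℓ : ℕ} {D P : MvPolynomial (Fin n) κ₀}
    (h : Comp ℓ D P) : D ≠ 0 := by
  rintro rfl
  obtain ⟨-, m, -, h1⟩ := h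
  exact h1.2 (dvd_zero _)

section test

variable {ℓ : ℕ} [Fact ℓ.Prime]
    {k K κ₀ κ R₀ R M₀ M : Type} [Field k] [CharZero k] [Field K] [CharZero K] [Field κ₀]
    [Algebra k κ₀] [IsAlgClosure k κ₀] [Field κ] [Algebra κ₀ κ] [Algebra k κ]
    [IsScalarTower k κ₀ κ] [Algebra K κ] [IsAlgClosure K κ]
    [Field R₀] [Field R] [Field M₀] [Field M] [Algebra κ₀ R₀]
    [Algebra R₀ M₀] [Algebra κ₀ M₀] [IsScalarTower κ₀ R₀ M₀] [Algebra κ R] [Algebra R M]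
    [Algebra κ M] [IsScalarTower κ R M]
    {x₀ : R₀} {x : R} {B₀ : Finset κ₀} {B : Finset κ} {Y₀ : M₀} {Y : M} {ι : M₀ →+* M}

theorem sep (hfg : (⊤ : IntermediateField ℚ k).FG)
    (hkK : ∀ c : k, ∃ b : K, algebraMap K κ b = algebraMap k κ c)
    (h : Pair ℓ κ₀ κ R₀ R M₀ M x₀ x B₀ B Y₀ Y ι) {δ : κ} (hδ0 : δ ≠ 0)
    (hδK : ∃ d : K, δ ^ ℓ = algebraMap K κ d)
    {s : (κ ≃ₐ[K] κ) →* RingAut M} (hs : Sec K κ R M x Y δ s)
    (hst : ∀ σ z₀, ∃ z₁, s σ (ι z₀) = ι z₁)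
    {n : ℕ} (t : Fin n → κ) (ht : AlgebraicIndependent κ₀ t)
    (hal : Algebra.IsAlgebraic (IntermediateField.adjoin κ₀ (Set.range t)) κ)
    (C : Finset κ₀) (hgen : GenT k K κ₀ κ t C)
    (hLt : IntermediateField.adjoin κ₀ (Set.range (algebraMap K κ)) =
      IntermediateField.adjoin κ₀ (Set.range t))
    (D : MvPolynomial (Fin n) κ₀) (hD : δ ^ ℓ = aeval t D) (hlink : Linked ℓ D)
    (w : κ) (hw0 : w ≠ 0)
    (hwL : w ^ (ℓ ^ 2) ∈ IntermediateField.adjoin κ₀ (Set.range (algebraMap K κ)))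
    (hno : ∀ g : κ ≃ₐ[K] κ, (∀ c, g (algebraMap κ₀ κ c) = algebraMap κ₀ κ c) →
      (∀ z₀, s g (ι z₀) = ι z₀) → g w = w) :
    ∃ r : ℕ, w * δ ^ r ∈ IntermediateField.adjoin κ₀ (Set.range (algebraMap K κ)) := by
  classical
  haveI : IsAlgClosed κ₀ := IsAlgClosure.isAlgClosed k
  haveI : CharZero κ₀ := charZero_of_injective_algebraMap (algebraMap k κ₀).injective
  have hℓ : 0 < ℓ := (Fact.out : ℓ.Prime).pos
  have hN : 0 < ℓ ^ 2 := pow_pos hℓ 2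
  obtain ⟨⟨P₀, hP₀⟩, hcon⟩ := hlink
  have hD0 : D ≠ 0 := comp_ne_zero hP₀
  -- the polynomial `G`
  have hpolyL : ∀ A : MvPolynomial (Fin n) κ₀, aeval t A ∈
      IntermediateField.adjoin κ₀ (Set.range t) := by
    intro A
    rw [IntermediateField.mem_adjoin_range_iff]
    exact ⟨A, 1, by simp⟩
  rw [hLt] at hwL ⊢
  rw [IntermediateField.mem_adjoin_range_iff] at hwL
  obtain ⟨A, A', hAA⟩ := hwL
  have hA'0 : aeval t A' ≠ 0 := by
    intro h0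
    rw [h0, div_zero] at hAA
    exact pow_ne_zero _ hw0 hAA
  have hA0 : aeval t A ≠ 0 := by
    intro h0
    rw [h0, zero_div] at hAA
    exact pow_ne_zero _ hw0 hAA
  obtain ⟨G, hG⟩ : ∃ G, G = A * A' ^ (ℓ ^ 2 - 1) := ⟨_, rfl⟩
  obtain ⟨w', hw'⟩ : ∃ w' : κ, w' = w * aeval t A' := ⟨_, rfl⟩
  have hG0 : G ≠ 0 := by
    rw [hG]
    refine mul_ne_zero ?_ (pow_ne_zero _ ?_)
    · rintro rfl; exact hA0 (map_zero _)
    · rintro rfl; exact hA'0 (map_zero _)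
  have hw'N : w' ^ (ℓ ^ 2) = aeval t G := by
    rw [hw', mul_pow, hAA, hG, map_mul, map_pow]
    have hpow : (aeval t A' : κ) ^ (ℓ ^ 2) = aeval t A' * (aeval t A') ^ (ℓ ^ 2 - 1) := by
      rw [← pow_succ']; congr 1; omega
    rw [hpow]
    field_simp
  have hfixL : ∀ g : κ ≃ₐ[K] κ, (∀ c, g (algebraMap κ₀ κ c) = algebraMap κ₀ κ c) →
      ∀ z ∈ IntermediateField.adjoin κ₀ (Set.range t), g z = z := by
    intro g hg z hz
    rw [← hLt] at hz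
    exact fix_comp ((g : κ ≃+* κ) : κ →+* κ) hg (fun a => g.commutes a) hz
  have hno' : ∀ g : κ ≃ₐ[K] κ, (∀ c, g (algebraMap κ₀ κ c) = algebraMap κ₀ κ c) →
      (∀ z₀, s g (ι z₀) = ι z₀) → g w' = w' := by
    intro g hg1 hg2
    rw [hw', map_mul, hno g hg1 hg2, hfixL g hg1 _ (hpolyL A')]
  have gp := genpos hfg hkK h hδ0 hδK hs hst t ht hal C hgen D hD0 hD hN w' G hG0 hw'N hno'
  have cr := crossing hfg hkK h hδ0 hδK hs hst t ht hal C hgen D hD0 hD hN w' G hG0 hw'N hno'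
  have hcast : ∀ a : ℕ, ℓ ∣ a ↔ (a : ZMod ℓ) = 0 := fun a => (ZMod.natCast_eq_zero_iff a ℓ).symm
  -- the multiplicities in `G` of the components
  have gpc : ∀ P, Comp ℓ D P → ∀ m g, Ex P D m → Ex P G g → ¬ ℓ ∣ m ∧ ∃ γ, g = ℓ * γ := by
    rintro P ⟨hP, m', hm', hex⟩ m g hm hg
    rw [hex.unique hm] at hm'
    refine ⟨hm', ?_⟩
    have h1 := gp P hP m g hm hg ℓ hℓ (dvd_mul_right _ _)
    rw [pow_two] at h1
    obtain ⟨γ, hγ⟩ := Nat.dvd_of_mul_dvd_mul_left hℓ h1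
    exact ⟨γ, hγ⟩
  obtain ⟨hP₀i, m₀, hm₀, hex₀⟩ := hP₀
  obtain ⟨g₀, hg₀⟩ := exists_ex hP₀i hG0
  obtain ⟨-, γ₀, hγ₀⟩ := gpc P₀ ⟨hP₀i, m₀, hm₀, hex₀⟩ m₀ g₀ hex₀ hg₀
  have hm₀' : (m₀ : ZMod ℓ) ≠ 0 := fun h0 => hm₀ ((hcast _).2 h0)
  obtain ⟨r, hr⟩ : ∃ r : ℕ, (γ₀ : ZMod ℓ) + r * m₀ = 0 := by
    refine ⟨(-(γ₀ : ZMod ℓ) / m₀).val, ?_⟩
    rw [ZMod.natCast_val, ZMod.cast_id, div_mul_cancel₀ _ hm₀', add_neg_cancel]
  -- the relation
  let Rel : MvPolynomial (Fin n) κ₀ → Prop := fun P => ∀ m γ, Ex P D m → Ex P G (ℓ * γ) →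
    (γ : ZMod ℓ) + r * m = 0
  have hRel₀ : Rel P₀ := by
    intro m γ hm hγ
    rw [hm.unique hex₀]
    have h1 := hγ.unique hg₀
    rw [hγ₀] at h1
    rw [Nat.eq_of_mul_eq_mul_left hℓ h1]
    exact hr
  have hass : ∀ Q Q', Associated Q Q' → Rel Q → Rel Q' := by
    intro Q Q' hQQ hRel m γ hm hγ
    exact hRel m γ (hm.assoc hQQ.symm) (hγ.assoc hQQ.symm)
  have hcross : ∀ Q Q', Comp ℓ D Q → Comp ℓ D Q' → Cross ℓ D Q Q' → ¬ Associated Q Q' →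
      ∀ m γ m' γ', Ex Q D m → Ex Q G (ℓ * γ) → Ex Q' D m' → Ex Q' G (ℓ * γ') →
      (m' : ZMod ℓ) * γ = m * γ' := by
    rintro Q Q' hQ hQ' ⟨z, hz, hz', ⟨i, i', hΔ⟩, hoth⟩ hne m γ m' γ' e1 e2 e3 e4
    obtain ⟨a, ha⟩ : ∃ a : ℕ, a = ℓ + ((m' : ZMod ℓ)).val := ⟨_, rfl⟩
    obtain ⟨a', ha'⟩ : ∃ a' : ℕ, a' = ℓ + ((-(m : ZMod ℓ))).val := ⟨_, rfl⟩
    have hac : (a : ZMod ℓ) = m' := by
      rw [ha, Nat.cast_add, ZMod.natCast_self, zero_add, ZMod.natCast_val, ZMod.cast_id]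
    have hac' : (a' : ZMod ℓ) = -m := by
      rw [ha', Nat.cast_add, ZMod.natCast_self, zero_add, ZMod.natCast_val, ZMod.cast_id]
    have hlt := ZMod.val_lt (m' : ZMod ℓ)
    have hlt' := ZMod.val_lt (-(m : ZMod ℓ))
    have h1 := cr Q Q' hQ.1 hQ'.1 hne z hz hz' i i' hΔ (by
      intro P hP hPz hPQ hPQ' e he
      by_contra hnd
      rcases hoth P ⟨hP, e, hnd, he⟩ hPz with h2 | h2
      · exact hPQ h2
      · exact hPQ' h2) m m' (ℓ * γ) (ℓ * γ') e1 e3 e2 e4 a a' (by omega) (by omega) (by omega)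
      (by omega) (by
        rw [hcast]
        push_cast
        rw [hac, hac']
        ring)
    have h2 : a * (ℓ * γ) + a' * (ℓ * γ') = ℓ * (a * γ + a' * γ') := by ring
    rw [h2, pow_two] at h1
    have h3 := Nat.dvd_of_mul_dvd_mul_left hℓ h1
    rw [hcast] at h3
    push_cast at h3
    rw [hac, hac'] at h3
    linear_combination h3
  have hstep : ∀ Q Q', Comp ℓ D Q → Comp ℓ D Q' → (Associated Q Q' ∨ Cross ℓ D Q Q') →
      (Rel Q ↔ Rel Q') := by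
    intro Q Q' hQ hQ' hor
    by_cases hQQ : Associated Q Q'
    · exact ⟨hass Q Q' hQQ, hass Q' Q hQQ.symm⟩
    · have hcr := hor.resolve_left hQQ
      obtain ⟨hQi, mQ, hmQ, hexQ⟩ := hQ
      obtain ⟨hQi', mQ', hmQ', hexQ'⟩ := hQ'
      obtain ⟨gQ, hgQ⟩ := exists_ex hQi hG0
      obtain ⟨gQ', hgQ'⟩ := exists_ex hQi' hG0
      obtain ⟨-, γQ, rfl⟩ := gpc Q ⟨hQi, mQ, hmQ, hexQ⟩ mQ gQ hexQ hgQ
      obtain ⟨-, γQ', rfl⟩ := gpc Q' ⟨hQi', mQ', hmQ', hexQ'⟩ mQ' gQ' hexQ' hgQ'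
      have h1 := hcross Q Q' ⟨hQi, mQ, hmQ, hexQ⟩ ⟨hQi', mQ', hmQ', hexQ'⟩ hcr hQQ mQ γQ mQ' γQ'
        hexQ hgQ hexQ' hgQ'
      have hmc : (mQ : ZMod ℓ) ≠ 0 := fun h0 => hmQ ((hcast _).2 h0)
      have hmc' : (mQ' : ZMod ℓ) ≠ 0 := fun h0 => hmQ' ((hcast _).2 h0)
      constructor
      · intro hRel m γ hm hγ
        have h2 := hRel mQ γQ hexQ hgQ
        rw [hm.unique hexQ', Nat.eq_of_mul_eq_mul_left hℓ (hγ.unique hgQ')]
        have h3 : (mQ : ZMod ℓ) * ((γQ' : ZMod ℓ) + r * mQ') = 0 := by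
          linear_combination (mQ' : ZMod ℓ) * h2 - h1
        exact (mul_eq_zero.1 h3).resolve_left hmc
      · intro hRel m γ hm hγ
        have h2 := hRel mQ' γQ' hexQ' hgQ'
        rw [hm.unique hexQ, Nat.eq_of_mul_eq_mul_left hℓ (hγ.unique hgQ)]
        have h3 : (mQ' : ZMod ℓ) * ((γQ : ZMod ℓ) + r * mQ) = 0 := by
          linear_combination (mQ : ZMod ℓ) * h2 + h1
        exact (mul_eq_zero.1 h3).resolve_left hmc'
  have hgenr : ∀ Q Q', Relation.EqvGen (fun Q Q' => Comp ℓ D Q ∧ Comp ℓ D Q' ∧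
      (Associated Q Q' ∨ Cross ℓ D Q Q')) Q Q' → (Rel Q ↔ Rel Q') := by
    intro Q Q' hQQ
    induction hQQ with
    | rel a b hab => exact hstep a b hab.1 hab.2.1 hab.2.2
    | refl a => exact Iff.rfl
    | symm a b _ ih => exact ih.symm
    | trans a b c _ _ ih1 ih2 => exact ih1.trans ih2
  have hall : ∀ P, Comp ℓ D P → Rel P := fun P hP =>
    (hgenr P₀ P (hcon P₀ P ⟨hP₀i, m₀, hm₀, hex₀⟩ hP)).1 hRel₀
  -- `G D ^ (ℓ r)` is a power
  obtain ⟨A₂, H, hH, hA₂⟩ := split (fun _ => True) (ℓ ^ 2) (G * D ^ (ℓ * r))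
    (mul_ne_zero hG0 (pow_ne_zero _ hD0)) (by
    intro Q hQ _ e he
    obtain ⟨m, hm⟩ := exists_ex hQ hD0
    obtain ⟨g, hg⟩ := exists_ex hQ hG0
    have h1 := (hg.mul hQ (hm.pow hQ (ℓ * r))).unique he
    rw [← h1]
    by_cases hℓm : ℓ ∣ m
    · have h2 := gp Q hQ m g hm hg 1 one_pos (by rwa [one_mul])
      rw [one_mul] at h2
      refine dvd_add h2 ?_
      obtain ⟨m', rfl⟩ := hℓm
      exact ⟨r * m', by ring⟩
    · have hc : Comp ℓ D Q := ⟨hQ, m, hℓm, hm⟩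
      obtain ⟨-, γ, rfl⟩ := gpc Q hc m g hm hg
      have h2 := hall Q hc m γ hm hg
      have h3 : ((γ + r * m : ℕ) : ZMod ℓ) = 0 := by
        push_cast
        exact h2
      rw [← hcast] at h3
      obtain ⟨c, hc'⟩ := h3
      refine ⟨c, ?_⟩
      have h4 : ℓ * γ + ℓ * r * m = ℓ * (γ + r * m) := by ring
      rw [h4, hc']
      ring)
  have hA₂0 : A₂ ≠ 0 := by
    rintro rfl
    rw [zero_mul] at hH
    exact mul_ne_zero hG0 (pow_ne_zero _ hD0) hH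
  obtain ⟨c, hc0, rfl⟩ := exists_C hA₂0 (fun Q hQ => hA₂ Q hQ trivial)
  obtain ⟨c', hc'⟩ := IsAlgClosed.exists_pow_nat_eq c hN
  have hfin : (w' * δ ^ r) ^ (ℓ ^ 2) = (aeval t (MvPolynomial.C c' * H)) ^ (ℓ ^ 2) := by
    have h5 : (δ ^ r) ^ (ℓ ^ 2) = (aeval t D) ^ (ℓ * r) := by
      rw [← hD, ← pow_mul, ← pow_mul]
      congr 1
      ring
    rw [mul_pow, hw'N, h5, ← map_pow, ← map_mul, hH, ← map_pow, mul_pow, ← MvPolynomial.C_pow, hc']
  have hne : aeval t (MvPolynomial.C c' * H) ≠ 0 := by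
    intro h0
    rw [h0, zero_pow hN.ne'] at hfin
    have h1 : w' ≠ 0 := by
      rw [hw']
      exact mul_ne_zero hw0 hA'0
    exact pow_ne_zero _ (mul_ne_zero h1 (pow_ne_zero r hδ0)) hfin
  obtain ⟨ξ, hξ⟩ := Pool.Agent.Y430.GT.mem_const (κ₀ := κ₀) hN
    (w := w' * δ ^ r / aeval t (MvPolynomial.C c' * H)) (by
      rw [div_pow, hfin, div_self (pow_ne_zero _ hne)])
  refine ⟨r, ?_⟩
  have h6 : w * δ ^ r = algebraMap κ₀ κ ξ * aeval t (MvPolynomial.C c' * H) / aeval t A' := by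
    rw [hξ, div_mul_cancel₀ _ hne, hw', mul_right_comm, mul_div_assoc, div_self hA'0, mul_one]
  rw [h6]
  exact div_mem (mul_mem (IntermediateField.algebraMap_mem _ _) (hpolyL _)) (hpolyL _)

end test

/-- an element with `δ ^ ℓ = D(t)` is not in `κ₀(t)` -/
theorem exists_move {ℓ : ℕ} (hℓ : 0 < ℓ) {K κ₀ κ : Type} [Field κ₀] [CharZero κ₀]
    [Field K] [Field κ] [IsAlgClosed κ] [Algebra κ₀ κ] [Algebra K κ] {n : ℕ} (t : Fin n → κ)
    (ht : AlgebraicIndependent κ₀ t)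
    (hal : Algebra.IsAlgebraic (IntermediateField.adjoin κ₀ (Set.range t)) κ)
    (hLt : IntermediateField.adjoin κ₀ (Set.range (algebraMap K κ)) =
      IntermediateField.adjoin κ₀ (Set.range t))
    (D P : MvPolynomial (Fin n) κ₀) (hP : Comp ℓ D P) (δ : κ) (hδ : δ ^ ℓ = aeval t D) :
    ∃ g : κ ≃ₐ[K] κ, (∀ c, g (algebraMap κ₀ κ c) = algebraMap κ₀ κ c) ∧ g δ ≠ δ := by
  by_contra hcon
  push Not at hcon
  have hcz : CharZero κ := charZero_of_injective_algebraMap (algebraMap κ₀ κ).injective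
  set L := IntermediateField.adjoin κ₀ (Set.range t) with hL
  have hcL : CharZero L := charZero_of_injective_algebraMap (algebraMap κ₀ L).injective
  have hcl : IsAlgClosure L κ := ⟨inferInstance, hal⟩
  have hGal : IsGalois L κ := IsAlgClosure.isGalois _ _
  have hD0 := comp_ne_zero hP
  have h1 : δ ∈ Set.range (algebraMap L κ) := by
    rw [InfiniteGalois.mem_range_algebraMap_iff_fixed]
    intro g
    have hKL : ∀ a : K, algebraMap K κ a ∈ L := by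
      intro a
      rw [← hLt]
      exact IntermediateField.subset_adjoin _ _ ⟨a, rfl⟩
    exact hcon (AlgEquiv.ofRingEquiv (f := (g : κ ≃+* κ)) (fun z => g.commutes ⟨_, hKL z⟩))
      (fun c => g.commutes ⟨_, L.algebraMap_mem c⟩)
  obtain ⟨⟨u, hu⟩, rfl⟩ := h1
  rw [hL, IntermediateField.mem_adjoin_range_iff] at hu
  obtain ⟨A, A', hAA⟩ := hu
  have h2 : (u : κ) ^ ℓ = aeval t D := hδ
  have hDt : aeval t D ≠ 0 := fun h0 => hD0 (ht.eq_zero_of_aeval_eq_zero D h0)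
  have hA't : aeval t A' ≠ 0 := by
    intro h0
    rw [hAA, h0, div_zero, zero_pow hℓ.ne'] at h2
    exact hDt h2.symm
  have hAt : aeval t A ≠ 0 := by
    intro h0
    rw [hAA, h0, zero_div, zero_pow hℓ.ne'] at h2
    exact hDt h2.symm
  have hA'0 : A' ≠ 0 := by rintro rfl; simp at hA't
  have hA0 : A ≠ 0 := by rintro rfl; simp at hAt
  have h3 : aeval t (A ^ ℓ) = aeval t (D * A' ^ ℓ) := by
    rw [map_pow, map_mul, map_pow, ← h2, hAA, div_pow, div_mul_cancel₀]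
    exact pow_ne_zero _ hA't
  have h4 : A ^ ℓ = D * A' ^ ℓ := ht h3
  obtain ⟨hPi, m, hm, hex⟩ := hP
  obtain ⟨a, ha⟩ := exists_ex hPi hA0
  obtain ⟨a', ha'⟩ := exists_ex hPi hA'0
  have h5 := ha.pow hPi ℓ
  rw [h4] at h5
  have h6 := h5.unique (hex.mul hPi (ha'.pow hPi ℓ))
  apply hm
  have h7 : ℓ ∣ m + ℓ * a' := by
    rw [← h6]
    exact dvd_mul_right _ _
  exact (Nat.dvd_add_left (dvd_mul_right _ _)).1 h7

/-- the abstract theorem -/
theorem atMv {ℓ : ℕ} [Fact ℓ.Prime] {k K κ₀ κ : Type} [Field k] [CharZero k]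
    (hfg : (⊤ : IntermediateField ℚ k).FG) [Field K]
    [CharZero K] [Field κ₀] [Algebra k κ₀] [IsAlgClosure k κ₀]
    [Field κ] [Algebra κ₀ κ] [Algebra k κ] [IsScalarTower k κ₀ κ] [Algebra K κ] [IsAlgClosure K κ]
    (hkK : ∀ c : k, ∃ b : K, algebraMap K κ b = algebraMap k κ c)
    {n : ℕ} (t : Fin n → κ) (ht : AlgebraicIndependent κ₀ t)
    (C : Finset κ₀) (hgen : GenT k K κ₀ κ t C)
    (hLt : IntermediateField.adjoin κ₀ (Set.range (algebraMap K κ)) =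
      IntermediateField.adjoin κ₀ (Set.range t))
    (D : MvPolynomial (Fin n) κ₀) (hlink : Linked ℓ D)
    (δ : κ) (hδ : δ ^ ℓ = aeval t D) (hδK : ∃ d : K, δ ^ ℓ = algebraMap K κ d)
    (B : Finset κ) (B₀ : Finset κ₀) (hB : ∀ e, e ∈ B ↔ ∃ e₀ ∈ B₀, algebraMap κ₀ κ e₀ = e) :
    Geo.AT ℓ K κ B δ := by
  intro R M _ _ _ _ _ _ x Y hC s hs
  have hℓ : 0 < ℓ := (Fact.out : ℓ.Prime).pos
  haveI hac : IsAlgClosed κ := IsAlgClosure.isAlgClosed K
  haveI : IsAlgClosed κ₀ := IsAlgClosure.isAlgClosed k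
  haveI : CharZero κ₀ := charZero_of_injective_algebraMap (algebraMap k κ₀).injective
  haveI : Algebra.IsAlgebraic K κ := (inferInstance : IsAlgClosure K κ).isAlgebraic
  obtain ⟨P, hP⟩ := hlink.1
  have hD0 := comp_ne_zero hP
  have hδ0 : δ ≠ 0 := by
    rintro rfl
    rw [zero_pow hℓ.ne'] at hδ
    exact hD0 (ht.eq_zero_of_aeval_eq_zero D hδ.symm)
  have hKL : ∀ a : K, algebraMap K κ a ∈ IntermediateField.adjoin κ₀ (Set.range t) := by
    intro a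
    rw [← hLt]
    exact IntermediateField.subset_adjoin _ _ ⟨a, rfl⟩
  have hal : Algebra.IsAlgebraic (IntermediateField.adjoin κ₀ (Set.range t)) κ := by
    let φ : K →+* IntermediateField.adjoin κ₀ (Set.range t) := (algebraMap K κ).codRestrict
      (IntermediateField.adjoin κ₀ (Set.range t)).toSubfield.toSubring hKL
    letI : Algebra K (IntermediateField.adjoin κ₀ (Set.range t)) := φ.toAlgebra
    haveI : IsScalarTower K (IntermediateField.adjoin κ₀ (Set.range t)) κ :=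
      IsScalarTower.of_algebraMap_eq fun z => rfl
    exact Algebra.IsAlgebraic.tower_top (K := K) _
  -- there is at least one variable
  have hdesc : Tow.Desc ℓ κ₀ κ := by
    classical
    have hn : 0 < n := by
      rcases Nat.eq_zero_or_pos n with h0 | h0
      · exfalso
        subst h0
        apply hP.1.not_isUnit
        rw [eq_C_of_isEmpty P]
        refine (isUnit_iff_ne_zero.2 fun h1 => ?_).map MvPolynomial.C
        apply hP.1.ne_zero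
        rw [eq_C_of_isEmpty P, h1, C_0]
      · exact h0
    refine Tow.desc_fin ℓ κ (Finset.univ.image t) κ₀ (t ⟨0, hn⟩) (ht.transcendental _)
      (Tow.alg_le (IntermediateField.adjoin κ₀ (Set.range t)) _ (fun z hz => ?_) hal)
    refine IntermediateField.adjoin.mono κ₀ _ _ ?_ hz
    intro y hy
    obtain ⟨i, rfl⟩ := hy
    refine Set.mem_insert_of_mem _ ?_
    simp
  refine gtJ ℓ k K κ₀ κ R M hkK hdesc δ hδ0 hδK x B Y hC B₀ hB s hs ?_
    (exists_move hℓ t ht hal hLt D P hP δ hδ)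
  intro R₀ M₀ _ _ _ _ _ _ x₀ Y₀ ι hPr hst w hw0 hwL hno
  exact sep hfg hkK hPr hδ0 hδK hs hst t ht hal C hgen hLt D hδ hlink w hw0 hwL hno

end Pool.Agent.T6.H28.Mv
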