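import Pool.Agent.T6.H28.MvAt
import Pool.Agent.T6.H28.FinE

/-! # From geometrically rational function fields to the abstract theorem -/

set_option autoImplicit false
set_option linter.all false

open FF

namespace Pool.Agent.T6.H28.Mv

open MvPolynomial Pool.Agent.Y157.PS Pool.Agent.Y157.GT Pool.Agent.Y474.GT Pool.Agent.T6.H28.PE
  Pool.Agent.T6.H28.Geo

theorem ex_congr {κ₀ : Type} [Field κ₀] {n : ℕ} {D D' P : MvPolynomial (Fin n) κ₀}
    (h : Associated D D') (m : ℕ) (hm : Ex P D m) : Ex P D' m :=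
  ⟨(h.dvd_iff_dvd_right).1 hm.1, fun h1 => hm.2 ((h.dvd_iff_dvd_right).2 h1)⟩

theorem comp_congr {κ₀ : Type} [Field κ₀] {n : ℕ} {ℓ : ℕ} {D D' P : MvPolynomial (Fin n) κ₀}
    (h : Associated D D') (hP : Comp ℓ D P) : Comp ℓ D' P := by
  obtain ⟨h1, m, h2, h3⟩ := hP
  exact ⟨h1, m, h2, ex_congr h m h3⟩

theorem cross_congr {κ₀ : Type} [Field κ₀] {n : ℕ} {ℓ : ℕ} {D D' P P' : MvPolynomial (Fin n) κ₀}
    (h : Associated D D') (hP : Cross ℓ D P P') : Cross ℓ D' P P' := by
  obtain ⟨z, h1, h2, h3, h4⟩ := hP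
  exact ⟨z, h1, h2, h3, fun Q hQ => h4 Q (comp_congr h.symm hQ)⟩

theorem linked_congr {κ₀ : Type} [Field κ₀] {n : ℕ} {ℓ : ℕ} {D D' : MvPolynomial (Fin n) κ₀}
    (h : Associated D D') (hD : Linked ℓ D) : Linked ℓ D' := by
  obtain ⟨⟨P, hP⟩, h2⟩ := hD
  refine ⟨⟨P, comp_congr h hP⟩, fun P P' hP hP' => ?_⟩
  exact Relation.EqvGen.mono (fun Q Q' hQ => ⟨comp_congr h hQ.1, comp_congr h hQ.2.1,
    hQ.2.2.imp id (cross_congr h)⟩) _ _ (h2 P P' (comp_congr h.symm hP) (comp_congr h.symm hP'))

/-- a finitely generated field is generated by `k`, finitely many constants and `t` -/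
theorem exists_genT {k K κ₀ κ : Type} [Field k] [Field K] [Field κ₀] [Field κ] [Algebra k K]
    [Algebra k κ] [Algebra κ₀ κ] [Algebra K κ] [IsScalarTower k K κ]
    (hK : (⊤ : IntermediateField k K).FG) {n : ℕ} (t : Fin n → κ)
    (hL : ∀ a : K, algebraMap K κ a ∈ IntermediateField.adjoin κ₀ (Set.range t)) :
    ∃ C : Finset κ₀, GenT k K κ₀ κ t C := by
  classical
  obtain ⟨T, hT⟩ := hK
  have h1 : ∀ a : K, ∃ A A' : MvPolynomial (Fin n) κ₀,
      algebraMap K κ a = aeval t A / aeval t A' := by
    intro a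
    have := hL a
    rw [IntermediateField.mem_adjoin_range_iff] at this
    exact this
  choose A A' hA using h1
  refine ⟨T.biUnion (fun a => (A a).support.image (fun m => coeff m (A a)) ∪
    (A' a).support.image (fun m => coeff m (A' a))), fun S hk hC ht a => ?_⟩
  have hpoly : ∀ P : MvPolynomial (Fin n) κ₀, (∀ m ∈ P.support, algebraMap κ₀ κ (coeff m P) ∈ S) →
      aeval t P ∈ S := by
    intro P hP
    rw [aeval_def, eval₂_eq']
    exact sum_mem fun m hm => mul_mem (hP m hm) (prod_mem fun i _ => pow_mem (ht i) _)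
  have hmem : ∀ a ∈ T, algebraMap K κ a ∈ S := by
    intro a ha
    rw [hA a]
    refine div_mem (hpoly _ fun m hm => hC _ ?_) (hpoly _ fun m hm => hC _ ?_)
    · exact Finset.mem_biUnion.2 ⟨a, ha, Finset.mem_union_left _
        (Finset.mem_image.2 ⟨m, hm, rfl⟩)⟩
    · exact Finset.mem_biUnion.2 ⟨a, ha, Finset.mem_union_right _
        (Finset.mem_image.2 ⟨m, hm, rfl⟩)⟩
  let S' : IntermediateField k K := (S.comap (algebraMap K κ)).toIntermediateField (fun c => by
    rw [Subfield.mem_comap, ← IsScalarTower.algebraMap_apply]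
    exact hk c)
  have h2 : IntermediateField.adjoin k (T : Set K) ≤ S' := by
    rw [IntermediateField.adjoin_le_iff]
    intro y hy
    exact hmem y hy
  rw [hT] at h2
  exact h2 (IntermediateField.mem_top (x := a))

/-- the abstract theorem for geometrically rational function fields -/
theorem atR {ℓ : ℕ} [Fact ℓ.Prime] {k K : Type} [Field k] [CharZero k]
    (hfg : (⊤ : IntermediateField ℚ k).FG) [Field K] [Algebra k K]
    (hK : (⊤ : IntermediateField k K).FG)
    {n : ℕ} (t : Fin n → AlgebraicClosure K) (ht : AlgebraicIndependent k t)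
    (hLt : IntermediateField.adjoin (algebraicClosure k (AlgebraicClosure K))
        (Set.range (algebraMap K (AlgebraicClosure K))) =
      IntermediateField.adjoin (algebraicClosure k (AlgebraicClosure K)) (Set.range t))
    (f : Polynomial k) (hf : f ≠ 0)
    (D : MvPolynomial (Fin n) (algebraicClosure k (AlgebraicClosure K))) (hlink : Linked ℓ D)
    (d : K) (hd : aeval t D = algebraMap K (AlgebraicClosure K) d)
    (κ : Type) [Field κ] [Algebra K κ] [IsAlgClosure K κ] (δ : κ) (B : Finset κ)
    (hδ : δ ^ ℓ = algebraMap K κ (d / (f.map (algebraMap k K)).leadingCoeff))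
    (hB : ∀ e, e ∈ B ↔ Polynomial.aeval e (f.map (algebraMap k K)) = 0) : AT ℓ K κ B δ := by
  classical
  obtain ⟨κ₀, hκ₀⟩ : ∃ κ₀ : IntermediateField k (AlgebraicClosure K),
    κ₀ = algebraicClosure k (AlgebraicClosure K) := ⟨_, rfl⟩
  haveI : CharZero K := charZero_of_injective_algebraMap (algebraMap k K).injective
  let ψ : AlgebraicClosure K ≃ₐ[K] κ := IsAlgClosure.equiv K _ _
  letI : Algebra k κ := ((algebraMap K κ).comp (algebraMap k K)).toAlgebra
  haveI : IsScalarTower k K κ := IsScalarTower.of_algebraMap_eq fun _ => rfl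
  letI : Algebra (algebraicClosure k (AlgebraicClosure K)) κ :=
    ((ψ : AlgebraicClosure K →+* κ).comp
      (algebraMap (algebraicClosure k (AlgebraicClosure K)) (AlgebraicClosure K))).toAlgebra
  have hac : ∀ c : algebraicClosure k (AlgebraicClosure K),
      algebraMap (algebraicClosure k (AlgebraicClosure K)) κ c = ψ (c : AlgebraicClosure K) :=
    fun c => rfl
  haveI : IsScalarTower k (algebraicClosure k (AlgebraicClosure K)) κ := by
    refine IsScalarTower.of_algebraMap_eq fun c => ?_
    rw [hac]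
    show algebraMap K κ (algebraMap k K c) = ψ (algebraMap k (AlgebraicClosure K) c)
    rw [IsScalarTower.algebraMap_apply k K (AlgebraicClosure K), ψ.commutes]
  haveI : IsAlgClosure k (algebraicClosure k (AlgebraicClosure K)) := inferInstance
  let ψ' : AlgebraicClosure K →ₐ[algebraicClosure k (AlgebraicClosure K)] κ :=
    { (ψ : AlgebraicClosure K →+* κ) with commutes' := fun c => rfl }
  have hψ' : ∀ z, ψ' z = ψ z := fun z => rfl
  have ht₀ : AlgebraicIndependent (algebraicClosure k (AlgebraicClosure K)) t :=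
    ht.algebraicClosure
  have ht' : AlgebraicIndependent (algebraicClosure k (AlgebraicClosure K)) (fun i => ψ (t i)) :=
    ht₀.map' (f := ψ') ψ'.injective
  have hLt' : IntermediateField.adjoin (algebraicClosure k (AlgebraicClosure K))
      (Set.range (algebraMap K κ)) =
      IntermediateField.adjoin (algebraicClosure k (AlgebraicClosure K))
        (Set.range (fun i => ψ (t i))) := by
    have h1 := congrArg (IntermediateField.map ψ') hLt
    rw [IntermediateField.adjoin_map, IntermediateField.adjoin_map, ← Set.range_comp,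
      ← Set.range_comp] at h1
    have h2 : (ψ' : AlgebraicClosure K → κ) ∘ (algebraMap K (AlgebraicClosure K)) =
        algebraMap K κ := by
      funext a
      exact ψ.commutes a
    have h3 : (ψ' : AlgebraicClosure K → κ) ∘ t = fun i => ψ (t i) := rfl
    rw [h2, h3] at h1
    exact h1
  obtain ⟨C, hC⟩ := exists_genT (κ₀ := algebraicClosure k (AlgebraicClosure K)) (κ := κ) hK
    (fun i => ψ (t i)) (fun a => by
      rw [← hLt']
      exact IntermediateField.subset_adjoin _ _ ⟨a, rfl⟩)
  have hkK : ∀ c : k, ∃ b : K, algebraMap K κ b = algebraMap k κ c := fun c =>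
    ⟨algebraMap k K c, (IsScalarTower.algebraMap_apply k K κ c).symm⟩
  have hlc : f.leadingCoeff ≠ 0 := Polynomial.leadingCoeff_ne_zero.2 hf
  -- the branch points
  obtain ⟨B₀, hB₀⟩ : ∃ B₀ : Finset (algebraicClosure k (AlgebraicClosure K)),
      B₀ = (f.map (algebraMap k (algebraicClosure k (AlgebraicClosure K)))).roots.toFinset :=
    ⟨_, rfl⟩
  have hf0 : f.map (algebraMap k (algebraicClosure k (AlgebraicClosure K))) ≠ 0 :=
    (Polynomial.map_ne_zero_iff
      (algebraMap k (algebraicClosure k (AlgebraicClosure K))).injective).2 hf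
  have hmem : ∀ e, e ∈ B₀ ↔ Polynomial.aeval e f = 0 := by
    intro e
    rw [hB₀, Multiset.mem_toFinset, Polynomial.mem_roots hf0, Polynomial.IsRoot.def,
      Polynomial.eval_map_algebraMap]
  have hBB : ∀ e, e ∈ B ↔ ∃ e₀ ∈ B₀,
      algebraMap (algebraicClosure k (AlgebraicClosure K)) κ e₀ = e := by
    intro e
    rw [hB, Polynomial.aeval_map_algebraMap]
    constructor
    · intro h
      obtain ⟨y, hy⟩ := ψ.surjective e
      have h1 : Polynomial.aeval y f = 0 := by
        apply ψ.injective
        rw [map_zero]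
        have h2 := Polynomial.aeval_algHom_apply (ψ.toAlgHom.restrictScalars k) y f
        have h3 : (ψ.toAlgHom.restrictScalars k) y = e := hy
        rw [h3, h] at h2
        exact h2.symm
      refine ⟨⟨y, mem_algebraicClosure_iff.2 ⟨f, hf, h1⟩⟩, ?_, hy⟩
      rw [hmem]
      apply (algebraMap (algebraicClosure k (AlgebraicClosure K)) (AlgebraicClosure K)).injective
      rw [map_zero, ← Polynomial.aeval_algebraMap_apply]
      exact h1
    · rintro ⟨e₀, he₀, rfl⟩
      rw [hmem] at he₀
      rw [Polynomial.aeval_algebraMap_apply, he₀, map_zero]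
  -- the polynomial
  obtain ⟨c, hcdef⟩ : ∃ c : algebraicClosure k (AlgebraicClosure K),
      c = algebraMap k (algebraicClosure k (AlgebraicClosure K)) f.leadingCoeff⁻¹ := ⟨_, rfl⟩
  have hc0 : c ≠ 0 := by
    rw [hcdef]
    exact (_root_.map_ne_zero _).2 (inv_ne_zero hlc)
  have hass : Associated D (MvPolynomial.C c * D) := by
    have hu : IsUnit (MvPolynomial.C c : MvPolynomial (Fin n) _) :=
      (isUnit_iff_ne_zero.2 hc0).map MvPolynomial.C
    obtain ⟨u, hu⟩ := hu
    exact ⟨u, by rw [hu, mul_comm]⟩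
  refine atMv hfg hkK (fun i => ψ (t i)) ht' C hC hLt' (MvPolynomial.C c * D)
    (linked_congr hass hlink) δ ?_ ⟨_, hδ⟩ B B₀ hBB
  have h1 : aeval (fun i => ψ (t i)) D = algebraMap K κ d := by
    have h2 : aeval (fun i => ψ (t i)) D = ψ' (aeval t D) := by
      have h3 := MvPolynomial.comp_aeval_apply (φ := ψ') t D
      exact h3.symm
    rw [h2, hd, hψ', ψ.commutes]
  rw [hδ, map_mul, h1, Polynomial.leadingCoeff_map, map_div₀]
  have h2 : aeval (fun i => ψ (t i)) (MvPolynomial.C c :
      MvPolynomial (Fin n) (algebraicClosure k (AlgebraicClosure K))) =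
      (algebraMap K κ (algebraMap k K f.leadingCoeff))⁻¹ := by
    rw [MvPolynomial.algHom_C, hcdef, ← IsScalarTower.algebraMap_apply, map_inv₀,
      IsScalarTower.algebraMap_apply k K κ]
  rw [h2]
  rw [div_eq_mul_inv, mul_comm]

end Pool.Agent.T6.H28.Mv
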