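import Pool.Agent.T6.H28.TestE

/-! # `p`-adic points of affine space -/

set_option autoImplicit false
set_option linter.all false

open Cardinal

namespace Pool.Agent.T6.H28.Mv

open MvPolynomial

variable {p : ℕ} [hp : Fact p.Prime]

/-- the value at a point -/
noncomputable abbrev ev {κ₀ : Type} [Field κ₀] {n : ℕ} (j : κ₀ →+* PadicAlgCl p)
    (b : Fin n → PadicAlgCl p) : MvPolynomial (Fin n) κ₀ →+* PadicAlgCl p :=
  eval₂Hom j b

section taylor

variable {κ₀ : Type} [Field κ₀] {n : ℕ} (j : κ₀ →+* PadicAlgCl p)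

theorem nle {a b : PadicAlgCl p} {r : ℝ} (ha : ‖a‖ ≤ r) (hb : ‖b‖ ≤ r) : ‖a + b‖ ≤ r :=
  (IsUltrametricDist.norm_add_le_max a b).trans (max_le ha hb)

theorem nsub {a b : PadicAlgCl p} {r : ℝ} (ha : ‖a‖ ≤ r) (hb : ‖b‖ ≤ r) : ‖a - b‖ ≤ r := by
  rw [sub_eq_add_neg]
  exact nle ha (by rwa [norm_neg])

theorem nmul {a b : PadicAlgCl p} {r s : ℝ} (hr : 0 ≤ r) (ha : ‖a‖ ≤ r) (hb : ‖b‖ ≤ s) :
    ‖a * b‖ ≤ r * s := by
  rw [norm_mul]
  exact mul_le_mul ha hb (norm_nonneg _) hr

theorem nsum {ι : Type} (s : Finset ι) (f : ι → PadicAlgCl p) {r : ℝ} (hr : 0 ≤ r)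
    (h : ∀ i ∈ s, ‖f i‖ ≤ r) : ‖∑ i ∈ s, f i‖ ≤ r :=
  IsUltrametricDist.norm_sum_le_of_forall_le_of_nonneg hr h

/-- the linear term -/
noncomputable def lin (z h : Fin n → PadicAlgCl p) (P : MvPolynomial (Fin n) κ₀) : PadicAlgCl p :=
  ∑ i, ev j z (pderiv i P) * h i

theorem lin_add (z h : Fin n → PadicAlgCl p) (P Q : MvPolynomial (Fin n) κ₀) :
    lin j z h (P + Q) = lin j z h P + lin j z h Q := by
  unfold lin
  rw [← Finset.sum_add_distrib]
  refine Finset.sum_congr rfl fun i _ => ?_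
  rw [map_add, map_add, add_mul]

theorem lin_mul (z h : Fin n → PadicAlgCl p) (P Q : MvPolynomial (Fin n) κ₀) :
    lin j z h (P * Q) = lin j z h P * ev j z Q + ev j z P * lin j z h Q := by
  unfold lin
  rw [Finset.sum_mul, Finset.mul_sum, ← Finset.sum_add_distrib]
  refine Finset.sum_congr rfl fun i _ => ?_
  rw [pderiv_mul, map_add, map_mul, map_mul]
  ring

theorem lin_neg (z h : Fin n → PadicAlgCl p) (P : MvPolynomial (Fin n) κ₀) :
    lin j z h (-P) = - lin j z h P := by
  unfold lin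
  rw [← Finset.sum_neg_distrib]
  refine Finset.sum_congr rfl fun i _ => ?_
  rw [map_neg, map_neg, neg_mul]

theorem lin_C (z h : Fin n → PadicAlgCl p) (c : κ₀) :
    lin j z h (C c) = 0 := by
  unfold lin
  refine Finset.sum_eq_zero fun i _ => ?_
  rw [pderiv_C, map_zero, zero_mul]

theorem lin_X (z h : Fin n → PadicAlgCl p) (i : Fin n) :
    lin j z h (X i : MvPolynomial (Fin n) κ₀) = h i := by
  classical
  unfold lin
  rw [Finset.sum_eq_single i]
  · rw [pderiv_X_self, map_one, one_mul]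
  · intro l _ hl
    rw [pderiv_X_of_ne hl.symm, map_zero, zero_mul]
  · intro hi
    exact absurd (Finset.mem_univ i) hi

/-- the polynomials for which the first order approximation holds -/
noncomputable def tay (z h : Fin n → PadicAlgCl p) (r : ℝ) (hr : 0 ≤ r) (hr1 : r ≤ 1)
    (hh : ∀ i, ‖h i‖ ≤ r) : Subring (MvPolynomial (Fin n) κ₀) where
  carrier := {P | ‖ev j z P‖ ≤ 1 ∧ (∀ i, ‖ev j z (pderiv i P)‖ ≤ 1) ∧
    ‖ev j (z + h) P - ev j z P - lin j z h P‖ ≤ r ^ 2}
  mul_mem' := by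
    rintro P Q ⟨p1, p2, p3⟩ ⟨q1, q2, q3⟩
    have hr2 : 0 ≤ r ^ 2 := pow_nonneg hr 2
    have hr21 : r ^ 2 ≤ 1 := pow_le_one₀ hr hr1
    have hlin : ∀ P : MvPolynomial (Fin n) κ₀, (∀ i, ‖ev j z (pderiv i P)‖ ≤ 1) →
        ‖lin j z h P‖ ≤ r := by
      intro P hP
      refine nsum _ _ hr fun i _ => ?_
      have := nmul zero_le_one (hP i) (hh i)
      rwa [one_mul] at this
    have hp := hlin P p2
    have hq := hlin Q q2
    refine ⟨?_, fun i => ?_, ?_⟩
    · rw [map_mul]
      exact (nmul zero_le_one p1 q1).trans (by rw [one_mul])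
    · rw [pderiv_mul, map_add, map_mul, map_mul]
      refine nle ?_ ?_
      · exact (nmul zero_le_one (p2 i) q1).trans (by rw [one_mul])
      · exact (nmul zero_le_one p1 (q2 i)).trans (by rw [one_mul])
    · obtain ⟨e, he⟩ : ∃ e, e = ev j (z + h) P - ev j z P - lin j z h P := ⟨_, rfl⟩
      obtain ⟨e', he'⟩ : ∃ e, e = ev j (z + h) Q - ev j z Q - lin j z h Q := ⟨_, rfl⟩
      rw [← he] at p3
      rw [← he'] at q3
      have h1 : ev j (z + h) P = ev j z P + lin j z h P + e := by rw [he]; ring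
      have h2 : ev j (z + h) Q = ev j z Q + lin j z h Q + e' := by rw [he']; ring
      have h3 : ev j (z + h) (P * Q) - ev j z (P * Q) - lin j z h (P * Q) =
          lin j z h P * lin j z h Q + e * (ev j z Q + lin j z h Q + e') +
            (ev j z P + lin j z h P) * e' := by
        rw [lin_mul, map_mul, map_mul, h1, h2]
        ring
      rw [h3]
      have h4 : ‖ev j z Q + lin j z h Q + e'‖ ≤ 1 :=
        nle (nle q1 (hq.trans hr1)) (q3.trans hr21)
      have h5 : ‖ev j z P + lin j z h P‖ ≤ 1 := nle p1 (hp.trans hr1)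
      refine nle (nle ?_ ?_) ?_
      · rw [pow_two]
        exact nmul hr hp hq
      · exact (nmul hr2 p3 h4).trans (by rw [mul_one])
      · exact (nmul zero_le_one h5 q3).trans (by rw [one_mul])
  one_mem' := by
    have h1 : (1 : MvPolynomial (Fin n) κ₀) = C 1 := C_1.symm
    refine ⟨by simp, fun i => ?_, ?_⟩
    · rw [h1, pderiv_C, map_zero, norm_zero]; exact zero_le_one
    · rw [h1, lin_C, ← h1, map_one, map_one, sub_self, sub_zero, norm_zero]
      exact pow_nonneg hr 2
  add_mem' := by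
    rintro P Q ⟨p1, p2, p3⟩ ⟨q1, q2, q3⟩
    refine ⟨?_, fun i => ?_, ?_⟩
    · rw [map_add]; exact nle p1 q1
    · rw [map_add, map_add]; exact nle (p2 i) (q2 i)
    · have h3 : ev j (z + h) (P + Q) - ev j z (P + Q) - lin j z h (P + Q) =
          (ev j (z + h) P - ev j z P - lin j z h P) +
          (ev j (z + h) Q - ev j z Q - lin j z h Q) := by
        rw [lin_add, map_add, map_add]
        ring
      rw [h3]
      exact nle p3 q3
  zero_mem' := by
    have h1 : (0 : MvPolynomial (Fin n) κ₀) = C 0 := C_0.symm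
    refine ⟨by simp, fun i => ?_, ?_⟩
    · rw [map_zero, map_zero, norm_zero]; exact zero_le_one
    · rw [h1, lin_C, ← h1, map_zero, map_zero, sub_self, sub_zero, norm_zero]
      exact pow_nonneg hr 2
  neg_mem' := by
    rintro P ⟨p1, p2, p3⟩
    refine ⟨?_, fun i => ?_, ?_⟩
    · rw [map_neg, norm_neg]; exact p1
    · rw [map_neg, map_neg, norm_neg]; exact p2 i
    · have h3 : ev j (z + h) (-P) - ev j z (-P) - lin j z h (-P) =
          - (ev j (z + h) P - ev j z P - lin j z h P) := by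
        rw [lin_neg, map_neg, map_neg]
        ring
      rw [h3, norm_neg]
      exact p3

theorem taylor (z h : Fin n → PadicAlgCl p) (hz : ∀ i, ‖z i‖ ≤ 1) (r : ℝ) (hr : 0 ≤ r)
    (hr1 : r ≤ 1) (hh : ∀ i, ‖h i‖ ≤ r) (P : MvPolynomial (Fin n) κ₀)
    (hP : ∀ m, ‖j (coeff m P)‖ ≤ 1) :
    ‖ev j z P‖ ≤ 1 ∧ (∀ i, ‖ev j z (pderiv i P)‖ ≤ 1) ∧
      ‖ev j (z + h) P - ev j z P - lin j z h P‖ ≤ r ^ 2 := by
  have hX : ∀ i, (X i : MvPolynomial (Fin n) κ₀) ∈ tay j z h r hr hr1 hh := by
    classical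
    intro i
    refine ⟨?_, fun l => ?_, ?_⟩
    · simp [ev, hz i]
    · rcases eq_or_ne i l with rfl | hil
      · rw [pderiv_X_self, map_one, norm_one]
      · rw [pderiv_X_of_ne hil, map_zero, norm_zero]
        exact zero_le_one
    · rw [lin_X]
      simp only [ev, coe_eval₂Hom, eval₂_X, Pi.add_apply]
      rw [add_sub_cancel_left, sub_self, norm_zero]
      exact pow_nonneg hr 2
  have hC : ∀ c : κ₀, ‖j c‖ ≤ 1 → (C c : MvPolynomial (Fin n) κ₀) ∈ tay j z h r hr hr1 hh := by
    intro c hc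
    refine ⟨?_, fun l => ?_, ?_⟩
    · simpa [ev] using hc
    · rw [pderiv_C, map_zero, norm_zero]
      exact zero_le_one
    · rw [lin_C]
      simp only [ev, coe_eval₂Hom, eval₂_C]
      rw [sub_self, sub_zero, norm_zero]
      exact pow_nonneg hr 2
  have h1 : P ∈ tay j z h r hr hr1 hh := by
    rw [P.as_sum]
    refine sum_mem fun m _ => ?_
    rw [monomial_eq]
    refine mul_mem (hC _ (hP m)) ?_
    exact prod_mem fun i _ => pow_mem (hX i) _
  exact h1

end taylor

section generic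

theorem exists_trA {A : Type} [CommRing A] [Countable A] (φ : A →+* PadicAlgCl p)
    (hφ : Function.Injective φ) (b : PadicAlgCl p) (ε : ℝ) (hε : 0 < ε) :
    ∃ u : ℚ_[p], ‖u‖ < ε ∧
      ∀ P : Polynomial A, P ≠ 0 → P.eval₂ φ (b + algebraMap ℚ_[p] (PadicAlgCl p) u) ≠ 0 := by
  classical
  have hpoly : Countable (Polynomial A) := by
    rw [← Cardinal.mk_le_aleph0_iff]
    refine (Polynomial.cardinalMk_le_max).trans ?_
    rw [max_le_iff]
    exact ⟨Cardinal.mk_le_aleph0, le_rfl⟩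
  by_contra hcon
  push Not at hcon
  set s : Set ℚ_[p] := Metric.ball 0 ε with hs
  have h1 : 𝔠 ≤ #s := continuum_le_cardinal_of_isOpen ℚ_[p] Metric.isOpen_ball
    ⟨_, Metric.mem_ball_self hε⟩
  let g : ℚ_[p] → PadicAlgCl p := fun u => b + algebraMap ℚ_[p] (PadicAlgCl p) u
  have hg : Function.Injective g := fun u u' h =>
    (algebraMap ℚ_[p] (PadicAlgCl p)).injective (add_left_cancel h)
  have h2 : s ⊆ ⋃ P : {P : Polynomial A // P ≠ 0}, g ⁻¹' {δ | δ ∈ (P.1.map φ).roots} := by
    intro δ hδ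
    rw [hs, mem_ball_zero_iff] at hδ
    obtain ⟨P, hP, hPδ⟩ := hcon δ hδ
    rw [Set.mem_iUnion]
    refine ⟨⟨P, hP⟩, ?_⟩
    show g δ ∈ (P.map φ).roots
    rw [Polynomial.mem_roots ((Polynomial.map_ne_zero_iff hφ).2 hP), Polynomial.IsRoot.def,
      Polynomial.eval_map]
    exact hPδ
  have h3 : s.Countable := by
    refine (Set.countable_iUnion fun P => ?_).mono h2
    have h5 : {δ | δ ∈ (P.1.map φ).roots} = ((P.1.map φ).roots.toFinset : Set (PadicAlgCl p)) := by
      ext δ
      rw [Finset.mem_coe, Multiset.mem_toFinset]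
      exact Iff.rfl
    rw [h5]
    exact (Set.Finite.preimage hg.injOn (Finset.finite_toSet _)).countable
  have h4 : #s ≤ ℵ₀ := Cardinal.mk_le_aleph0_iff.2 h3.to_subtype
  exact absurd (h1.trans h4) (not_le.2 Cardinal.aleph0_lt_continuum)

/-- algebraically independent coordinates over `j(κ₀)` -/
def Ind {κ₀ : Type} [Field κ₀] {n : ℕ} (j : κ₀ →+* PadicAlgCl p) (b : Fin n → PadicAlgCl p) :
    Prop := Function.Injective (ev j b)

theorem countable_mv (κ₀ : Type) [Field κ₀] [Countable κ₀] (n : ℕ) :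
    Countable (MvPolynomial (Fin n) κ₀) := by
  rw [← Cardinal.mk_le_aleph0_iff]
  refine (MvPolynomial.cardinalMk_le_max).trans ?_
  rw [max_le_iff, max_le_iff]
  exact ⟨⟨Cardinal.mk_le_aleph0, Cardinal.mk_le_aleph0⟩, le_rfl⟩

theorem exists_ind {κ₀ : Type} [Field κ₀] [Countable κ₀] (j : κ₀ →+* PadicAlgCl p) (ε : ℝ)
    (hε : 0 < ε) : ∀ (n : ℕ) (b : Fin n → PadicAlgCl p),
    ∃ u : Fin n → ℚ_[p], (∀ i, ‖u i‖ < ε) ∧
      Ind j (fun i => b i + algebraMap ℚ_[p] (PadicAlgCl p) (u i)) := by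
  intro n
  induction n with
  | zero =>
    intro b
    refine ⟨fun i => i.elim0, fun i => i.elim0, ?_⟩
    unfold Ind
    rw [injective_iff_map_eq_zero]
    intro P hP
    rw [eq_C_of_isEmpty P] at hP ⊢
    have h1 : j (coeff 0 P) = 0 := by simpa [ev] using hP
    rw [(map_eq_zero j).1 h1, C_0]
  | succ n ih =>
    intro b
    obtain ⟨u, hu, hind⟩ := ih (fun i => b i.succ)
    haveI := countable_mv κ₀ n
    obtain ⟨u₀, hu₀, hP⟩ := exists_trA (ev j (fun i : Fin n => b i.succ +
      algebraMap ℚ_[p] (PadicAlgCl p) (u i))) hind (b 0) ε hε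
    refine ⟨Fin.cons u₀ u, fun i => ?_, ?_⟩
    · refine Fin.cases ?_ (fun i => ?_) i
      · simpa using hu₀
      · simpa using hu i
    · have h1 : ev j (fun i => b i + algebraMap ℚ_[p] (PadicAlgCl p)
            ((Fin.cons u₀ u : Fin (n + 1) → ℚ_[p]) i)) =
          (Polynomial.eval₂RingHom (ev j (fun i : Fin n => b i.succ +
            algebraMap ℚ_[p] (PadicAlgCl p) (u i)))
            (b 0 + algebraMap ℚ_[p] (PadicAlgCl p) u₀)).comp
            (finSuccEquiv κ₀ n : MvPolynomial (Fin (n + 1)) κ₀ →+*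
              Polynomial (MvPolynomial (Fin n) κ₀)) := by
        apply MvPolynomial.ringHom_ext
        · intro c
          have h2 := RingHom.congr_fun (finSuccEquiv_comp_C_eq_C (R := κ₀) n) c
          have h3 : finSuccEquiv κ₀ n (C c) = Polynomial.C (C c) := by
            have h4 : (finSuccEquiv κ₀ n).symm (Polynomial.C (C c)) = C c := h2
            rw [← h4, AlgEquiv.apply_symm_apply]
          simp only [ev, coe_eval₂Hom, eval₂_C, RingHom.comp_apply]
          show j c = (Polynomial.eval₂RingHom _ _) (finSuccEquiv κ₀ n (C c))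
          rw [h3]
          simp
        · intro i
          simp only [ev, coe_eval₂Hom, eval₂_X, RingHom.comp_apply]
          refine Fin.cases ?_ (fun i => ?_) i
          · show _ = (Polynomial.eval₂RingHom _ _) (finSuccEquiv κ₀ n (X 0))
            rw [finSuccEquiv_X_zero]
            simp
          · show _ = (Polynomial.eval₂RingHom _ _) (finSuccEquiv κ₀ n (X i.succ))
            rw [finSuccEquiv_X_succ]
            simp
      unfold Ind
      rw [injective_iff_map_eq_zero]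
      intro P hP0
      rw [h1] at hP0
      by_contra hne
      exact hP (finSuccEquiv κ₀ n P) ((map_ne_zero_iff _ (finSuccEquiv κ₀ n).injective).2 hne) hP0

/-- the embedding given by a point with algebraically independent coordinates -/
theorem exists_emb {κ₀ κ : Type} [Field κ₀] [Field κ] [Algebra κ₀ κ] {n : ℕ} (t : Fin n → κ)
    (ht : AlgebraicIndependent κ₀ t)
    (hal : Algebra.IsAlgebraic (IntermediateField.adjoin κ₀ (Set.range t)) κ)
    (j : κ₀ →+* PadicAlgCl p) (b : Fin n → PadicAlgCl p) (hb : Ind j b) :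
    ∃ J : κ →+* PadicAlgCl p, (∀ c, J (algebraMap κ₀ κ c) = j c) ∧ (∀ i, J (t i) = b i) ∧
      ∀ P : MvPolynomial (Fin n) κ₀, J (aeval t P) = ev j b P := by
  letI : Algebra κ₀ (PadicAlgCl p) := j.toAlgebra
  have hb' : AlgebraicIndependent κ₀ b := hb
  let e : IntermediateField.adjoin κ₀ (Set.range t) →ₐ[κ₀] PadicAlgCl p :=
    ((IntermediateField.adjoin κ₀ (Set.range b)).val.comp
      hb'.aevalEquivField.toAlgHom).comp ht.aevalEquivField.symm.toAlgHom
  obtain ⟨J, hJ⟩ := Pool.Agent.Y474.GT.lift_alg (K := κ) e.toRingHom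
  have hJc : ∀ c, J (algebraMap κ₀ κ c) = j c := by
    intro c
    have h1 := hJ (algebraMap κ₀ (IntermediateField.adjoin κ₀ (Set.range t)) c)
    have h2 : algebraMap (IntermediateField.adjoin κ₀ (Set.range t)) κ
        (algebraMap κ₀ (IntermediateField.adjoin κ₀ (Set.range t)) c) = algebraMap κ₀ κ c := rfl
    rw [h2] at h1
    rw [h1]
    exact e.commutes c
  have hJt : ∀ i, J (t i) = b i := by
    intro i
    obtain ⟨y, hy⟩ : ∃ y : IntermediateField.adjoin κ₀ (Set.range t), (y : κ) = t i :=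
      ⟨⟨t i, IntermediateField.subset_adjoin _ _ ⟨i, rfl⟩⟩, rfl⟩
    have h1 := hJ y
    have h2 : algebraMap (IntermediateField.adjoin κ₀ (Set.range t)) κ y = t i := hy
    rw [h2] at h1
    rw [h1]
    have h3 : ht.aevalEquivField (algebraMap (MvPolynomial (Fin n) κ₀)
        (FractionRing (MvPolynomial (Fin n) κ₀)) (X i)) = y := by
      apply Subtype.ext
      rw [ht.aevalEquivField_algebraMap_apply_coe, aeval_X, hy]
    have h4 : ht.aevalEquivField.symm y = algebraMap (MvPolynomial (Fin n) κ₀)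
        (FractionRing (MvPolynomial (Fin n) κ₀)) (X i) := by
      rw [← h3, AlgEquiv.symm_apply_apply]
    show (hb'.aevalEquivField (ht.aevalEquivField.symm y) : PadicAlgCl p) = b i
    rw [h4, hb'.aevalEquivField_algebraMap_apply_coe, aeval_X]
  refine ⟨J, hJc, hJt, fun P => ?_⟩
  have h5 : J.comp (aeval t : MvPolynomial (Fin n) κ₀ →ₐ[κ₀] κ).toRingHom = ev j b := by
    apply MvPolynomial.ringHom_ext
    · intro c
      show J (aeval t (C c)) = ev j b (C c)
      rw [algHom_C, hJc]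
      simp [ev]
    · intro i
      show J (aeval t (X i)) = ev j b (X i)
      rw [aeval_X, hJt]
      simp [ev]
  exact RingHom.congr_fun h5 P

end generic

end Pool.Agent.T6.H28.Mv
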