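import Pool.Agent.T6.H28.MvTest

/-! # Tests in general position and at the crossing of two components -/

set_option autoImplicit false
set_option linter.all false

open FF

namespace Pool.Agent.T6.H28.Mv

open MvPolynomial Pool.Agent.Y157.PS Pool.Agent.Y157.GT Pool.Agent.Y474.GT Pool.Agent.T6.H28.PE

section lin

variable {p : ℕ} [hp : Fact p.Prime] {κ₀ : Type} [Field κ₀] {n : ℕ} (j : κ₀ →+* PadicAlgCl p)

theorem lin_single [DecidableEq (Fin n)] (z : Fin n → PadicAlgCl p) (i : Fin n) (c : PadicAlgCl p)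
    (P : MvPolynomial (Fin n) κ₀) :
    lin j z (Pi.single i c) P = ev j z (pderiv i P) * c := by
  unfold lin
  rw [Finset.sum_eq_single i]
  · rw [Pi.single_eq_same]
  · intro l _ hl
    rw [Pi.single_eq_of_ne hl, mul_zero]
  · intro hi
    exact absurd (Finset.mem_univ i) hi

theorem lin_add_right (z h h' : Fin n → PadicAlgCl p) (P : MvPolynomial (Fin n) κ₀) :
    lin j z (h + h') P = lin j z h P + lin j z h' P := by
  unfold lin
  rw [← Finset.sum_add_distrib]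
  refine Finset.sum_congr rfl fun i _ => ?_
  rw [Pi.add_apply, mul_add]

end lin

section test

variable {ℓ : ℕ} [Fact ℓ.Prime]
    {k K κ₀ κ R₀ R M₀ M : Type} [Field k] [CharZero k] [Field K] [CharZero K] [Field κ₀]
    [Algebra k κ₀] [IsAlgClosure k κ₀] [Field κ] [Algebra κ₀ κ] [Algebra k κ]
    [IsScalarTower k κ₀ κ] [Algebra K κ] [IsAlgClosure K κ]
    [Field R₀] [Field R] [Field M₀] [Field M] [Algebra κ₀ R₀]
    [Algebra R₀ M₀] [Algebra κ₀ M₀] [IsScalarTower κ₀ R₀ M₀] [Algebra κ R] [Algebra R M]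
    [Algebra κ M] [IsScalarTower κ R M]
    {x₀ : R₀} {x : R} {B₀ : Finset κ₀} {B : Finset κ} {Y₀ : M₀} {Y : M} {ι : M₀ →+* M}

theorem genpos (hfg : (⊤ : IntermediateField ℚ k).FG)
    (hkK : ∀ c : k, ∃ b : K, algebraMap K κ b = algebraMap k κ c)
    (h : Pair ℓ κ₀ κ R₀ R M₀ M x₀ x B₀ B Y₀ Y ι) {δ : κ} (hδ0 : δ ≠ 0)
    (hδK : ∃ d : K, δ ^ ℓ = algebraMap K κ d)
    {s : (κ ≃ₐ[K] κ) →* RingAut M} (hs : Sec K κ R M x Y δ s)
    (hst : ∀ σ z₀, ∃ z₁, s σ (ι z₀) = ι z₁)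
    {n : ℕ} (t : Fin n → κ) (ht : AlgebraicIndependent κ₀ t)
    (hal : Algebra.IsAlgebraic (IntermediateField.adjoin κ₀ (Set.range t)) κ)
    (C : Finset κ₀) (hgen : GenT k K κ₀ κ t C)
    (D : MvPolynomial (Fin n) κ₀) (hD0 : D ≠ 0) (hD : δ ^ ℓ = aeval t D)
    {N : ℕ} (hN : 0 < N) (w : κ) (G : MvPolynomial (Fin n) κ₀) (hG0 : G ≠ 0)
    (hw : w ^ N = aeval t G)
    (hno : ∀ g : κ ≃ₐ[K] κ, (∀ c, g (algebraMap κ₀ κ c) = algebraMap κ₀ κ c) →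
      (∀ z₀, s g (ι z₀) = ι z₀) → g w = w)
    (Q : MvPolynomial (Fin n) κ₀) (hQ : Irreducible Q) (m g : ℕ) (hm : Ex Q D m) (hg : Ex Q G g)
    (i : ℕ) (hi : 0 < i) (hℓi : ℓ ∣ i * m) : N ∣ i * g := by
  classical
  haveI : IsAlgClosed κ₀ := IsAlgClosure.isAlgClosed k
  haveI : CharZero κ₀ := charZero_of_injective_algebraMap (algebraMap k κ₀).injective
  obtain ⟨D₁, hD₁, hQD₁⟩ := hm.exists_eq
  obtain ⟨G₁, hG₁, hQG₁⟩ := hg.exists_eq
  obtain ⟨l, hl⟩ := exists_pd hQ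
  obtain ⟨z, hz, hz1⟩ := exists_pt hQ (A := D₁ * G₁ * pderiv l Q) (by
    intro h1
    rcases hQ.prime.dvd_or_dvd h1 with h2 | h2
    · rcases hQ.prime.dvd_or_dvd h2 with h3 | h3
      · exact hQD₁ h3
      · exact hQG₁ h3
    · exact hl h2)
  rw [map_mul, map_mul] at hz1
  have hz2 := left_ne_zero_of_mul (left_ne_zero_of_mul hz1)
  have hz3 := right_ne_zero_of_mul (left_ne_zero_of_mul hz1)
  have hz4 := right_ne_zero_of_mul hz1
  obtain ⟨z', hz'⟩ := exists_ne (mul_ne_zero hD0 hG0)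
  rw [map_mul] at hz'
  have hz'1 := left_ne_zero_of_mul hz'
  have hz'2 := right_ne_zero_of_mul hz'
  obtain ⟨p, hp, j, hpN, hgood, hjk, hjS, hjT⟩ := place (k := k) hfg {Q, D₁, G₁, D, G}
    (C ∪ Finset.univ.image z ∪ Finset.univ.image z' ∪
      {eval z D₁, eval z G₁, eval z (pderiv l Q), eval z' D, eval z' G}) B₀ ℓ
  have hne : ℓ ≠ p := hpN.ne
  have hp1 : (1 : ℝ) < p := by exact_mod_cast hp.out.one_lt
  have hp0 : (0 : ℝ) < p := by linarith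
  have hpE : ((p : ℕ) : PadicAlgCl p) ∈ (⊥ : IntermediateField ℚ_[p] (PadicAlgCl p)) :=
    natCast_mem _ p
  have hpn : ‖((p : ℕ) : PadicAlgCl p)‖ = (p : ℝ)⁻¹ := norm_cast_p
  have hpi0 : 0 < (p : ℝ)⁻¹ := inv_pos.2 hp0
  have hpi1 : (p : ℝ)⁻¹ < 1 := inv_lt_one_of_one_lt₀ hp1
  have hzT : ∀ l, j (z l) ∈ (⊥ : IntermediateField ℚ_[p] (PadicAlgCl p)) ∧ ‖j (z l)‖ ≤ 1 := by
    intro l
    have := hjT (z l) (by simp)
    exact ⟨this.1, this.2.1⟩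
  have hz'T : ∀ l, j (z' l) ∈ (⊥ : IntermediateField ℚ_[p] (PadicAlgCl p)) ∧ ‖j (z' l)‖ ≤ 1 := by
    intro l
    have := hjT (z' l) (by simp)
    exact ⟨this.1, this.2.1⟩
  have hCT : ∀ c ∈ C, j c ∈ (⊥ : IntermediateField ℚ_[p] (PadicAlgCl p)) := by
    intro c hc
    exact (hjT c (by simp [hc])).1
  have u1 : ‖j (eval z D₁)‖ = 1 := (hjT _ (by simp)).2.2 hz2
  have u2 : ‖j (eval z G₁)‖ = 1 := (hjT _ (by simp)).2.2 hz3
  have u3 : ‖j (eval z (pderiv l Q))‖ = 1 := (hjT _ (by simp)).2.2 hz4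
  have u4 : ‖j (eval z' D)‖ = 1 := (hjT _ (by simp)).2.2 hz'1
  have u5 : ‖j (eval z' G)‖ = 1 := (hjT _ (by simp)).2.2 hz'2
  have cQ := hjS Q (by simp)
  have cD₁ := hjS D₁ (by simp)
  have cG₁ := hjS G₁ (by simp)
  have cD := hjS D (by simp)
  have cG := hjS G (by simp)
  haveI : Algebra.IsAlgebraic k κ₀ := (inferInstance : IsAlgClosure k κ₀).isAlgebraic
  haveI : Countable κ₀ := countable_closure hfg
  -- the first point
  obtain ⟨r, hr⟩ : ∃ r : ℝ, r = (p : ℝ)⁻¹ ^ i := ⟨_, rfl⟩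
  have hr0 : 0 < r := by rw [hr]; exact pow_pos hpi0 i
  have hr1 : r < 1 := by rw [hr]; exact pow_lt_one₀ hpi0.le hpi1 hi.ne'
  have hr2 : r ^ 2 < r := by
    rw [pow_two]
    exact mul_lt_of_lt_one_left hr0 hr1
  obtain ⟨hh, hhdef⟩ : ∃ hh : Fin n → PadicAlgCl p,
      hh = Pi.single l (((p : ℕ) : PadicAlgCl p) ^ i) := ⟨_, rfl⟩
  obtain ⟨u, hu, hind⟩ := exists_ind j (r ^ 2) (pow_pos hr0 2) n (fun l => j (z l) + hh l)
  have hhr : ∀ l', ‖hh l'‖ ≤ r := by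
    intro l'
    rw [hhdef]
    by_cases h1 : l' = l
    · subst h1
      rw [Pi.single_eq_same, norm_pow, hpn, hr]
    · rw [Pi.single_eq_of_ne h1, norm_zero]
      exact hr0.le
  have hhE : ∀ l', hh l' ∈ (⊥ : IntermediateField ℚ_[p] (PadicAlgCl p)) := by
    intro l'
    rw [hhdef]
    by_cases h1 : l' = l
    · subst h1
      rw [Pi.single_eq_same]
      exact pow_mem hpE i
    · rw [Pi.single_eq_of_ne h1]
      exact zero_mem _
  have hun : ∀ l, ‖algebraMap ℚ_[p] (PadicAlgCl p) (u l)‖ ≤ r ^ 2 := by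
    intro l
    rw [PadicAlgCl.norm_extends]
    exact (hu l).le
  obtain ⟨b, hb⟩ : ∃ b : Fin n → PadicAlgCl p,
      b = fun l => j (z l) + (hh l + algebraMap ℚ_[p] (PadicAlgCl p) (u l)) := ⟨_, rfl⟩
  have hbI : Ind j b := by
    rw [hb]
    have h1 : (fun l => j (z l) + (hh l + algebraMap ℚ_[p] (PadicAlgCl p) (u l))) =
        fun l => (j (z l) + hh l) + algebraMap ℚ_[p] (PadicAlgCl p) (u l) := by
      funext l
      rw [add_assoc]
    rw [h1]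
    exact hind
  have hbE : ∀ l, b l ∈ (⊥ : IntermediateField ℚ_[p] (PadicAlgCl p)) := by
    intro l
    rw [hb]
    exact add_mem (hzT l).1 (add_mem (hhE l) (IntermediateField.algebraMap_mem _ _))
  have hsum : ∀ l, ‖hh l + algebraMap ℚ_[p] (PadicAlgCl p) (u l)‖ ≤ r := fun l =>
    nle (hhr l) ((hun l).trans hr2.le)
  have vQ : ‖ev j b Q‖ = r := by
    rw [hb]
    refine localVal j z (fun l => (hzT l).2) Q (fun m => (cQ m).2) hz r r hr0.le hr1.le hh _ hhr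
      hun ?_ hr2
    rw [hhdef, lin_single, ev_j, norm_mul, u3, one_mul, norm_pow, hpn, hr]
  have vD₁ : ‖ev j b D₁‖ = 1 := by
    rw [hb]
    exact localUnit j z (fun l => (hzT l).2) D₁ (fun m => (cD₁ m).2) u1 r hr0.le hr1 _ hsum
  have vG₁ : ‖ev j b G₁‖ = 1 := by
    rw [hb]
    exact localUnit j z (fun l => (hzT l).2) G₁ (fun m => (cG₁ m).2) u2 r hr0.le hr1 _ hsum
  -- the second point
  obtain ⟨u', hu', hind'⟩ := exists_ind j r hr0 n (fun l => j (z' l))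
  have hun' : ∀ l, ‖algebraMap ℚ_[p] (PadicAlgCl p) (u' l)‖ ≤ r := by
    intro l
    rw [PadicAlgCl.norm_extends]
    exact (hu' l).le
  refine finish hne hkK h hδ0 hδK hs hst t ht hal C hgen D hD hN w G hG0 hw hno j hgood hjk hCT
    (fun m => (cG m).1) b (fun l => j (z' l) + algebraMap ℚ_[p] (PadicAlgCl p) (u' l)) hbI hind'
    hbE (fun l => add_mem (hz'T l).1 (IntermediateField.algebraMap_mem _ _))
    (localUnit j z' (fun l => (hz'T l).2) D (fun m => (cD m).2) u4 r hr0.le hr1 _ hun')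
    (localUnit j z' (fun l => (hz'T l).2) G (fun m => (cG m).2) u5 r hr0.le hr1 _ hun')
    (i * m) (i * g) 1 1 (one_mem _) (one_mem _) one_ne_zero ?_ ?_ hℓi
  · rw [hD₁, map_mul, map_pow, norm_mul, norm_pow, vQ, vD₁, hr, norm_one, one_pow, mul_one,
      mul_one, ← pow_mul]
  · rw [hG₁, map_mul, map_pow, norm_mul, norm_pow, vQ, vG₁, hr, norm_one, one_pow, mul_one,
      mul_one, ← pow_mul]

theorem crossing (hfg : (⊤ : IntermediateField ℚ k).FG)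
    (hkK : ∀ c : k, ∃ b : K, algebraMap K κ b = algebraMap k κ c)
    (h : Pair ℓ κ₀ κ R₀ R M₀ M x₀ x B₀ B Y₀ Y ι) {δ : κ} (hδ0 : δ ≠ 0)
    (hδK : ∃ d : K, δ ^ ℓ = algebraMap K κ d)
    {s : (κ ≃ₐ[K] κ) →* RingAut M} (hs : Sec K κ R M x Y δ s)
    (hst : ∀ σ z₀, ∃ z₁, s σ (ι z₀) = ι z₁)
    {n : ℕ} (t : Fin n → κ) (ht : AlgebraicIndependent κ₀ t)
    (hal : Algebra.IsAlgebraic (IntermediateField.adjoin κ₀ (Set.range t)) κ)
    (C : Finset κ₀) (hgen : GenT k K κ₀ κ t C)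
    (D : MvPolynomial (Fin n) κ₀) (hD0 : D ≠ 0) (hD : δ ^ ℓ = aeval t D)
    {N : ℕ} (hN : 0 < N) (w : κ) (G : MvPolynomial (Fin n) κ₀) (hG0 : G ≠ 0)
    (hw : w ^ N = aeval t G)
    (hno : ∀ g : κ ≃ₐ[K] κ, (∀ c, g (algebraMap κ₀ κ c) = algebraMap κ₀ κ c) →
      (∀ z₀, s g (ι z₀) = ι z₀) → g w = w)
    (P P' : MvPolynomial (Fin n) κ₀) (hP : Irreducible P) (hP' : Irreducible P')
    (hPP : ¬ Associated P P') (z : Fin n → κ₀) (hz : eval z P = 0) (hz' : eval z P' = 0)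
    (i₁ i₂ : Fin n) (hΔ : eval z (pderiv i₁ P) * eval z (pderiv i₂ P') ≠
      eval z (pderiv i₂ P) * eval z (pderiv i₁ P'))
    (hoth : ∀ Q, Irreducible Q → eval z Q = 0 → ¬ Associated Q P → ¬ Associated Q P' →
      ∀ e, Ex Q D e → ℓ ∣ e)
    (m m' g g' : ℕ) (hm : Ex P D m) (hm' : Ex P' D m') (hg : Ex P G g) (hg' : Ex P' G g')
    (a a' : ℕ) (ha : ℓ ≤ a) (ha1 : a < 2 * ℓ) (ha' : ℓ ≤ a') (ha'1 : a' < 2 * ℓ)
    (hℓa : ℓ ∣ a * m + a' * m') : N ∣ a * g + a' * g' := by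
  classical
  haveI : IsAlgClosed κ₀ := IsAlgClosure.isAlgClosed k
  haveI : CharZero κ₀ := charZero_of_injective_algebraMap (algebraMap k κ₀).injective
  have hℓ : 0 < ℓ := (Fact.out : ℓ.Prime).pos
  obtain ⟨D₂, DR, hD₂, hD₂z⟩ := split2 z hP hP' hPP ℓ hD0 hm hm' hoth
  obtain ⟨G₂, GR, hG₂, hG₂z⟩ := split2 z hP hP' hPP N hG0 hg hg' (by
    intro Q hQ hQz hQ1 hQ2 e he
    obtain ⟨e', he'⟩ := exists_ex hQ hD0
    have h1 := hoth Q hQ hQz hQ1 hQ2 e' he'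
    have h2 := genpos hfg hkK h hδ0 hδK hs hst t ht hal C hgen D hD0 hD hN w G hG0 hw hno Q hQ e' e
      he' he 1 one_pos (by rwa [one_mul])
    rwa [one_mul] at h2)
  obtain ⟨z', hz'0⟩ := exists_ne (mul_ne_zero hD0 hG0)
  rw [map_mul] at hz'0
  have hz'1 := left_ne_zero_of_mul hz'0
  have hz'2 := right_ne_zero_of_mul hz'0
  obtain ⟨Δ, hΔdef⟩ : ∃ Δ, Δ = eval z (pderiv i₁ P) * eval z (pderiv i₂ P') -
      eval z (pderiv i₂ P) * eval z (pderiv i₁ P') := ⟨_, rfl⟩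
  have hΔ0 : Δ ≠ 0 := by rw [hΔdef]; exact sub_ne_zero.2 hΔ
  obtain ⟨p, hp, j, hpN, hgood, hjk, hjS, hjT⟩ := place (k := k) hfg
    {P, P', D₂, DR, G₂, GR, D, G}
    (C ∪ Finset.univ.image z ∪ Finset.univ.image z' ∪
      {eval z D₂, eval z G₂, eval z (pderiv i₁ P), eval z (pderiv i₂ P), eval z (pderiv i₁ P'),
        eval z (pderiv i₂ P'), Δ, eval z' D, eval z' G}) B₀ ℓ
  have hne : ℓ ≠ p := hpN.ne
  have hp1 : (1 : ℝ) < p := by exact_mod_cast hp.out.one_lt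
  have hp0 : (0 : ℝ) < p := by linarith
  have hpE : ((p : ℕ) : PadicAlgCl p) ∈ (⊥ : IntermediateField ℚ_[p] (PadicAlgCl p)) :=
    natCast_mem _ p
  have hpn : ‖((p : ℕ) : PadicAlgCl p)‖ = (p : ℝ)⁻¹ := norm_cast_p
  have hpi0 : 0 < (p : ℝ)⁻¹ := inv_pos.2 hp0
  have hpi1 : (p : ℝ)⁻¹ < 1 := inv_lt_one_of_one_lt₀ hp1
  have hzT : ∀ l, j (z l) ∈ (⊥ : IntermediateField ℚ_[p] (PadicAlgCl p)) ∧ ‖j (z l)‖ ≤ 1 := by
    intro l
    have := hjT (z l) (by simp)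
    exact ⟨this.1, this.2.1⟩
  have hz'T : ∀ l, j (z' l) ∈ (⊥ : IntermediateField ℚ_[p] (PadicAlgCl p)) ∧ ‖j (z' l)‖ ≤ 1 := by
    intro l
    have := hjT (z' l) (by simp)
    exact ⟨this.1, this.2.1⟩
  have hCT : ∀ c ∈ C, j c ∈ (⊥ : IntermediateField ℚ_[p] (PadicAlgCl p)) := by
    intro c hc
    exact (hjT c (by simp [hc])).1
  have u1 : ‖j (eval z D₂)‖ = 1 := (hjT _ (by simp)).2.2 hD₂z
  have u2 : ‖j (eval z G₂)‖ = 1 := (hjT _ (by simp)).2.2 hG₂z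
  have u3 := hjT (eval z (pderiv i₁ P)) (by simp)
  have u3' := hjT (eval z (pderiv i₂ P)) (by simp)
  have u3'' := hjT (eval z (pderiv i₁ P')) (by simp)
  have u3''' := hjT (eval z (pderiv i₂ P')) (by simp)
  have uΔ : ‖j Δ‖ = 1 := (hjT Δ (by simp)).2.2 hΔ0
  have u4 : ‖j (eval z' D)‖ = 1 := (hjT _ (by simp)).2.2 hz'1
  have u5 : ‖j (eval z' G)‖ = 1 := (hjT _ (by simp)).2.2 hz'2
  have cP := hjS P (by simp)
  have cP' := hjS P' (by simp)
  have cD₂ := hjS D₂ (by simp)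
  have cDR := hjS DR (by simp)
  have cG₂ := hjS G₂ (by simp)
  have cGR := hjS GR (by simp)
  have cD := hjS D (by simp)
  have cG := hjS G (by simp)
  haveI : Algebra.IsAlgebraic k κ₀ := (inferInstance : IsAlgClosure k κ₀).isAlgebraic
  haveI : Countable κ₀ := countable_closure hfg
  -- the first point
  obtain ⟨r, hr⟩ : ∃ r : ℝ, r = (p : ℝ)⁻¹ ^ ℓ := ⟨_, rfl⟩
  have hr0 : 0 < r := by rw [hr]; exact pow_pos hpi0 ℓ
  have hr1 : r < 1 := by rw [hr]; exact pow_lt_one₀ hpi0.le hpi1 hℓ.ne'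
  have hr2 : r ^ 2 < r := by
    rw [pow_two]
    exact mul_lt_of_lt_one_left hr0 hr1
  have hra : ∀ a, a < 2 * ℓ → r ^ 2 < (p : ℝ)⁻¹ ^ a := by
    intro a ha
    rw [hr, ← pow_mul, mul_comm ℓ 2]
    exact pow_lt_pow_right_of_lt_one₀ hpi0 hpi1 ha
  have hra' : ∀ a, ℓ ≤ a → (p : ℝ)⁻¹ ^ a ≤ r := by
    intro a ha
    rw [hr]
    exact pow_le_pow_of_le_one hpi0.le hpi1.le ha
  obtain ⟨X₁, hX₁⟩ : ∃ X₁ : PadicAlgCl p, X₁ = j (eval z (pderiv i₂ P')) * (p : PadicAlgCl p) ^ a -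
      j (eval z (pderiv i₂ P)) * (p : PadicAlgCl p) ^ a' := ⟨_, rfl⟩
  obtain ⟨X₂, hX₂⟩ : ∃ X₂ : PadicAlgCl p, X₂ = j (eval z (pderiv i₁ P)) * (p : PadicAlgCl p) ^ a' -
      j (eval z (pderiv i₁ P')) * (p : PadicAlgCl p) ^ a := ⟨_, rfl⟩
  have hterm : ∀ (c : PadicAlgCl p) (a : ℕ), ‖c‖ ≤ 1 → ℓ ≤ a →
      ‖c * (p : PadicAlgCl p) ^ a‖ ≤ r := by
    intro c a hc ha
    have h1 : ‖(p : PadicAlgCl p) ^ a‖ ≤ r := by
      rw [norm_pow, hpn]
      exact hra' a ha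
    exact (nmul zero_le_one hc h1).trans (by rw [one_mul])
  have hX₁r : ‖X₁‖ ≤ r := by
    rw [hX₁]
    exact nsub (hterm _ _ u3'''.2.1 ha) (hterm _ _ u3'.2.1 ha')
  have hX₂r : ‖X₂‖ ≤ r := by
    rw [hX₂]
    exact nsub (hterm _ _ u3.2.1 ha') (hterm _ _ u3''.2.1 ha)
  have hX₁E : X₁ ∈ (⊥ : IntermediateField ℚ_[p] (PadicAlgCl p)) := by
    rw [hX₁]
    exact sub_mem (mul_mem u3'''.1 (pow_mem hpE _)) (mul_mem u3'.1 (pow_mem hpE _))
  have hX₂E : X₂ ∈ (⊥ : IntermediateField ℚ_[p] (PadicAlgCl p)) := by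
    rw [hX₂]
    exact sub_mem (mul_mem u3.1 (pow_mem hpE _)) (mul_mem u3''.1 (pow_mem hpE _))
  obtain ⟨hh, hhdef⟩ : ∃ hh : Fin n → PadicAlgCl p,
      hh = Pi.single i₁ X₁ + Pi.single i₂ X₂ := ⟨_, rfl⟩
  have hsing : ∀ (i : Fin n) (c : PadicAlgCl p), ‖c‖ ≤ r → ∀ l,
      ‖(Pi.single i c : Fin n → PadicAlgCl p) l‖ ≤ r := by
    intro i c hc l
    by_cases h1 : l = i
    · subst h1
      rwa [Pi.single_eq_same]
    · rw [Pi.single_eq_of_ne h1, norm_zero]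
      exact hr0.le
  have hsingE : ∀ (i : Fin n) (c : PadicAlgCl p),
      c ∈ (⊥ : IntermediateField ℚ_[p] (PadicAlgCl p)) → ∀ l,
      (Pi.single i c : Fin n → PadicAlgCl p) l ∈
        (⊥ : IntermediateField ℚ_[p] (PadicAlgCl p)) := by
    intro i c hc l
    by_cases h1 : l = i
    · subst h1
      rwa [Pi.single_eq_same]
    · rw [Pi.single_eq_of_ne h1]
      exact zero_mem _
  have hhr : ∀ l', ‖hh l'‖ ≤ r := by
    intro l'
    rw [hhdef, Pi.add_apply]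
    exact nle (hsing _ _ hX₁r _) (hsing _ _ hX₂r _)
  have hhE : ∀ l', hh l' ∈ (⊥ : IntermediateField ℚ_[p] (PadicAlgCl p)) := by
    intro l'
    rw [hhdef, Pi.add_apply]
    exact add_mem (hsingE _ _ hX₁E _) (hsingE _ _ hX₂E _)
  obtain ⟨u, hu, hind⟩ := exists_ind j (r ^ 2) (pow_pos hr0 2) n (fun l => j (z l) + hh l)
  have hun : ∀ l, ‖algebraMap ℚ_[p] (PadicAlgCl p) (u l)‖ ≤ r ^ 2 := by
    intro l
    rw [PadicAlgCl.norm_extends]
    exact (hu l).le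
  obtain ⟨b, hb⟩ : ∃ b : Fin n → PadicAlgCl p,
      b = fun l => j (z l) + (hh l + algebraMap ℚ_[p] (PadicAlgCl p) (u l)) := ⟨_, rfl⟩
  have hbI : Ind j b := by
    rw [hb]
    have h1 : (fun l => j (z l) + (hh l + algebraMap ℚ_[p] (PadicAlgCl p) (u l))) =
        fun l => (j (z l) + hh l) + algebraMap ℚ_[p] (PadicAlgCl p) (u l) := by
      funext l
      rw [add_assoc]
    rw [h1]
    exact hind
  have hbE : ∀ l, b l ∈ (⊥ : IntermediateField ℚ_[p] (PadicAlgCl p)) := by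
    intro l
    rw [hb]
    exact add_mem (hzT l).1 (add_mem (hhE l) (IntermediateField.algebraMap_mem _ _))
  have hsum : ∀ l, ‖hh l + algebraMap ℚ_[p] (PadicAlgCl p) (u l)‖ ≤ r := fun l =>
    nle (hhr l) ((hun l).trans hr2.le)
  have vP : ‖ev j b P‖ = (p : ℝ)⁻¹ ^ a := by
    rw [hb]
    refine localVal j z (fun l => (hzT l).2) P (fun m => (cP m).2) hz r _ hr0.le hr1.le hh _ hhr
      hun ?_ (hra a ha1)
    have h1 : lin j (fun i => j (z i)) hh P = j Δ * (p : PadicAlgCl p) ^ a := by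
      rw [hhdef, lin_add_right, lin_single, lin_single, ev_j, ev_j, hX₁, hX₂, hΔdef, map_sub,
        map_mul, map_mul]
      ring
    rw [h1, norm_mul, uΔ, one_mul, norm_pow, hpn]
  have vP' : ‖ev j b P'‖ = (p : ℝ)⁻¹ ^ a' := by
    rw [hb]
    refine localVal j z (fun l => (hzT l).2) P' (fun m => (cP' m).2) hz' r _ hr0.le hr1.le hh _ hhr
      hun ?_ (hra a' ha'1)
    have h1 : lin j (fun i => j (z i)) hh P' = j Δ * (p : PadicAlgCl p) ^ a' := by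
      rw [hhdef, lin_add_right, lin_single, lin_single, ev_j, ev_j, hX₁, hX₂, hΔdef, map_sub,
        map_mul, map_mul]
      ring
    rw [h1, norm_mul, uΔ, one_mul, norm_pow, hpn]
  have vD₂ : ‖ev j b D₂‖ = 1 := by
    rw [hb]
    exact localUnit j z (fun l => (hzT l).2) D₂ (fun m => (cD₂ m).2) u1 r hr0.le hr1 _ hsum
  have vG₂ : ‖ev j b G₂‖ = 1 := by
    rw [hb]
    exact localUnit j z (fun l => (hzT l).2) G₂ (fun m => (cG₂ m).2) u2 r hr0.le hr1 _ hsum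
  have hGR0 : GR ≠ 0 := by
    rintro rfl
    rw [zero_pow hN.ne', mul_zero] at hG₂
    exact hG0 hG₂
  have hGRb : ev j b GR ≠ 0 := by
    intro h0
    apply hGR0
    apply hbI
    rw [h0, map_zero]
  -- the second point
  obtain ⟨u', hu', hind'⟩ := exists_ind j r hr0 n (fun l => j (z' l))
  have hun' : ∀ l, ‖algebraMap ℚ_[p] (PadicAlgCl p) (u' l)‖ ≤ r := by
    intro l
    rw [PadicAlgCl.norm_extends]
    exact (hu' l).le
  refine finish hne hkK h hδ0 hδK hs hst t ht hal C hgen D hD hN w G hG0 hw hno j hgood hjk hCT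
    (fun m => (cG m).1) b (fun l => j (z' l) + algebraMap ℚ_[p] (PadicAlgCl p) (u' l)) hbI hind'
    hbE (fun l => add_mem (hz'T l).1 (IntermediateField.algebraMap_mem _ _))
    (localUnit j z' (fun l => (hz'T l).2) D (fun m => (cD m).2) u4 r hr0.le hr1 _ hun')
    (localUnit j z' (fun l => (hz'T l).2) G (fun m => (cG m).2) u5 r hr0.le hr1 _ hun')
    (a * m + a' * m') (a * g + a' * g') (ev j b DR) (ev j b GR)
    (ev_mem j _ b hbE DR (fun m => (cDR m).1)) (ev_mem j _ b hbE GR (fun m => (cGR m).1))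
    hGRb ?_ ?_ hℓa
  · rw [hD₂]
    simp only [map_mul, map_pow, norm_mul, norm_pow, vP, vP', vD₂]
    rw [← pow_mul, ← pow_mul, ← pow_add, mul_one]
  · rw [hG₂]
    simp only [map_mul, map_pow, norm_mul, norm_pow, vP, vP', vG₂]
    rw [← pow_mul, ← pow_mul, ← pow_add, mul_one]

end test

end Pool.Agent.T6.H28.Mv
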