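import Mathlib

/-! # Irreducible factors of polynomials in several variables -/

set_option autoImplicit false
set_option linter.all false

namespace Pool.Agent.T6.H28.Mv

open MvPolynomial

variable {F : Type} [Field F] {n : ℕ}

/-- `m` is the multiplicity of `P` in `A` -/
def Ex (P A : MvPolynomial (Fin n) F) (m : ℕ) : Prop := P ^ m ∣ A ∧ ¬ P ^ (m + 1) ∣ A

theorem Ex.unique {P A : MvPolynomial (Fin n) F} {m m' : ℕ} (h : Ex P A m) (h' : Ex P A m') :
    m = m' := by
  rcases lt_trichotomy m m' with h1 | h1 | h1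
  · exact absurd ((pow_dvd_pow P h1).trans h'.1) h.2
  · exact h1
  · exact absurd ((pow_dvd_pow P h1).trans h.1) h'.2

theorem exists_ex {P A : MvPolynomial (Fin n) F} (hP : Irreducible P) (hA : A ≠ 0) :
    ∃ m, Ex P A m := by
  obtain ⟨m, a, h1, h2⟩ := WfDvdMonoid.max_power_factor hA hP
  refine ⟨m, ⟨a, h2⟩, ?_⟩
  rintro ⟨b, hb⟩
  apply h1
  have h3 : P ^ m ≠ 0 := pow_ne_zero _ hP.ne_zero
  refine ⟨b, mul_left_cancel₀ h3 ?_⟩
  rw [← h2, hb]
  ring

theorem Ex.exists_eq {P A : MvPolynomial (Fin n) F} {m : ℕ} (h : Ex P A m) :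
    ∃ A₁, A = P ^ m * A₁ ∧ ¬ P ∣ A₁ := by
  obtain ⟨a, ha⟩ := h.1
  refine ⟨a, ha, ?_⟩
  rintro ⟨b, rfl⟩
  apply h.2
  exact ⟨b, by rw [ha]; ring⟩

theorem ex_of_eq {P A₁ : MvPolynomial (Fin n) F} (hP : Irreducible P) (h : ¬ P ∣ A₁) (m : ℕ) :
    Ex P (P ^ m * A₁) m := by
  refine ⟨⟨_, rfl⟩, ?_⟩
  rintro ⟨b, hb⟩
  apply h
  have h3 : P ^ m ≠ 0 := pow_ne_zero _ hP.ne_zero
  refine ⟨b, mul_left_cancel₀ h3 ?_⟩
  rw [hb]
  ring

theorem Ex.mul {P A B : MvPolynomial (Fin n) F} (hP : Irreducible P) {m m' : ℕ} (h : Ex P A m)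
    (h' : Ex P B m') : Ex P (A * B) (m + m') := by
  obtain ⟨A₁, rfl, h1⟩ := h.exists_eq
  obtain ⟨B₁, rfl, h2⟩ := h'.exists_eq
  have h3 : P ^ m * A₁ * (P ^ m' * B₁) = P ^ (m + m') * (A₁ * B₁) := by ring
  rw [h3]
  refine ex_of_eq hP (fun h4 => ?_) _
  rcases hP.prime.dvd_or_dvd h4 with h5 | h5
  · exact h1 h5
  · exact h2 h5

theorem Ex.pow {P A : MvPolynomial (Fin n) F} (hP : Irreducible P) {m : ℕ} (h : Ex P A m) (r : ℕ) :
    Ex P (A ^ r) (r * m) := by
  induction r with
  | zero =>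
    rw [pow_zero, zero_mul]
    refine ⟨by rw [pow_zero], ?_⟩
    rw [zero_add, pow_one]
    intro h1
    exact hP.not_isUnit (isUnit_of_dvd_one h1)
  | succ r ih =>
    rw [pow_succ, Nat.succ_mul]
    exact ih.mul hP h

/-- associated polynomials have the same multiplicity -/
theorem Ex.assoc {P Q A : MvPolynomial (Fin n) F} {m : ℕ} (h : Ex P A m) (hPQ : Associated P Q) :
    Ex Q A m := by
  refine ⟨((hPQ.pow_pow).dvd_iff_dvd_left).1 h.1, fun h1 => h.2 ?_⟩
  exact ((hPQ.pow_pow).dvd_iff_dvd_left).2 h1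

/-- the multiplicity in a factor -/
theorem ex_of_factor {P Q A : MvPolynomial (Fin n) F} (hP : Irreducible P) (hQ : Irreducible Q)
    (hne : ¬ Associated P Q) {e m : ℕ} (h : Ex Q A e) : Ex Q (P ^ m * A) e := by
  have h1 : Ex Q (P ^ m) 0 := by
    refine ⟨by rw [pow_zero]; exact one_dvd _, ?_⟩
    rw [zero_add, pow_one]
    intro h2
    have h3 := hQ.prime.dvd_of_dvd_pow h2
    exact hne (hQ.associated_of_dvd hP h3).symm
  have := h1.mul hQ h
  rwa [zero_add] at this

/-- removing the factors with a given property -/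
theorem split (S : MvPolynomial (Fin n) F → Prop) (N : ℕ) (A : MvPolynomial (Fin n) F)
    (hA : A ≠ 0) (h : ∀ Q, Irreducible Q → S Q → ∀ e, Ex Q A e → N ∣ e) :
    ∃ A₂ R, A = A₂ * R ^ N ∧ ∀ Q, Irreducible Q → S Q → ¬ Q ∣ A₂ := by
  revert hA h
  refine WellFounded.induction (wellFounded_dvdNotUnit (α := MvPolynomial (Fin n) F))
    (C := fun A => A ≠ 0 → (∀ Q, Irreducible Q → S Q → ∀ e, Ex Q A e → N ∣ e) →
      ∃ A₂ R, A = A₂ * R ^ N ∧ ∀ Q, Irreducible Q → S Q → ¬ Q ∣ A₂) A ?_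
  intro A ih hA h
  by_cases hcon : ∀ Q, Irreducible Q → S Q → ¬ Q ∣ A
  · exact ⟨A, 1, by rw [one_pow, mul_one], hcon⟩
  · push Not at hcon
    obtain ⟨Q, hQ, hSQ, hQA⟩ := hcon
    obtain ⟨e, he⟩ := exists_ex hQ hA
    obtain ⟨c, rfl⟩ := h Q hQ hSQ e he
    obtain ⟨A', hA', hQA'⟩ := he.exists_eq
    have hA'0 : A' ≠ 0 := by
      rintro rfl
      exact hQA' (dvd_zero _)
    have he0 : N * c ≠ 0 := by
      intro h0
      rw [h0, pow_zero, one_mul] at hA'
      rw [hA'] at hQA
      exact hQA' hQA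
    obtain ⟨A₂, R, h1, h2⟩ := ih A' ⟨hA'0, Q ^ (N * c), fun hu => hQ.not_isUnit
        ((isUnit_pow_iff he0).1 hu), by rw [hA']; ring⟩ hA'0 (by
      intro Q' hQ' hSQ' e' he'
      by_cases hass : Associated Q Q'
      · rcases Nat.eq_zero_or_pos e' with h0 | h0
        · rw [h0]; exact dvd_zero _
        · exfalso
          apply hQA'
          exact (hass.dvd_iff_dvd_left).2 ((dvd_pow_self Q' h0.ne').trans he'.1)
      · apply h Q' hQ' hSQ' e'
        rw [hA']
        exact ex_of_factor hQ hQ' hass he')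
    refine ⟨A₂, R * Q ^ c, ?_, h2⟩
    rw [hA', h1, mul_pow, ← pow_mul, mul_comm c N]
    ring

/-- a polynomial without irreducible factors is constant -/
theorem exists_C {A : MvPolynomial (Fin n) F} (hA : A ≠ 0) (h : ∀ Q, Irreducible Q → ¬ Q ∣ A) :
    ∃ c : F, c ≠ 0 ∧ A = C c := by
  have h1 : IsUnit A := by
    by_contra hu
    obtain ⟨Q, hQ, hQA⟩ := WfDvdMonoid.exists_irreducible_factor hu hA
    exact h Q hQ hQA
  rw [MvPolynomial.isUnit_iff_eq_C_of_isReduced] at h1
  obtain ⟨c, hc, rfl⟩ := h1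
  exact ⟨c, hc.ne_zero, rfl⟩

/-- some irreducible factor vanishes at a zero -/
theorem exists_factor (z : Fin n → F) {A : MvPolynomial (Fin n) F} (hA : A ≠ 0)
    (h : eval z A = 0) : ∃ Q, Irreducible Q ∧ Q ∣ A ∧ eval z Q = 0 := by
  obtain ⟨f, hf, u, hu⟩ := UniqueFactorizationMonoid.exists_prime_factors A hA
  have h1 : eval z f.prod = 0 := by
    have h2 : eval z f.prod * eval z (u : MvPolynomial (Fin n) F) = 0 := by
      rw [← map_mul, hu, h]
    rcases mul_eq_zero.1 h2 with h3 | h3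
    · exact h3
    · exfalso
      have h4 : IsUnit (eval z (u : MvPolynomial (Fin n) F)) := u.isUnit.map (eval z)
      rw [h3] at h4
      exact not_isUnit_zero h4
  rw [map_multiset_prod, Multiset.prod_eq_zero_iff, Multiset.mem_map] at h1
  obtain ⟨Q, hQ, hQ0⟩ := h1
  refine ⟨Q, (hf Q hQ).irreducible, ?_, hQ0⟩
  rw [← hu]
  exact (Multiset.dvd_prod hQ).mul_right _

/-- the local form at a point of two components -/
theorem split2 (z : Fin n → F) {P P' : MvPolynomial (Fin n) F} (hP : Irreducible P)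
    (hP' : Irreducible P') (hne : ¬ Associated P P') (N : ℕ) {A : MvPolynomial (Fin n) F}
    (hA : A ≠ 0) {a a' : ℕ} (ha : Ex P A a) (ha' : Ex P' A a')
    (h : ∀ Q, Irreducible Q → eval z Q = 0 → ¬ Associated Q P → ¬ Associated Q P' →
      ∀ e, Ex Q A e → N ∣ e) :
    ∃ A₂ R, A = P ^ a * P' ^ a' * A₂ * R ^ N ∧ eval z A₂ ≠ 0 := by
  obtain ⟨A₁, hA₁, h1⟩ := ha.exists_eq
  have hA₁0 : A₁ ≠ 0 := by rintro rfl; exact h1 (dvd_zero _)
  have h2 : Ex P' A₁ a' := by
    obtain ⟨e, he⟩ := exists_ex hP' hA₁0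
    have h3 := ex_of_factor (m := a) hP hP' hne he
    rw [← hA₁] at h3
    rwa [← h3.unique ha']
  obtain ⟨A', hA', h3⟩ := h2.exists_eq
  have hA'0 : A' ≠ 0 := by rintro rfl; exact h3 (dvd_zero _)
  have hPA' : ¬ P ∣ A' := fun h4 => h1 (by rw [hA']; exact h4.mul_left _)
  obtain ⟨A₂, R, h4, h5⟩ := split (fun Q => eval z Q = 0) N A' hA'0 (by
    intro Q hQ hQz e he
    rcases Nat.eq_zero_or_pos e with h0 | h0
    · rw [h0]; exact dvd_zero _
    have hQA : Q ∣ A' := (dvd_pow_self Q h0.ne').trans he.1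
    have hQP : ¬ Associated Q P := fun h6 => hPA' ((h6.dvd_iff_dvd_left).1 hQA)
    have hQP' : ¬ Associated Q P' := fun h6 => h3 ((h6.dvd_iff_dvd_left).1 hQA)
    apply h Q hQ hQz hQP hQP' e
    rw [hA₁, hA']
    exact ex_of_factor hP hQ (fun h6 => hQP h6.symm)
      (ex_of_factor hP' hQ (fun h6 => hQP' h6.symm) he))
  refine ⟨A₂, R, ?_, fun h6 => ?_⟩
  · rw [hA₁, hA', h4]
    ring
  · have hA₂0 : A₂ ≠ 0 := by
      rintro rfl
      rw [zero_mul] at h4
      exact hA'0 h4
    obtain ⟨Q, hQ, hQA, hQz⟩ := exists_factor z hA₂0 h6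
    exact h5 Q hQ hQz hQA

/-- the coefficients of the derivative -/
theorem coeff_pd (i : Fin n) (P : MvPolynomial (Fin n) F) (m : Fin n →₀ ℕ) :
    coeff m (pderiv i P) = coeff (m + Finsupp.single i 1) P * (m i + 1) := by
  classical
  induction P using MvPolynomial.induction_on' with
  | monomial v a =>
    rw [pderiv_monomial, coeff_monomial, coeff_monomial]
    by_cases h : v = m + Finsupp.single i 1
    · subst h
      rw [if_pos (add_tsub_cancel_right _ _), if_pos rfl]
      simp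
    · rw [if_neg h, zero_mul]
      by_cases h2 : v - Finsupp.single i 1 = m
      · rw [if_pos h2]
        have h3 : v i = 0 := by
          by_contra h4
          apply h
          rw [← h2, tsub_add_cancel_of_le]
          rw [Finsupp.single_le_iff]
          omega
        rw [h3]
        simp
      · rw [if_neg h2]
  | add p q hp hq => rw [map_add, coeff_add, coeff_add, hp, hq, add_mul]

/-- an irreducible polynomial does not divide all its derivatives -/
theorem exists_pd [CharZero F] {P : MvPolynomial (Fin n) F} (hP : Irreducible P) :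
    ∃ i, ¬ P ∣ pderiv i P := by
  classical
  have h1 : ∃ v ∈ P.support, v ≠ 0 := by
    by_contra hcon
    push Not at hcon
    apply hP.not_isUnit
    have h2 : P = C (coeff 0 P) := by
      ext m
      rw [coeff_C]
      split_ifs with h3
      · rw [h3]
      · by_contra h4
        exact h3 (hcon m (mem_support_iff.2 h4)).symm
    have h3 : coeff 0 P ≠ 0 := by
      intro h4
      rw [h4, C_0] at h2
      exact hP.ne_zero h2
    rw [h2]
    exact (isUnit_iff_ne_zero.2 h3).map C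
  obtain ⟨v, hv, hv0⟩ := h1
  obtain ⟨i, hi⟩ : ∃ i, v i ≠ 0 := by
    by_contra hcon
    push Not at hcon
    exact hv0 (Finsupp.ext hcon)
  have h2 : pderiv i P ≠ 0 := by
    intro h0
    have h3 := coeff_pd i P (v - Finsupp.single i 1)
    rw [h0, coeff_zero, tsub_add_cancel_of_le (by rw [Finsupp.single_le_iff]; omega)] at h3
    rcases mul_eq_zero.1 h3.symm with h4 | h4
    · exact mem_support_iff.1 hv h4
    · have h5 : ((((v - Finsupp.single i 1 : Fin n →₀ ℕ) i + 1 : ℕ)) : F) = 0 := by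
        push_cast
        exact h4
      rw [Nat.cast_eq_zero] at h5
      omega
  refine ⟨i, fun hdvd => ?_⟩
  obtain ⟨Q, hQ⟩ := hdvd
  have hQ0 : Q ≠ 0 := by
    rintro rfl
    rw [mul_zero] at hQ
    exact h2 hQ
  have h3 := totalDegree_mul_of_isDomain hP.ne_zero hQ0
  rw [← hQ] at h3
  have hpos : 0 < P.totalDegree := by
    have h4 := le_totalDegree hv
    have h5 : v i ≤ v.sum fun _ e => e := by
      rw [Finsupp.sum]
      exact Finset.single_le_sum (f := fun j => v j) (fun _ _ => Nat.zero_le _)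
        (Finsupp.mem_support_iff.2 hi)
    omega
  have h4 : (pderiv i P).totalDegree < P.totalDegree := by
    unfold totalDegree
    rw [Finset.sup_lt_iff (by simpa [totalDegree] using hpos)]
    intro m hm
    rw [mem_support_iff, coeff_pd] at hm
    have h5 : m + Finsupp.single i 1 ∈ P.support := by
      rw [mem_support_iff]
      intro h6
      rw [h6, zero_mul] at hm
      exact hm rfl
    have h6 := Finset.le_sup (f := fun s : Fin n →₀ ℕ => s.sum fun _ e => e) h5
    have h7 : (m + Finsupp.single i 1).sum (fun _ e => e) = (m.sum fun _ e => e) + 1 := by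
      rw [Finsupp.sum_add_index' (fun _ => rfl) (fun _ _ _ => rfl),
        Finsupp.sum_single_index rfl]
    rw [h7] at h6
    exact Nat.lt_of_succ_le h6
  omega

/-- a point of a hypersurface outside of another one -/
theorem exists_pt [IsAlgClosed F] {P A : MvPolynomial (Fin n) F} (hP : Irreducible P)
    (h : ¬ P ∣ A) : ∃ z : Fin n → F, eval z P = 0 ∧ eval z A ≠ 0 := by
  haveI : (Ideal.span {P}).IsPrime := (Ideal.span_singleton_prime hP.ne_zero).2 hP.prime
  have h1 := IsPrime.vanishingIdeal_zeroLocus (K := F) (Ideal.span {P})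
  have h2 : A ∉ vanishingIdeal F (zeroLocus F (Ideal.span {P})) := by
    rw [h1, Ideal.mem_span_singleton]
    exact h
  rw [mem_vanishingIdeal_iff] at h2
  push Not at h2
  obtain ⟨z, hz, hzA⟩ := h2
  rw [zeroLocus_span] at hz
  refine ⟨z, ?_, ?_⟩
  · have := hz P (Set.mem_singleton _)
    rwa [← coe_aeval_eq_eval]
  · rwa [← coe_aeval_eq_eval]

theorem exists_ne [Infinite F] {A : MvPolynomial (Fin n) F} (h : A ≠ 0) :
    ∃ z : Fin n → F, eval z A ≠ 0 := by
  by_contra hcon
  push Not at hcon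
  exact h (MvPolynomial.funext fun z => by rw [hcon z, map_zero])

end Pool.Agent.T6.H28.Mv
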