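import Pool.Agent.T6.H28.TestP

/-! # Tests in general position -/

set_option autoImplicit false
set_option linter.all false

open Polynomial FF

namespace Pool.Agent.T6.H28.PE

open Pool.Agent.Y157.PS Pool.Agent.Y157.GT Pool.Agent.Y474.GT

/-- a place of `κ₀` with values in `ℚ_p` on a finite set, with prescribed units -/
theorem gen_place {k κ₀ : Type} [Field k] [CharZero k] [Field κ₀] [Algebra k κ₀]
    [IsAlgClosure k κ₀] (hfg : (⊤ : IntermediateField ℚ k).FG) (T : Finset κ₀) (N : ℕ) :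
    ∃ (p : ℕ) (_ : Fact p.Prime) (j : κ₀ →+* PadicAlgCl p), N < p ∧
      (∀ c : k, ∃ q : ℚ_[p], algebraMap ℚ_[p] (PadicAlgCl p) q = j (algebraMap k κ₀ c)) ∧
      (∀ a ∈ T, ∃ q : ℚ_[p], algebraMap ℚ_[p] (PadicAlgCl p) q = j a) ∧
      ∀ a ∈ T, a ≠ 0 → ‖j a‖ = 1 := by
  obtain ⟨k₁, p, hp, q, hfin, hN, hT, hnorm⟩ := b_embp k κ₀ hfg T N
  haveI := hp
  haveI := hfin
  haveI : Algebra.IsAlgebraic k κ₀ := (inferInstance : IsAlgClosure k κ₀).isAlgebraic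
  obtain ⟨j, hj⟩ := lift_alg (K := κ₀) ((algebraMap ℚ_[p] (PadicAlgCl p)).comp q)
  refine ⟨p, hp, j, hN, fun c => ⟨q (algebraMap k k₁ c), ?_⟩, fun a ha => ⟨q ⟨a, hT a ha⟩, ?_⟩,
    fun a ha ha0 => ?_⟩
  · exact (hj (algebraMap k k₁ c)).symm
  · exact (hj ⟨a, hT a ha⟩).symm
  · have h1 : j a = algebraMap ℚ_[p] (PadicAlgCl p) (q ⟨a, hT a ha⟩) := hj ⟨a, hT a ha⟩
    rw [h1, PadicAlgCl.norm_extends]
    exact hnorm ⟨a, hT a ha⟩ ha (fun h => ha0 (congrArg Subtype.val h))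

section

variable {p : ℕ} [hp : Fact p.Prime] {κ₀ : Type}

theorem prod_single [DecidableEq κ₀] (A₀ : Finset κ₀) (f : κ₀ → PadicAlgCl p) (m : κ₀ → ℕ)
    (a : κ₀) (ha : a ∈ A₀) (r : ℝ) (h1 : ‖f a‖ = r) (h2 : ∀ a' ∈ A₀, a' ≠ a → ‖f a'‖ = 1) :
    ‖∏ a' ∈ A₀, f a' ^ m a'‖ = r ^ m a := by
  rw [_root_.norm_prod, Finset.prod_eq_single a]
  · rw [norm_pow, h1]
  · intro a' ha' hne
    rw [norm_pow, h2 a' ha' hne, one_pow]
  · intro h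
    exact absurd ha h

theorem prod_const (A₀ : Finset κ₀) (f : κ₀ → PadicAlgCl p) (m : κ₀ → ℕ) (r : ℝ)
    (h1 : ∀ a ∈ A₀, ‖f a‖ = r) : ‖∏ a' ∈ A₀, f a' ^ m a'‖ = r ^ (∑ a ∈ A₀, m a) := by
  rw [_root_.norm_prod, ← Finset.prod_pow_eq_pow_sum]
  refine Finset.prod_congr rfl fun a ha => ?_
  rw [norm_pow, h1 a ha]

theorem norm_bot (e : PadicAlgCl p) (he : e ∈ (⊥ : IntermediateField ℚ_[p] (PadicAlgCl p)))
    (he0 : e ≠ 0) : ∃ v : ℤ, ‖e‖ = (p : ℝ) ^ v := by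
  rw [IntermediateField.mem_bot] at he
  obtain ⟨q, rfl⟩ := he
  rw [PadicAlgCl.norm_extends]
  exact ⟨_, Padic.norm_eq_zpow_neg_valuation (fun h => he0 (by rw [h, map_zero]))⟩

end

/-- the sum of the multiplicities is the degree -/
theorem sum_mult {κ₀ : Type} [Field κ₀] [IsAlgClosed κ₀] (P : κ₀[X]) (hP : P ≠ 0)
    (A₀ : Finset κ₀) (hA : ∀ a, P.IsRoot a → a ∈ A₀) :
    ∑ a ∈ A₀, P.rootMultiplicity a = P.natDegree := by
  have h1 := congrArg natDegree (fac P hP A₀ hA)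
  rw [natDegree_C_mul (leadingCoeff_ne_zero.2 hP), natDegree_prod_of_monic _ _
    (fun a _ => (monic_X_sub_C a).pow _)] at h1
  rw [h1]
  refine Finset.sum_congr rfl fun a _ => ?_
  rw [natDegree_pow, natDegree_X_sub_C, mul_one]

section

variable {ℓ : ℕ} [Fact ℓ.Prime]
    {k K κ₀ κ R₀ R M₀ M : Type} [Field k] [CharZero k] [Field K] [CharZero K] [Field κ₀]
    [Algebra k κ₀] [IsAlgClosure k κ₀] [Field κ] [Algebra κ₀ κ] [Algebra k κ]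
    [IsScalarTower k κ₀ κ] [Algebra K κ] [IsAlgClosure K κ]
    [Field R₀] [Field R] [Field M₀] [Field M] [Algebra κ₀ R₀]
    [Algebra R₀ M₀] [Algebra κ₀ M₀] [IsScalarTower κ₀ R₀ M₀] [Algebra κ R] [Algebra R M]
    [Algebra κ M] [IsScalarTower κ R M]
    {x₀ : R₀} {x : R} {B₀ : Finset κ₀} {B : Finset κ} {Y₀ : M₀} {Y : M} {ι : M₀ →+* M}

theorem testG (hfg : (⊤ : IntermediateField ℚ k).FG) (t : κ) (ht : Transcendental κ₀ t)
    (hal : Algebra.IsAlgebraic (IntermediateField.adjoin κ₀ {t}) κ)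
    (hgen : ∀ S : Subfield κ, (∀ c : k, algebraMap k κ c ∈ S) → t ∈ S →
      ∀ c : K, algebraMap K κ c ∈ S)
    (hkK : ∀ c : k, ∃ b : K, algebraMap K κ b = algebraMap k κ c)
    (h : Pair ℓ κ₀ κ R₀ R M₀ M x₀ x B₀ B Y₀ Y ι) {δ : κ} (hδ0 : δ ≠ 0)
    {s : (κ ≃ₐ[K] κ) →* RingAut M} (hs : Sec K κ R M x Y δ s)
    (hst : ∀ σ z₀, ∃ z₁, s σ (ι z₀) = ι z₁)
    (D : k[X]) (hD0 : D ≠ 0) (hδ : δ ^ ℓ = aeval t (D.map (algebraMap k κ₀)))
    (w : κ) (G : κ₀[X]) (hG : G.Monic) (hw : w ^ (ℓ ^ 2) = aeval t G)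
    (hno : ∀ g : κ ≃ₐ[K] κ, (∀ c, g (algebraMap κ₀ κ c) = algebraMap κ₀ κ c) →
      (∀ z₀, s g (ι z₀) = ι z₀) → g w = w) :
    (∀ a, G.IsRoot a → ∀ i : ℕ, 0 < i → ℓ ∣ i * (D.map (algebraMap k κ₀)).rootMultiplicity a →
      ℓ ^ 2 ∣ i * G.rootMultiplicity a) ∧ (ℓ ∣ D.natDegree → ℓ ^ 2 ∣ G.natDegree) := by
  classical
  haveI : IsAlgClosed κ₀ := IsAlgClosure.isAlgClosed k
  haveI : CharZero κ₀ := charZero_of_injective_algebraMap (algebraMap k κ₀).injective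
  set D' : κ₀[X] := D.map (algebraMap k κ₀) with hD'
  have hD'0 : D' ≠ 0 := (Polynomial.map_ne_zero_iff (algebraMap k κ₀).injective).2 hD0
  have hDdeg : D.natDegree = D'.natDegree := by rw [hD', natDegree_map]
  have hG0 : G ≠ 0 := hG.ne_zero
  obtain ⟨A₀, hA₀⟩ : ∃ A₀ : Finset κ₀, A₀ = (D' * G).roots.toFinset := ⟨_, rfl⟩
  have hA : ∀ a, a ∈ A₀ ↔ D'.IsRoot a ∨ G.IsRoot a := by
    intro a
    rw [hA₀, Multiset.mem_toFinset, mem_roots (mul_ne_zero hD'0 hG0), root_mul]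
  have hAD : ∀ a, D'.IsRoot a → a ∈ A₀ := fun a ha => (hA a).2 (Or.inl ha)
  have hAG : ∀ a, G.IsRoot a → a ∈ A₀ := fun a ha => (hA a).2 (Or.inr ha)
  obtain ⟨p, hp, j, hpN, hjk, hjT, hjn⟩ := gen_place (k := k) hfg
    (A₀ ∪ B₀ ∪ (A₀ ×ˢ A₀).image (fun x => x.1 - x.2) ∪ (B₀ ×ˢ B₀).image (fun x => x.1 - x.2) ∪
      {D'.leadingCoeff}) ℓ
  have hne : ℓ ≠ p := hpN.ne
  have hp1 : (1 : ℝ) < p := by exact_mod_cast hp.out.one_lt
  have hp0 : (0 : ℝ) < p := by linarith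
  have hle : ∀ a ∈ (A₀ ∪ B₀ ∪ (A₀ ×ˢ A₀).image (fun x => x.1 - x.2) ∪
      (B₀ ×ˢ B₀).image (fun x => x.1 - x.2) ∪ {D'.leadingCoeff}), ‖j a‖ ≤ 1 := by
    intro a ha
    rcases eq_or_ne a 0 with h0 | h0
    · rw [h0, map_zero, norm_zero]; exact zero_le_one
    · exact (hjn a ha h0).le
  have hgood : Good (Aq j) B₀ := by
    refine ⟨fun e he => ?_, fun e he e' he' hee => ?_⟩
    · rw [mem_Aq]
      apply hle
      simp only [Finset.mem_union]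
      exact Or.inl (Or.inl (Or.inl (Or.inr he)))
    · rw [isU_Aq]
      refine hjn _ ?_ (sub_ne_zero.2 hee)
      simp only [Finset.mem_union, Finset.mem_image, Finset.mem_product]
      exact Or.inl (Or.inr ⟨(e, e'), ⟨he, he'⟩, rfl⟩)
  have hAle : ∀ a ∈ A₀, ‖j a‖ ≤ 1 := by
    intro a ha
    apply hle
    simp only [Finset.mem_union]
    exact Or.inl (Or.inl (Or.inl (Or.inl ha)))
  have hAdiff : ∀ a ∈ A₀, ∀ a' ∈ A₀, a ≠ a' → ‖j a - j a'‖ = 1 := by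
    intro a ha a' ha' haa
    rw [← map_sub]
    refine hjn _ ?_ (sub_ne_zero.2 haa)
    simp only [Finset.mem_union, Finset.mem_image, Finset.mem_product]
    exact Or.inl (Or.inl (Or.inr ⟨(a, a'), ⟨ha, ha'⟩, rfl⟩))
  have hlc : ‖j D'.leadingCoeff‖ = 1 := by
    refine hjn _ ?_ (leadingCoeff_ne_zero.2 hD'0)
    exact Finset.mem_union_right _ (Finset.mem_singleton_self _)
  have hbot : ∀ z : PadicAlgCl p, (∃ q : ℚ_[p], algebraMap ℚ_[p] (PadicAlgCl p) q = z) →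
      z ∈ (⊥ : IntermediateField ℚ_[p] (PadicAlgCl p)) := by
    rintro _ ⟨q, rfl⟩
    exact IntermediateField.algebraMap_mem _ q
  have hAbot : ∀ a ∈ A₀, j a ∈ (⊥ : IntermediateField ℚ_[p] (PadicAlgCl p)) := by
    intro a ha
    apply hbot
    apply hjT
    simp only [Finset.mem_union]
    exact Or.inl (Or.inl (Or.inl (Or.inl ha)))
  have hpE : ((p : ℕ) : PadicAlgCl p) ∈ (⊥ : IntermediateField ℚ_[p] (PadicAlgCl p)) :=
    natCast_mem _ p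
  have hpn : ‖((p : ℕ) : PadicAlgCl p)‖ = (p : ℝ)⁻¹ := norm_cast_p
  have hGlc : j G.leadingCoeff = 1 := by rw [hG.leadingCoeff, map_one]
  have hGe : ∀ b, G.eval₂ j b = ∏ a ∈ A₀, (b - j a) ^ G.rootMultiplicity a := by
    intro b
    rw [fac_eval G hG0 A₀ hAG, hGlc, one_mul]
  have hDe : ∀ b, ‖D'.eval₂ j b‖ = ‖∏ a ∈ A₀, (b - j a) ^ D'.rootMultiplicity a‖ := by
    intro b
    rw [fac_eval D' hD'0 A₀ hAD j b, norm_mul, hlc, one_mul]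
  have hsD := sum_mult D' hD'0 A₀ hAD
  have hsG := sum_mult G hG0 A₀ hAG
  -- the second point
  obtain ⟨b', hb'⟩ : ∃ b' : PadicAlgCl p, b' = (((p : ℕ) : PadicAlgCl p)⁻¹) ^ (ℓ ^ 2) := ⟨_, rfl⟩
  have hb'E : b' ∈ (⊥ : IntermediateField ℚ_[p] (PadicAlgCl p)) := by
    rw [hb']
    exact pow_mem (inv_mem hpE) _
  have hb'n : ‖b'‖ = (p : ℝ) ^ (ℓ ^ 2) := by
    rw [hb', norm_pow, norm_inv, hpn, inv_inv]
  have hℓ2 : 0 < ℓ ^ 2 := pow_pos (Fact.out : ℓ.Prime).pos 2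
  have hfar : ∀ (b : PadicAlgCl p), 1 < ‖b‖ → ∀ a ∈ A₀, ‖b - j a‖ = ‖b‖ := by
    intro b hb a ha
    have h1 : ‖-j a‖ < ‖b‖ := by
      rw [norm_neg]
      exact lt_of_le_of_lt (hAle a ha) hb
    rw [sub_eq_add_neg, IsUltrametricDist.norm_add_eq_max_of_norm_ne_norm h1.ne']
    exact max_eq_left h1.le
  have hb'1 : 1 < ‖b'‖ := by
    rw [hb'n]
    exact one_lt_pow₀ hp1 hℓ2.ne'
  have hDb' : ‖D'.eval₂ j b'‖ = ((p : ℝ) ^ (ℓ ^ 2)) ^ D'.natDegree := by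
    rw [hDe, prod_const A₀ _ _ _ (fun a ha => hfar b' hb'1 a ha), hsD, hb'n]
  have hGb' : ‖G.eval₂ j b'‖ = ((p : ℝ) ^ (ℓ ^ 2)) ^ G.natDegree := by
    rw [hGe, prod_const A₀ _ _ _ (fun a ha => hfar b' hb'1 a ha), hsG, hb'n]
  have hDb'0 : D'.eval₂ j b' ≠ 0 := by
    rw [← norm_ne_zero_iff, hDb']
    positivity
  have hGb'0 : G.eval₂ j b' ≠ 0 := by
    rw [← norm_ne_zero_iff, hGb']
    positivity
  have hDb'p : ∃ e ∈ (⊥ : IntermediateField ℚ_[p] (PadicAlgCl p)),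
      ‖D'.eval₂ j b'‖ = ‖e‖ ^ ℓ := by
    refine ⟨(((p : ℕ) : PadicAlgCl p)⁻¹) ^ (ℓ * D'.natDegree), pow_mem (inv_mem hpE) _, ?_⟩
    rw [hDb', norm_pow, norm_inv, hpn, inv_inv, ← pow_mul, ← pow_mul]
    congr 1
    ring
  -- the test
  have test : ∀ b ∈ (⊥ : IntermediateField ℚ_[p] (PadicAlgCl p)), ∀ (u v : ℤ),
      ‖D'.eval₂ j b‖ = (p : ℝ) ^ u → (ℓ : ℤ) ∣ u → ‖G.eval₂ j b‖ = (p : ℝ) ^ v →
      ((ℓ ^ 2 : ℕ) : ℤ) ∣ v := by
    intro b hb u v hu hℓu hv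
    obtain ⟨u', rfl⟩ := hℓu
    by_contra hcon
    have hDb0 : D'.eval₂ j b ≠ 0 := by
      rw [← norm_ne_zero_iff, hu]
      exact zpow_ne_zero _ hp0.ne'
    have hGb0 : G.eval₂ j b ≠ 0 := by
      rw [← norm_ne_zero_iff, hv]
      exact zpow_ne_zero _ hp0.ne'
    obtain ⟨g, hg1, hg2, hg3⟩ := testP hne hfg t ht hal hgen hkK h hδ0 hs hst D hD0 hδ hℓ2 w G hG
      hw j hgood (⊥ : IntermediateField ℚ_[p] (PadicAlgCl p)) (fun c => hbot _ (hjk c))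
      (fun a ha => hAbot a (hAD a ha)) (fun a ha => hAbot a (hAG a ha)) b b' hb hb'E hDb0 hDb'0
      hGb0 hGb'0 ⟨(((p : ℕ) : PadicAlgCl p)⁻¹) ^ u', zpow_mem (inv_mem hpE) _, by
        rw [hu, norm_zpow, norm_inv, hpn, inv_inv, ← zpow_natCast, ← zpow_mul, mul_comm]⟩ hDb'p (by
        rintro ⟨e, he, h3⟩
        have he0 : e ≠ 0 := by
          rintro rfl
          rw [norm_zero, zero_pow hℓ2.ne', norm_eq_zero] at h3
          exact (div_ne_zero hGb0 hGb'0) h3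
        obtain ⟨r, hr⟩ := norm_bot e he he0
        rw [norm_div, hv, hGb', hr, ← pow_mul, ← zpow_natCast, ← zpow_natCast, ← zpow_mul,
          ← zpow_sub₀ hp0.ne'] at h3
        have h4 := zpow_right_injective₀ hp0 hp1.ne' h3
        apply hcon
        refine ⟨r + G.natDegree, ?_⟩
        have h5 : v - ((ℓ ^ 2 * G.natDegree : ℕ) : ℤ) = r * ((ℓ ^ 2 : ℕ) : ℤ) := h4
        rw [Nat.cast_mul] at h5
        linarith)
    exact hg2 (hno g hg1 hg3)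
  constructor
  · intro a ha i hi hℓi
    have haA := hAG a ha
    obtain ⟨b, hb⟩ : ∃ b : PadicAlgCl p, b = j a + ((p : ℕ) : PadicAlgCl p) ^ i := ⟨_, rfl⟩
    have hbE : b ∈ (⊥ : IntermediateField ℚ_[p] (PadicAlgCl p)) := by
      rw [hb]
      exact add_mem (hAbot a haA) (pow_mem hpE i)
    have hpi : ‖((p : ℕ) : PadicAlgCl p) ^ i‖ = (p : ℝ)⁻¹ ^ i := by rw [norm_pow, hpn]
    have hpi1 : (p : ℝ)⁻¹ ^ i < 1 := pow_lt_one₀ (inv_nonneg.2 hp0.le)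
      (inv_lt_one_of_one_lt₀ hp1) hi.ne'
    have hba : ‖b - j a‖ = (p : ℝ)⁻¹ ^ i := by
      rw [hb, add_sub_cancel_left, hpi]
    have hba' : ∀ a' ∈ A₀, a' ≠ a → ‖b - j a'‖ = 1 := by
      intro a' ha' haa
      have h1 : b - j a' = ((p : ℕ) : PadicAlgCl p) ^ i + (j a - j a') := by rw [hb]; ring
      have h2 := hAdiff a haA a' ha' haa.symm
      rw [h1, IsUltrametricDist.norm_add_eq_max_of_norm_ne_norm (by rw [h2, hpi]; exact hpi1.ne),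
        h2, hpi]
      exact max_eq_right hpi1.le
    have h1 : ‖D'.eval₂ j b‖ = (p : ℝ) ^ (-((i * D'.rootMultiplicity a : ℕ) : ℤ)) := by
      rw [hDe, prod_single A₀ (fun a => b - j a) (fun a => D'.rootMultiplicity a) a haA _ hba hba',
        zpow_neg, zpow_natCast, ← pow_mul, inv_pow]
    have h2 : ‖G.eval₂ j b‖ = (p : ℝ) ^ (-((i * G.rootMultiplicity a : ℕ) : ℤ)) := by
      rw [hGe, prod_single A₀ (fun a => b - j a) (fun a => G.rootMultiplicity a) a haA _ hba hba',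
        zpow_neg, zpow_natCast, ← pow_mul, inv_pow]
    have h3 := test b hbE _ _ h1 (by
      rw [dvd_neg]
      exact_mod_cast hℓi) h2
    rw [dvd_neg] at h3
    exact_mod_cast h3
  · intro hdeg
    rw [hDdeg] at hdeg
    have hb1 : 1 < ‖(((p : ℕ) : PadicAlgCl p))⁻¹‖ := by
      rw [norm_inv, hpn, inv_inv]
      exact hp1
    have hbn : ‖(((p : ℕ) : PadicAlgCl p))⁻¹‖ = (p : ℝ) := by rw [norm_inv, hpn, inv_inv]
    have h1 : ‖D'.eval₂ j (((p : ℕ) : PadicAlgCl p))⁻¹‖ = (p : ℝ) ^ ((D'.natDegree : ℕ) : ℤ) := by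
      rw [hDe, prod_const A₀ _ _ _ (fun a ha => hfar _ hb1 a ha), hsD, hbn, zpow_natCast]
    have h2 : ‖G.eval₂ j (((p : ℕ) : PadicAlgCl p))⁻¹‖ = (p : ℝ) ^ ((G.natDegree : ℕ) : ℤ) := by
      rw [hGe, prod_const A₀ _ _ _ (fun a ha => hfar _ hb1 a ha), hsG, hbn, zpow_natCast]
    have h3 := test _ (inv_mem hpE) _ _ h1 (by exact_mod_cast hdeg) h2
    exact_mod_cast h3

end

end Pool.Agent.T6.H28.PE
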