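import Pool.Agent.T6.H28.JTest
import Pool.Agent.T6.H28.TestG
import Pool.Agent.T6.H28.MvPt
import Pool.Agent.T6.H28.MvUfd

/-! # Tests for polynomials in several variables -/

set_option autoImplicit false
set_option linter.all false

open FF

namespace Pool.Agent.T6.H28.Mv

open MvPolynomial Pool.Agent.Y157.PS Pool.Agent.Y157.GT Pool.Agent.Y474.GT Pool.Agent.T6.H28.PE

section loc

variable {p : ℕ} [hp : Fact p.Prime] {κ₀ : Type} [Field κ₀] {n : ℕ} (j : κ₀ →+* PadicAlgCl p)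

theorem ev_j (z : Fin n → κ₀) (A : MvPolynomial (Fin n) κ₀) :
    ev j (fun i => j (z i)) A = j (eval z A) := by
  have h : ev j (fun i => j (z i)) = j.comp (eval z) := by
    apply MvPolynomial.ringHom_ext
    · intro c
      simp [ev]
    · intro i
      simp [ev]
  exact RingHom.congr_fun h A

/-- the value near a zero -/
theorem localVal (z : Fin n → κ₀) (hz : ∀ i, ‖j (z i)‖ ≤ 1) (P : MvPolynomial (Fin n) κ₀)
    (hP : ∀ m, ‖j (coeff m P)‖ ≤ 1) (hPz : eval z P = 0) (r ρ : ℝ) (hr : 0 ≤ r) (hr1 : r ≤ 1)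
    (h u : Fin n → PadicAlgCl p) (hh : ∀ i, ‖h i‖ ≤ r) (hu : ∀ i, ‖u i‖ ≤ r ^ 2)
    (hlin : ‖lin j (fun i => j (z i)) h P‖ = ρ) (hρ : r ^ 2 < ρ) :
    ‖ev j (fun i => j (z i) + (h i + u i)) P‖ = ρ := by
  have hr2 : r ^ 2 ≤ r := by
    rw [pow_two]
    exact mul_le_of_le_one_left hr hr1
  obtain ⟨h1, h2, h3⟩ := taylor j (fun i => j (z i)) (h + u) hz r hr hr1
    (fun i => nle (hh i) ((hu i).trans hr2)) P hP
  rw [ev_j, hPz, map_zero, sub_zero] at h3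
  have h4 : lin j (fun i => j (z i)) (h + u) P =
      lin j (fun i => j (z i)) h P + lin j (fun i => j (z i)) u P := by
    unfold lin
    rw [← Finset.sum_add_distrib]
    refine Finset.sum_congr rfl fun i _ => ?_
    rw [Pi.add_apply, mul_add]
  have h5 : ‖lin j (fun i => j (z i)) u P‖ ≤ r ^ 2 := by
    refine nsum _ _ (pow_nonneg hr 2) fun i _ => ?_
    have := nmul zero_le_one (h2 i) (hu i)
    rwa [one_mul] at this
  obtain ⟨e, he⟩ : ∃ e, e = ev j ((fun i => j (z i)) + (h + u)) P -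
      lin j (fun i => j (z i)) (h + u) P := ⟨_, rfl⟩
  rw [← he] at h3
  have h6 : ev j (fun i => j (z i) + (h i + u i)) P =
      lin j (fun i => j (z i)) h P + (lin j (fun i => j (z i)) u P + e) := by
    have h7 : ev j (fun i => j (z i) + (h i + u i)) P = ev j ((fun i => j (z i)) + (h + u)) P := rfl
    rw [h7, he, h4]
    ring
  have h8 : ‖lin j (fun i => j (z i)) u P + e‖ < ρ := lt_of_le_of_lt (nle h5 h3) hρ
  rw [h6, IsUltrametricDist.norm_add_eq_max_of_norm_ne_norm (by rw [hlin]; exact h8.ne'), hlin]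
  exact max_eq_left h8.le

/-- the value near a point where the polynomial is a unit -/
theorem localUnit (z : Fin n → κ₀) (hz : ∀ i, ‖j (z i)‖ ≤ 1) (A : MvPolynomial (Fin n) κ₀)
    (hA : ∀ m, ‖j (coeff m A)‖ ≤ 1) (hAz : ‖j (eval z A)‖ = 1) (r : ℝ) (hr : 0 ≤ r) (hr1 : r < 1)
    (h : Fin n → PadicAlgCl p) (hh : ∀ i, ‖h i‖ ≤ r) :
    ‖ev j (fun i => j (z i) + h i) A‖ = 1 := by
  have hr2 : r ^ 2 ≤ r := by
    rw [pow_two]
    exact mul_le_of_le_one_left hr hr1.le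
  obtain ⟨h1, h2, h3⟩ := taylor j (fun i => j (z i)) h hz r hr hr1.le hh A hA
  have h5 : ‖lin j (fun i => j (z i)) h A‖ ≤ r := by
    refine nsum _ _ hr fun i _ => ?_
    have := nmul zero_le_one (h2 i) (hh i)
    rwa [one_mul] at this
  obtain ⟨e, he⟩ : ∃ e, e = ev j ((fun i => j (z i)) + h) A - ev j (fun i => j (z i)) A -
      lin j (fun i => j (z i)) h A := ⟨_, rfl⟩
  rw [← he] at h3
  have h6 : ev j (fun i => j (z i) + h i) A =
      j (eval z A) + (lin j (fun i => j (z i)) h A + e) := by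
    have h7 : ev j (fun i => j (z i) + h i) A = ev j ((fun i => j (z i)) + h) A := rfl
    rw [h7, he, ev_j]
    ring
  have h8 : ‖lin j (fun i => j (z i)) h A + e‖ < 1 :=
    lt_of_le_of_lt (nle h5 (h3.trans hr2)) hr1
  rw [h6, IsUltrametricDist.norm_add_eq_max_of_norm_ne_norm (by rw [hAz]; exact h8.ne'), hAz]
  exact max_eq_left h8.le

/-- values in a subfield -/
theorem ev_mem (E : IntermediateField ℚ_[p] (PadicAlgCl p)) (b : Fin n → PadicAlgCl p)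
    (hb : ∀ i, b i ∈ E) (A : MvPolynomial (Fin n) κ₀) (hA : ∀ m, j (coeff m A) ∈ E) :
    ev j b A ∈ E := by
  have h : ev j b A = ∑ m ∈ A.support, j (coeff m A) * ∏ i, b i ^ m i := by
    simp only [ev, coe_eval₂Hom, eval₂_eq']
  rw [h]
  exact sum_mem fun m _ => mul_mem (hA m) (prod_mem fun i _ => pow_mem (hb i) _)

end loc

/-- a place of `κ₀` with values in `ℚ_p` on finitely many elements -/
theorem place {k κ₀ : Type} [Field k] [CharZero k] [Field κ₀] [Algebra k κ₀]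
    [IsAlgClosure k κ₀] (hfg : (⊤ : IntermediateField ℚ k).FG) {n : ℕ}
    (S : Finset (MvPolynomial (Fin n) κ₀)) (T B₀ : Finset κ₀) (N : ℕ) :
    ∃ (p : ℕ) (_ : Fact p.Prime) (j : κ₀ →+* PadicAlgCl p), N < p ∧ Good (Aq j) B₀ ∧
      (∀ c : k, j (algebraMap k κ₀ c) ∈ (⊥ : IntermediateField ℚ_[p] (PadicAlgCl p))) ∧
      (∀ A ∈ S, ∀ m, j (coeff m A) ∈ (⊥ : IntermediateField ℚ_[p] (PadicAlgCl p)) ∧
        ‖j (coeff m A)‖ ≤ 1) ∧
      ∀ a ∈ T, j a ∈ (⊥ : IntermediateField ℚ_[p] (PadicAlgCl p)) ∧ ‖j a‖ ≤ 1 ∧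
        (a ≠ 0 → ‖j a‖ = 1) := by
  classical
  obtain ⟨p, hp, j, hpN, hjk, hjT, hjn⟩ := gen_place (k := k) hfg
    (S.biUnion (fun A => A.support.image (fun m => coeff m A)) ∪ T ∪ B₀ ∪
      (B₀ ×ˢ B₀).image (fun x => x.1 - x.2)) N
  have hbot : ∀ z : PadicAlgCl p, (∃ q : ℚ_[p], algebraMap ℚ_[p] (PadicAlgCl p) q = z) →
      z ∈ (⊥ : IntermediateField ℚ_[p] (PadicAlgCl p)) := by
    rintro _ ⟨q, rfl⟩
    exact IntermediateField.algebraMap_mem _ q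
  have hle : ∀ a ∈ (S.biUnion (fun A => A.support.image (fun m => coeff m A)) ∪ T ∪ B₀ ∪
      (B₀ ×ˢ B₀).image (fun x => x.1 - x.2)), ‖j a‖ ≤ 1 := by
    intro a ha
    rcases eq_or_ne a 0 with h0 | h0
    · rw [h0, map_zero, norm_zero]; exact zero_le_one
    · exact (hjn a ha h0).le
  refine ⟨p, hp, j, hpN, ⟨fun e he => ?_, fun e he e' he' hee => ?_⟩, fun c => hbot _ (hjk c),
    fun A hA m => ?_, fun a ha => ?_⟩
  · rw [mem_Aq]
    apply hle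
    exact Finset.mem_union_left _ (Finset.mem_union_right _ he)
  · rw [isU_Aq]
    refine hjn _ (Finset.mem_union_right _ ?_) (sub_ne_zero.2 hee)
    exact Finset.mem_image.2 ⟨(e, e'), Finset.mem_product.2 ⟨he, he'⟩, rfl⟩
  · by_cases hm : m ∈ A.support
    · have h1 : coeff m A ∈ (S.biUnion (fun A => A.support.image (fun m => coeff m A)) ∪ T ∪ B₀ ∪
          (B₀ ×ˢ B₀).image (fun x => x.1 - x.2)) := by
        refine Finset.mem_union_left _ (Finset.mem_union_left _ (Finset.mem_union_left _ ?_))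
        exact Finset.mem_biUnion.2 ⟨A, hA, Finset.mem_image.2 ⟨m, hm, rfl⟩⟩
      exact ⟨hbot _ (hjT _ h1), hle _ h1⟩
    · rw [notMem_support_iff.1 hm, map_zero, norm_zero]
      exact ⟨zero_mem _, zero_le_one⟩
  · have h1 : a ∈ (S.biUnion (fun A => A.support.image (fun m => coeff m A)) ∪ T ∪ B₀ ∪
        (B₀ ×ˢ B₀).image (fun x => x.1 - x.2)) :=
      Finset.mem_union_left _ (Finset.mem_union_left _ (Finset.mem_union_right _ ha))
    exact ⟨hbot _ (hjT _ h1), hle _ h1, fun h0 => hjn _ h1 h0⟩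

/-- `K` is generated by `k`, finitely many constants and `t` -/
def GenT (k K κ₀ κ : Type) [Field k] [Field K] [Field κ₀] [Field κ] [Algebra k κ] [Algebra κ₀ κ]
    [Algebra K κ] {n : ℕ} (t : Fin n → κ) (C : Finset κ₀) : Prop :=
  ∀ S : Subfield κ, (∀ c : k, algebraMap k κ c ∈ S) → (∀ c ∈ C, algebraMap κ₀ κ c ∈ S) →
    (∀ i, t i ∈ S) → ∀ a : K, algebraMap K κ a ∈ S

section test

variable {ℓ : ℕ} [Fact ℓ.Prime]
    {k K κ₀ κ R₀ R M₀ M : Type} [Field k] [CharZero k] [Field K] [CharZero K] [Field κ₀]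
    [Algebra k κ₀] [IsAlgClosure k κ₀] [Field κ] [Algebra κ₀ κ] [Algebra k κ]
    [IsScalarTower k κ₀ κ] [Algebra K κ] [IsAlgClosure K κ]
    [Field R₀] [Field R] [Field M₀] [Field M] [Algebra κ₀ R₀]
    [Algebra R₀ M₀] [Algebra κ₀ M₀] [IsScalarTower κ₀ R₀ M₀] [Algebra κ R] [Algebra R M]
    [Algebra κ M] [IsScalarTower κ R M]
    {x₀ : R₀} {x : R} {B₀ : Finset κ₀} {B : Finset κ} {Y₀ : M₀} {Y : M} {ι : M₀ →+* M}

/-- the test at two points with algebraically independent coordinates in `ℚ_p` -/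
theorem finish {p : ℕ} [hp : Fact p.Prime] (hne : ℓ ≠ p)
    (hkK : ∀ c : k, ∃ b : K, algebraMap K κ b = algebraMap k κ c)
    (h : Pair ℓ κ₀ κ R₀ R M₀ M x₀ x B₀ B Y₀ Y ι) {δ : κ} (hδ0 : δ ≠ 0)
    (hδK : ∃ d : K, δ ^ ℓ = algebraMap K κ d)
    {s : (κ ≃ₐ[K] κ) →* RingAut M} (hs : Sec K κ R M x Y δ s)
    (hst : ∀ σ z₀, ∃ z₁, s σ (ι z₀) = ι z₁)
    {n : ℕ} (t : Fin n → κ) (ht : AlgebraicIndependent κ₀ t)
    (hal : Algebra.IsAlgebraic (IntermediateField.adjoin κ₀ (Set.range t)) κ)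
    (C : Finset κ₀) (hgen : GenT k K κ₀ κ t C)
    (D : MvPolynomial (Fin n) κ₀) (hD : δ ^ ℓ = aeval t D)
    {N : ℕ} (hN : 0 < N) (w : κ) (G : MvPolynomial (Fin n) κ₀) (hG0 : G ≠ 0)
    (hw : w ^ N = aeval t G)
    (hno : ∀ g : κ ≃ₐ[K] κ, (∀ c, g (algebraMap κ₀ κ c) = algebraMap κ₀ κ c) →
      (∀ z₀, s g (ι z₀) = ι z₀) → g w = w)
    (j : κ₀ →+* PadicAlgCl p) (hgood : Good (Aq j) B₀)
    (hjk : ∀ c : k, j (algebraMap k κ₀ c) ∈ (⊥ : IntermediateField ℚ_[p] (PadicAlgCl p)))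
    (hjC : ∀ c ∈ C, j c ∈ (⊥ : IntermediateField ℚ_[p] (PadicAlgCl p)))
    (hjG : ∀ m, j (coeff m G) ∈ (⊥ : IntermediateField ℚ_[p] (PadicAlgCl p)))
    (b b' : Fin n → PadicAlgCl p) (hb : Ind j b) (hb' : Ind j b')
    (hbE : ∀ i, b i ∈ (⊥ : IntermediateField ℚ_[p] (PadicAlgCl p)))
    (hbE' : ∀ i, b' i ∈ (⊥ : IntermediateField ℚ_[p] (PadicAlgCl p)))
    (hDb' : ‖ev j b' D‖ = 1) (hGb' : ‖ev j b' G‖ = 1) (α β : ℕ) (e e' : PadicAlgCl p)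
    (he : e ∈ (⊥ : IntermediateField ℚ_[p] (PadicAlgCl p)))
    (he' : e' ∈ (⊥ : IntermediateField ℚ_[p] (PadicAlgCl p))) (he0 : e' ≠ 0)
    (hDb : ‖ev j b D‖ = (p : ℝ)⁻¹ ^ α * ‖e‖ ^ ℓ) (hGb : ‖ev j b G‖ = (p : ℝ)⁻¹ ^ β * ‖e'‖ ^ N)
    (hα : ℓ ∣ α) : N ∣ β := by
  have hℓ : 0 < ℓ := (Fact.out : ℓ.Prime).pos
  have hp1 : (1 : ℝ) < p := by exact_mod_cast hp.out.one_lt
  have hp0 : (0 : ℝ) < p := by linarith
  have hpE : ((p : ℕ) : PadicAlgCl p) ∈ (⊥ : IntermediateField ℚ_[p] (PadicAlgCl p)) :=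
    natCast_mem _ p
  have hpn : ‖((p : ℕ) : PadicAlgCl p)‖ = (p : ℝ)⁻¹ := norm_cast_p
  obtain ⟨J₀, hJ₀, hJ₀t, hJ₀P⟩ := exists_emb t ht hal j b hb
  obtain ⟨J₁, hJ₁, hJ₁t, hJ₁P⟩ := exists_emb t ht hal j b' hb'
  have hK : ∀ (J : κ →+* PadicAlgCl p) (b : Fin n → PadicAlgCl p),
      (∀ i, b i ∈ (⊥ : IntermediateField ℚ_[p] (PadicAlgCl p))) →
      (∀ c, J (algebraMap κ₀ κ c) = j c) → (∀ i, J (t i) = b i) →
      ∀ c : K, J (algebraMap K κ c) ∈ (⊥ : IntermediateField ℚ_[p] (PadicAlgCl p)) := by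
    intro J b hb hJ hJt c
    refine hgen ((⊥ : IntermediateField ℚ_[p] (PadicAlgCl p)).toSubfield.comap J) (fun c => ?_)
      (fun c hc => ?_) (fun i => ?_) c
    · rw [Subfield.mem_comap, IsScalarTower.algebraMap_apply k κ₀ κ, hJ]
      exact hjk c
    · rw [Subfield.mem_comap, hJ]
      exact hjC c hc
    · rw [Subfield.mem_comap, hJt]
      exact hb i
  have hw0 : w ≠ 0 := by
    rintro rfl
    rw [zero_pow hN.ne'] at hw
    exact hG0 (ht.eq_zero_of_aeval_eq_zero G hw.symm)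
  haveI : FiniteDimensional ℚ_[p] (⊥ : IntermediateField ℚ_[p] (PadicAlgCl p)) := inferInstance
  have hδn : ∀ (J : κ →+* PadicAlgCl p) (v : ℝ), 0 ≤ v → ‖J (aeval t D)‖ = v ^ ℓ → ‖J δ‖ = v := by
    intro J v hv h1
    rw [← hD, map_pow, norm_pow] at h1
    exact (pow_left_inj₀ (norm_nonneg _) hv hℓ.ne').1 h1
  obtain ⟨α', rfl⟩ := hα
  have h1 : ∃ e ∈ (⊥ : IntermediateField ℚ_[p] (PadicAlgCl p)), ‖J₀ δ‖ = ‖e‖ := by
    refine ⟨((p : ℕ) : PadicAlgCl p) ^ α' * e, mul_mem (pow_mem hpE _) he, ?_⟩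
    apply hδn J₀ _ (norm_nonneg _)
    rw [hJ₀P, hDb, norm_mul, norm_pow, hpn, mul_pow, ← pow_mul, mul_comm α' ℓ]
  have h1' : ∃ e ∈ (⊥ : IntermediateField ℚ_[p] (PadicAlgCl p)), ‖J₁ δ‖ = ‖e‖ := by
    refine ⟨1, one_mem _, ?_⟩
    apply hδn J₁ _ (norm_nonneg _)
    rw [hJ₁P, hDb', norm_one, one_pow]
  have hwE : ∀ (J : κ →+* PadicAlgCl p) (b : Fin n → PadicAlgCl p),
      (∀ i, b i ∈ (⊥ : IntermediateField ℚ_[p] (PadicAlgCl p))) →
      (∀ P : MvPolynomial (Fin n) κ₀, J (aeval t P) = ev j b P) →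
      (J w) ^ N ∈ (⊥ : IntermediateField ℚ_[p] (PadicAlgCl p)) := by
    intro J b hb hJ
    rw [← map_pow, hw, hJ]
    exact ev_mem j _ b hb G hjG
  have key : ∃ e ∈ (⊥ : IntermediateField ℚ_[p] (PadicAlgCl p)), ‖J₀ w / J₁ w‖ = ‖e‖ := by
    by_contra h2
    obtain ⟨g, hg1, hg2, hg3⟩ := testJ (p := p) hne hkK h hδ0 hδK hs hst hN w hw0 j hgood
      (⊥ : IntermediateField ℚ_[p] (PadicAlgCl p)) hjk J₀ J₁ hJ₀ hJ₁ (hK J₀ b hbE hJ₀ hJ₀t)
      (hK J₁ b' hbE' hJ₁ hJ₁t) h1 h1' (hwE J₀ b hbE hJ₀P) (hwE J₁ b' hbE' hJ₁P) h2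
    exact hg2 (hno g hg1 hg3)
  obtain ⟨e₂, he₂, hn₂⟩ := key
  have hJ₁w : ‖J₁ w‖ = 1 := by
    have h3 : ‖J₁ w‖ ^ N = 1 ^ N := by
      rw [← norm_pow, ← map_pow, hw, hJ₁P, hGb', one_pow]
    exact (pow_left_inj₀ (norm_nonneg _) zero_le_one hN.ne').1 h3
  rw [norm_div, hJ₁w, div_one] at hn₂
  have h3 : ‖e₂‖ ^ N = (p : ℝ)⁻¹ ^ β * ‖e'‖ ^ N := by
    rw [← hn₂, ← norm_pow, ← map_pow, hw, hJ₀P, hGb]
  have h4 : ‖e₂ / e'‖ ^ N = (p : ℝ)⁻¹ ^ β := by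
    rw [norm_div, div_pow, h3, mul_div_cancel_right₀]
    exact pow_ne_zero _ (norm_ne_zero_iff.2 he0)
  have h5 : e₂ / e' ≠ 0 := by
    intro h0
    rw [h0, norm_zero, zero_pow hN.ne'] at h4
    exact pow_ne_zero _ (inv_ne_zero hp0.ne') h4.symm
  obtain ⟨v, hv⟩ := norm_bot _ (div_mem he₂ he') h5
  rw [hv, ← zpow_natCast, ← zpow_mul, inv_pow, ← zpow_natCast, ← zpow_neg] at h4
  have h6 := zpow_right_injective₀ hp0 hp1.ne' h4
  have h7 : (N : ℤ) ∣ (β : ℤ) := ⟨-v, by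
    have h8 : v * (N : ℤ) = -(β : ℤ) := h6
    linarith⟩
  exact_mod_cast h7

end test

end Pool.Agent.T6.H28.Mv
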