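import Mathlib

/-! # Subfields of finite extensions of `ℚ_p` are discretely valued, with finite residue field -/

set_option autoImplicit false
set_option linter.all false

open Polynomial

namespace Pool.Agent.T6.H28.PE

variable {p : ℕ} [hp : Fact p.Prime]

/-- norms of elements of a finite extension -/
theorem norm_fin (E : IntermediateField ℚ_[p] (PadicAlgCl p)) [FiniteDimensional ℚ_[p] E]
    (z : PadicAlgCl p) (hz : z ∈ E) (hz0 : z ≠ 0) :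
    ∃ i : ℤ, ‖z‖ ^ (Module.finrank ℚ_[p] E) = (p : ℝ) ^ i := by
  have h1 : ‖z‖ = ‖(minpoly ℚ_[p] z).coeff 0‖ ^ (1 / (minpoly ℚ_[p] z).natDegree : ℝ) :=
    spectralNorm.spectralNorm_eq_norm_coeff_zero_rpow (K := ℚ_[p]) (L := PadicAlgCl p) z
  have hint : IsIntegral ℚ_[p] z := Algebra.IsIntegral.isIntegral z
  have hd : 0 < (minpoly ℚ_[p] z).natDegree := minpoly.natDegree_pos hint
  have h2 : ‖z‖ ^ (minpoly ℚ_[p] z).natDegree = ‖(minpoly ℚ_[p] z).coeff 0‖ := by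
    rw [h1, ← Real.rpow_natCast, ← Real.rpow_mul (norm_nonneg _), one_div,
      inv_mul_cancel₀ (by exact_mod_cast hd.ne'), Real.rpow_one]
  have h3 : (minpoly ℚ_[p] z).coeff 0 ≠ 0 := minpoly.coeff_zero_ne_zero hint hz0
  have h4 : (minpoly ℚ_[p] z).natDegree ∣ Module.finrank ℚ_[p] E := by
    have h5 : minpoly ℚ_[p] z = minpoly ℚ_[p] (⟨z, hz⟩ : E) :=
      minpoly.algebraMap_eq (algebraMap E (PadicAlgCl p)).injective (⟨z, hz⟩ : E)
    rw [h5]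
    exact minpoly.degree_dvd (Algebra.IsIntegral.isIntegral _)
  obtain ⟨e, he⟩ := h4
  refine ⟨-((minpoly ℚ_[p] z).coeff 0).valuation * e, ?_⟩
  rw [he, pow_mul, h2, Padic.norm_eq_zpow_neg_valuation h3, zpow_mul, zpow_natCast]

/-- the unit ball of a finite extension is compact -/
theorem compact_ball (E : IntermediateField ℚ_[p] (PadicAlgCl p)) [hE : FiniteDimensional ℚ_[p] E] :
    IsCompact {z : PadicAlgCl p | z ∈ E ∧ ‖z‖ ≤ 1} := by
  let W : Submodule ℚ_[p] (PadicAlgCl p) := Subalgebra.toSubmodule E.toSubalgebra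
  haveI : FiniteDimensional ℚ_[p] W := hE
  haveI : ProperSpace W := FiniteDimensional.proper ℚ_[p] W
  have h1 : IsCompact (Metric.closedBall (0 : W) 1) := isCompact_closedBall _ _
  have h2 := h1.image (continuous_subtype_val (p := fun z => z ∈ W))
  convert h2 using 1
  ext z
  constructor
  · rintro ⟨h3, h4⟩
    refine ⟨⟨z, h3⟩, ?_, rfl⟩
    rw [mem_closedBall_zero_iff]
    exact h4
  · rintro ⟨w, hw, rfl⟩
    rw [mem_closedBall_zero_iff] at hw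
    exact ⟨w.2, hw⟩

section

variable {K : Type} [Field K] (q : K →+* PadicAlgCl p)

/-- the valuation ring of a subfield -/
def Aq : ValuationSubring K where
  carrier := {z | ‖q z‖ ≤ 1}
  mul_mem' := by
    intro a b ha hb
    show ‖q (a * b)‖ ≤ 1
    rw [map_mul, norm_mul]
    exact mul_le_one₀ ha (norm_nonneg _) hb
  one_mem' := by
    show ‖q 1‖ ≤ 1
    rw [map_one, norm_one]
  add_mem' := by
    intro a b ha hb
    show ‖q (a + b)‖ ≤ 1
    rw [map_add]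
    exact (IsUltrametricDist.norm_add_le_max _ _).trans (max_le ha hb)
  zero_mem' := by
    show ‖q 0‖ ≤ 1
    rw [map_zero, norm_zero]
    exact zero_le_one
  neg_mem' := by
    intro a ha
    show ‖q (-a)‖ ≤ 1
    rw [map_neg, norm_neg]
    exact ha
  mem_or_inv_mem' := by
    intro z
    rcases le_total ‖q z‖ 1 with h | h
    · exact Or.inl h
    · refine Or.inr ?_
      show ‖q z⁻¹‖ ≤ 1
      rw [map_inv₀, norm_inv]
      exact inv_le_one_of_one_le₀ h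

theorem mem_Aq (z : K) : z ∈ Aq q ↔ ‖q z‖ ≤ 1 := Iff.rfl

theorem isUnit_Aq (a : Aq q) : IsUnit a ↔ ‖q (a : K)‖ = 1 := by
  constructor
  · rintro ⟨u, rfl⟩
    have h1 : ‖q ((u : Aq q) : K)‖ ≤ 1 := (u : Aq q).2
    have h2 : ‖q ((↑u⁻¹ : Aq q) : K)‖ ≤ 1 := (↑u⁻¹ : Aq q).2
    have h3 : ((u : Aq q) : K) * ((↑u⁻¹ : Aq q) : K) = 1 := by
      have := u.mul_inv
      exact congrArg (fun z : Aq q => (z : K)) this
    have h4 : ‖q ((u : Aq q) : K)‖ * ‖q ((↑u⁻¹ : Aq q) : K)‖ = 1 := by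
      rw [← norm_mul, ← map_mul, h3, map_one, norm_one]
    have h5 := norm_nonneg (q ((u : Aq q) : K))
    nlinarith
  · intro h
    have h0 : (a : K) ≠ 0 := by
      intro h0
      rw [h0, map_zero, norm_zero] at h
      exact zero_ne_one h
    have h1 : ‖q ((a : K)⁻¹)‖ ≤ 1 := by rw [map_inv₀, norm_inv, h, inv_one]
    exact IsUnit.of_mul_eq_one ⟨(a : K)⁻¹, h1⟩ (Subtype.ext (mul_inv_cancel₀ h0))

theorem max_Aq (a : Aq q) : a ∈ IsLocalRing.maximalIdeal (Aq q) ↔ ‖q (a : K)‖ < 1 := by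
  rw [IsLocalRing.mem_maximalIdeal, mem_nonunits_iff, isUnit_Aq]
  exact ⟨fun h => lt_of_le_of_ne a.2 h, fun h => h.ne⟩

theorem norm_cast_p : ‖((p : ℕ) : PadicAlgCl p)‖ = (p : ℝ)⁻¹ := by
  have h1 : ((p : ℕ) : PadicAlgCl p) = algebraMap ℚ_[p] (PadicAlgCl p) (p : ℚ_[p]) := by
    rw [map_natCast]
  rw [h1, PadicAlgCl.norm_extends, Padic.norm_p]

variable (E : IntermediateField ℚ_[p] (PadicAlgCl p)) [FiniteDimensional ℚ_[p] E]

/-- a uniformiser -/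
theorem exists_unif [CharZero K] (hq : ∀ z, q z ∈ E) :
    ∃ ϖ : K, ϖ ≠ 0 ∧ ‖q ϖ‖ < 1 ∧ ∀ z : K, z ≠ 0 → ∃ m : ℤ, ‖q z‖ = ‖q ϖ‖ ^ m := by
  classical
  set N := Module.finrank ℚ_[p] E with hN
  have hN0 : 0 < N := Module.finrank_pos
  have hp1 : (1 : ℝ) < p := by exact_mod_cast hp.out.one_lt
  have hp0 : (0 : ℝ) < p := by linarith
  have hq0 : ∀ z : K, z ≠ 0 → q z ≠ 0 := fun z hz => (_root_.map_ne_zero q).2 hz
  have hP : ∃ n : ℕ, 0 < n ∧ ∃ z : K, z ≠ 0 ∧ ‖q z‖ ^ N = (p : ℝ) ^ (-(n : ℤ)) := by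
    refine ⟨N, hN0, (p : K), by exact_mod_cast hp.out.ne_zero, ?_⟩
    rw [map_natCast, norm_cast_p, zpow_neg, zpow_natCast, inv_pow]
  obtain ⟨n, hn⟩ : ∃ n, n = Nat.find hP := ⟨_, rfl⟩
  obtain ⟨hn0, ϖ, hϖ0, hϖ⟩ := Nat.find_spec hP
  rw [← hn] at hn0 hϖ
  have hlt : ‖q ϖ‖ < 1 := by
    by_contra h
    push Not at h
    have h1 : 1 ≤ ‖q ϖ‖ ^ N := one_le_pow₀ h
    rw [hϖ, zpow_neg, zpow_natCast] at h1
    have h2 : (1 : ℝ) < (p : ℝ) ^ n := one_lt_pow₀ hp1 hn0.ne'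
    have h3 : ((p : ℝ) ^ n)⁻¹ < 1 := inv_lt_one_of_one_lt₀ h2
    linarith
  refine ⟨ϖ, hϖ0, hlt, fun z hz => ?_⟩
  obtain ⟨i, hi⟩ := norm_fin E (q z) (hq z) (hq0 z hz)
  rw [← hN] at hi
  have hn0' : (0 : ℤ) < n := by exact_mod_cast hn0
  obtain ⟨m, r, hmr, hr0, hrn⟩ : ∃ m r : ℤ, -i = n * m + r ∧ 0 ≤ r ∧ r < n :=
    ⟨(-i) / n, (-i) % n, (Int.mul_ediv_add_emod (-i) n).symm,
      Int.emod_nonneg _ hn0'.ne', Int.emod_lt_of_pos _ hn0'⟩
  have hϖq : ‖q ϖ‖ ≠ 0 := norm_ne_zero_iff.2 (hq0 _ hϖ0)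
  have h5 : ‖q (z / ϖ ^ m)‖ ^ N = (p : ℝ) ^ (-r) := by
    rw [map_div₀, norm_div, div_pow, hi, map_zpow₀, norm_zpow, ← zpow_natCast, ← zpow_mul,
      mul_comm m, zpow_mul, zpow_natCast, hϖ, ← zpow_mul, ← zpow_sub₀ hp0.ne']
    congr 1
    linarith
  have hr : r = 0 := by
    by_contra hne
    obtain ⟨r', rfl⟩ := Int.eq_ofNat_of_zero_le hr0
    have h6 : r' < n := by exact_mod_cast hrn
    rw [hn] at h6
    refine Nat.find_min hP h6 ⟨?_, z / ϖ ^ m, div_ne_zero hz (zpow_ne_zero _ hϖ0), h5⟩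
    exact Nat.pos_of_ne_zero fun h => hne (by rw [h]; rfl)
  refine ⟨m, ?_⟩
  rw [hr, neg_zero, zpow_zero] at h5
  have h6 : ‖q (z / ϖ ^ m)‖ = 1 := (pow_eq_one_iff_of_nonneg (norm_nonneg _) hN0.ne').1 h5
  rw [map_div₀, norm_div, map_zpow₀, norm_zpow] at h6
  exact (div_eq_one_iff_eq (zpow_ne_zero _ hϖq)).1 h6

theorem dvr_Aq [CharZero K] (hq : ∀ z, q z ∈ E) : IsDiscreteValuationRing (Aq q) := by
  obtain ⟨ϖ, hϖ0, hlt, hall⟩ := exists_unif q E hq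
  have hϖq : 0 < ‖q ϖ‖ := norm_pos_iff.2 ((_root_.map_ne_zero q).2 hϖ0)
  have hex : ∀ a : Aq q, a ≠ 0 → ∃ n : ℕ, ‖q (a : K)‖ = ‖q ϖ‖ ^ n := by
    intro a ha
    obtain ⟨m, hm⟩ := hall (a : K) (fun h => ha (Subtype.ext h))
    have h0 : 0 ≤ m := by
      by_contra h
      push Not at h
      have h1 : ‖q (a : K)‖ ≤ 1 := a.2
      rw [hm] at h1
      have h2 : 1 < ‖q ϖ‖ ^ m := one_lt_zpow_of_neg₀ hϖq hlt h
      linarith
    obtain ⟨n, rfl⟩ := Int.eq_ofNat_of_zero_le h0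
    exact ⟨n, by rw [hm]; exact zpow_natCast _ _⟩
  have hunit : ∀ a : Aq q, ‖q (a : K)‖ = 1 → IsUnit a := fun a h => (isUnit_Aq q a).2 h
  let w : Aq q := ⟨ϖ, hlt.le⟩
  have hw0 : w ≠ 0 := fun h => hϖ0 (congrArg Subtype.val h)
  have hirr : Irreducible w := by
    refine ⟨fun h => ?_, fun a b hab => ?_⟩
    · rw [isUnit_Aq] at h
      exact hlt.ne h
    · have ha0 : a ≠ 0 := by rintro rfl; exact hw0 (by rw [hab, zero_mul])
      have hb0 : b ≠ 0 := by rintro rfl; exact hw0 (by rw [hab, mul_zero])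
      obtain ⟨m, hm⟩ := hex a ha0
      obtain ⟨n, hn⟩ := hex b hb0
      have h8 : (a : K) * (b : K) = ϖ := (congrArg Subtype.val hab).symm
      have h1 : ‖q ϖ‖ ^ (m + n) = ‖q ϖ‖ ^ 1 := by
        rw [pow_add, ← hm, ← hn, ← norm_mul, ← map_mul, pow_one, h8]
      have h2 : m + n = 1 := pow_right_injective₀ hϖq hlt.ne h1
      rcases Nat.eq_zero_or_pos m with h | h
      · exact Or.inl (hunit a (by rw [hm, h, pow_zero]))
      · exact Or.inr (hunit b (by rw [hn, show n = 0 by omega, pow_zero]))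
  refine IsDiscreteValuationRing.ofHasUnitMulPowIrreducibleFactorization
    ⟨w, hirr, fun {a} ha => ?_⟩
  obtain ⟨n, hn⟩ := hex a ha
  refine ⟨n, ?_⟩
  have hu : ‖q ((a : K) * (ϖ ^ n)⁻¹)‖ = 1 := by
    rw [map_mul, norm_mul, hn, map_inv₀, norm_inv, map_pow, norm_pow]
    exact mul_inv_cancel₀ (pow_ne_zero _ hϖq.ne')
  obtain ⟨u, hu'⟩ := hunit ⟨(a : K) * (ϖ ^ n)⁻¹, hu.le⟩ hu
  have h9 : ((u : Aq q) : K) = (a : K) * (ϖ ^ n)⁻¹ := congrArg Subtype.val hu'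
  have h10 : ((w ^ n : Aq q) : K) = ϖ ^ n := rfl
  refine ⟨u, Subtype.ext ?_⟩
  have h11 : ((w ^ n * (u : Aq q) : Aq q) : K) = ((w ^ n : Aq q) : K) * ((u : Aq q) : K) := rfl
  rw [h11, h9, h10, mul_comm, mul_assoc, inv_mul_cancel₀ (pow_ne_zero n hϖ0), mul_one]

theorem res_Aq (hq : ∀ z, q z ∈ E) : Finite (IsLocalRing.ResidueField (Aq q)) := by
  classical
  obtain ⟨t, ht⟩ := (compact_ball E).elim_finite_subcover
    (fun c : PadicAlgCl p => Metric.ball c 1) (fun _ => Metric.isOpen_ball)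
    (fun z _ => Set.mem_iUnion.2 ⟨z, Metric.mem_ball_self one_pos⟩)
  have hrep : ∀ y : IsLocalRing.ResidueField (Aq q), ∃ a : Aq q, IsLocalRing.residue _ a = y :=
    fun y => IsLocalRing.residue_surjective y
  choose a ha using hrep
  have hc : ∀ y, ∃ c ∈ t, q (a y : K) ∈ Metric.ball c 1 := by
    intro y
    have h1 := ht (show q (a y : K) ∈ {z : PadicAlgCl p | z ∈ E ∧ ‖z‖ ≤ 1} from
      ⟨hq _, (a y).2⟩)
    rw [Set.mem_iUnion₂] at h1
    obtain ⟨c, hc, h2⟩ := h1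
    exact ⟨c, hc, h2⟩
  choose c hct hcb using hc
  refine Finite.of_injective (fun y => (⟨c y, hct y⟩ : t)) fun y y' hyy => ?_
  have h1 : c y = c y' := congrArg Subtype.val hyy
  have h2 := hcb y
  have h3 := hcb y'
  rw [← h1] at h3
  rw [Metric.mem_ball, dist_eq_norm] at h2 h3
  have h4 : ‖q ((a y - a y' : Aq q) : K)‖ < 1 := by
    have h5 : q ((a y - a y' : Aq q) : K) = (q (a y : K) - c y) + (-(q (a y' : K) - c y)) := by
      have : ((a y - a y' : Aq q) : K) = (a y : K) - (a y' : K) := rfl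
      rw [this, map_sub]
      ring
    rw [h5]
    refine lt_of_le_of_lt (IsUltrametricDist.norm_add_le_max _ _) (max_lt h2 ?_)
    rw [norm_neg]
    exact h3
  rw [← max_Aq] at h4
  rw [← ha y, ← ha y', ← sub_eq_zero, ← map_sub, IsLocalRing.residue_eq_zero_iff]
  exact h4

end

end Pool.Agent.T6.H28.PE
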