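import Pool.Agent.T6.H28.PadE
import Pool.Agent.Y157.GT.All

/-! # Places with values in a finite extension of `ℚ_p` -/

set_option autoImplicit false
set_option linter.all false

open Polynomial FF

namespace Pool.Agent.T6.H28.PE

open Pool.Agent.Y157.PS Pool.Agent.Y157.GT

variable {p : ℕ} [hp : Fact p.Prime]

theorem isU_Aq {K : Type} [Field K] (q : K →+* PadicAlgCl p) (z : K) :
    IsU (Aq q) z ↔ ‖q z‖ = 1 := by
  unfold IsU
  rw [mem_Aq, mem_Aq, map_inv₀, norm_inv]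
  constructor
  · rintro ⟨h1, h2, h3⟩
    have h0 : 0 < ‖q z‖ := norm_pos_iff.2 ((_root_.map_ne_zero q).2 h1)
    exact le_antisymm h2 ((inv_le_one₀ h0).1 h3)
  · intro h1
    refine ⟨?_, h1.le, by rw [h1, inv_one]⟩
    rintro rfl
    rw [map_zero, norm_zero] at h1
    exact zero_ne_one h1

theorem non_Aq {K : Type} [Field K] (q : K →+* PadicAlgCl p) (z : K) :
    z ∈ (Aq q).nonunits ↔ ‖q z‖ < 1 := by
  rw [ValuationSubring.mem_nonunits_iff_or, mem_Aq, map_inv₀, norm_inv]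
  constructor
  · rintro (rfl | h1)
    · simp
    · by_contra h2
      push Not at h2
      exact h1 (inv_le_one_of_one_le₀ h2)
  · intro h1
    rcases eq_or_ne z 0 with h0 | h0
    · exact Or.inl h0
    · right
      intro h2
      have h3 : 0 < ‖q z‖ := norm_pos_iff.2 ((_root_.map_ne_zero q).2 h0)
      exact absurd ((inv_le_one₀ h3).1 h2) (not_le.2 h1)

theorem norm_l {ℓ : ℕ} [Fact ℓ.Prime] (hne : ℓ ≠ p) : ‖((ℓ : ℕ) : PadicAlgCl p)‖ = 1 := by
  have h1 : ((ℓ : ℕ) : PadicAlgCl p) = algebraMap ℚ_[p] (PadicAlgCl p) (ℓ : ℚ_[p]) := by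
    rw [map_natCast]
  rw [h1, PadicAlgCl.norm_extends, Padic.norm_natCast_eq_one_iff]
  exact (Nat.coprime_primes Fact.out Fact.out).2 hne.symm

section

variable {K κ : Type} [Field K] [Field κ] [Algebra K κ] (J : κ →+* PadicAlgCl p)

/-- the data of a place with values in a finite extension of `ℚ_p` -/
theorem data {ℓ : ℕ} [Fact ℓ.Prime] (hne : ℓ ≠ p) :
    (∀ a : Aq (J.comp (algebraMap K κ)), algebraMap K κ (a : K) ∈ Aq J) ∧
      (∀ a ∈ IsLocalRing.maximalIdeal (Aq (J.comp (algebraMap K κ))),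
        algebraMap K κ (a : K) ∈ (Aq J).nonunits) ∧
      IsUnit (ℓ : Aq (J.comp (algebraMap K κ))) ∧ IsU (Aq J) (ℓ : κ) := by
  refine ⟨fun a => ?_, fun a ha => ?_, ?_, ?_⟩
  · exact a.2
  · rw [non_Aq]
    exact (max_Aq _ a).1 ha
  · rw [isUnit_Aq]
    have h1 : ((ℓ : Aq (J.comp (algebraMap K κ))) : K) = (ℓ : K) :=
      map_natCast (Aq (J.comp (algebraMap K κ))).subtype ℓ
    rw [h1, map_natCast]
    exact norm_l hne
  · rw [isU_Aq, map_natCast]
    exact norm_l hne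

variable [CharZero K] [IsAlgClosure K κ] (E : IntermediateField ℚ_[p] (PadicAlgCl p))
  [FiniteDimensional ℚ_[p] E] (hJ : ∀ c : K, J (algebraMap K κ c) ∈ E)
  {R M : Type} [Field R] [Field M] [Algebra κ R] [Algebra R M] [Algebra κ M] [IsScalarTower κ R M]

include hJ in
theorem hasrotE {ℓ : ℕ} [Fact ℓ.Prime] (hne : ℓ ≠ p) (x : R) (B : Finset κ) (Y : M)
    (hC : Cov ℓ κ R M x B Y) (hG : Good (Aq J) B) :
    ∃ (F : Type) (_ : Field F) (r : Aq J →+* F), Res (Aq J) r ∧ Nonempty (Disc ℓ (Aq J) r) ∧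
      HasRot κ R M x B Y (Aq J) := by
  haveI := dvr_Aq (J.comp (algebraMap K κ)) E hJ
  haveI := res_Aq (J.comp (algebraMap K κ)) E hJ
  obtain ⟨h1, h2, h3, h4⟩ := data (K := K) J hne
  exact Pool.Agent.Y657.GT.hasrot a_ndisc a_gex (Aq J) (Aq (J.comp (algebraMap K κ))) h1 h2 h3
    x B Y hC hG

include hJ in
/-- the Gauss valuation has only one prolongation, and an automorphism which acts trivially on the
residue field is trivial -/
theorem uniE {ℓ : ℕ} [Fact ℓ.Prime] (hne : ℓ ≠ p) (x : R) (B : Finset κ) (Y : M)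
    (hC : Cov ℓ κ R M x B Y) (hG : Good (Aq J) B) :
    (∀ O O' : ValuationSubring M, Gauss (Aq J) (algebraMap R M x) O →
      Gauss (Aq J) (algebraMap R M x) O' → O = O') ∧
    ∀ O : ValuationSubring M, Gauss (Aq J) (algebraMap R M x) O →
      ∀ γ : M ≃ₐ[R] M, (∀ z ∈ O, γ z - z ∈ O.nonunits) → γ = 1 := by
  obtain ⟨h1, h2, h3, h4⟩ := data (K := K) J hne
  haveI : IsAlgClosed κ := IsAlgClosure.isAlgClosed K
  haveI : CharZero κ := charZero_of_injective_algebraMap (algebraMap K κ).injective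
  obtain ⟨F, hF, r, hr, hD, hrot⟩ := hasrotE J E hJ hne x B Y hC hG
  refine ⟨fun O O' hO hO' => a_gun ℓ κ R M x B Y hC _ hrot O O' hO hO', fun O hO γ hγ => ?_⟩
  ext z
  obtain ⟨N, hzN, hN⟩ := hC.pow z
  exact (a_g2 ℓ κ R M x B Y hC _ O hO).2 h4 N hN γ (fun w hw _ => hγ w hw) z hzN

include hJ in
/-- inertia elements act trivially on the residue field, for curves with good reduction -/
theorem plcE {ℓ : ℕ} [Fact ℓ.Prime] (hne : ℓ ≠ p) (x : R) (B : Finset κ) (Y : M)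
    (hC : Cov ℓ κ R M x B Y) (hG : Good (Aq J) B)
    (s : (κ ≃ₐ[K] κ) →* RingAut M) (hs : Sec K κ R M x Y 1 s) :
    ∃ O : ValuationSubring M, Gauss (Aq J) (algebraMap R M x) O ∧
      ∀ σ : κ ≃ₐ[K] κ, Ine (Aq J) σ → ∀ z ∈ O, s σ z - z ∈ O.nonunits := by
  haveI := dvr_Aq (J.comp (algebraMap K κ)) E hJ
  haveI := res_Aq (J.comp (algebraMap K κ)) E hJ
  obtain ⟨h1, h2, h3, h4⟩ := data (K := K) J hne
  obtain ⟨F, hF, r, hr, ⟨D⟩, hrot⟩ := hasrotE J E hJ hne x B Y hC hG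
  obtain ⟨e, he⟩ : B.Nonempty := by
    rw [← Finset.card_pos]
    have := hC.three
    omega
  obtain ⟨O, c, W, hO, -⟩ := hrot e he
  have hun : ∀ O' : ValuationSubring M, Gauss (Aq J) (algebraMap R M x) O' → O' = O :=
    fun O' hO' => (uniE J E hJ hne x B Y hC hG).1 O' O hO' hO
  refine ⟨O, hO, fun σ hσ z hz => ?_⟩
  letI : Algebra (Aq (J.comp (algebraMap K κ))) κ :=
    ((algebraMap K κ).comp (algebraMap (Aq (J.comp (algebraMap K κ))) K)).toAlgebra
  haveI : IsScalarTower (Aq (J.comp (algebraMap K κ))) K κ :=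
    IsScalarTower.of_algebraMap_eq fun _ => rfl
  exact b_wgtg ℓ (Aq (J.comp (algebraMap K κ))) K κ R M (Aq J) h3 h1 h2 x B Y hC hG F r hr D s hs
    O hO hun σ hσ z hz

end

/-- restriction of an automorphism of `ℚ_p`-bar to `κ` -/
theorem restrE {K κ : Type} [Field K] [Field κ] [Algebra K κ] [IsAlgClosure K κ] [CharZero K]
    (J : κ →+* PadicAlgCl p)
    (τ : PadicAlgCl p ≃+* PadicAlgCl p)
    (hτ : ∀ c : K, τ (J (algebraMap K κ c)) = J (algebraMap K κ c)) :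
    ∃ σ : κ ≃ₐ[K] κ, ∀ z, J (σ z) = τ (J z) := by
  letI : Algebra κ (PadicAlgCl p) := J.toAlgebra
  letI : Algebra K (PadicAlgCl p) := (J.comp (algebraMap K κ)).toAlgebra
  haveI : IsScalarTower K κ (PadicAlgCl p) := IsScalarTower.of_algebraMap_eq fun _ => rfl
  haveI : Normal K κ := IsAlgClosure.normal K κ
  let χ : PadicAlgCl p ≃ₐ[K] PadicAlgCl p := AlgEquiv.ofRingEquiv (f := τ) (fun c => hτ c)
  refine ⟨χ.restrictNormal κ, fun z => ?_⟩
  exact AlgEquiv.restrictNormal_commutes χ κ z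

end Pool.Agent.T6.H28.PE
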