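import Pool.Agent.T6.H28.TestG

/-! # The geometric part of the section acts trivially on `M₀` -/

set_option autoImplicit false
set_option linter.all false

open Polynomial FF

namespace Pool.Agent.T6.H28.PE

open Pool.Agent.Y157.PS Pool.Agent.Y157.GT Pool.Agent.Y474.GT

/-- there are a `p`-adic place of `k` with good reduction and two points `b`, `b'` of the line at
which `D` has a valuation divisible by `ℓ`, such that the valuations of `G` at these points are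
different modulo `ℓ` -/
def HasTest (k : Type) {κ₀ : Type} [Field k] [Field κ₀] [Algebra k κ₀] (ℓ : ℕ) (B₀ : Finset κ₀)
    (D : k[X]) (G : κ₀[X]) : Prop :=
  ∃ (p : ℕ) (_ : Fact p.Prime), ℓ ≠ p ∧ ∃ j : κ₀ →+* PadicAlgCl p, Good (Aq j) B₀ ∧
    ∃ E : IntermediateField ℚ_[p] (PadicAlgCl p), FiniteDimensional ℚ_[p] E ∧
      (∀ c : k, j (algebraMap k κ₀ c) ∈ E) ∧
      (∀ a, (D.map (algebraMap k κ₀)).IsRoot a → j a ∈ E) ∧
      ∃ b ∈ E, ∃ b' ∈ E, (D.map (algebraMap k κ₀)).eval₂ j b ≠ 0 ∧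
        (D.map (algebraMap k κ₀)).eval₂ j b' ≠ 0 ∧
        (∃ e ∈ E, ‖(D.map (algebraMap k κ₀)).eval₂ j b‖ = ‖e‖ ^ ℓ) ∧
        (∃ e ∈ E, ‖(D.map (algebraMap k κ₀)).eval₂ j b'‖ = ‖e‖ ^ ℓ) ∧
        ¬ ∃ e ∈ E, ‖G.eval₂ j b / G.eval₂ j b'‖ = ‖e‖ ^ ℓ

/-- the separation condition -/
def Sep (k : Type) {κ₀ : Type} [Field k] [Field κ₀] [Algebra k κ₀] (ℓ : ℕ) (B₀ : Finset κ₀)
    (D : k[X]) : Prop :=
  ∀ G : κ₀[X], G.Monic →
    (∀ a, G.IsRoot a → ¬ ℓ ∣ (D.map (algebraMap k κ₀)).rootMultiplicity a) →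
    (ℓ ∣ D.natDegree → ℓ ∣ G.natDegree) →
    (∃ (r : ℕ) (H : κ₀[X]), G * (D.map (algebraMap k κ₀)) ^ r = H ^ ℓ) ∨ HasTest k ℓ B₀ D G

/-- elements of `κ₀(t)` are fixed -/
theorem fix_adj {κ₀ κ : Type} [Field κ₀] [Field κ] [Algebra κ₀ κ] (t : κ) (g : κ →+* κ)
    (hg : ∀ c, g (algebraMap κ₀ κ c) = algebraMap κ₀ κ c) (ht : g t = t) {z : κ}
    (hz : z ∈ IntermediateField.adjoin κ₀ {t}) : g z = z := by
  induction hz using IntermediateField.adjoin_induction with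
  | mem y hy =>
    rw [Set.mem_singleton_iff] at hy
    rw [hy, ht]
  | algebraMap c => exact hg c
  | add a b _ _ ha hb => rw [map_add, ha, hb]
  | inv a _ ha => rw [map_inv₀, ha]
  | mul a b _ _ ha hb => rw [map_mul, ha, hb]

/-- roots of a product of linear factors -/
theorem isRoot_prod {κ₀ : Type} [Field κ₀] (S : Finset κ₀) (n : κ₀ → ℕ) (a : κ₀)
    (h : (∏ a' ∈ S, (X - C a') ^ n a').IsRoot a) : a ∈ S := by
  rw [IsRoot.def, eval_prod, Finset.prod_eq_zero_iff] at h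
  obtain ⟨a', ha', h1⟩ := h
  rw [eval_pow, eval_sub, eval_X, eval_C] at h1
  have h3 : a - a' = 0 := by
    by_contra hne
    exact pow_ne_zero _ hne h1
  rw [sub_eq_zero.1 h3]
  exact ha'

theorem ptE {ℓ : ℕ} [Fact ℓ.Prime]
    {k K κ₀ κ R₀ R M₀ M : Type} [Field k] [CharZero k] [Field K] [CharZero K] [Field κ₀]
    [Algebra k κ₀] [IsAlgClosure k κ₀] [Field κ] [Algebra κ₀ κ] [Algebra k κ]
    [IsScalarTower k κ₀ κ] [Algebra K κ] [IsAlgClosure K κ]
    [Field R₀] [Field R] [Field M₀] [Field M] [Algebra κ₀ R₀]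
    [Algebra R₀ M₀] [Algebra κ₀ M₀] [IsScalarTower κ₀ R₀ M₀] [Algebra κ R] [Algebra R M]
    [Algebra κ M] [IsScalarTower κ R M]
    {x₀ : R₀} {x : R} {B₀ : Finset κ₀} {B : Finset κ} {Y₀ : M₀} {Y : M} {ι : M₀ →+* M}
    (hfg : (⊤ : IntermediateField ℚ k).FG) (t : κ) (ht : Transcendental κ₀ t)
    (hal : Algebra.IsAlgebraic (IntermediateField.adjoin κ₀ {t}) κ)
    (hgen : ∀ S : Subfield κ, (∀ c : k, algebraMap k κ c ∈ S) → t ∈ S →
      ∀ c : K, algebraMap K κ c ∈ S)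
    (hkK : ∀ c : k, ∃ b : K, algebraMap K κ b = algebraMap k κ c)
    (htK : ∃ b : K, algebraMap K κ b = t)
    (h : Pair ℓ κ₀ κ R₀ R M₀ M x₀ x B₀ B Y₀ Y ι) {δ : κ} (hδ0 : δ ≠ 0)
    {s : (κ ≃ₐ[K] κ) →* RingAut M} (hs : Sec K κ R M x Y δ s)
    (hst : ∀ σ z₀, ∃ z₁, s σ (ι z₀) = ι z₁)
    (D : k[X]) (hD0 : D ≠ 0) (hδ : δ ^ ℓ = aeval t (D.map (algebraMap k κ₀)))
    (hsep : Sep k ℓ B₀ D) (g₀ : κ ≃ₐ[K] κ)
    (hg₀ : ∀ c, g₀ (algebraMap κ₀ κ c) = algebraMap κ₀ κ c) (hg₀δ : g₀ δ = δ) (z₀ : M₀) :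
    s g₀ (ι z₀) = ι z₀ := by
  classical
  by_contra hne
  have hℓ : 0 < ℓ := (Fact.out : ℓ.Prime).pos
  haveI : IsAlgClosed κ₀ := IsAlgClosure.isAlgClosed k
  haveI : IsAlgClosed κ := IsAlgClosure.isAlgClosed K
  haveI : Algebra.IsAlgebraic K κ := (inferInstance : IsAlgClosure K κ).isAlgebraic
  haveI : CharZero κ₀ := charZero_of_injective_algebraMap (algebraMap k κ₀).injective
  obtain ⟨tK, htK⟩ := htK
  have hfixt : ∀ g : κ ≃ₐ[K] κ, g t = t := fun g => by rw [← htK, g.commutes]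
  set D' : κ₀[X] := D.map (algebraMap k κ₀) with hD'
  have hD'0 : D' ≠ 0 := (Polynomial.map_ne_zero_iff (algebraMap k κ₀).injective).2 hD0
  -- the geometric group
  have hKL : ∀ a : K, ∃ b : IntermediateField.adjoin κ₀ {t},
      algebraMap (IntermediateField.adjoin κ₀ {t}) κ b = algebraMap K κ a := by
    intro a
    have h1 := hgen (IntermediateField.adjoin κ₀ {t}).toSubfield (fun c => by
      rw [IsScalarTower.algebraMap_apply k κ₀ κ]
      exact (IntermediateField.adjoin κ₀ {t}).algebraMap_mem _)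
      (IntermediateField.mem_adjoin_simple_self κ₀ t) a
    exact ⟨⟨_, h1⟩, rfl⟩
  let cv : (κ ≃ₐ[IntermediateField.adjoin κ₀ {t}] κ) →* (κ ≃ₐ[K] κ) := resG hKL
  have hcv : ∀ g z, cv g z = g z := fun g z => rfl
  have hfixL : ∀ (g : κ ≃ₐ[IntermediateField.adjoin κ₀ {t}] κ) {z : κ},
      z ∈ IntermediateField.adjoin κ₀ {t} → g z = z := fun g z hz => g.commutes ⟨z, hz⟩
  have hfixc : ∀ (g : κ ≃ₐ[IntermediateField.adjoin κ₀ {t}] κ) (c : κ₀),
      g (algebraMap κ₀ κ c) = algebraMap κ₀ κ c := fun g c =>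
    hfixL g ((IntermediateField.adjoin κ₀ {t}).algebraMap_mem c)
  have hfixp : ∀ (g : κ ≃ₐ[IntermediateField.adjoin κ₀ {t}] κ) (P : κ₀[X]),
      g (aeval t P) = aeval t P := fun g P => hfixL g (by
    rw [IntermediateField.mem_adjoin_simple_iff]
    exact ⟨P, 1, by simp⟩)
  have hlf : ∀ g : κ ≃ₐ[K] κ, (∀ c, g (algebraMap κ₀ κ c) = algebraMap κ₀ κ c) →
      ∃ g' : κ ≃ₐ[IntermediateField.adjoin κ₀ {t}] κ, cv g' = g := by
    intro g hg
    refine ⟨AlgEquiv.ofRingEquiv (f := (g : κ ≃+* κ)) (fun c => ?_), ?_⟩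
    · exact fix_adj t ((g : κ ≃+* κ) : κ →+* κ) hg (hfixt g) c.2
    · ext z
      rfl
  -- the action on `M₀`
  set s' : (κ ≃ₐ[IntermediateField.adjoin κ₀ {t}] κ) →* RingAut M := s.comp cv with hs'
  have hfix : ∀ (g : κ ≃ₐ[IntermediateField.adjoin κ₀ {t}] κ) (r : R₀),
      s' g (ι (algebraMap R₀ M₀ r)) = ι (algebraMap R₀ M₀ r) := by
    intro g r
    have hr : r ∈ IntermediateField.adjoin κ₀ {x₀} := by
      rw [h.cov₀.rat.gen]; trivial
    induction hr using IntermediateField.adjoin_induction with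
    | mem y hy =>
      rw [Set.mem_singleton_iff] at hy
      subst hy
      rw [h.var]
      exact hs.fixx _
    | algebraMap c =>
      rw [← IsScalarTower.algebraMap_apply κ₀ R₀ M₀, h.const]
      show s (cv g) _ = _
      rw [hs.const, hcv, hfixc]
    | add a b _ _ ha hb => rw [map_add, map_add, map_add, ha, hb]
    | inv a _ ha => rw [map_inv₀, map_inv₀, map_inv₀, ha]
    | mul a b _ _ ha hb => rw [map_mul, map_mul, map_mul, ha, hb]
  obtain ⟨α, hα⟩ := Pool.Agent.Y978.GT.exists_act (R₀ := R₀) ι s' (fun g z => hst _ z) hfix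
  -- a finite level
  obtain ⟨N₀, hz₀, hN₀⟩ := h.cov₀.pow z₀
  have hfin := hN₀.fin
  have hgal := hN₀.gal
  obtain ⟨m₀, hm₀⟩ := hN₀.card
  have hpg : IsPGroup ℓ (N₀ ≃ₐ[R₀] N₀) := by
    apply IsPGroup.of_card (n := m₀)
    rw [IsGalois.card_aut_eq_finrank, hm₀]
  set θ : (κ ≃ₐ[IntermediateField.adjoin κ₀ {t}] κ) →* (N₀ ≃ₐ[R₀] N₀) :=
    (AlgEquiv.restrictNormalHom N₀).comp α with hθ
  have hθa : ∀ g (z : N₀), ((θ g z : N₀) : M₀) = α g z := fun g z =>
    AlgEquiv.restrictNormalHom_apply N₀ (α g) z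
  have hθ1 : ∀ g', (∀ z₀, s (cv g') (ι z₀) = ι z₀) → θ g' = 1 := by
    intro g' hg'
    ext z
    rw [hθa]
    apply ι.injective
    rw [hα]
    exact hg' _
  -- continuity
  have hcont : ∃ E : IntermediateField (IntermediateField.adjoin κ₀ {t}) κ,
      FiniteDimensional (IntermediateField.adjoin κ₀ {t}) E ∧
        ∀ g ∈ E.fixingSubgroup, θ g = 1 := by
    choose E hE hEs using hs.cont
    have hT : ∀ z, ∃ T : Finset κ, IntermediateField.adjoin K (T : Set κ) = E z := by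
      intro z
      have := hE z
      exact IntermediateField.essFiniteType_iff.1 inferInstance
    choose T hT' using hT
    let b := Module.finBasis R₀ N₀
    let U : Finset κ := Finset.univ.biUnion fun i => T (ι (b i : M₀))
    refine ⟨IntermediateField.adjoin _ (U : Set κ), ?_, ?_⟩
    · exact IntermediateField.finiteDimensional_adjoin fun y _ =>
        (Algebra.IsAlgebraic.isAlgebraic y).isIntegral
    · intro g hg
      rw [IntermediateField.mem_fixingSubgroup_iff] at hg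
      have hb : ∀ i, θ g (b i) = b i := by
        intro i
        apply Subtype.ext
        rw [hθa]
        apply ι.injective
        rw [hα]
        refine hEs _ _ ?_
        rw [IntermediateField.mem_fixingSubgroup_iff]
        intro y hy
        rw [← hT'] at hy
        induction hy using IntermediateField.adjoin_induction with
        | mem y hy =>
          exact hg y (IntermediateField.subset_adjoin _ _ (by
            rw [Finset.mem_coe, Finset.mem_biUnion]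
            exact ⟨i, Finset.mem_univ i, hy⟩))
        | algebraMap c => exact (cv g).commutes c
        | add a b _ _ ha hb => rw [map_add, ha, hb]
        | inv a _ ha => rw [map_inv₀, ha]
        | mul a b _ _ ha hb => rw [map_mul, ha, hb]
      have hlin : (θ g).toLinearMap = LinearMap.id := b.ext fun i => hb i
      ext z
      exact congrArg Subtype.val (LinearMap.congr_fun hlin z)
  -- the subgroup `H` which fixes `δ`
  have hδr : ∀ g : κ ≃ₐ[IntermediateField.adjoin κ₀ {t}] κ,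
      ∃ ζ : κ₀, ζ ^ ℓ = 1 ∧ g δ = algebraMap κ₀ κ ζ * δ := by
    intro g
    have h1 : (g δ / δ) ^ ℓ = 1 := by
      rw [div_pow, ← map_pow, hδ, hfixp, div_self]
      rw [← hδ]
      exact pow_ne_zero _ hδ0
    obtain ⟨ζ, hζ⟩ := Pool.Agent.Y430.GT.mem_const (κ₀ := κ₀) hℓ h1
    refine ⟨ζ, ?_, ?_⟩
    · apply (algebraMap κ₀ κ).injective
      rw [map_pow, hζ, h1, map_one]
    · rw [hζ, div_mul_cancel₀ _ hδ0]
  let H : Subgroup (κ ≃ₐ[IntermediateField.adjoin κ₀ {t}] κ) := MulAction.stabilizer _ δ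
  have hH : ∀ g, g ∈ H ↔ g δ = δ := fun g => Iff.rfl
  have hpw : ∀ (g : κ ≃ₐ[IntermediateField.adjoin κ₀ {t}] κ) (ζ : κ₀),
      g δ = algebraMap κ₀ κ ζ * δ → ∀ n : ℕ, (g ^ n) δ = algebraMap κ₀ κ (ζ ^ n) * δ := by
    intro g ζ hζ n
    induction n with
    | zero => rw [pow_zero, pow_zero, map_one, one_mul]; rfl
    | succ n ih =>
      rw [pow_succ]
      show (g ^ n) (g δ) = _
      rw [hζ, map_mul, hfixc, ih, pow_succ, map_mul]
      ring
  have hpowH : ∀ g, g ^ ℓ ∈ H := by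
    intro g
    obtain ⟨ζ, h1, h2⟩ := hδr g
    rw [hH, hpw g ζ h2, h1, map_one, one_mul]
  have hcyc : ∃ g₁ : κ ≃ₐ[IntermediateField.adjoin κ₀ {t}] κ, ∀ g, ∃ i : ℤ, g₁ ^ i * g ∈ H := by
    by_cases hall : ∀ g, g ∈ H
    · exact ⟨1, fun g => ⟨0, hall _⟩⟩
    · push Not at hall
      obtain ⟨g₁, hg₁⟩ := hall
      obtain ⟨ζ, h1, h2⟩ := hδr g₁
      have hζ1 : ζ ≠ 1 := by
        rintro rfl
        apply hg₁
        rw [hH, h2, map_one, one_mul]
      have hprim : IsPrimitiveRoot ζ ℓ := by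
        have h3 : orderOf ζ = ℓ := orderOf_eq_prime h1 hζ1
        rw [← h3]
        exact IsPrimitiveRoot.orderOf ζ
      refine ⟨g₁, fun g => ?_⟩
      obtain ⟨ζ', h3, h4⟩ := hδr g
      obtain ⟨i, -, hi⟩ := hprim.eq_pow_of_pow_eq_one h3
      refine ⟨-(i : ℤ), ?_⟩
      rw [hH, zpow_neg, zpow_natCast]
      show (g₁ ^ i)⁻¹ (g δ) = δ
      have h5 : (g₁ ^ i) δ = g δ := by rw [hpw g₁ ζ h2, hi, h4]
      rw [← h5]
      show ((g₁ ^ i)⁻¹ * g₁ ^ i) δ = δ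
      rw [inv_mul_cancel]
      rfl
  obtain ⟨g₁, hg₁⟩ := hcyc
  have hneH : ∃ g ∈ H, θ g ≠ 1 := by
    obtain ⟨g', hg'⟩ := hlf g₀ hg₀
    refine ⟨g', ?_, fun h1 => hne ?_⟩
    · rw [hH]
      have h2 : cv g' δ = g₀ δ := by rw [hg']
      rw [← hcv, h2, hg₀δ]
    · have h2 := hθa g' ⟨z₀, hz₀⟩
      rw [h1] at h2
      have h3 := hα g' z₀
      have h4 : s' g' = s g₀ := by rw [hs', MonoidHom.comp_apply, hg']
      rw [h4] at h3
      rw [← h3]
      exact (congrArg ι h2).symm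
  obtain ⟨χ, hχ1, hχ2, h₁, hh₁, hχ3⟩ := Kum.exists_char2 ℓ κ₀ hpg θ H g₁ hg₁ hpowH hneH
  have hcontχ : ∃ E : IntermediateField (IntermediateField.adjoin κ₀ {t}) κ,
      FiniteDimensional (IntermediateField.adjoin κ₀ {t}) E ∧
        ∀ g ∈ E.fixingSubgroup, χ g = 1 := by
    obtain ⟨E, hE, hE1⟩ := hcont
    exact ⟨E, hE, fun g hg => hχ1 g (hE1 g hg)⟩
  have hN : 0 < ℓ ^ 2 := pow_pos hℓ 2
  obtain ⟨w, G, hG, hw, hgw⟩ := Kum.kummer (ℓ ^ 2) hN κ₀ κ t ht hal χ hχ2 hcontχ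
  -- elements which act trivially on `M₀` fix `w`
  have hno : ∀ w : κ, (∀ g : κ ≃ₐ[IntermediateField.adjoin κ₀ {t}] κ,
      g w = algebraMap κ₀ κ (χ g : κ₀) * w) → ∀ g : κ ≃ₐ[K] κ,
      (∀ c, g (algebraMap κ₀ κ c) = algebraMap κ₀ κ c) → (∀ z₀, s g (ι z₀) = ι z₀) →
      g w = w := by
    intro w hgw g hg1 hg2
    obtain ⟨g', rfl⟩ := hlf g hg1
    rw [hcv, hgw, hχ1 g' (hθ1 g' hg2), Units.val_one, map_one, one_mul]
  obtain ⟨hmul, hdeg⟩ := testG hfg t ht hal hgen hkK h hδ0 hs hst D hD0 hδ w G hG hw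
    (hno w hgw)
  -- the decomposition
  have hG0 : G ≠ 0 := hG.ne_zero
  obtain ⟨A₀, hA₀⟩ : ∃ A₀ : Finset κ₀, A₀ = G.roots.toFinset := ⟨_, rfl⟩
  have hA : ∀ a, a ∈ A₀ ↔ G.IsRoot a := by
    intro a
    rw [hA₀, Multiset.mem_toFinset, mem_roots hG0]
  have hGfac : G = ∏ a ∈ A₀, (X - C a) ^ G.rootMultiplicity a := by
    have h1 := fac G hG0 A₀ (fun a ha => (hA a).2 ha)
    rwa [hG.leadingCoeff, C_1, one_mul] at h1
  obtain ⟨G', hG'⟩ : ∃ G' : κ₀[X], G' = ∏ a ∈ A₀.filter (fun a => ¬ ℓ ∣ D'.rootMultiplicity a),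
      (X - C a) ^ (G.rootMultiplicity a / ℓ) := ⟨_, rfl⟩
  obtain ⟨Q, hQ⟩ : ∃ Q : κ₀[X], Q = ∏ a ∈ A₀.filter (fun a => ℓ ∣ D'.rootMultiplicity a),
      (X - C a) ^ (G.rootMultiplicity a / ℓ ^ 2) := ⟨_, rfl⟩
  have hGG : G = G' ^ ℓ * Q ^ (ℓ ^ 2) := by
    have h1 : G' ^ ℓ = ∏ a ∈ A₀.filter (fun a => ¬ ℓ ∣ D'.rootMultiplicity a),
        (X - C a) ^ G.rootMultiplicity a := by
      rw [hG', ← Finset.prod_pow]
      refine Finset.prod_congr rfl fun a ha => ?_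
      rw [Finset.mem_filter] at ha
      rw [← pow_mul]
      congr 1
      apply Nat.div_mul_cancel
      have h2 := hmul a ((hA a).1 ha.1) ℓ hℓ (dvd_mul_right _ _)
      rw [pow_two] at h2
      exact Nat.dvd_of_mul_dvd_mul_left hℓ h2
    have h2 : Q ^ (ℓ ^ 2) = ∏ a ∈ A₀.filter (fun a => ℓ ∣ D'.rootMultiplicity a),
        (X - C a) ^ G.rootMultiplicity a := by
      rw [hQ, ← Finset.prod_pow]
      refine Finset.prod_congr rfl fun a ha => ?_
      rw [Finset.mem_filter] at ha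
      rw [← pow_mul]
      congr 1
      apply Nat.div_mul_cancel
      have h2 := hmul a ((hA a).1 ha.1) 1 one_pos (by rw [one_mul]; exact ha.2)
      rwa [one_mul] at h2
    rw [h1, h2, mul_comm, Finset.prod_filter_mul_prod_filter_not]
    exact hGfac
  have hG'mon : G'.Monic := by
    rw [hG']
    exact monic_prod_of_monic _ _ fun a _ => (monic_X_sub_C a).pow _
  have hQmon : Q.Monic := by
    rw [hQ]
    exact monic_prod_of_monic _ _ fun a _ => (monic_X_sub_C a).pow _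
  have hG'root : ∀ a, G'.IsRoot a → ¬ ℓ ∣ D'.rootMultiplicity a := by
    intro a ha
    rw [hG'] at ha
    have h1 := isRoot_prod _ _ a ha
    rw [Finset.mem_filter] at h1
    exact h1.2
  have hG'D : ∀ a, G'.IsRoot a → D'.IsRoot a := by
    intro a ha
    by_contra hna
    apply hG'root a ha
    rw [rootMultiplicity_eq_zero hna]
    exact dvd_zero _
  have hdeg' : ℓ ∣ D.natDegree → ℓ ∣ G'.natDegree := by
    intro h1
    have h2 := hdeg h1
    have h3 : G.natDegree = ℓ * G'.natDegree + ℓ ^ 2 * Q.natDegree := by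
      rw [hGG, (hG'mon.pow ℓ).natDegree_mul (hQmon.pow _), hG'mon.natDegree_pow,
        hQmon.natDegree_pow]
    rw [h3] at h2
    have h4 := (Nat.dvd_add_left (dvd_mul_right (ℓ ^ 2) Q.natDegree)).1 h2
    rw [pow_two] at h4
    exact Nat.dvd_of_mul_dvd_mul_left hℓ h4
  have hQt : aeval t Q ≠ 0 := by
    intro h0
    exact ht ⟨Q, hQmon.ne_zero, h0⟩
  obtain ⟨w', hw'⟩ : ∃ w' : κ, w' = w / aeval t Q := ⟨_, rfl⟩
  have hw'N : w' ^ (ℓ ^ 2) = aeval t (G' ^ ℓ) := by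
    rw [hw', div_pow, hw, hGG, map_mul, map_pow (aeval t) Q, mul_div_cancel_right₀]
    exact pow_ne_zero _ hQt
  have hgw' : ∀ g : κ ≃ₐ[IntermediateField.adjoin κ₀ {t}] κ,
      g w' = algebraMap κ₀ κ (χ g : κ₀) * w' := by
    intro g
    rw [hw', map_div₀, hgw, hfixp]
    ring
  have hw'0 : w' ≠ 0 := by
    rintro h0
    rw [h0, zero_pow hN.ne'] at hw'N
    exact ht ⟨G' ^ ℓ, (hG'mon.pow ℓ).ne_zero, hw'N.symm⟩
  rcases hsep G' hG'mon hG'root hdeg' with ⟨r, P, hP⟩ | ⟨p, hp, hℓp, j, hgood, E, hE, hkE, hDE, b,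
    hb, b', hb', hDb, hDb', h1, h1', h2⟩
  · -- `w'` is in the field generated by `δ`
    have hP0 : aeval t P ≠ 0 := by
      intro h0
      have h3 := congrArg (aeval t) hP
      rw [map_pow, h0, zero_pow hℓ.ne'] at h3
      exact ht ⟨_, mul_ne_zero hG'mon.ne_zero (pow_ne_zero _ hD'0), h3⟩
    have h3 : (w' * δ ^ r / aeval t P) ^ (ℓ ^ 2) = 1 := by
      have h4 : (w' * δ ^ r) ^ (ℓ ^ 2) = (aeval t P) ^ (ℓ ^ 2) := by
        have h5 : (δ ^ r) ^ (ℓ ^ 2) = (aeval t (D' ^ r)) ^ ℓ := by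
          rw [map_pow, ← hδ, ← pow_mul, ← pow_mul, ← pow_mul]
          congr 1
          ring
        rw [mul_pow, hw'N, h5, map_pow, ← mul_pow, ← map_mul, hP, map_pow, ← pow_mul, pow_two]
      rw [div_pow, h4, div_self (pow_ne_zero _ hP0)]
    obtain ⟨ζ, hζ⟩ := Pool.Agent.Y430.GT.mem_const (κ₀ := κ₀) hN h3
    have h4 : w' * δ ^ r = algebraMap κ₀ κ ζ * aeval t P := by
      rw [hζ, div_mul_cancel₀ _ hP0]
    have h5 : h₁ (w' * δ ^ r) = w' * δ ^ r := by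
      rw [h4, map_mul, hfixc, hfixp]
    rw [map_mul, map_pow, (hH h₁).1 hh₁, hgw'] at h5
    have h6 : algebraMap κ₀ κ (χ h₁ : κ₀) * w' = w' :=
      mul_right_cancel₀ (pow_ne_zero r hδ0) h5
    have h7 : algebraMap κ₀ κ (χ h₁ : κ₀) = 1 :=
      mul_right_cancel₀ hw'0 (by rw [h6, one_mul])
    apply hχ3
    apply Units.ext
    apply (algebraMap κ₀ κ).injective
    rw [h7, Units.val_one, map_one]
  · haveI := hp
    haveI := hE
    have hroot : ∀ b : PadicAlgCl p, D'.eval₂ j b ≠ 0 → (G' ^ ℓ).eval₂ j b ≠ 0 := by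
      intro b hb
      rw [eval₂_pow]
      apply pow_ne_zero
      obtain ⟨A₁, hA₁⟩ : ∃ A₁ : Finset κ₀, A₁ = G'.roots.toFinset := ⟨_, rfl⟩
      have hA' : ∀ a, a ∈ A₁ ↔ G'.IsRoot a := by
        intro a
        rw [hA₁, Multiset.mem_toFinset, mem_roots hG'mon.ne_zero]
      rw [fac_eval G' hG'mon.ne_zero A₁ (fun a ha => (hA' a).2 ha), hG'mon.leadingCoeff, map_one,
        one_mul]
      refine Finset.prod_ne_zero_iff.2 fun a ha => pow_ne_zero _ ?_
      intro h0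
      apply hb
      rw [sub_eq_zero.1 h0, eval₂_at_apply, (hG'D a ((hA' a).1 ha)).eq_zero, map_zero]
    obtain ⟨g, hg1, hg2, hg3⟩ := testP hℓp hfg t ht hal hgen hkK h hδ0 hs hst D hD0 hδ hN w'
      (G' ^ ℓ) (hG'mon.pow ℓ) hw'N j hgood E hkE hDE (fun a ha => hDE a (hG'D a (by
        rw [IsRoot.def, eval_pow] at ha
        exact (pow_eq_zero_iff hℓ.ne').1 ha))) b b' hb hb' hDb hDb' (hroot b hDb) (hroot b' hDb')
      h1 h1' (by
        rintro ⟨e, he, h3⟩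
        apply h2
        refine ⟨e, he, ?_⟩
        rw [eval₂_pow, eval₂_pow, ← div_pow, norm_pow, pow_two, pow_mul] at h3
        exact (pow_left_inj₀ (norm_nonneg _) (pow_nonneg (norm_nonneg _) _) hℓ.ne').1 h3)
    exact hg2 (hno w' hgw' g hg1 hg3)

end Pool.Agent.T6.H28.PE
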