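import Pool.Agent.T6.H28.JTest
import Pool.Agent.T6.H28.Kum2

/-! # The geometric part of the section acts trivially on `M₀`: general form -/

set_option autoImplicit false
set_option linter.all false

open Polynomial FF

namespace Pool.Agent.T6.H28.PE

open Pool.Agent.Y157.PS Pool.Agent.Y157.GT Pool.Agent.Y474.GT

/-- the Kummer radical of a character -/
theorem kummerL (N : ℕ) (κ₀ κ : Type) [Field κ₀] [CharZero κ₀]
    [Field κ] [IsAlgClosed κ] [Algebra κ₀ κ] (L : IntermediateField κ₀ κ)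
    (halg : Algebra.IsAlgebraic L κ)
    (χ : (κ ≃ₐ[L] κ) →* κ₀ˣ) (hχ : ∀ g, χ g ^ N = 1)
    (hE : ∃ E : IntermediateField L κ, FiniteDimensional L E ∧ ∀ g ∈ E.fixingSubgroup, χ g = 1) :
    ∃ w : κ, w ≠ 0 ∧ w ^ N ∈ L ∧ ∀ g : κ ≃ₐ[L] κ, g w = algebraMap κ₀ κ (χ g : κ₀) * w := by
  obtain ⟨E, hEf, hE1⟩ := hE
  have hcz : CharZero κ := charZero_of_injective_algebraMap (algebraMap κ₀ κ).injective
  have hcl : IsAlgClosure L κ := ⟨inferInstance, halg⟩
  have hcL : CharZero L := charZero_of_injective_algebraMap (algebraMap κ₀ L).injective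
  have hGal : IsGalois L κ := IsAlgClosure.isGalois _ _
  have hfixc : ∀ (g : κ ≃ₐ[L] κ) (c : κ₀), g (algebraMap κ₀ κ c) = algebraMap κ₀ κ c := by
    intro g c
    rw [IsScalarTower.algebraMap_apply κ₀ L κ]
    exact g.commutes _
  obtain ⟨w0, hw0, hw1⟩ := Pool.Agent.Y655.PS.resolvent
    (⊤ : Subgroup (κ ≃ₐ[L] κ))
    (fun g => algebraMap κ₀ κ (χ g : κ₀))
    (fun g _ => by
      rw [Ne, map_eq_zero_iff _ (algebraMap κ₀ κ).injective]
      exact (χ g).ne_zero)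
    (fun g _ g' _ => by rw [map_mul, Units.val_mul, map_mul])
    (fun g _ g' _ => hfixc g _) E
    (fun g hg _ => by rw [hE1 g hg]; simp)
  have hw1' : ∀ g, g w0 = algebraMap κ₀ κ (χ g : κ₀) * w0 := fun g => hw1 g (Subgroup.mem_top g)
  have hu : w0 ^ N ∈ Set.range (algebraMap L κ) := by
    rw [InfiniteGalois.mem_range_algebraMap_iff_fixed]
    intro g
    rw [map_pow, hw1', mul_pow, ← map_pow, ← Units.val_pow_eq_pow_val, hχ, Units.val_one, map_one,
      one_mul]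
  obtain ⟨u, hu2⟩ := hu
  refine ⟨w0, hw0, ?_, hw1'⟩
  rw [← hu2]
  exact u.2

/-- elements of the compositum are fixed -/
theorem fix_comp {κ₀ K κ : Type} [Field κ₀] [Field K] [Field κ] [Algebra κ₀ κ] [Algebra K κ]
    (g : κ →+* κ) (hg : ∀ c, g (algebraMap κ₀ κ c) = algebraMap κ₀ κ c)
    (ht : ∀ c, g (algebraMap K κ c) = algebraMap K κ c) {z : κ}
    (hz : z ∈ IntermediateField.adjoin κ₀ (Set.range (algebraMap K κ))) : g z = z := by
  induction hz using IntermediateField.adjoin_induction with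
  | mem y hy =>
    obtain ⟨c, rfl⟩ := hy
    exact ht c
  | algebraMap c => exact hg c
  | add a b _ _ ha hb => rw [map_add, ha, hb]
  | inv a _ ha => rw [map_inv₀, ha]
  | mul a b _ _ ha hb => rw [map_mul, ha, hb]

theorem ptJ {ℓ : ℕ} [Fact ℓ.Prime]
    {K κ₀ κ R₀ R M₀ M : Type} [Field K] [CharZero K] [Field κ₀] [IsAlgClosed κ₀] [CharZero κ₀]
    [Field κ] [Algebra κ₀ κ] [Algebra K κ] [IsAlgClosure K κ]
    [Field R₀] [Field R] [Field M₀] [Field M] [Algebra κ₀ R₀]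
    [Algebra R₀ M₀] [Algebra κ₀ M₀] [IsScalarTower κ₀ R₀ M₀] [Algebra κ R] [Algebra R M]
    [Algebra κ M] [IsScalarTower κ R M]
    {x₀ : R₀} {x : R} {B₀ : Finset κ₀} {B : Finset κ} {Y₀ : M₀} {Y : M} {ι : M₀ →+* M}
    (L : IntermediateField κ₀ κ)
    (hL : L = IntermediateField.adjoin κ₀ (Set.range (algebraMap K κ)))
    (h : Pair ℓ κ₀ κ R₀ R M₀ M x₀ x B₀ B Y₀ Y ι) {δ : κ} (hδ0 : δ ≠ 0)
    (hδK : ∃ d : K, δ ^ ℓ = algebraMap K κ d)
    {s : (κ ≃ₐ[K] κ) →* RingAut M} (hs : Sec K κ R M x Y δ s)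
    (hst : ∀ σ z₀, ∃ z₁, s σ (ι z₀) = ι z₁)
    (hsep : ∀ w : κ, w ≠ 0 → w ^ (ℓ ^ 2) ∈ L →
      (∀ g : κ ≃ₐ[K] κ, (∀ c, g (algebraMap κ₀ κ c) = algebraMap κ₀ κ c) →
        (∀ z₀, s g (ι z₀) = ι z₀) → g w = w) → ∃ r : ℕ, w * δ ^ r ∈ L)
    (g₀ : κ ≃ₐ[K] κ)
    (hg₀ : ∀ c, g₀ (algebraMap κ₀ κ c) = algebraMap κ₀ κ c) (hg₀δ : g₀ δ = δ) (z₀ : M₀) :
    s g₀ (ι z₀) = ι z₀ := by
  classical
  by_contra hne
  have hℓ : 0 < ℓ := (Fact.out : ℓ.Prime).pos
  haveI : IsAlgClosed κ := IsAlgClosure.isAlgClosed K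
  haveI : Algebra.IsAlgebraic K κ := (inferInstance : IsAlgClosure K κ).isAlgebraic
  obtain ⟨d, hd⟩ := hδK
  -- the geometric group
  have hKL : ∀ a : K, ∃ b : L, algebraMap L κ b = algebraMap K κ a := by
    intro a
    refine ⟨⟨algebraMap K κ a, ?_⟩, rfl⟩
    rw [hL]
    exact IntermediateField.subset_adjoin _ _ ⟨a, rfl⟩
  haveI hal : Algebra.IsAlgebraic L κ := by
    let φ : K →+* L := (algebraMap K κ).codRestrict L.toSubfield.toSubring (fun a => by
      obtain ⟨b, hb⟩ := hKL a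
      rw [← hb]
      exact b.2)
    letI : Algebra K L := φ.toAlgebra
    haveI : IsScalarTower K L κ := IsScalarTower.of_algebraMap_eq fun z => rfl
    exact Algebra.IsAlgebraic.tower_top (K := K) L
  let cv : (κ ≃ₐ[L] κ) →* (κ ≃ₐ[K] κ) := resG hKL
  have hcv : ∀ g z, cv g z = g z := fun g z => rfl
  have hfixL : ∀ (g : κ ≃ₐ[L] κ) {z : κ}, z ∈ L → g z = z := fun g z hz => g.commutes ⟨z, hz⟩
  have hfixc : ∀ (g : κ ≃ₐ[L] κ) (c : κ₀), g (algebraMap κ₀ κ c) = algebraMap κ₀ κ c :=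
    fun g c => hfixL g (L.algebraMap_mem c)
  have hlf : ∀ g : κ ≃ₐ[K] κ, (∀ c, g (algebraMap κ₀ κ c) = algebraMap κ₀ κ c) →
      ∃ g' : κ ≃ₐ[L] κ, cv g' = g := by
    intro g hg
    refine ⟨AlgEquiv.ofRingEquiv (f := (g : κ ≃+* κ)) (fun c => ?_), ?_⟩
    · have hc : (c : κ) ∈ IntermediateField.adjoin κ₀ (Set.range (algebraMap K κ)) := by
        rw [← hL]; exact c.2
      exact fix_comp ((g : κ ≃+* κ) : κ →+* κ) hg (fun a => g.commutes a) hc
    · ext z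
      rfl
  have hδL : δ ^ ℓ ∈ L := by
    obtain ⟨b, hb⟩ := hKL d
    rw [hd, ← hb]
    exact b.2
  -- the action on `M₀`
  set s' : (κ ≃ₐ[L] κ) →* RingAut M := s.comp cv with hs'
  have hfix : ∀ (g : κ ≃ₐ[L] κ) (r : R₀),
      s' g (ι (algebraMap R₀ M₀ r)) = ι (algebraMap R₀ M₀ r) := by
    intro g r
    have hr : r ∈ IntermediateField.adjoin κ₀ {x₀} := by
      rw [h.cov₀.rat.gen]; trivial
    induction hr using IntermediateField.adjoin_induction with
    | mem y hy =>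
      rw [Set.mem_singleton_iff] at hy
      subst hy
      rw [h.var]
      exact hs.fixx _
    | algebraMap c =>
      rw [← IsScalarTower.algebraMap_apply κ₀ R₀ M₀, h.const]
      show s (cv g) _ = _
      rw [hs.const, hcv, hfixc]
    | add a b _ _ ha hb => rw [map_add, map_add, map_add, ha, hb]
    | inv a _ ha => rw [map_inv₀, map_inv₀, map_inv₀, ha]
    | mul a b _ _ ha hb => rw [map_mul, map_mul, map_mul, ha, hb]
  obtain ⟨α, hα⟩ := Pool.Agent.Y978.GT.exists_act (R₀ := R₀) ι s' (fun g z => hst _ z) hfix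
  -- a finite level
  obtain ⟨N₀, hz₀, hN₀⟩ := h.cov₀.pow z₀
  have hfin := hN₀.fin
  have hgal := hN₀.gal
  obtain ⟨m₀, hm₀⟩ := hN₀.card
  have hpg : IsPGroup ℓ (N₀ ≃ₐ[R₀] N₀) := by
    apply IsPGroup.of_card (n := m₀)
    rw [IsGalois.card_aut_eq_finrank, hm₀]
  set θ : (κ ≃ₐ[L] κ) →* (N₀ ≃ₐ[R₀] N₀) :=
    (AlgEquiv.restrictNormalHom N₀).comp α with hθ
  have hθa : ∀ g (z : N₀), ((θ g z : N₀) : M₀) = α g z := fun g z =>
    AlgEquiv.restrictNormalHom_apply N₀ (α g) z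
  have hθ1 : ∀ g', (∀ z₀, s (cv g') (ι z₀) = ι z₀) → θ g' = 1 := by
    intro g' hg'
    ext z
    rw [hθa]
    apply ι.injective
    rw [hα]
    exact hg' _
  -- continuity
  have hcont : ∃ E : IntermediateField L κ, FiniteDimensional L E ∧
        ∀ g ∈ E.fixingSubgroup, θ g = 1 := by
    choose E hE hEs using hs.cont
    have hT : ∀ z, ∃ T : Finset κ, IntermediateField.adjoin K (T : Set κ) = E z := by
      intro z
      have := hE z
      exact IntermediateField.essFiniteType_iff.1 inferInstance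
    choose T hT' using hT
    let b := Module.finBasis R₀ N₀
    let U : Finset κ := Finset.univ.biUnion fun i => T (ι (b i : M₀))
    refine ⟨IntermediateField.adjoin _ (U : Set κ), ?_, ?_⟩
    · exact IntermediateField.finiteDimensional_adjoin fun y _ =>
        (Algebra.IsAlgebraic.isAlgebraic y).isIntegral
    · intro g hg
      rw [IntermediateField.mem_fixingSubgroup_iff] at hg
      have hb : ∀ i, θ g (b i) = b i := by
        intro i
        apply Subtype.ext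
        rw [hθa]
        apply ι.injective
        rw [hα]
        refine hEs _ _ ?_
        rw [IntermediateField.mem_fixingSubgroup_iff]
        intro y hy
        rw [← hT'] at hy
        induction hy using IntermediateField.adjoin_induction with
        | mem y hy =>
          exact hg y (IntermediateField.subset_adjoin _ _ (by
            rw [Finset.mem_coe, Finset.mem_biUnion]
            exact ⟨i, Finset.mem_univ i, hy⟩))
        | algebraMap c => exact (cv g).commutes c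
        | add a b _ _ ha hb => rw [map_add, ha, hb]
        | inv a _ ha => rw [map_inv₀, ha]
        | mul a b _ _ ha hb => rw [map_mul, ha, hb]
      have hlin : (θ g).toLinearMap = LinearMap.id := b.ext fun i => hb i
      ext z
      exact congrArg Subtype.val (LinearMap.congr_fun hlin z)
  -- the subgroup `H` which fixes `δ`
  have hδr : ∀ g : κ ≃ₐ[L] κ, ∃ ζ : κ₀, ζ ^ ℓ = 1 ∧ g δ = algebraMap κ₀ κ ζ * δ := by
    intro g
    have h1 : (g δ / δ) ^ ℓ = 1 := by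
      rw [div_pow, ← map_pow, hfixL g hδL, div_self (pow_ne_zero _ hδ0)]
    obtain ⟨ζ, hζ⟩ := Pool.Agent.Y430.GT.mem_const (κ₀ := κ₀) hℓ h1
    refine ⟨ζ, ?_, ?_⟩
    · apply (algebraMap κ₀ κ).injective
      rw [map_pow, hζ, h1, map_one]
    · rw [hζ, div_mul_cancel₀ _ hδ0]
  let H : Subgroup (κ ≃ₐ[L] κ) := MulAction.stabilizer _ δ
  have hH : ∀ g, g ∈ H ↔ g δ = δ := fun g => Iff.rfl
  have hpw : ∀ (g : κ ≃ₐ[L] κ) (ζ : κ₀),
      g δ = algebraMap κ₀ κ ζ * δ → ∀ n : ℕ, (g ^ n) δ = algebraMap κ₀ κ (ζ ^ n) * δ := by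
    intro g ζ hζ n
    induction n with
    | zero => rw [pow_zero, pow_zero, map_one, one_mul]; rfl
    | succ n ih =>
      rw [pow_succ]
      show (g ^ n) (g δ) = _
      rw [hζ, map_mul, hfixc, ih, pow_succ, map_mul]
      ring
  have hpowH : ∀ g, g ^ ℓ ∈ H := by
    intro g
    obtain ⟨ζ, h1, h2⟩ := hδr g
    rw [hH, hpw g ζ h2, h1, map_one, one_mul]
  have hcyc : ∃ g₁ : κ ≃ₐ[L] κ, ∀ g, ∃ i : ℤ, g₁ ^ i * g ∈ H := by
    by_cases hall : ∀ g, g ∈ H
    · exact ⟨1, fun g => ⟨0, hall _⟩⟩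
    · push Not at hall
      obtain ⟨g₁, hg₁⟩ := hall
      obtain ⟨ζ, h1, h2⟩ := hδr g₁
      have hζ1 : ζ ≠ 1 := by
        rintro rfl
        apply hg₁
        rw [hH, h2, map_one, one_mul]
      have hprim : IsPrimitiveRoot ζ ℓ := by
        have h3 : orderOf ζ = ℓ := orderOf_eq_prime h1 hζ1
        rw [← h3]
        exact IsPrimitiveRoot.orderOf ζ
      refine ⟨g₁, fun g => ?_⟩
      obtain ⟨ζ', h3, h4⟩ := hδr g
      obtain ⟨i, -, hi⟩ := hprim.eq_pow_of_pow_eq_one h3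
      refine ⟨-(i : ℤ), ?_⟩
      rw [hH, zpow_neg, zpow_natCast]
      show (g₁ ^ i)⁻¹ (g δ) = δ
      have h5 : (g₁ ^ i) δ = g δ := by rw [hpw g₁ ζ h2, hi, h4]
      rw [← h5]
      show ((g₁ ^ i)⁻¹ * g₁ ^ i) δ = δ
      rw [inv_mul_cancel]
      rfl
  obtain ⟨g₁, hg₁⟩ := hcyc
  have hneH : ∃ g ∈ H, θ g ≠ 1 := by
    obtain ⟨g', hg'⟩ := hlf g₀ hg₀
    refine ⟨g', ?_, fun h1 => hne ?_⟩
    · rw [hH]
      have h2 : cv g' δ = g₀ δ := by rw [hg']
      rw [← hcv, h2, hg₀δ]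
    · have h2 := hθa g' ⟨z₀, hz₀⟩
      rw [h1] at h2
      have h3 := hα g' z₀
      have h4 : s' g' = s g₀ := by rw [hs', MonoidHom.comp_apply, hg']
      rw [h4] at h3
      rw [← h3]
      exact (congrArg ι h2).symm
  obtain ⟨χ, hχ1, hχ2, h₁, hh₁, hχ3⟩ := Kum.exists_char2 ℓ κ₀ hpg θ H g₁ hg₁ hpowH hneH
  have hcontχ : ∃ E : IntermediateField L κ, FiniteDimensional L E ∧
        ∀ g ∈ E.fixingSubgroup, χ g = 1 := by
    obtain ⟨E, hE, hE1⟩ := hcont
    exact ⟨E, hE, fun g hg => hχ1 g (hE1 g hg)⟩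
  obtain ⟨w, hw0, hw, hgw⟩ := kummerL (ℓ ^ 2) κ₀ κ L hal χ hχ2 hcontχ
  -- elements which act trivially on `M₀` fix `w`
  obtain ⟨r, hr⟩ := hsep w hw0 hw (by
    intro g hg1 hg2
    obtain ⟨g', rfl⟩ := hlf g hg1
    rw [hcv, hgw, hχ1 g' (hθ1 g' hg2), Units.val_one, map_one, one_mul])
  have h5 : h₁ (w * δ ^ r) = w * δ ^ r := hfixL h₁ hr
  rw [map_mul, map_pow, (hH h₁).1 hh₁, hgw] at h5
  have h6 : algebraMap κ₀ κ (χ h₁ : κ₀) * w = w :=
    mul_right_cancel₀ (pow_ne_zero r hδ0) h5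
  have h7 : algebraMap κ₀ κ (χ h₁ : κ₀) = 1 :=
    mul_right_cancel₀ hw0 (by rw [h6, one_mul])
  apply hχ3
  apply Units.ext
  apply (algebraMap κ₀ κ).injective
  rw [h7, Units.val_one, map_one]

end Pool.Agent.T6.H28.PE
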