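import Pool.Agent.T6.H28.TestE

/-! # Two `p`-adic points of the projective line: the automorphism -/

set_option autoImplicit false
set_option linter.all false

open Polynomial FF

namespace Pool.Agent.T6.H28.PE

open Pool.Agent.Y157.PS Pool.Agent.Y157.GT Pool.Agent.Y474.GT

variable {p : ℕ} [hp : Fact p.Prime]

theorem exists_eps {κ₀ : Type} (A₀ : Finset κ₀) (f : κ₀ → ℝ) (h : ∀ a ∈ A₀, 0 < f a) :
    ∃ ε : ℝ, 0 < ε ∧ ∀ a ∈ A₀, ε ≤ f a := by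
  classical
  induction A₀ using Finset.induction_on with
  | empty => exact ⟨1, one_pos, by simp⟩
  | insert a A₀ ha ih =>
    obtain ⟨ε, hε, hle⟩ := ih (fun a' ha' => h a' (Finset.mem_insert_of_mem ha'))
    refine ⟨min ε (f a), lt_min hε (h a (Finset.mem_insert_self a A₀)), fun a' ha' => ?_⟩
    rcases Finset.mem_insert.1 ha' with rfl | h1
    · exact min_le_right _ _
    · exact (min_le_left _ _).trans (hle a' h1)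

theorem kk {K κ : Type} [Field K] [Field κ] [Algebra K κ] (K₁ : IntermediateField K κ) :
    ∀ a : K, ∃ b : K₁, algebraMap K₁ κ b = algebraMap K κ a :=
  fun a => ⟨algebraMap K K₁ a, rfl⟩

/-- the section over the field generated by `δ` -/
theorem sec_delta {K κ R M : Type} [Field K] [Field κ] [Field R] [Field M] [Algebra K κ]
    [Algebra κ R] [Algebra R M] [Algebra κ M] [Algebra.IsAlgebraic K κ] {δ : κ} (hδ0 : δ ≠ 0)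
    {x : R} {Y : M} {s : (κ ≃ₐ[K] κ) →* RingAut M} (hs : Sec K κ R M x Y δ s)
    (K₁ : IntermediateField K κ) (hδ : δ ∈ K₁) :
    Sec K₁ κ R M x Y 1 (s.comp (resG (kk K₁))) := by
  haveI : Algebra.IsAlgebraic K₁ κ := Algebra.IsAlgebraic.tower_top (K := K) K₁
  refine ⟨fun σ c => ?_, fun σ => ?_, fun σ => ?_, fun z => ?_⟩
  · exact hs.const (resG (kk K₁) σ) c
  · exact hs.fixx (resG (kk K₁) σ)
  · have h1 := hs.fixy (resG (kk K₁) σ)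
    have h2 : resG (kk K₁) σ δ = δ := by
      rw [resG_apply]
      exact σ.commutes ⟨δ, hδ⟩
    rw [h2, div_self hδ0] at h1
    show s (resG (kk K₁) σ) Y = algebraMap κ M (σ 1 / 1) * Y
    rw [h1, map_one σ, div_one]
  · obtain ⟨E, hE, hEz⟩ := hs.cont z
    obtain ⟨E', hE', h'⟩ := cont_res (kk K₁) E
    exact ⟨E', hE', fun σ hσ => hEz _ (h' σ hσ)⟩

theorem testE {ℓ : ℕ} [Fact ℓ.Prime] (hne : ℓ ≠ p)
    {k K κ₀ κ R₀ R M₀ M : Type} [Field k] [CharZero k] [Field K] [CharZero K] [Field κ₀]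
    [Algebra k κ₀] [IsAlgClosure k κ₀] [Field κ] [Algebra κ₀ κ] [Algebra k κ]
    [IsScalarTower k κ₀ κ] [Algebra K κ] [IsAlgClosure K κ]
    [Field R₀] [Field R] [Field M₀] [Field M] [Algebra κ₀ R₀]
    [Algebra R₀ M₀] [Algebra κ₀ M₀] [IsScalarTower κ₀ R₀ M₀] [Algebra κ R] [Algebra R M]
    [Algebra κ M] [IsScalarTower κ R M]
    (hfg : (⊤ : IntermediateField ℚ k).FG) (t : κ) (ht : Transcendental κ₀ t)
    (hal : Algebra.IsAlgebraic (IntermediateField.adjoin κ₀ {t}) κ)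
    (hgen : ∀ S : Subfield κ, (∀ c : k, algebraMap k κ c ∈ S) → t ∈ S →
      ∀ c : K, algebraMap K κ c ∈ S)
    (hkK : ∀ c : k, ∃ b : K, algebraMap K κ b = algebraMap k κ c)
    {x₀ : R₀} {x : R} {B₀ : Finset κ₀} {B : Finset κ} {Y₀ : M₀} {Y : M} {ι : M₀ →+* M}
    (h : Pair ℓ κ₀ κ R₀ R M₀ M x₀ x B₀ B Y₀ Y ι) {δ : κ} (hδ0 : δ ≠ 0)
    {s : (κ ≃ₐ[K] κ) →* RingAut M} (hs : Sec K κ R M x Y δ s)
    (hst : ∀ σ z₀, ∃ z₁, s σ (ι z₀) = ι z₁)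
    (A₀ : Finset κ₀) (m n : κ₀ → ℕ) (c : κ₀) (hc : c ≠ 0)
    (hδ : δ ^ ℓ = algebraMap κ₀ κ c * ∏ a ∈ A₀, (t - algebraMap κ₀ κ a) ^ m a)
    {N : ℕ} (hN : 0 < N) (w : κ) (hw : w ^ N = ∏ a ∈ A₀, (t - algebraMap κ₀ κ a) ^ n a)
    (j : κ₀ →+* PadicAlgCl p) (hgood : Good (Aq j) B₀)
    (E : IntermediateField ℚ_[p] (PadicAlgCl p)) [FiniteDimensional ℚ_[p] E]
    (hkE : ∀ c : k, j (algebraMap k κ₀ c) ∈ E) (haE : ∀ a ∈ A₀, j a ∈ E) (hcE : j c ∈ E)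
    (b b' : PadicAlgCl p) (hbE : b ∈ E) (hbE' : b' ∈ E) (hb : ∀ a ∈ A₀, b ≠ j a)
    (hb' : ∀ a ∈ A₀, b' ≠ j a)
    (h1 : ∃ e ∈ E, ‖j c * ∏ a ∈ A₀, (b - j a) ^ m a‖ = ‖e‖ ^ ℓ)
    (h1' : ∃ e ∈ E, ‖j c * ∏ a ∈ A₀, (b' - j a) ^ m a‖ = ‖e‖ ^ ℓ)
    (h2 : ¬ ∃ e ∈ E,
      ‖(∏ a ∈ A₀, (b - j a) ^ n a) / (∏ a ∈ A₀, (b' - j a) ^ n a)‖ = ‖e‖ ^ N) :
    ∃ g : κ ≃ₐ[K] κ, (∀ c, g (algebraMap κ₀ κ c) = algebraMap κ₀ κ c) ∧ g w ≠ w ∧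
      ∀ z₀, s g (ι z₀) = ι z₀ := by
  classical
  haveI : Algebra.IsAlgebraic k κ₀ := (inferInstance : IsAlgClosure k κ₀).isAlgebraic
  haveI : IsAlgClosed κ₀ := IsAlgClosure.isAlgClosed k
  haveI : IsAlgClosed κ := IsAlgClosure.isAlgClosed K
  haveI : Algebra.IsAlgebraic K κ := (inferInstance : IsAlgClosure K κ).isAlgebraic
  haveI : Countable κ₀ := countable_closure hfg
  -- the transcendental points
  have key : ∀ b : PadicAlgCl p, b ∈ E → (∀ a ∈ A₀, b ≠ j a) →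
      ∃ (b₀ : PadicAlgCl p) (J : κ →+* PadicAlgCl p), b₀ ∈ E ∧
        (∀ a ∈ A₀, ‖b₀ - j a‖ = ‖b - j a‖) ∧ (∀ c, J (algebraMap κ₀ κ c) = j c) ∧ J t = b₀ := by
    intro b hbE hb
    obtain ⟨ε, hε, hle⟩ := exists_eps A₀ (fun a => ‖b - j a‖)
      (fun a ha => norm_pos_iff.2 (sub_ne_zero.2 (hb a ha)))
    obtain ⟨u, hu, hutr⟩ := exists_tr j b ε hε
    obtain ⟨J, hJ, hJt⟩ := lift_tr t ht hal j _ hutr
    refine ⟨_, J, add_mem hbE (E.algebraMap_mem u), fun a ha => ?_, hJ, hJt⟩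
    apply norm_pert
    rw [PadicAlgCl.norm_extends]
    exact lt_of_lt_of_le hu (hle a ha)
  obtain ⟨b₀, J₀, hb₀E, hb₀n, hJ₀, hJ₀t⟩ := key b hbE hb
  obtain ⟨b₁, J₁, hb₁E, hb₁n, hJ₁, hJ₁t⟩ := key b' hbE' hb'
  have hnpr : ∀ (b b₀ : PadicAlgCl p) (m : κ₀ → ℕ), (∀ a ∈ A₀, ‖b₀ - j a‖ = ‖b - j a‖) →
      ‖∏ a ∈ A₀, (b₀ - j a) ^ m a‖ = ‖∏ a ∈ A₀, (b - j a) ^ m a‖ := by
    intro b b₀ m hh
    rw [_root_.norm_prod, _root_.norm_prod]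
    refine Finset.prod_congr rfl fun a ha => ?_
    rw [norm_pow, norm_pow, hh a ha]
  have hne0 : ∀ (b b₀ : PadicAlgCl p) (m : κ₀ → ℕ), (∀ a ∈ A₀, ‖b₀ - j a‖ = ‖b - j a‖) →
      (∀ a ∈ A₀, b ≠ j a) → ∏ a ∈ A₀, (b₀ - j a) ^ m a ≠ 0 := by
    intro b b₀ m hh hb
    refine Finset.prod_ne_zero_iff.2 fun a ha => pow_ne_zero _ ?_
    rw [← norm_ne_zero_iff, hh a ha, norm_ne_zero_iff]
    exact sub_ne_zero.2 (hb a ha)
  have hmemE : ∀ (b₀ : PadicAlgCl p) (m : κ₀ → ℕ), b₀ ∈ E → ∏ a ∈ A₀, (b₀ - j a) ^ m a ∈ E :=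
    fun b₀ m hb₀ => prod_mem fun a ha => pow_mem (sub_mem hb₀ (haE a ha)) _
  have hjc0 : j c ≠ 0 := (_root_.map_ne_zero j).2 hc
  -- the images
  have himg : ∀ (J : κ →+* PadicAlgCl p) (b₀ : PadicAlgCl p) (m : κ₀ → ℕ),
      (∀ c, J (algebraMap κ₀ κ c) = j c) → J t = b₀ →
      J (∏ a ∈ A₀, (t - algebraMap κ₀ κ a) ^ m a) = ∏ a ∈ A₀, (b₀ - j a) ^ m a := by
    intro J b₀ m hJ hJt
    rw [map_prod]
    refine Finset.prod_congr rfl fun a _ => ?_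
    rw [map_pow, map_sub, hJ, hJt]
  have hw₀ : (J₀ w) ^ N = ∏ a ∈ A₀, (b₀ - j a) ^ n a := by
    rw [← map_pow, hw, himg J₀ b₀ n hJ₀ hJ₀t]
  have hw₁ : (J₁ w) ^ N = ∏ a ∈ A₀, (b₁ - j a) ^ n a := by
    rw [← map_pow, hw, himg J₁ b₁ n hJ₁ hJ₁t]
  have hδ₀ : (J₀ δ) ^ ℓ = j c * ∏ a ∈ A₀, (b₀ - j a) ^ m a := by
    rw [← map_pow, hδ, map_mul, hJ₀, himg J₀ b₀ m hJ₀ hJ₀t]
  have hδ₁ : (J₁ δ) ^ ℓ = j c * ∏ a ∈ A₀, (b₁ - j a) ^ m a := by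
    rw [← map_pow, hδ, map_mul, hJ₁, himg J₁ b₁ m hJ₁ hJ₁t]
  -- the element of the inertia group
  have hw1ne : J₁ w ≠ 0 := by
    intro h0
    rw [h0, zero_pow hN.ne'] at hw₁
    exact hne0 b' b₁ n hb₁n hb' hw₁.symm
  have hw0ne : J₀ w ≠ 0 := by
    intro h0
    rw [h0, zero_pow hN.ne'] at hw₀
    exact hne0 b b₀ n hb₀n hb hw₀.symm
  have hz : (J₀ w / J₁ w) ^ N =
      (∏ a ∈ A₀, (b₀ - j a) ^ n a) / (∏ a ∈ A₀, (b₁ - j a) ^ n a) := by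
    rw [div_pow, hw₀, hw₁]
  obtain ⟨τ, hτ, hτz⟩ := move E hN (div_mem (hmemE b₀ n hb₀E) (hmemE b₁ n hb₁E))
    (div_ne_zero (hne0 b b₀ n hb₀n hb) (hne0 b' b₁ n hb₁n hb')) hz (by
      rw [norm_div, hnpr b b₀ n hb₀n, hnpr b' b₁ n hb₁n, ← norm_div]
      exact h2)
  obtain ⟨e₀, he₀, hen₀⟩ := h1
  obtain ⟨e₁, he₁, hen₁⟩ := h1'
  have hτδ₀ : τ (J₀ δ) = J₀ δ := fixE E hne hδ₀ (mul_mem hcE (hmemE b₀ m hb₀E))
    (mul_ne_zero hjc0 (hne0 b b₀ m hb₀n hb)) he₀ (by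
      rw [norm_mul, hnpr b b₀ m hb₀n, ← norm_mul, hen₀]) τ hτ
  have hτδ₁ : τ (J₁ δ) = J₁ δ := fixE E hne hδ₁ (mul_mem hcE (hmemE b₁ m hb₁E))
    (mul_ne_zero hjc0 (hne0 b' b₁ m hb₁n hb')) he₁ (by
      rw [norm_mul, hnpr b' b₁ m hb₁n, ← norm_mul, hen₁]) τ hτ
  -- the field generated by `δ`
  set K₁ : IntermediateField K κ := IntermediateField.adjoin K {δ} with hK₁
  have hgen₁ : ∀ S : Subfield κ, (∀ c : k, algebraMap k κ c ∈ S) → t ∈ S → δ ∈ S →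
      ∀ c : K₁, algebraMap K₁ κ c ∈ S := by
    intro S hS1 hS2 hS3 c
    have h3 : K₁ ≤ S.toIntermediateField (hgen S hS1 hS2) := by
      rw [hK₁, IntermediateField.adjoin_simple_le_iff]
      exact hS3
    exact h3 c.2
  set E₁ : IntermediateField ℚ_[p] (PadicAlgCl p) :=
    E ⊔ IntermediateField.adjoin ℚ_[p] {J₀ δ, J₁ δ} with hE₁
  haveI : FiniteDimensional ℚ_[p] (IntermediateField.adjoin ℚ_[p] {J₀ δ, J₁ δ}) :=
    IntermediateField.finiteDimensional_adjoin fun z _ =>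
      (Algebra.IsAlgebraic.isAlgebraic z).isIntegral
  haveI : FiniteDimensional ℚ_[p] E₁ := IntermediateField.finiteDimensional_sup _ _
  have hEE : ∀ z ∈ E, z ∈ E₁ := fun z hz => (le_sup_left : E ≤ E₁) hz
  have hJK : ∀ (J : κ →+* PadicAlgCl p) (b₀ : PadicAlgCl p), b₀ ∈ E →
      (∀ c, J (algebraMap κ₀ κ c) = j c) → J t = b₀ → J δ ∈ E₁ →
      ∀ c : K₁, J (algebraMap K₁ κ c) ∈ E₁ := by
    intro J b₀ hb₀ hJ hJt hJδ c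
    have h3 := hgen₁ (E₁.toSubfield.comap J) (fun c => by
      rw [Subfield.mem_comap, IsScalarTower.algebraMap_apply k κ₀ κ, hJ]
      exact hEE _ (hkE c)) (by
      rw [Subfield.mem_comap, hJt]
      exact hEE _ hb₀) (by
      rw [Subfield.mem_comap]
      exact hJδ) c
    exact h3
  have hτK : ∀ (J : κ →+* PadicAlgCl p) (b₀ : PadicAlgCl p), b₀ ∈ E →
      (∀ c, J (algebraMap κ₀ κ c) = j c) → J t = b₀ → τ (J δ) = J δ →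
      ∀ c : K₁, τ (J (algebraMap K₁ κ c)) = J (algebraMap K₁ κ c) := by
    intro J b₀ hb₀ hJ hJt hJδ c
    have h3 := hgen₁ ((((τ : PadicAlgCl p ≃+* PadicAlgCl p) : PadicAlgCl p →+* PadicAlgCl p).comp
      J).eqLocusField J) (fun c => by
      show τ (J (algebraMap k κ c)) = J (algebraMap k κ c)
      rw [IsScalarTower.algebraMap_apply k κ₀ κ, hJ]
      exact τ.commutes ⟨_, hkE c⟩) (by
      show τ (J t) = J t
      rw [hJt]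
      exact τ.commutes ⟨_, hb₀⟩) (by
      show τ (J δ) = J δ
      exact hJδ) c
    exact h3
  have hδ₀E : J₀ δ ∈ E₁ := (le_sup_right : _ ≤ E₁) (IntermediateField.subset_adjoin _ _ (by simp))
  have hδ₁E : J₁ δ ∈ E₁ := (le_sup_right : _ ≤ E₁) (IntermediateField.subset_adjoin _ _ (by simp))
  haveI : Algebra.IsAlgebraic K₁ κ := Algebra.IsAlgebraic.tower_top (K := K) K₁
  haveI : IsAlgClosure K₁ κ := ⟨inferInstance, inferInstance⟩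
  haveI : CharZero K₁ := charZero_of_injective_algebraMap (algebraMap K K₁).injective
  have hsL := sec_delta hδ0 hs K₁ (IntermediateField.mem_adjoin_simple_self K δ)
  obtain ⟨σ₀, σ₁, g0, g1, g2, g3⟩ := coreE hne (k := k) (K₁ := K₁) h (fun c => by
      obtain ⟨b, hb⟩ := hkK c
      exact ⟨algebraMap K K₁ b, hb⟩) hsL (fun σ z₀ => hst _ z₀) j J₀ J₁ hJ₀ hJ₁ E₁
    (fun c => hEE _ (hkE c)) (hJK J₀ b₀ hb₀E hJ₀ hJ₀t hδ₀E) (hJK J₁ b₁ hb₁E hJ₁ hJ₁t hδ₁E) hgood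
    E τ hτ (hτK J₀ b₀ hb₀E hJ₀ hJ₀t hτδ₀) (hτK J₁ b₁ hb₁E hJ₁ hJ₁t hτδ₁)
  refine ⟨resG (kk K₁) (σ₀ * σ₁), fun c => g2 c, ?_, g3⟩
  -- the action on `w`
  have hττ : ∀ z, τ (τ⁻¹ z) = z := fun z => by
    show (τ * τ⁻¹) z = z
    rw [mul_inv_cancel]; rfl
  have hw0 : w ≠ 0 := by
    rintro rfl
    exact hw0ne (map_zero J₀)
  have hinvE : ∀ z ∈ E, τ⁻¹ z = z := fun z hz => (τ⁻¹).commutes ⟨z, hz⟩
  have hξ : (σ₁ w / w) ^ N = 1 := by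
    apply J₁.injective
    rw [map_pow, map_div₀, g1, map_one, div_pow, ← map_pow, hw₁, hinvE _ (hmemE b₁ n hb₁E),
      div_self (hne0 b' b₁ n hb₁n hb')]
  obtain ⟨ξ, hξ'⟩ := Pool.Agent.Y430.GT.mem_const (κ₀ := κ₀) hN hξ
  have hσ₁w : σ₁ w = algebraMap κ₀ κ ξ * w := by rw [hξ', div_mul_cancel₀ _ hw0]
  have hjξ : j ξ = τ⁻¹ (J₁ w) / J₁ w := by
    rw [← hJ₁, hξ', map_div₀, g1]
  show σ₀ (σ₁ w) ≠ w
  intro hcon
  apply hτz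
  have h5 : J₀ w = τ (j ξ) * τ (J₀ w) := by
    conv_lhs => rw [← hcon]
    rw [hσ₁w, g0, map_mul, map_mul, hJ₀]
  rw [hjξ, map_div₀, hττ] at h5
  have h6 : τ (J₁ w) ≠ 0 := (_root_.map_ne_zero τ).2 hw1ne
  rw [map_div₀, div_eq_div_iff h6 hw1ne]
  rw [div_mul_eq_mul_div, eq_div_iff h6] at h5
  rw [mul_comm (τ (J₀ w)), ← h5]

end Pool.Agent.T6.H28.PE
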