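import Pool.Agent.T6.H28.PlcE

/-! # Two `p`-adic points of the projective line: the test -/

set_option autoImplicit false
set_option linter.all false

open Polynomial FF Cardinal

namespace Pool.Agent.T6.H28.PE

open Pool.Agent.Y157.PS Pool.Agent.Y157.GT Pool.Agent.Y474.GT

variable {p : ℕ} [hp : Fact p.Prime]

/-- the valuation ring of the algebraic closure of `ℚ_p` -/
noncomputable abbrev VC (p : ℕ) [Fact p.Prime] : ValuationSubring (PadicAlgCl p) :=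
  Aq (RingHom.id (PadicAlgCl p))

theorem isU_VC (z : PadicAlgCl p) : IsU (VC p) z ↔ ‖z‖ = 1 := isU_Aq _ z

theorem non_VC (z : PadicAlgCl p) : z ∈ (VC p).nonunits ↔ ‖z‖ < 1 := non_Aq _ z

theorem mem_VC (z : PadicAlgCl p) : z ∈ VC p ↔ ‖z‖ ≤ 1 := Iff.rfl

theorem closE (E : IntermediateField ℚ_[p] (PadicAlgCl p)) : IsAlgClosure E (PadicAlgCl p) :=
  ⟨inferInstance, Algebra.IsAlgebraic.tower_top (K := ℚ_[p]) E⟩

section inertia

variable (E : IntermediateField ℚ_[p] (PadicAlgCl p)) [FiniteDimensional ℚ_[p] E]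

/-- an element whose `N`-th power does not have the valuation of an `N`-th power is moved by the
inertia group -/
theorem move {z γ : PadicAlgCl p} {N : ℕ} (hN : 0 < N) (hγ : γ ∈ E) (hγ0 : γ ≠ 0)
    (hz : z ^ N = γ) (h : ¬ ∃ e ∈ E, ‖γ‖ = ‖e‖ ^ N) :
    ∃ τ : PadicAlgCl p ≃ₐ[E] PadicAlgCl p, Ine (VC p) τ ∧ τ z ≠ z := by
  by_contra hcon
  push Not at hcon
  haveI := closE E
  let i : E →+* PadicAlgCl p := algebraMap E (PadicAlgCl p)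
  haveI := dvr_Aq i E (fun z => z.2)
  haveI := res_Aq i E (fun z => z.2)
  letI : Algebra (Aq i) (PadicAlgCl p) := (i.comp (algebraMap (Aq i) E)).toAlgebra
  haveI : IsScalarTower (Aq i) E (PadicAlgCl p) := IsScalarTower.of_algebraMap_eq fun _ => rfl
  obtain ⟨ϖ, hϖ⟩ := IsDiscreteValuationRing.exists_irreducible (Aq i)
  have hz0 : z ≠ 0 := by
    rintro rfl
    apply hγ0
    rw [← hz, zero_pow hN.ne']
  obtain ⟨r, hr⟩ := a_ine (Aq i) E (PadicAlgCl p) (VC p) ϖ (fun a => a.2)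
    (fun a ha => (non_VC _).2 ((max_Aq i a).1 ha)) hϖ z hz0 hcon
  apply h
  have h1 : algebraMap (Aq i) (PadicAlgCl p) ϖ ∈ E := (ϖ : E).2
  refine ⟨algebraMap (Aq i) (PadicAlgCl p) ϖ ^ r, zpow_mem h1 r, ?_⟩
  rw [isU_VC, norm_div] at hr
  have h2 : ‖algebraMap (Aq i) (PadicAlgCl p) ϖ ^ r‖ ≠ 0 := by
    intro h0
    rw [h0, div_zero] at hr
    exact zero_ne_one hr
  rw [div_eq_one_iff_eq h2] at hr
  rw [← hr, ← hz, norm_pow]

/-- an element whose `ℓ`-th power has the valuation of an `ℓ`-th power is fixed by the inertia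
group -/
theorem fixE {ℓ : ℕ} [Fact ℓ.Prime] (hne : ℓ ≠ p) {y d e : PadicAlgCl p} (hy : y ^ ℓ = d)
    (hd : d ∈ E) (hd0 : d ≠ 0) (he : e ∈ E) (hde : ‖d‖ = ‖e‖ ^ ℓ)
    (τ : PadicAlgCl p ≃ₐ[E] PadicAlgCl p) (hτ : Ine (VC p) τ) : τ y = y := by
  have hℓ0 : ℓ ≠ 0 := (Fact.out : ℓ.Prime).ne_zero
  have hy0 : y ≠ 0 := by
    rintro rfl
    apply hd0
    rw [← hy, zero_pow hℓ0]
  have he0 : e ≠ 0 := by
    rintro rfl
    rw [norm_zero, zero_pow hℓ0, norm_eq_zero] at hde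
    exact hd0 hde
  have h1 : ‖y‖ = ‖e‖ := by
    have h2 : ‖y‖ ^ ℓ = ‖e‖ ^ ℓ := by rw [← norm_pow, hy, hde]
    exact (pow_left_inj₀ (norm_nonneg _) (norm_nonneg _) hℓ0).1 h2
  have h2 : ‖y / e‖ = 1 := by
    rw [norm_div, h1, div_self (norm_ne_zero_iff.2 he0)]
  have hτd : τ d = d := τ.commutes ⟨d, hd⟩
  have hτe : τ e = e := τ.commutes ⟨e, he⟩
  have h3 : τ y / y = 1 := by
    refine Pool.Agent.Y748.PS.rou_eq_one (O := VC p) (m := ℓ) ((isU_VC _).2 (norm_l hne)) ?_ ?_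
    · rw [div_pow, ← map_pow, hy, hτd, div_self hd0]
    · have h4 : τ y / y - 1 = (y / e)⁻¹ * (τ (y / e) - y / e) := by
        rw [map_div₀, hτe]
        field_simp
      rw [h4]
      refine Pool.Agent.Y748.PS.nu_mul ?_ (hτ.2 _ ?_)
      · rw [mem_VC, norm_inv, h2, inv_one]
      · rw [mem_VC, h2]
  exact (div_eq_one_iff_eq hy0).1 h3

theorem ine_norm {E : IntermediateField ℚ_[p] (PadicAlgCl p)}
    {τ : PadicAlgCl p ≃ₐ[E] PadicAlgCl p} (hτ : Ine (VC p) τ) (z : PadicAlgCl p) :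
    ‖τ z‖ = 1 ↔ ‖z‖ = 1 := by
  have h1 := hτ.1 z
  have h2 := hτ.1 z⁻¹
  rw [mem_VC, mem_VC] at h1 h2
  rw [map_inv₀, norm_inv, norm_inv] at h2
  rcases eq_or_ne z 0 with h0 | h0
  · rw [h0, map_zero]
  have h3 : 0 < ‖z‖ := norm_pos_iff.2 h0
  have h4 : 0 < ‖τ z‖ := norm_pos_iff.2 ((_root_.map_ne_zero τ).2 h0)
  rw [inv_le_one₀ h3, inv_le_one₀ h4] at h2
  constructor
  · intro h
    exact le_antisymm (h1.1 h.le) (h2.1 h.ge)
  · intro h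
    exact le_antisymm (h1.2 h.le) (h2.2 h.ge)

end inertia

/-! ### Transcendental points -/

theorem exists_tr {κ₀ : Type} [Field κ₀] [Countable κ₀] (j : κ₀ →+* PadicAlgCl p)
    (b : PadicAlgCl p) (ε : ℝ) (hε : 0 < ε) :
    ∃ u : ℚ_[p], ‖u‖ < ε ∧
      ∀ P : κ₀[X], P ≠ 0 → P.eval₂ j (b + algebraMap ℚ_[p] (PadicAlgCl p) u) ≠ 0 := by
  classical
  have hpoly : Countable κ₀[X] := by
    rw [← Cardinal.mk_le_aleph0_iff]
    refine (Polynomial.cardinalMk_le_max).trans ?_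
    rw [max_le_iff]
    exact ⟨Cardinal.mk_le_aleph0, le_rfl⟩
  by_contra hcon
  push Not at hcon
  set s : Set ℚ_[p] := Metric.ball 0 ε with hs
  have h1 : 𝔠 ≤ #s := continuum_le_cardinal_of_isOpen ℚ_[p] Metric.isOpen_ball
    ⟨_, Metric.mem_ball_self hε⟩
  let g : ℚ_[p] → PadicAlgCl p := fun u => b + algebraMap ℚ_[p] (PadicAlgCl p) u
  have hg : Function.Injective g := fun u u' h =>
    (algebraMap ℚ_[p] (PadicAlgCl p)).injective (add_left_cancel h)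
  have h2 : s ⊆ ⋃ P : {P : κ₀[X] // P ≠ 0}, g ⁻¹' {δ | δ ∈ (P.1.map j).roots} := by
    intro δ hδ
    rw [hs, mem_ball_zero_iff] at hδ
    obtain ⟨P, hP, hPδ⟩ := hcon δ hδ
    rw [Set.mem_iUnion]
    refine ⟨⟨P, hP⟩, ?_⟩
    show g δ ∈ (P.map j).roots
    rw [mem_roots ((Polynomial.map_ne_zero_iff j.injective).2 hP), IsRoot.def, eval_map]
    exact hPδ
  have h3 : s.Countable := by
    refine (Set.countable_iUnion fun P => ?_).mono h2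
    have h5 : {δ | δ ∈ (P.1.map j).roots} = ((P.1.map j).roots.toFinset : Set (PadicAlgCl p)) := by
      ext δ
      rw [Finset.mem_coe, Multiset.mem_toFinset]
      exact Iff.rfl
    rw [h5]
    exact (Set.Finite.preimage hg.injOn (Finset.finite_toSet _)).countable
  have h4 : #s ≤ ℵ₀ := Cardinal.mk_le_aleph0_iff.2 h3.to_subtype
  exact absurd (h1.trans h4) (not_le.2 Cardinal.aleph0_lt_continuum)

theorem countable_closure {k κ₀ : Type} [Field k] [CharZero k] [Field κ₀] [Algebra k κ₀]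
    [Algebra.IsAlgebraic k κ₀] (h : (⊤ : IntermediateField ℚ k).FG) : Countable κ₀ := by
  haveI := Pool.Agent.Y319.GT.countable_of_fg k h
  rw [← Cardinal.mk_le_aleph0_iff]
  refine (Algebra.IsAlgebraic.cardinalMk_le_max k κ₀).trans ?_
  rw [max_le_iff]
  exact ⟨Cardinal.mk_le_aleph0, le_rfl⟩

/-- a small perturbation does not change the distances to other points -/
theorem norm_pert {b a u : PadicAlgCl p} (h : ‖u‖ < ‖b - a‖) : ‖b + u - a‖ = ‖b - a‖ := by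
  have h1 : b + u - a = u + (b - a) := by ring
  rw [h1]
  exact IsUltrametricDist.norm_add_eq_max_of_norm_ne_norm h.ne |>.trans (max_eq_right h.le)

/-! ### The core of the argument -/

/-- the automorphisms attached to an element of the inertia group at two places -/
theorem coreE {ℓ : ℕ} [Fact ℓ.Prime] (hne : ℓ ≠ p)
    {k K₁ κ₀ κ R₀ R M₀ M : Type} [Field k] [CharZero k] [Field K₁] [CharZero K₁] [Field κ₀]
    [Algebra k κ₀] [IsAlgClosure k κ₀] [Field κ] [Algebra κ₀ κ] [Algebra k κ]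
    [IsScalarTower k κ₀ κ] [Algebra K₁ κ] [IsAlgClosure K₁ κ]
    [Field R₀] [Field R] [Field M₀] [Field M] [Algebra κ₀ R₀]
    [Algebra R₀ M₀] [Algebra κ₀ M₀] [IsScalarTower κ₀ R₀ M₀] [Algebra κ R] [Algebra R M]
    [Algebra κ M] [IsScalarTower κ R M]
    {x₀ : R₀} {x : R} {B₀ : Finset κ₀} {B : Finset κ} {Y₀ : M₀} {Y : M} {ι : M₀ →+* M}
    (h : Pair ℓ κ₀ κ R₀ R M₀ M x₀ x B₀ B Y₀ Y ι)
    (hkK : ∀ c : k, ∃ b : K₁, algebraMap K₁ κ b = algebraMap k κ c)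
    {s : (κ ≃ₐ[K₁] κ) →* RingAut M} (hs : Sec K₁ κ R M x Y 1 s)
    (hst : ∀ σ z₀, ∃ z₁, s σ (ι z₀) = ι z₁)
    (j : κ₀ →+* PadicAlgCl p) (J₀ J₁ : κ →+* PadicAlgCl p)
    (hj₀ : ∀ c, J₀ (algebraMap κ₀ κ c) = j c) (hj₁ : ∀ c, J₁ (algebraMap κ₀ κ c) = j c)
    (E : IntermediateField ℚ_[p] (PadicAlgCl p)) [FiniteDimensional ℚ_[p] E]
    (hkE : ∀ c : k, j (algebraMap k κ₀ c) ∈ E)
    (hJ₀ : ∀ c, J₀ (algebraMap K₁ κ c) ∈ E) (hJ₁ : ∀ c, J₁ (algebraMap K₁ κ c) ∈ E)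
    (hgood : Good (Aq j) B₀)
    (E₀ : IntermediateField ℚ_[p] (PadicAlgCl p)) (τ : PadicAlgCl p ≃ₐ[E₀] PadicAlgCl p)
    (hτ : Ine (VC p) τ) (hτ₀ : ∀ c, τ (J₀ (algebraMap K₁ κ c)) = J₀ (algebraMap K₁ κ c))
    (hτ₁ : ∀ c, τ (J₁ (algebraMap K₁ κ c)) = J₁ (algebraMap K₁ κ c)) :
    ∃ σ₀ σ₁ : κ ≃ₐ[K₁] κ, (∀ z, J₀ (σ₀ z) = τ (J₀ z)) ∧ (∀ z, J₁ (σ₁ z) = τ⁻¹ (J₁ z)) ∧
      (∀ c, (σ₀ * σ₁) (algebraMap κ₀ κ c) = algebraMap κ₀ κ c) ∧
      ∀ z₀, s (σ₀ * σ₁) (ι z₀) = ι z₀ := by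
  haveI : IsAlgClosed κ₀ := IsAlgClosure.isAlgClosed k
  haveI : IsAlgClosed κ := IsAlgClosure.isAlgClosed K₁
  haveI : Algebra.IsAlgebraic k κ₀ := (inferInstance : IsAlgClosure k κ₀).isAlgebraic
  have hc₀ : (Aq J₀).comap (algebraMap κ₀ κ) = Aq j := by
    ext c
    rw [ValuationSubring.mem_comap, mem_Aq, mem_Aq, hj₀]
  have hc₁ : (Aq J₁).comap (algebraMap κ₀ κ) = Aq j := by
    ext c
    rw [ValuationSubring.mem_comap, mem_Aq, mem_Aq, hj₁]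
  have hg₀ : Good (Aq J₀) B := good_pair h (by rw [hc₀]; exact hgood)
  have hg₁ : Good (Aq J₁) B := good_pair h (by rw [hc₁]; exact hgood)
  obtain ⟨O₀, hO₀, hp₀⟩ := plcE J₀ E hJ₀ hne x B Y h.cov hg₀ s hs
  obtain ⟨O₁, hO₁, hp₁⟩ := plcE J₁ E hJ₁ hne x B Y h.cov hg₁ s hs
  have hττ : ∀ z, τ (τ⁻¹ z) = z := fun z => by
    show (τ * τ⁻¹) z = z
    rw [mul_inv_cancel]; rfl
  have hττ' : ∀ z, τ⁻¹ (τ z) = z := fun z => by
    show (τ⁻¹ * τ) z = z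
    rw [inv_mul_cancel]; rfl
  obtain ⟨σ₀, hσ₀⟩ := restrE J₀ (τ : PadicAlgCl p ≃+* PadicAlgCl p) hτ₀
  obtain ⟨σ₁, hσ₁⟩ := restrE J₁ (τ⁻¹ : PadicAlgCl p ≃ₐ[E₀] PadicAlgCl p)
    (fun c => by
      show τ⁻¹ (J₁ (algebraMap K₁ κ c)) = _
      conv_lhs => rw [← hτ₁ c]
      exact hττ' _)
  have hσ₀' : ∀ z, J₀ (σ₀ z) = τ (J₀ z) := hσ₀
  have hσ₁' : ∀ z, J₁ (σ₁ z) = τ⁻¹ (J₁ z) := hσ₁
  have hτ' := Ine_inv hτ
  have hI₀ : Ine (Aq J₀) σ₀ := by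
    constructor
    · intro z
      rw [mem_Aq, mem_Aq, hσ₀']
      exact hτ.1 _
    · intro z hz
      rw [non_Aq, map_sub, hσ₀']
      exact (non_VC _).1 (hτ.2 _ hz)
  have hI₁ : Ine (Aq J₁) σ₁ := by
    constructor
    · intro z
      rw [mem_Aq, mem_Aq, hσ₁']
      exact hτ'.1 _
    · intro z hz
      rw [non_Aq, map_sub, hσ₁']
      exact (non_VC _).1 (hτ'.2 _ hz)
  have hn₀ := hp₀ σ₀ hI₀
  have hn₁ := hp₁ σ₁ hI₁
  have hfix : ∀ c, (σ₀ * σ₁) (algebraMap κ₀ κ c) = algebraMap κ₀ κ c := by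
    intro c
    obtain ⟨c', hc'⟩ := map_bot (k₁ := k) (κ₀ := κ₀) (σ₁ : κ ≃+* κ) (fun a => by
      obtain ⟨b, hb⟩ := hkK a
      show σ₁ (algebraMap k κ a) = algebraMap k κ a
      rw [← hb, AlgEquiv.commutes]) c
    have hc'' : σ₁ (algebraMap κ₀ κ c) = algebraMap κ₀ κ c' := hc'
    show σ₀ (σ₁ (algebraMap κ₀ κ c)) = _
    rw [hc'']
    apply J₀.injective
    rw [hσ₀', hj₀, hj₀]
    have h1 := hσ₁' (algebraMap κ₀ κ c)
    rw [hc'', hj₁, hj₁] at h1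
    rw [h1, hττ]
  refine ⟨σ₀, σ₁, hσ₀', hσ₁', hfix, ?_⟩
  obtain ⟨hu, hf⟩ := uniE (K := k) j E hkE hne x₀ B₀ Y₀ h.cov₀ hgood
  have hG₀ : Gauss (Aq j) (algebraMap R₀ M₀ x₀) (O₀.comap ι) := by
    rw [← hc₀]; exact gauss_pair h hO₀
  have hG₁ : Gauss (Aq j) (algebraMap R₀ M₀ x₀) (O₁.comap ι) := by
    rw [← hc₁]; exact gauss_pair h hO₁
  have hO : O₀.comap ι = O₁.comap ι := hu _ _ hG₀ hG₁
  obtain ⟨γ, hγ⟩ := induced h (s (σ₀ * σ₁)) (fun c => by rw [hs.const, hfix]) (hs.fixx _)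
    (hst _) (fun z => by rw [← map_inv]; exact hst _ z)
  have hγ1 : γ = 1 := by
    refine hf _ hG₀ γ fun z hz => ?_
    obtain ⟨z₁, hz₁⟩ := hst σ₁ z
    have h1 : z₁ - z ∈ (O₁.comap ι).nonunits := by
      rw [nu_comap, map_sub, ← hz₁]
      refine hn₁ _ ?_
      rw [hO] at hz
      exact hz
    have hz1 : z₁ ∈ O₁.comap ι := by
      have h2 := Pool.Agent.Y748.PS.nu_mem h1
      have h3 := (O₁.comap ι).add_mem _ _ h2 (by rw [hO] at hz; exact hz)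
      rwa [sub_add_cancel] at h3
    have h2 : γ z - z₁ ∈ (O₀.comap ι).nonunits := by
      rw [nu_comap, map_sub, ← hγ, map_mul]
      show s σ₀ (s σ₁ (ι z)) - ι z₁ ∈ O₀.nonunits
      rw [hz₁]
      refine hn₀ _ ?_
      rw [← hO] at hz1
      exact hz1
    have h3 : γ z - z = (γ z - z₁) + (z₁ - z) := by ring
    rw [h3]
    refine add_mem h2 ?_
    rw [hO]
    exact h1
  intro z₀
  rw [hγ, hγ1]
  rfl

end Pool.Agent.T6.H28.PE
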