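import Pool.Agent.T6.H28.Test2
import Pool.Agent.T6.H28.Kum2

/-! # The test for polynomials -/

set_option autoImplicit false
set_option linter.all false

open Polynomial FF

namespace Pool.Agent.T6.H28.PE

open Pool.Agent.Y157.PS Pool.Agent.Y157.GT Pool.Agent.Y474.GT

variable {p : ℕ} [hp : Fact p.Prime]

/-- factorisation over a finite set which contains the roots -/
theorem fac {κ₀ : Type} [Field κ₀] [IsAlgClosed κ₀] (P : κ₀[X]) (hP : P ≠ 0) (A₀ : Finset κ₀)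
    (hA : ∀ a, P.IsRoot a → a ∈ A₀) :
    P = C P.leadingCoeff * ∏ a ∈ A₀, (X - C a) ^ P.rootMultiplicity a := by
  classical
  have h1 := (IsAlgClosed.splits P).eq_prod_roots
  rw [Polynomial.prod_multiset_root_eq_finset_root] at h1
  have h2 : ∏ a ∈ P.roots.toFinset, (X - C a) ^ rootMultiplicity a P =
      ∏ a ∈ A₀, (X - C a) ^ rootMultiplicity a P := by
    apply Finset.prod_subset
    · intro a ha
      rw [Multiset.mem_toFinset, mem_roots hP] at ha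
      exact hA a ha
    · intro a _ ha
      rw [Multiset.mem_toFinset, mem_roots hP] at ha
      rw [rootMultiplicity_eq_zero ha, pow_zero]
  rw [← h2]
  exact h1

theorem fac_eval {κ₀ L : Type} [Field κ₀] [IsAlgClosed κ₀] [Field L] (P : κ₀[X]) (hP : P ≠ 0)
    (A₀ : Finset κ₀) (hA : ∀ a, P.IsRoot a → a ∈ A₀) (j : κ₀ →+* L) (b : L) :
    P.eval₂ j b = j P.leadingCoeff * ∏ a ∈ A₀, (b - j a) ^ P.rootMultiplicity a := by
  conv_lhs => rw [fac P hP A₀ hA]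
  rw [eval₂_mul, eval₂_C, ← coe_eval₂RingHom, map_prod]
  congr 1
  refine Finset.prod_congr rfl fun a _ => ?_
  rw [map_pow, map_sub, coe_eval₂RingHom, eval₂_X, eval₂_C]

theorem testP {ℓ : ℕ} [Fact ℓ.Prime] (hne : ℓ ≠ p)
    {k K κ₀ κ R₀ R M₀ M : Type} [Field k] [CharZero k] [Field K] [CharZero K] [Field κ₀]
    [Algebra k κ₀] [IsAlgClosure k κ₀] [Field κ] [Algebra κ₀ κ] [Algebra k κ]
    [IsScalarTower k κ₀ κ] [Algebra K κ] [IsAlgClosure K κ]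
    [Field R₀] [Field R] [Field M₀] [Field M] [Algebra κ₀ R₀]
    [Algebra R₀ M₀] [Algebra κ₀ M₀] [IsScalarTower κ₀ R₀ M₀] [Algebra κ R] [Algebra R M]
    [Algebra κ M] [IsScalarTower κ R M]
    (hfg : (⊤ : IntermediateField ℚ k).FG) (t : κ) (ht : Transcendental κ₀ t)
    (hal : Algebra.IsAlgebraic (IntermediateField.adjoin κ₀ {t}) κ)
    (hgen : ∀ S : Subfield κ, (∀ c : k, algebraMap k κ c ∈ S) → t ∈ S →
      ∀ c : K, algebraMap K κ c ∈ S)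
    (hkK : ∀ c : k, ∃ b : K, algebraMap K κ b = algebraMap k κ c)
    {x₀ : R₀} {x : R} {B₀ : Finset κ₀} {B : Finset κ} {Y₀ : M₀} {Y : M} {ι : M₀ →+* M}
    (h : Pair ℓ κ₀ κ R₀ R M₀ M x₀ x B₀ B Y₀ Y ι) {δ : κ} (hδ0 : δ ≠ 0)
    {s : (κ ≃ₐ[K] κ) →* RingAut M} (hs : Sec K κ R M x Y δ s)
    (hst : ∀ σ z₀, ∃ z₁, s σ (ι z₀) = ι z₁)
    (D : k[X]) (hD0 : D ≠ 0) (hδ : δ ^ ℓ = aeval t (D.map (algebraMap k κ₀)))
    {N : ℕ} (hN : 0 < N) (w : κ) (G : κ₀[X]) (hG : G.Monic) (hw : w ^ N = aeval t G)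
    (j : κ₀ →+* PadicAlgCl p) (hgood : Good (Aq j) B₀)
    (E : IntermediateField ℚ_[p] (PadicAlgCl p)) [FiniteDimensional ℚ_[p] E]
    (hkE : ∀ c : k, j (algebraMap k κ₀ c) ∈ E)
    (hDE : ∀ a, (D.map (algebraMap k κ₀)).IsRoot a → j a ∈ E) (hGE : ∀ a, G.IsRoot a → j a ∈ E)
    (b b' : PadicAlgCl p) (hbE : b ∈ E) (hbE' : b' ∈ E)
    (hDb : (D.map (algebraMap k κ₀)).eval₂ j b ≠ 0) (hDb' : (D.map (algebraMap k κ₀)).eval₂ j b' ≠ 0)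
    (hGb : G.eval₂ j b ≠ 0) (hGb' : G.eval₂ j b' ≠ 0)
    (h1 : ∃ e ∈ E, ‖(D.map (algebraMap k κ₀)).eval₂ j b‖ = ‖e‖ ^ ℓ)
    (h1' : ∃ e ∈ E, ‖(D.map (algebraMap k κ₀)).eval₂ j b'‖ = ‖e‖ ^ ℓ)
    (h2 : ¬ ∃ e ∈ E, ‖G.eval₂ j b / G.eval₂ j b'‖ = ‖e‖ ^ N) :
    ∃ g : κ ≃ₐ[K] κ, (∀ c, g (algebraMap κ₀ κ c) = algebraMap κ₀ κ c) ∧ g w ≠ w ∧
      ∀ z₀, s g (ι z₀) = ι z₀ := by
  classical
  haveI : IsAlgClosed κ₀ := IsAlgClosure.isAlgClosed k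
  set D' : κ₀[X] := D.map (algebraMap k κ₀) with hD'
  have hD'0 : D' ≠ 0 := (Polynomial.map_ne_zero_iff (algebraMap k κ₀).injective).2 hD0
  have hG0 : G ≠ 0 := hG.ne_zero
  obtain ⟨A₀, hA₀⟩ : ∃ A₀ : Finset κ₀, A₀ = (D' * G).roots.toFinset := ⟨_, rfl⟩
  have hA : ∀ a, a ∈ A₀ ↔ D'.IsRoot a ∨ G.IsRoot a := by
    intro a
    rw [hA₀, Multiset.mem_toFinset, mem_roots (mul_ne_zero hD'0 hG0), root_mul]
  have hAD : ∀ a, D'.IsRoot a → a ∈ A₀ := fun a ha => (hA a).2 (Or.inl ha)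
  have hAG : ∀ a, G.IsRoot a → a ∈ A₀ := fun a ha => (hA a).2 (Or.inr ha)
  have hroot : ∀ (P : κ₀[X]) (a : κ₀), P.IsRoot a → P.eval₂ j (j a) = 0 := by
    intro P a ha
    rw [eval₂_at_apply, ha.eq_zero, map_zero]
  have hne' : ∀ b : PadicAlgCl p, D'.eval₂ j b ≠ 0 → G.eval₂ j b ≠ 0 → ∀ a ∈ A₀, b ≠ j a := by
    rintro b h3 h4 a ha rfl
    rcases (hA a).1 ha with h5 | h5
    · exact h3 (hroot _ _ h5)
    · exact h4 (hroot _ _ h5)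
  have hlc : j D'.leadingCoeff ∈ E := by
    rw [hD', leadingCoeff_map]
    exact hkE _
  have hGlc : j G.leadingCoeff = 1 := by rw [hG.leadingCoeff, map_one]
  have hGe : ∀ b, G.eval₂ j b = ∏ a ∈ A₀, (b - j a) ^ G.rootMultiplicity a := by
    intro b
    rw [fac_eval G hG0 A₀ hAG, hGlc, one_mul]
  have hDe : ∀ b, D'.eval₂ j b = j D'.leadingCoeff * ∏ a ∈ A₀, (b - j a) ^ D'.rootMultiplicity a :=
    fun b => fac_eval D' hD'0 A₀ hAD j b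
  refine testE hne hfg t ht hal hgen hkK h hδ0 hs hst A₀ (fun a => D'.rootMultiplicity a)
    (fun a => G.rootMultiplicity a) D'.leadingCoeff (leadingCoeff_ne_zero.2 hD'0) ?_ hN w ?_ j
    hgood E hkE (fun a ha => ?_) hlc b b' hbE hbE' (hne' b hDb hGb) (hne' b' hDb' hGb') ?_ ?_ ?_
  · rw [hδ, aeval_def]
    exact fac_eval D' hD'0 A₀ hAD _ _
  · rw [hw, aeval_def, fac_eval G hG0 A₀ hAG, hG.leadingCoeff, map_one, one_mul]
  · rcases (hA a).1 ha with h5 | h5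
    · exact hDE a h5
    · exact hGE a h5
  · obtain ⟨e, he, h3⟩ := h1
    exact ⟨e, he, by rw [← hDe, h3]⟩
  · obtain ⟨e, he, h3⟩ := h1'
    exact ⟨e, he, by rw [← hDe, h3]⟩
  · rintro ⟨e, he, h3⟩
    exact h2 ⟨e, he, by rw [hGe, hGe, h3]⟩

end Pool.Agent.T6.H28.PE
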